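import Pool.Agent.Lib.CookLevin.Hard

/-!
# Deciding the list packing number: definitions
-/

namespace Pool.Agent.MP_c07eba

open Pool.Agent.PolyTime Pool.Agent.PathSys

/-! ### The problem -/

/-- `c` is an `L`-packing of size `k`: a family of `k` pairwise disjoint proper
`L`-colourings. -/
def IsPacking {V : Type*} (G : SimpleGraph V) (L : V → Finset ℕ) (k : ℕ)
    (c : Fin k → V → ℕ) : Prop :=
  (∀ i v, c i v ∈ L v) ∧ (∀ i u v, G.Adj u v → c i u ≠ c i v) ∧
    ∀ i j, i ≠ j → ∀ v, c i v ≠ c j v

/-- `G` has an `L`-packing of size `k` for every `k`-list-assignment `L`. -/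
def Packable {V : Type*} (G : SimpleGraph V) (k : ℕ) : Prop :=
  ∀ L : V → Finset ℕ, (∀ v, (L v).card = k) → ∃ c : Fin k → V → ℕ, IsPacking G L k c

/-- The list packing number of `G` is at most `k`: `G` has an `L`-packing of size `k'` for every
`k'`-list-assignment `L`, for some positive integer `k' ≤ k`. -/
def ListPackingAtMost {V : Type*} (G : SimpleGraph V) (k : ℕ) : Prop :=
  ∃ k', 0 < k' ∧ k' ≤ k ∧ Packable G k'

/-- `G` is `k`-choosable. -/
def Choosable {V : Type*} (G : SimpleGraph V) (k : ℕ) : Prop :=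
  ∀ L : V → Finset ℕ, (∀ v, (L v).card = k) →
    ∃ c : V → ℕ, (∀ v, c v ∈ L v) ∧ ∀ u v, G.Adj u v → c u ≠ c v

/-- A graph as an input: the number of vertices and the list of edges. -/
structure GraphInput where
  /-- the number of vertices -/
  n : ℕ
  /-- the list of edges -/
  edges : List (ℕ × ℕ)

/-- The graph of an input: its vertices are `0, …, n-1`, and `u`, `v` are adjacent iff they are
different and `(u, v)` or `(v, u)` is listed. -/
def GraphInput.graph (X : GraphInput) : SimpleGraph (Fin X.n) where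
  Adj u v := u ≠ v ∧ ((u.val, v.val) ∈ X.edges ∨ (v.val, u.val) ∈ X.edges)
  symm := ⟨fun _ _ h => ⟨h.1.symm, h.2.symm⟩⟩
  loopless := ⟨fun _ h => h.1 rfl⟩

/-- The problem `LP_k`. -/
def LP (k : ℕ) (X : GraphInput) : Prop := ListPackingAtMost X.graph k

/-- Inputs are represented by the pair of their components. -/
instance : Rep GraphInput := ⟨fun X => toT (X.n, X.edges)⟩

/-- Different inputs have different encodings. -/
instance : InjRep GraphInput := ⟨fun X Y h => by
  obtain ⟨a, b⟩ := X
  obtain ⟨a', b'⟩ := Y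
  have h' := InjRep.inj (α := ℕ × List (ℕ × ℕ)) h
  simp only [Prod.mk.injEq] at h'
  obtain ⟨rfl, rfl⟩ := h'
  rfl⟩

/-! ### The class `Π₂ᵖ` -/

/-- The second universal level of the polynomial hierarchy: `L x` iff for all `y` of length
`p(|x|)` there is a `z` of length `q(|x|)` such that `R (x, (y, z))`, where `R` is computable in
polynomial time. -/
def Pi2P : Set (List Bool → Bool) :=
  {L | ∃ (p q : Polynomial ℕ), ∃ R : List Bool × (List Bool × List Bool) → Bool,
    N68a2faeb.IsPolyTime R ∧
    ∀ x, L x = true ↔ ∀ y : List Bool, y.length = p.eval x.length →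
      ∃ z : List Bool, z.length = q.eval x.length ∧ R (x, (y, z)) = true}

/-- The class `Π₂ᵖ`, with words of lengths at most `p(|x|)` and at most `q(|x|)`: `L x` iff for
all `y` of length at most `p(|x|)` there is a `z` of length at most `q(|x|)` such that
`R (x, (y, z))`, where `R` is computable in polynomial time. -/
def Pi2Ple : Set (List Bool → Bool) :=
  {L | ∃ (p q : Polynomial ℕ), ∃ R : List Bool × (List Bool × List Bool) → Bool,
    N68a2faeb.IsPolyTime R ∧
    ∀ x, L x = true ↔ ∀ y : List Bool, y.length ≤ p.eval x.length →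
      ∃ z : List Bool, z.length ≤ q.eval x.length ∧ R (x, (y, z)) = true}

/-! ### Intermediate problems (interface between the modules) -/

/-- `∀∃-3SAT`: for every assignment of the variables in the list there is an assignment of the
other variables which satisfies the formula. -/
def QSat2 (Q : List ℕ × CNF3) : Prop :=
  ∀ u : ℕ → Bool, ∃ v : ℕ → Bool, (∀ i ∈ Q.1, v i = u i) ∧
    ∀ c ∈ Q.2, litVal v c.1 ∨ litVal v c.2.1 ∨ litVal v c.2.2

/-- A hypergraph `(N, (B, E))`: nodes `< N`, and a list `E` of hyperedges `(e, l)`, where `e < B`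
is the label of the hyperedge and `l` the list of its nodes. -/
abbrev Hyp : Type := ℕ × (ℕ × List (ℕ × List ℕ))

/-- Admissible hypergraphs: labels are distinct, hyperedges have two or three nodes, and every
node has at most three incidences `(e, r)` (node `r` of hyperedge `e`). -/
structure HypOk (H : Hyp) : Prop where
  node_lt : ∀ e ∈ H.2.2, ∀ x ∈ e.2, x < H.1
  lab_lt : ∀ e ∈ H.2.2, e.1 < H.2.1
  lab_inj : ∀ e ∈ H.2.2, ∀ e' ∈ H.2.2, e.1 = e'.1 → e = e'
  len : ∀ e ∈ H.2.2, e.2.length = 2 ∨ e.2.length = 3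
  deg : ∀ x, ∃ l : List (ℕ × ℕ), l.length ≤ 3 ∧
    ∀ e ∈ H.2.2, ∀ r, e.2[r]? = some x → (e.1, r) ∈ l

/-- Every signing is satisfiable: for all signs `s e r` of the incidences there is an assignment
such that every hyperedge has a node whose value differs from its sign. -/
def SignSat (H : Hyp) : Prop :=
  ∀ s : ℕ → ℕ → Bool, ∃ v : ℕ → Bool, ∀ e ∈ H.2.2, ∃ r x, e.2[r]? = some x ∧ v x ≠ s e.1 r

/-! Targets of the modules.

* PI2: `theorem pi2_cookLevin {L : List Bool → Bool} (hL : L ∈ Pi2P) :
    ∃ f : List Bool → List ℕ × CNF3, PT f ∧ ∀ x, L x = true ↔ QSat2 (f x)`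
* SIGN: `def toHyp : List ℕ × CNF3 → Hyp`, `theorem PT_toHyp : PT toHyp`,
    `theorem toHyp_ok (Q) : HypOk (toHyp Q)`,
    `theorem signSat_toHyp (Q) : SignSat (toHyp Q) ↔ QSat2 Q`
* GRAPH: `def toGraph (k : ℕ) : Hyp → GraphInput`, `PT (toGraph k)`,
    `HypOk H → SignSat H → 23 ≤ k → Packable (toGraph k H).graph k`,
    `HypOk H → ¬ SignSat H → ¬ Choosable (toGraph k H).graph k`
-/

end Pool.Agent.MP_c07eba
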