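import Mathlib
import Pool.Agent.Lib.MP_c07eba_lc.Defs
import Pool.Agent.Lib.CookLevin.TableauPT

section
/-!
# Links: gadgets with two terminals, diamonds, chains of diamonds and stars of chains

Interface between the modules of the proof for `k ≥ 4`.  A *state* of a vertex with list `A`,
`A.card = k`, is the family of its colours in the `k` colourings of a packing: an injection
`Fin k → ℕ` with values in `A`.
-/
namespace Pool.Agent.MP_c07eba.KL

open Finset Function

variable {k : ℕ}

/-- A state of a vertex with the list `A`. -/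
structure IsState (A : Finset ℕ) (s : Fin k → ℕ) : Prop where
  inj : Injective s
  mem : ∀ i, s i ∈ A

/-! ### Gadgets -/

/-- A gadget: a graph with the two terminals `inl false` (this is `u`) and `inl true` (this is
`v`), which are not adjacent, and the hidden vertices `inr h`. `adj` need not be symmetric. -/
structure Gadget where
  /-- the hidden vertices -/
  H : Type
  /-- there are finitely many hidden vertices -/
  [fin : Fintype H]
  /-- the hidden vertices can be compared -/
  [dec : DecidableEq H]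
  /-- the edges -/
  adj : Bool ⊕ H → Bool ⊕ H → Prop
  /-- no loops -/
  irrefl : ∀ x, ¬ adj x x
  /-- the terminals are not adjacent -/
  term : ∀ a b, ¬ adj (.inl a) (.inl b)

attribute [instance] Gadget.fin Gadget.dec

/-- The states of all vertices of a gadget: `s` for `u`, `t` for `v` and `p` for the hidden
vertices. -/
def ext {H : Type} (s t : Fin k → ℕ) (p : H → Fin k → ℕ) : Bool ⊕ H → Fin k → ℕ
  | .inl false => s
  | .inl true => t
  | .inr h => p h

/-- The states `s` of `u` and `t` of `v` extend to the hidden vertices, which have the lists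
`L`. -/
def Gadget.Ext (B : Gadget) (L : B.H → Finset ℕ) (s t : Fin k → ℕ) : Prop :=
  ∃ p : B.H → Fin k → ℕ, (∀ h, IsState (L h) (p h)) ∧
    ∀ x y, B.adj x y → ∀ i, ext s t p x i ≠ ext s t p y i

/-- The state of a vertex with list `{0, …, k-1}` given by a permutation. -/
def pst (σ : Equiv.Perm (Fin k)) : Fin k → ℕ := fun i => (σ i : ℕ)

/-- **Interface to the reduction.** A base link for `k`. -/
structure IsLink (k : ℕ) (B : Gadget) (K : Subgroup (Equiv.Perm (Fin k)))
    (τ : Equiv.Perm (Fin k)) : Prop where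
  /-- there are at least three cosets -/
  three : 3 * Nat.card K ≤ Nat.card (Equiv.Perm (Fin k))
  /-- `τ` normalizes `K` -/
  norm : ∀ κ, κ ∈ K ↔ τ * κ * τ⁻¹ ∈ K
  /-- `τ` is not in `K` -/
  not_mem : τ ∉ K
  /-- for all lists and every state of `v` at most `|K|` states of `u` are killed -/
  row : ∀ (A A' : Finset ℕ) (L : B.H → Finset ℕ), A.card = k → A'.card = k →
    (∀ h, (L h).card = k) → ∀ t : Fin k → ℕ, IsState A' t →
    {s : Fin k → ℕ | IsState A s ∧ ¬ B.Ext L s t}.ncard ≤ Nat.card K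
  /-- for all lists and every state of `u` at most `|K|` states of `v` are killed -/
  col : ∀ (A A' : Finset ℕ) (L : B.H → Finset ℕ), A.card = k → A'.card = k →
    (∀ h, (L h).card = k) → ∀ s : Fin k → ℕ, IsState A s →
    {t : Fin k → ℕ | IsState A' t ∧ ¬ B.Ext L s t}.ncard ≤ Nat.card K
  /-- if `u` and `v` have the list `{0, …, k-1}`, then for every `g` the hidden vertices have
  lists for which all pairs with `s t⁻¹ ∈ g K` are killed -/
  kill : ∀ g : Equiv.Perm (Fin k), ∃ L : B.H → Finset ℕ, (∀ h, (L h).card = k) ∧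
    ∀ s t : Equiv.Perm (Fin k), g⁻¹ * (s * t⁻¹) ∈ K → ¬ B.Ext L (pst s) (pst t)

/-! ### Diamonds and chains of diamonds -/

/-- The states `s` and `t` of the two ends of a diamond `K_{k+1} - e` extend to the other `k - 1`
vertices, which have the lists `Q j`. -/
def Dia (Q : Fin (k - 1) → Finset ℕ) (s t : Fin k → ℕ) : Prop :=
  ∃ q : Fin (k - 1) → Fin k → ℕ, (∀ j, IsState (Q j) (q j)) ∧
    (∀ j j', j ≠ j' → ∀ i, q j i ≠ q j' i) ∧ ∀ j i, q j i ≠ s i ∧ q j i ≠ t i

/-- `c 0, …, c l` are possible states of the ends of the diamonds of a chain of `l` diamonds. The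
inner vertices of the diamond between `c m` and `c (m + 1)` have the lists `Q m j`, and the end
with the state `c (m + 1)` has the list `B m`. -/
structure IsChn (l : ℕ) (Q : ℕ → Fin (k - 1) → Finset ℕ) (B : ℕ → Finset ℕ)
    (c : ℕ → Fin k → ℕ) : Prop where
  st : ∀ m < l, IsState (B m) (c (m + 1))
  dia : ∀ m < l, Dia (Q m) (c m) (c (m + 1))

/-- All lists of a chain of `l` diamonds have `k` colours. -/
def ListsOk (k l : ℕ) (Q : ℕ → Fin (k - 1) → Finset ℕ) (B : ℕ → Finset ℕ) : Prop :=
  ∀ m < l, (∀ j, (Q m j).card = k) ∧ (B m).card = k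

/-- The states `s` of the first and `t` of the last vertex of a chain extend to the chain. -/
def Chn (l : ℕ) (Q : ℕ → Fin (k - 1) → Finset ℕ) (B : ℕ → Finset ℕ) (s t : Fin k → ℕ) : Prop :=
  ∃ c, IsChn l Q B c ∧ c 0 = s ∧ c l = t

/-! ### Stars of chains -/

/-- The hidden vertices of a star of `J` chains of lengths at most `M`: the centre `none`, and for
the chain `j` and `m < M` the inner vertices (`some q`) and the end (`none`) of the `m`-th
diamond. -/
abbrev StarH (k J M : ℕ) : Type := Option (Fin J × Fin M × Option (Fin (k - 1)))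

variable {J M : ℕ}

/-- The vertex in front of the `m`-th diamond of a chain `j` which starts at the terminal `b`. -/
def prevV (k : ℕ) (b : Bool) (j : Fin J) (m : Fin (M + 1)) : Bool ⊕ StarH k J M :=
  Fin.cases (.inl b) (fun m' => .inr (some (j, m', none))) m

/-- The edges of a star of chains: the centre is adjacent to the last vertices of all chains. The
chain `j` starts at the terminal `(ar j).1` and consists of `(ar j).2` diamonds. -/
def StarAdj (k : ℕ) (ar : Fin J → Bool × Fin (M + 1)) :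
    Bool ⊕ StarH k J M → Bool ⊕ StarH k J M → Prop
  | .inr none, w => ∃ j, w = prevV k (ar j).1 j (ar j).2
  | .inr (some (j, m, some q)), w => m.castSucc < (ar j).2 ∧
      (w = prevV k (ar j).1 j m.castSucc ∨ w = .inr (some (j, m, none)) ∨
        ∃ q', q' ≠ q ∧ w = .inr (some (j, m, some q')))
  | _, _ => False

theorem prevV_ne_centre (b : Bool) (j : Fin J) (m : Fin (M + 1)) :
    prevV k b j m ≠ .inr none := by
  refine Fin.cases ?_ (fun m' => ?_) m <;> simp [prevV]

theorem prevV_ne_inner (b : Bool) (j j' : Fin J) (m : Fin (M + 1)) (m' : Fin M)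
    (q : Fin (k - 1)) : prevV k b j m ≠ .inr (some (j', m', some q)) := by
  refine Fin.cases ?_ (fun m' => ?_) m <;> simp [prevV]

/-- The star of chains as a gadget. -/
def star (k : ℕ) (ar : Fin J → Bool × Fin (M + 1)) : Gadget where
  H := StarH k J M
  adj := StarAdj k ar
  irrefl := by
    rintro (b | _ | ⟨j, m, _ | q⟩) h
    · exact h
    · obtain ⟨j, h⟩ := h
      exact prevV_ne_centre _ _ _ h.symm
    · exact h
    · rcases h.2 with h | h | ⟨q', h1, h2⟩
      · exact prevV_ne_inner _ _ _ _ _ _ h.symm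
      · simp at h
      · simp only [Sum.inr.injEq, Option.some.injEq, Prod.mk.injEq, true_and] at h2
        exact h1 h2.symm
  term := fun _ _ h => h

/-- The lists of the inner vertices of the chains. -/
def qL (L : StarH k J M → Finset ℕ) (j : Fin J) (m : ℕ) (q : Fin (k - 1)) : Finset ℕ :=
  if h : m < M then L (some (j, ⟨m, h⟩, some q)) else range k

/-- The lists of the ends of the diamonds of the chains. -/
def bL (L : StarH k J M → Finset ℕ) (j : Fin J) (m : ℕ) : Finset ℕ :=
  if h : m < M then L (some (j, ⟨m, h⟩, none)) else range k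

/-- The states `s` and `t` of the terminals extend to the star, in terms of chains. -/
def StarOk (ar : Fin J → Bool × Fin (M + 1)) (Y : Finset ℕ)
    (Q : Fin J → ℕ → Fin (k - 1) → Finset ℕ) (B : Fin J → ℕ → Finset ℕ) (s t : Fin k → ℕ) :
    Prop :=
  ∃ (p : Fin J → Fin k → ℕ) (y : Fin k → ℕ), IsState Y y ∧
    ∀ j, Chn (ar j).2 (Q j) (B j) (if (ar j).1 then t else s) (p j) ∧ ∀ i, y i ≠ p j i

theorem exists_isState {A : Finset ℕ} (hA : A.card = k) : ∃ s : Fin k → ℕ, IsState A s :=
  ⟨fun i => (A.equivFinOfCardEq hA).symm i, fun _ _ h =>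
    (A.equivFinOfCardEq hA).symm.injective (Subtype.ext h), fun _ => Subtype.coe_prop _⟩

end Pool.Agent.MP_c07eba.KL
end

section
/-!
# The reduction from a base link: combinatorics

States of a vertex as a finset, bounded relations, cycles of five hubs, and nodes.
-/
namespace Pool.Agent.MP_c07eba.AR

open Pool.Agent.MP_c07eba.KL Finset Function

/-! ### The finset of the states of a vertex -/

/-- The states of a vertex with the list `A`. -/
noncomputable def St (k : ℕ) (A : Finset ℕ) : Finset (Fin k → ℕ) :=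
  open Classical in (Fintype.piFinset fun _ => A).filter fun s => Injective s

variable {k : ℕ}

theorem mem_St {A : Finset ℕ} {s : Fin k → ℕ} : s ∈ St k A ↔ IsState A s := by
  classical
  simp only [St, Finset.mem_filter, Fintype.mem_piFinset]
  exact ⟨fun h => ⟨h.2, h.1⟩, fun h => ⟨h.mem, h.inj⟩⟩

theorem card_St {A : Finset ℕ} (hA : A.card = k) :
    (St k A).card = Nat.card (Equiv.Perm (Fin k)) := by
  classical
  have e : A ≃ Fin k := A.equivFinOfCardEq hA
  have h1 : (St k A).card = Fintype.card (Fin k ↪ A) := by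
    rw [← Finset.card_univ]
    symm
    refine Finset.card_bij (fun f _ => fun i => (f i : ℕ)) ?_ ?_ ?_
    · intro f _
      exact mem_St.2 ⟨fun i j h => f.injective (Subtype.ext h), fun i => (f i).2⟩
    · intro f _ g _ h
      ext i
      exact congrFun h i
    · intro s hs
      have hs' := mem_St.1 hs
      exact ⟨⟨fun i => ⟨s i, hs'.mem i⟩, fun i j h => hs'.inj (congrArg Subtype.val h)⟩,
        Finset.mem_univ _, rfl⟩
  rw [h1, Fintype.card_embedding_eq, Nat.card_eq_fintype_card, Fintype.card_perm,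
    Fintype.card_coe, hA, Fintype.card_fin, Nat.descFactorial_self]

/-! ### Bounded relations -/

/-- Every element of `V` is related to at most `w` elements of `U` and conversely. -/
structure Kb {S : Type*} (w : ℕ) (U V : Finset S) (K : S → S → Prop) : Prop where
  row : ∀ t ∈ V, ∀ R ⊆ U, (∀ s ∈ R, K s t) → R.card ≤ w
  col : ∀ s ∈ U, ∀ R ⊆ V, (∀ t ∈ R, K s t) → R.card ≤ w

section
variable {S : Type*} {w : ℕ} {U V : Finset S} {K : S → S → Prop}

theorem Kb.exists_row (h : Kb w U V K) {t : S} (ht : t ∈ V) {R : Finset S} (hR : R ⊆ U)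
    (hc : w < R.card) : ∃ s ∈ R, ¬ K s t := by
  by_contra hn
  push Not at hn
  exact absurd (h.row t ht R hR hn) (by omega)

theorem Kb.exists_col (h : Kb w U V K) {s : S} (hs : s ∈ U) {R : Finset S} (hR : R ⊆ V)
    (hc : w < R.card) : ∃ t ∈ R, ¬ K s t := by
  by_contra hn
  push Not at hn
  exact absurd (h.col s hs R hR hn) (by omega)

end

/-! ### Cycles of five hubs -/

section cycle
variable {S : Type*} {w : ℕ}

/-- The cycle with the sets `L i` of states is dead. -/
def Dead (K : Fin 5 → S → S → Prop) (L : Fin 5 → Finset S) : Prop :=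
  ∀ p : Fin 5 → S, (∀ i, p i ∈ L i) → ∃ i, K i (p (i + 1)) (p i)

theorem Dead.rot {K : Fin 5 → S → S → Prop} {L : Fin 5 → Finset S} (h : Dead K L) (a : Fin 5) :
    Dead (fun i => K (i + a)) (fun i => L (i + a)) := by
  intro p hp
  obtain ⟨i, hi⟩ := h (fun i => p (i - a)) (fun i => by
    have := hp (i - a)
    simpa using this)
  refine ⟨i - a, ?_⟩
  have e : i - a + 1 = i + 1 - a := by abel
  simpa [e] using hi

/-- Data of a cycle of five hubs. -/
structure Cyc (w : ℕ) (K : Fin 5 → S → S → Prop) (V L : Fin 5 → Finset S) : Prop where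
  dead : Dead K L
  kb : ∀ i, Kb w (V (i + 1)) (V i) (K i)
  sub : ∀ i, L i ⊆ V i
  le : ∀ i, 2 * w ≤ (L i).card

variable {K : Fin 5 → S → S → Prop} {V L : Fin 5 → Finset S}

theorem Cyc.rot (h : Cyc w K V L) (a : Fin 5) :
    Cyc w (fun i => K (i + a)) (fun i => V (i + a)) (fun i => L (i + a)) := by
  refine ⟨h.dead.rot a, fun i => ?_, fun i => h.sub _, fun i => h.le _⟩
  have e : i + 1 + a = i + a + 1 := by abel
  simpa [e] using h.kb (i + a)

/-- At most `w` states of the next hub are compatible. -/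
theorem Cyc.alive0 (h : Cyc w K V L) (hw : 0 < w) {t : S} (ht : t ∈ L 0) {R : Finset S}
    (hR : R ⊆ L 1) (hRt : ∀ s ∈ R, ¬ K 0 s t) : R.card ≤ w := by
  by_contra hc
  have hl := fun i => h.le i
  obtain ⟨p4, h4, k4⟩ := (h.kb 4).exists_col (s := t) (h.sub 0 ht) (h.sub 4)
    (by have := hl 4; omega)
  obtain ⟨p3, h3, k3⟩ := (h.kb 3).exists_col (s := p4) (h.sub 4 h4) (h.sub 3)
    (by have := hl 3; omega)
  obtain ⟨p2, h2, k2⟩ := (h.kb 2).exists_col (s := p3) (h.sub 3 h3) (h.sub 2)
    (by have := hl 2; omega)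
  obtain ⟨p1, h1, k1⟩ := (h.kb 1).exists_col (s := p2) (h.sub 2 h2)
    (R := R) (hR.trans (h.sub 1)) (by omega)
  obtain ⟨i, hi⟩ := h.dead ![t, p1, p2, p3, p4] (fun i => by
    fin_cases i
    · exact ht
    · exact hR h1
    · exact h2
    · exact h3
    · exact h4)
  fin_cases i
  · exact hRt p1 h1 hi
  · exact k1 hi
  · exact k2 hi
  · exact k3 hi
  · exact k4 hi

/-- Every state of the next hub is killed by a state. -/
theorem Cyc.killed0 (h : Cyc w K V L) (hw : 0 < w) {s : S} (hs : s ∈ L 1) :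
    ∃ t ∈ L 0, K 0 s t := by
  by_contra hc
  push Not at hc
  have hl := fun i => h.le i
  obtain ⟨p2, h2, k2⟩ := (h.kb 1).exists_row (t := s) (h.sub 1 hs) (h.sub 2)
    (by have := hl 2; omega)
  obtain ⟨p3, h3, k3⟩ := (h.kb 2).exists_row (t := p2) (h.sub 2 h2) (h.sub 3)
    (by have := hl 3; omega)
  obtain ⟨p4, h4, k4⟩ := (h.kb 3).exists_row (t := p3) (h.sub 3 h3) (h.sub 4)
    (by have := hl 4; omega)
  obtain ⟨p0, h0, k0⟩ := (h.kb 4).exists_row (t := p4) (h.sub 4 h4) (h.sub 0)
    (by have := hl 0; omega)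
  obtain ⟨i, hi⟩ := h.dead ![p0, s, p2, p3, p4] (fun i => by
    fin_cases i
    · exact h0
    · exact hs
    · exact h2
    · exact h3
    · exact h4)
  fin_cases i
  · exact hc p0 h0 hi
  · exact k2 hi
  · exact k3 hi
  · exact k4 hi
  · exact k0 hi

/-- The states of the next hub are determined. -/
theorem Cyc.next0 (h : Cyc w K V L) (hw : 0 < w) (s : S) :
    s ∈ L 1 ↔ s ∈ V 1 ∧ ∃ t ∈ L 0, K 0 s t := by
  classical
  constructor
  · intro hs
    exact ⟨h.sub 1 hs, h.killed0 hw hs⟩
  · rintro ⟨hs, t, ht, hk⟩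
    have h1 : ((L 1).filter fun s => ¬ K 0 s t).card ≤ w :=
      h.alive0 hw ht (Finset.filter_subset _ _) (fun s hs => (Finset.mem_filter.1 hs).2)
    have h2 := Finset.card_filter_add_card_filter_not (s := L 1) (fun s => K 0 s t)
    have h3 := h.le 1
    by_contra hn
    have h4 := (h.kb 0).row t (h.sub 0 ht) (insert s ((L 1).filter fun s => K 0 s t)) (by
      intro x hx
      rcases Finset.mem_insert.1 hx with rfl | hx
      · exact hs
      · exact h.sub 1 (Finset.mem_filter.1 hx).1) (by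
      intro x hx
      rcases Finset.mem_insert.1 hx with rfl | hx
      · exact hk
      · exact (Finset.mem_filter.1 hx).2)
    rw [Finset.card_insert_of_notMem (fun hx => hn (Finset.mem_filter.1 hx).1)] at h4
    omega

theorem Cyc.card1 (h : Cyc w K V L) (hw : 0 < w) : (L 1).card ≤ 2 * w := by
  classical
  obtain ⟨t, ht⟩ : (L 0).Nonempty := Finset.card_pos.1 (by have := h.le 0; omega)
  have h1 : ((L 1).filter fun s => ¬ K 0 s t).card ≤ w :=
    h.alive0 hw ht (Finset.filter_subset _ _) (fun s hs => (Finset.mem_filter.1 hs).2)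
  have h2 := Finset.card_filter_add_card_filter_not (s := L 1) (fun s => K 0 s t)
  have h3 := (h.kb 0).row t (h.sub 0 ht) ((L 1).filter fun s => K 0 s t)
    ((Finset.filter_subset _ _).trans (h.sub 1)) (fun s hs => (Finset.mem_filter.1 hs).2)
  omega

theorem Cyc.next (h : Cyc w K V L) (hw : 0 < w) (i : Fin 5) (s : S) :
    s ∈ L (i + 1) ↔ s ∈ V (i + 1) ∧ ∃ t ∈ L i, K i s t := by
  have := (h.rot i).next0 hw s
  simpa [add_comm] using this

theorem Cyc.card (h : Cyc w K V L) (hw : 0 < w) (i : Fin 5) : (L i).card ≤ 2 * w := by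
  have := (h.rot (i - 1)).card1 hw
  simpa using this

/-- Two dead cycles with the same relations which agree in one hub agree. -/
theorem Cyc.unique {L' : Fin 5 → Finset S} (h : Cyc w K V L) (h' : Cyc w K V L') (hw : 0 < w)
    (h4 : L 4 = L' 4) (i : Fin 5) : L i = L' i := by
  have step : ∀ i, L i = L' i → L (i + 1) = L' (i + 1) := by
    intro i hi
    ext s
    rw [h.next hw, h'.next hw, hi]
  have h0 := step 4 h4
  have h1 := step 0 h0
  have h2 := step 1 h1
  have h3 := step 2 h2
  fin_cases i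
  · exact h0
  · exact h1
  · exact h2
  · exact h3
  · exact h4

/-- **The cycle lemma.** -/
theorem cyc_main (hw : 0 < w) (K KE : Fin 5 → S → S → Prop) (V Al VE : Fin 5 → Finset S)
    (hK : ∀ i, Kb w (V (i + 1)) (V i) (K i)) (hE : ∀ i, Kb w (VE i) (V i) (KE i))
    (hsub : ∀ i, Al i ⊆ V i) (hcard : ∀ i, 3 * w ≤ (Al i).card) (x4 : S) :
    ∃ E : Fin 5 → Finset S, (∀ i, (E i).card ≤ w) ∧ ∀ x : Fin 5 → S, (∀ i, x i ∈ VE i) →
      x 4 = x4 → (∃ i, x i ∉ E i) →
      ∃ p : Fin 5 → S, ∀ i, p i ∈ Al i ∧ ¬ KE i (x i) (p i) ∧ ¬ K i (p (i + 1)) (p i) := by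
  classical
  set OK : (Fin 5 → S) → Prop := fun x =>
    ∃ p : Fin 5 → S, ∀ i, p i ∈ Al i ∧ ¬ KE i (x i) (p i) ∧ ¬ K i (p (i + 1)) (p i) with hOK
  -- a dead tuple gives a dead cycle
  have key : ∀ x : Fin 5 → S, (∀ i, x i ∈ VE i) → ¬ OK x →
      Cyc w K V (fun i => (Al i).filter fun t => ¬ KE i (x i) t) := by
    intro x hx hn
    refine ⟨?_, hK, fun i => (Finset.filter_subset _ _).trans (hsub i), fun i => ?_⟩
    · intro p hp
      by_contra hc
      push Not at hc
      exact hn ⟨p, fun i => ⟨(Finset.mem_filter.1 (hp i)).1, (Finset.mem_filter.1 (hp i)).2,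
        hc i⟩⟩
    · have h2 := Finset.card_filter_add_card_filter_not (s := Al i) (fun t => KE i (x i) t)
      have h3 := (hE i).col (x i) (hx i) ((Al i).filter fun t => KE i (x i) t)
        ((Finset.filter_subset _ _).trans (hsub i)) (fun s hs => (Finset.mem_filter.1 hs).2)
      have h4 := hcard i
      show 2 * w ≤ ((Al i).filter fun t => ¬ KE i (x i) t).card
      omega
  by_cases hex : ∃ x : Fin 5 → S, (∀ i, x i ∈ VE i) ∧ x 4 = x4 ∧ ¬ OK x
  · obtain ⟨x0, hx0, hx4, hn0⟩ := hex
    have c0 := key x0 hx0 hn0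
    have hd : ∀ i, ∃ d ∈ Al i, KE i (x0 i) d := by
      intro i
      by_contra hc
      push Not at hc
      have h1 := c0.card hw i
      have h2 : ((Al i).filter fun t => ¬ KE i (x0 i) t) = Al i :=
        Finset.filter_true_of_mem hc
      have h3 := hcard i
      simp only [h2] at h1
      omega
    choose d hd hdK using hd
    refine ⟨fun i => (VE i).filter fun s => KE i s (d i), fun i => ?_, fun x hx hx4' hi => ?_⟩
    · exact (hE i).row (d i) (hsub i (hd i)) _ (Finset.filter_subset _ _)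
        (fun s hs => (Finset.mem_filter.1 hs).2)
    · by_contra hn
      obtain ⟨i, hi⟩ := hi
      have c1 := key x hx hn
      have hu := c0.unique c1 hw (by
        show ((Al 4).filter fun t => ¬ KE 4 (x0 4) t) = ((Al 4).filter fun t => ¬ KE 4 (x 4) t)
        rw [hx4, hx4']) i
      apply hi
      rw [Finset.mem_filter]
      refine ⟨hx i, ?_⟩
      by_contra hc
      have h1 : d i ∈ (Al i).filter fun t => ¬ KE i (x i) t :=
        Finset.mem_filter.2 ⟨hd i, hc⟩
      have h2 : d i ∈ (Al i).filter fun t => ¬ KE i (x0 i) t := by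
        have hu' : ((Al i).filter fun t => ¬ KE i (x0 i) t) =
          ((Al i).filter fun t => ¬ KE i (x i) t) := hu
        rw [hu']
        exact h1
      exact (Finset.mem_filter.1 h2).2 (hdK i)
  · refine ⟨fun _ => ∅, fun i => by simp, fun x hx hx4 _ => ?_⟩
    by_contra hn
    exact hex ⟨x, hx, hx4, hn⟩

end cycle

/-! ### Nodes -/

section node
variable {S ι : Type*} {w : ℕ}

theorem exists_notMem {Al R : Finset S} (h : R.card < Al.card) : ∃ t ∈ Al, t ∉ R := by
  by_contra hc
  push Not at hc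
  exact absurd (Finset.card_le_card hc) (by omega)

theorem node3 (hw : 0 < w) {Al : Finset S} (hAl : 2 * w ≤ Al.card) {F1 F2 F3 : Finset S}
    (h1 : F1.card ≤ w) (h2 : F2.card ≤ w) (h3 : F3.card ≤ w) :
    ∃ t ∈ Al, ∃ t' ∈ Al, ¬ (t ∈ F1 ∧ t' ∈ F1) ∧ ¬ (t ∈ F2 ∧ t' ∈ F2) ∧
      ¬ (t ∈ F3 ∧ t' ∈ F3) := by
  classical
  obtain ⟨t, ht, ht1⟩ := exists_notMem (Al := Al) (R := F1) (by omega)
  by_cases c2 : t ∈ F2
  · by_cases c3 : t ∈ F3
    · have hu := Finset.card_union_add_card_inter F2 F3
      have hp : 0 < (F2 ∩ F3).card := Finset.card_pos.2 ⟨t, Finset.mem_inter.2 ⟨c2, c3⟩⟩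
      obtain ⟨t', ht', hn⟩ := exists_notMem (Al := Al) (R := F2 ∪ F3) (by omega)
      rw [Finset.mem_union, not_or] at hn
      exact ⟨t, ht, t', ht', fun h => ht1 h.1, fun h => hn.1 h.2, fun h => hn.2 h.2⟩
    · obtain ⟨t', ht', hn⟩ := exists_notMem (Al := Al) (R := F2) (by omega)
      exact ⟨t, ht, t', ht', fun h => ht1 h.1, fun h => hn h.2, fun h => c3 h.1⟩
  · obtain ⟨t', ht', hn⟩ := exists_notMem (Al := Al) (R := F3) (by omega)
    exact ⟨t, ht, t', ht', fun h => ht1 h.1, fun h => c2 h.1, fun h => hn h.2⟩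

/-- A node with at most three incidences has two states such that no incidence is bad for
both. -/
theorem node (hw : 0 < w) {Al : Finset S} (hAl : 2 * w ≤ Al.card) (F : ι → Finset S)
    (hF : ∀ q, (F q).card ≤ w) {l : List ι} (hl : l.length ≤ 3) :
    ∃ t ∈ Al, ∃ t' ∈ Al, ∀ q ∈ l, ¬ (t ∈ F q ∧ t' ∈ F q) := by
  match l, hl with
  | [], _ =>
    obtain ⟨t, ht⟩ : Al.Nonempty := Finset.card_pos.1 (by omega)
    exact ⟨t, ht, t, ht, fun q hq => absurd hq (by simp)⟩
  | [a], _ =>
    obtain ⟨t, ht, t', ht', h1, _, _⟩ := node3 hw hAl (hF a) (hF a) (hF a)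
    refine ⟨t, ht, t', ht', fun q hq => ?_⟩
    rw [List.mem_singleton] at hq
    rw [hq]
    exact h1
  | [a, b], _ =>
    obtain ⟨t, ht, t', ht', h1, h2, _⟩ := node3 hw hAl (hF a) (hF b) (hF b)
    refine ⟨t, ht, t', ht', fun q hq => ?_⟩
    simp only [List.mem_cons, List.not_mem_nil, or_false] at hq
    rcases hq with rfl | rfl
    · exact h1
    · exact h2
  | [a, b, c], _ =>
    obtain ⟨t, ht, t', ht', h1, h2, h3⟩ := node3 hw hAl (hF a) (hF b) (hF c)
    refine ⟨t, ht, t', ht', fun q hq => ?_⟩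
    simp only [List.mem_cons, List.not_mem_nil, or_false] at hq
    rcases hq with rfl | rfl | rfl
    · exact h1
    · exact h2
    · exact h3
  | _ :: _ :: _ :: _ :: _, h => exact absurd h (by simp only [List.length_cons]; omega)

end node

/-! ### Links -/

section link
variable {B : Gadget} {K : Subgroup (Equiv.Perm (Fin k))} {τ : Equiv.Perm (Fin k)}

theorem kb_link (hB : IsLink k B K τ) {A A' : Finset ℕ} (hA : A.card = k) (hA' : A'.card = k)
    {L : B.H → Finset ℕ} (hL : ∀ h, (L h).card = k) :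
    Kb (Nat.card K) (St k A) (St k A') (fun s t => ¬ B.Ext L s t) := by
  refine ⟨fun t ht R hR hRt => ?_, fun s hs R hR hRs => ?_⟩
  · have h := hB.row A A' L hA hA' hL t (mem_St.1 ht)
    refine le_trans ?_ h
    rw [← Set.ncard_coe_finset]
    refine Set.ncard_le_ncard (fun s hs => ⟨mem_St.1 (hR hs), hRt s hs⟩) ?_
    exact (St k A).finite_toSet.subset fun s hs => mem_St.2 hs.1
  · have h := hB.col A A' L hA hA' hL s (mem_St.1 hs)
    refine le_trans ?_ h
    rw [← Set.ncard_coe_finset]
    refine Set.ncard_le_ncard (fun s hs => ⟨mem_St.1 (hR hs), hRs s hs⟩) ?_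
    exact (St k A').finite_toSet.subset fun s hs => mem_St.2 hs.1

/-- The elements of a finset with a property. -/
noncomputable def al {S : Type*} (V : Finset S) (P : S → Prop) : Finset S :=
  open Classical in V.filter P

theorem mem_al {S : Type*} {V : Finset S} {P : S → Prop} {t : S} :
    t ∈ al V P ↔ t ∈ V ∧ P t := by
  classical
  unfold al
  rw [Finset.mem_filter]

/-- Few states are killed by links to a vertex with a given state. -/
theorem card_alive {S : Type*} {w m : ℕ} {U V : Finset S}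
    {Q : ℕ → S → S → Prop} (hQ : ∀ c, Kb w U V (Q c)) {r : S} (hr : r ∈ U) (I : Finset ℕ)
    (hI : I.card ≤ m) :
    V.card ≤ (al V fun t => ∀ c ∈ I, ¬ Q c r t).card + m * w := by
  classical
  have h1 : V ⊆ (al V fun t => ∀ c ∈ I, ¬ Q c r t) ∪
      I.biUnion fun c => V.filter fun t => Q c r t := by
    intro t ht
    by_cases h : ∀ c ∈ I, ¬ Q c r t
    · exact Finset.mem_union_left _ (mem_al.2 ⟨ht, h⟩)
    · push Not at h
      obtain ⟨c, hc, hk⟩ := h
      exact Finset.mem_union_right _ (Finset.mem_biUnion.2 ⟨c, hc, Finset.mem_filter.2 ⟨ht, hk⟩⟩)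
  have h2 : (I.biUnion fun c => V.filter fun t => Q c r t).card ≤ I.card * w :=
    Finset.card_biUnion_le_card_mul _ _ _ fun c _ =>
      (hQ c).col r hr _ (Finset.filter_subset _ _) (fun t ht => (Finset.mem_filter.1 ht).2)
  have h3 := Finset.card_le_card h1
  have h4 := Finset.card_union_le (al V fun t => ∀ c ∈ I, ¬ Q c r t)
    (I.biUnion fun c => V.filter fun t => Q c r t)
  have h5 : I.card * w ≤ m * w := Nat.mul_le_mul_right _ hI
  omega

end link

end Pool.Agent.MP_c07eba.AR
end

section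
/-!
# Networks of copies of a gadget as graph inputs

A network has main vertices `o < T` and links `(o', (o, c))`; each link is a fresh copy of the
gadget with the terminals `o'` and `o`. The vertices of the graph are the main vertices, with the
codes `o * Z`, and the hidden vertices of the links, with the codes `o * Z + 1 + c * m + j`, where
`m` is the number of hidden vertices of the gadget and `Z = 1 + M * m`.
-/
namespace Pool.Agent.MP_c07eba.AR

open Pool.Agent.PolyTime Pool.Agent.CookLevin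
open Pool.Agent.MP_c07eba.KL Finset Function

/-! ### General facts on packings -/

/-- A graph with packings of size `k'` has packings of size `k' + 1`. -/
theorem packable_succ {V : Type*} {G : SimpleGraph V} {m : ℕ} (hm : 0 < m)
    (h : Packable G m) : Packable G (m + 1) := by
  classical
  intro L hL
  -- a proper colouring
  have hsub : ∀ v, ∃ A ⊆ L v, A.card = m := fun v =>
    Finset.exists_subset_card_eq (by rw [hL v]; omega)
  choose A hAs hAc using hsub
  obtain ⟨c, hc1, hc2, -⟩ := h A hAc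
  set c0 := c ⟨0, hm⟩ with hc0
  have hc0m : ∀ v, c0 v ∈ L v := fun v => hAs v (hc1 _ v)
  obtain ⟨d, hd1, hd2, hd3⟩ := h (fun v => (L v).erase (c0 v)) (fun v => by
    rw [Finset.card_erase_of_mem (hc0m v), hL v]
    rfl)
  refine ⟨Fin.cons c0 d, ?_, ?_, ?_⟩
  · intro i v
    refine Fin.cases ?_ (fun j => ?_) i
    · exact hc0m v
    · exact Finset.mem_of_mem_erase (hd1 j v)
  · intro i u v huv
    refine Fin.cases ?_ (fun j => ?_) i
    · exact hc2 _ u v huv
    · exact hd2 j u v huv
  · intro i j hij v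
    revert hij
    refine Fin.cases ?_ (fun i' => ?_) i
    · refine Fin.cases ?_ (fun j' => ?_) j
      · intro h
        exact absurd rfl h
      · intro _
        exact (Finset.ne_of_mem_erase (hd1 j' v)).symm
    · refine Fin.cases ?_ (fun j' => ?_) j
      · intro _
        exact Finset.ne_of_mem_erase (hd1 i' v)
      · intro h
        exact hd3 i' j' (fun h' => h (by rw [h'])) v

theorem packable_mono {V : Type*} {G : SimpleGraph V} {m k : ℕ} (hm : 0 < m) (hmk : m ≤ k)
    (h : Packable G m) : Packable G k := by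
  induction k, hmk using Nat.le_induction with
  | base => exact h
  | succ j hj ih => exact packable_succ (by omega) ih

/-- The list packing number is at most `k` iff there are packings of size `k`. -/
theorem lp_iff {k : ℕ} (hk : 0 < k) (X : GraphInput) : LP k X ↔ Packable X.graph k :=
  ⟨fun ⟨_, h0, h1, h2⟩ => packable_mono h0 h1 h2, fun h => ⟨k, hk, le_rfl, h⟩⟩

variable {k : ℕ}

/-- Sufficient condition for packings, in terms of states. -/
theorem packable_of (X : GraphInput)
    (h : ∀ L : ℕ → Finset ℕ, (∀ v, (L v).card = k) → ∃ p : ℕ → Fin k → ℕ,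
      (∀ v, IsState (L v) (p v)) ∧ ∀ e ∈ X.edges, ∀ i, p e.1 i ≠ p e.2 i) :
    Packable X.graph k := by
  intro L hL
  obtain ⟨p, hp, he⟩ := h (fun v => if h : v < X.n then L ⟨v, h⟩ else range k) (fun v => by
    split_ifs
    · exact hL _
    · simp)
  have hp' : ∀ v : Fin X.n, IsState (L v) (p v) := by
    intro v
    have := hp v
    rw [dif_pos v.isLt] at this
    exact this
  refine ⟨fun i v => p v i, fun i v => (hp' v).mem i, fun i u v huv => ?_, fun i j hij v => ?_⟩
  · rcases huv.2 with h | h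
    · exact he _ h i
    · exact (he _ h i).symm
  · exact (hp' v).inj.ne hij

/-- Necessary condition for packings, in terms of states. -/
theorem of_packable {X : GraphInput} (hX : ∀ e ∈ X.edges, e.1 < X.n ∧ e.2 < X.n ∧ e.1 ≠ e.2)
    (h : Packable X.graph k) (L : ℕ → Finset ℕ) (hL : ∀ v, (L v).card = k) :
    ∃ p : ℕ → Fin k → ℕ,
      (∀ v, IsState (L v) (p v)) ∧ ∀ e ∈ X.edges, ∀ i, p e.1 i ≠ p e.2 i := by
  obtain ⟨c, hc1, hc2, hc3⟩ := h (fun v => L v) (fun v => hL v)
  have hex : ∀ v, ∃ s : Fin k → ℕ, IsState (L v) s := fun v => exists_isState (hL v)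
  choose s hs using hex
  refine ⟨fun v => if h : v < X.n then fun i => c i ⟨v, h⟩ else s v, fun v => ?_,
    fun e he i => ?_⟩
  · dsimp only
    split_ifs with h
    · refine ⟨fun i j hij => ?_, fun i => hc1 i _⟩
      by_contra hne
      exact hc3 i j hne _ hij
    · exact hs v
  · obtain ⟨h1, h2, h3⟩ := hX e he
    dsimp only
    rw [dif_pos h1, dif_pos h2]
    exact hc2 i _ _ ⟨fun h => h3 (congrArg Fin.val h), Or.inl he⟩

/-! ### Networks -/

/-- Links: the other terminal, the owner, and the number of the link at its owner. -/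
abbrev Lnk : Type := ℕ × (ℕ × ℕ)

/-- The value of a linear form at a link. -/
def lin (l : Lnk) (q : ℕ × (ℕ × (ℕ × ℕ))) : ℕ :=
  l.1 * q.1 + (l.2.1 * q.2.1 + (l.2.2 * q.2.2.1 + q.2.2.2))

section gadget
variable (B : Gadget) (M : ℕ)

/-- The number of hidden vertices of a gadget. -/
noncomputable def nh : ℕ := Fintype.card B.H

/-- The number of a hidden vertex. -/
noncomputable def hidx (h : B.H) : ℕ := (Fintype.equivFin B.H h : ℕ)

theorem hidx_lt (h : B.H) : hidx B h < nh B := (Fintype.equivFin B.H h).isLt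

theorem hidx_inj {h h' : B.H} (e : hidx B h = hidx B h') : h = h' :=
  (Fintype.equivFin B.H).injective (Fin.ext e)

/-- The number of vertices with the same owner. -/
noncomputable def zz : ℕ := 1 + M * nh B

theorem zz_pos : 0 < zz B M := by
  unfold zz
  omega

/-- The linear form which gives the code of a vertex of the gadget. -/
noncomputable def cf : Bool ⊕ B.H → ℕ × (ℕ × (ℕ × ℕ))
  | .inl false => (zz B M, (0, (0, 0)))
  | .inl true => (0, (zz B M, (0, 0)))
  | .inr h => (0, (zz B M, (nh B, 1 + hidx B h)))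

/-- The code of the hidden vertex `h` of the link `c` of the owner `o`. -/
noncomputable def hc (o c : ℕ) (h : B.H) : ℕ := o * zz B M + (c * nh B + (1 + hidx B h))

/-- The list of the edges of the gadget. -/
noncomputable def gE : List ((ℕ × (ℕ × (ℕ × ℕ))) × (ℕ × (ℕ × (ℕ × ℕ)))) :=
  open Classical in
  ((Finset.univ : Finset ((Bool ⊕ B.H) × (Bool ⊕ B.H))).filter
    fun z => B.adj z.1 z.2).toList.map fun z => (cf B M z.1, cf B M z.2)

/-- The edges of a network. -/
noncomputable def netE (K : List Lnk) : List (ℕ × ℕ) :=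
  K.flatMap fun l => (gE B M).map fun q => (lin l q.1, lin l q.2)

/-- The graph of a network with `T` main vertices. -/
noncomputable def netG (T : ℕ) (K : List Lnk) : GraphInput := ⟨T * zz B M, netE B M K⟩

theorem mem_netE {K : List Lnk} {e : ℕ × ℕ} : e ∈ netE B M K ↔
    ∃ l ∈ K, ∃ x y, B.adj x y ∧ e = (lin l (cf B M x), lin l (cf B M y)) := by
  classical
  simp only [netE, gE, List.mem_flatMap, List.mem_map, Finset.mem_toList, Finset.mem_filter,
    Finset.mem_univ, true_and, Prod.exists]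
  constructor
  · rintro ⟨l1, l2, l3, hl, q1, q2, q3, q4, q5, q6, q7, q8, ⟨x, y, hxy, hq⟩, he⟩
    refine ⟨l1, l2, l3, hl, x, y, hxy, ?_⟩
    rw [← he]
    simp only [Prod.mk.injEq] at hq
    simp only [hq]
  · rintro ⟨l1, l2, l3, hl, x, y, hxy, he⟩
    exact ⟨l1, l2, l3, hl, _, _, _, _, _, _, _, _, ⟨x, y, hxy, rfl⟩, he.symm⟩

theorem lin_ff (l : Lnk) : lin l (cf B M (.inl false)) = l.1 * zz B M := by
  simp [lin, cf]

theorem lin_tt (l : Lnk) : lin l (cf B M (.inl true)) = l.2.1 * zz B M := by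
  simp [lin, cf]

theorem lin_hh (l : Lnk) (h : B.H) : lin l (cf B M (.inr h)) = hc B M l.2.1 l.2.2 h := by
  simp [lin, cf, hc]

end gadget

/-! ### Decoding -/

section decode
variable {B : Gadget} {M : ℕ}

theorem inner_lt {c : ℕ} (hcM : c < M) (h : B.H) :
    c * nh B + (1 + hidx B h) < zz B M := by
  have h1 := hidx_lt B h
  have h2 : (c + 1) * nh B ≤ M * nh B := Nat.mul_le_mul_right _ hcM
  unfold zz
  rw [Nat.add_mul] at h2
  omega

theorem main_div (o : ℕ) : o * zz B M / zz B M = o := Nat.mul_div_cancel _ (zz_pos B M)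

theorem main_mod (o : ℕ) : o * zz B M % zz B M = 0 := Nat.mul_mod_left _ _

theorem hc_div {c : ℕ} (hcM : c < M) (o : ℕ) (h : B.H) : hc B M o c h / zz B M = o := by
  unfold hc
  rw [mul_comm o, Nat.mul_add_div (zz_pos B M), Nat.div_eq_of_lt (inner_lt hcM h), add_zero]

theorem hc_mod {c : ℕ} (hcM : c < M) (o : ℕ) (h : B.H) :
    hc B M o c h % zz B M = c * nh B + (1 + hidx B h) := by
  unfold hc
  rw [mul_comm o, Nat.mul_add_mod, Nat.mod_eq_of_lt (inner_lt hcM h)]

theorem hc_inj {o o' c c' : ℕ} (hcM : c < M) (hcM' : c' < M) {h h' : B.H}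
    (e : hc B M o c h = hc B M o' c' h') : o = o' ∧ c = c' ∧ h = h' := by
  have e1 : o = o' := by rw [← hc_div hcM o h, e, hc_div hcM' o' h']
  have e2 : c * nh B + (1 + hidx B h) = c' * nh B + (1 + hidx B h') := by
    rw [← hc_mod hcM o h, e, hc_mod hcM' o' h']
  have e3 : c * nh B + hidx B h = c' * nh B + hidx B h' := by omega
  have hp : 0 < nh B := by
    have := hidx_lt B h
    omega
  have e4 : c = c' := by
    have h1 : (c * nh B + hidx B h) / nh B = c := by
      rw [mul_comm c, Nat.mul_add_div hp, Nat.div_eq_of_lt (hidx_lt B h), add_zero]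
    have h2 : (c' * nh B + hidx B h') / nh B = c' := by
      rw [mul_comm c', Nat.mul_add_div hp, Nat.div_eq_of_lt (hidx_lt B h'), add_zero]
    rw [← h1, e3, h2]
  subst e4
  exact ⟨e1, rfl, hidx_inj B (by omega)⟩

theorem hc_ne_main {o o' c : ℕ} (hcM : c < M) {h : B.H} : hc B M o c h ≠ o' * zz B M := by
  intro e
  have e2 := hc_mod hcM o h
  rw [e, main_mod] at e2
  omega

end decode

/-- Conditions on networks. -/
structure NetOk (M T : ℕ) (K : List Lnk) : Prop where
  oth : ∀ l ∈ K, l.1 < T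
  own : ∀ l ∈ K, l.2.1 < T
  num : ∀ l ∈ K, l.2.2 < M
  ne : ∀ l ∈ K, l.1 ≠ l.2.1
  uniq : ∀ l ∈ K, ∀ l' ∈ K, l.2 = l'.2 → l.1 = l'.1

section
variable {B : Gadget} {M T : ℕ} {K : List Lnk}

/-- Packings of a network from states of the main vertices. -/
theorem packable_netG (hK : NetOk M T K)
    (h : ∀ L : ℕ → Finset ℕ, (∀ v, (L v).card = k) → ∃ s : ℕ → Fin k → ℕ,
      (∀ o, IsState (L (o * zz B M)) (s o)) ∧
      ∀ l ∈ K, B.Ext (fun h => L (hc B M l.2.1 l.2.2 h)) (s l.1) (s l.2.1)) :
    Packable (netG B M T K).graph k := by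
  classical
  refine packable_of _ fun L hL => ?_
  obtain ⟨s, hs, hsK⟩ := h L hL
  have hex : ∀ q : ℕ × ℕ, ∃ p : B.H → Fin k → ℕ, (∀ h, IsState (L (hc B M q.1 q.2 h)) (p h)) ∧
      ∀ l ∈ K, l.2 = q → ∀ x y, B.adj x y → ∀ i,
        ext (s l.1) (s l.2.1) p x i ≠ ext (s l.1) (s l.2.1) p y i := by
    intro q
    by_cases hq : ∃ l ∈ K, l.2 = q
    · obtain ⟨l, hl, rfl⟩ := hq
      obtain ⟨p, hp1, hp2⟩ := hsK l hl
      refine ⟨p, hp1, fun l' hl' h' => ?_⟩
      rw [hK.uniq l' hl' l hl h', h']
      exact hp2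
    · have he : ∀ h : B.H, ∃ s : Fin k → ℕ, IsState (L (hc B M q.1 q.2 h)) s := fun h =>
        exists_isState (hL _)
      choose p hp using he
      exact ⟨p, hp, fun l hl h' => absurd ⟨l, hl, h'⟩ hq⟩
  choose P hP1 hP2 using hex
  -- the state of a vertex
  let f : ℕ → Fin k → ℕ := fun v =>
    if h : ∃ z : (ℕ × ℕ) × B.H, z.1.2 < M ∧ v = hc B M z.1.1 z.1.2 z.2 then
      P h.choose.1 h.choose.2
    else if v % zz B M = 0 then s (v / zz B M) else (exists_isState (hL v)).choose
  have fh : ∀ o c (h : B.H), c < M → f (hc B M o c h) = P (o, c) h := by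
    intro o c h hcM
    have hex : ∃ z : (ℕ × ℕ) × B.H, z.1.2 < M ∧ hc B M o c h = hc B M z.1.1 z.1.2 z.2 :=
      ⟨((o, c), h), hcM, rfl⟩
    show (if h' : ∃ z : (ℕ × ℕ) × B.H, z.1.2 < M ∧ hc B M o c h = hc B M z.1.1 z.1.2 z.2 then
      P h'.choose.1 h'.choose.2
    else _) = _
    rw [dif_pos hex]
    obtain ⟨h1, h2⟩ := hex.choose_spec
    obtain ⟨e1, e2, e3⟩ := hc_inj hcM h1 h2
    have e4 : hex.choose.1 = (o, c) := Prod.ext e1.symm e2.symm
    rw [e4, ← e3]
  have fm : ∀ o, f (o * zz B M) = s o := by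
    intro o
    show (if h' : ∃ z : (ℕ × ℕ) × B.H, z.1.2 < M ∧ o * zz B M = hc B M z.1.1 z.1.2 z.2 then
      P h'.choose.1 h'.choose.2
    else _) = _
    rw [dif_neg, if_pos (main_mod o), main_div]
    rintro ⟨z, h1, h2⟩
    exact hc_ne_main h1 h2.symm
  refine ⟨f, fun v => ?_, fun e he => ?_⟩
  · by_cases h : ∃ z : (ℕ × ℕ) × B.H, z.1.2 < M ∧ v = hc B M z.1.1 z.1.2 z.2
    · obtain ⟨z, h1, h2⟩ := h
      rw [h2, fh _ _ _ h1]
      exact hP1 _ _
    · by_cases h' : v % zz B M = 0
      · have e : v = v / zz B M * zz B M := (Nat.div_mul_cancel (Nat.dvd_of_mod_eq_zero h')).symm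
        rw [e, fm]
        exact hs _
      · show IsState (L v) (if h : ∃ z : (ℕ × ℕ) × B.H, z.1.2 < M ∧ v = hc B M z.1.1 z.1.2 z.2 then
          P h.choose.1 h.choose.2
        else if v % zz B M = 0 then s (v / zz B M) else (exists_isState (hL v)).choose)
        rw [dif_neg h, if_neg h']
        exact (exists_isState (hL v)).choose_spec
  · obtain ⟨l, hl, x, y, hxy, rfl⟩ := (mem_netE B M).1 he
    have key : ∀ x : Bool ⊕ B.H, f (lin l (cf B M x)) = ext (s l.1) (s l.2.1) (P l.2) x := by
      rintro ((_ | _) | h)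
      · rw [lin_ff, fm]
        rfl
      · rw [lin_tt, fm]
        rfl
      · rw [lin_hh, fh _ _ _ (hK.num l hl)]
        rfl
    intro i
    show f (lin l (cf B M x)) i ≠ f (lin l (cf B M y)) i
    rw [key x, key y]
    exact hP2 l.2 l hl rfl x y hxy i

/-- States of the main vertices from packings of a network. -/
theorem of_packable_netG (hK : NetOk M T K) (h : Packable (netG B M T K).graph k)
    (A : Finset ℕ) (hA : A.card = k) (Lh : ℕ → ℕ → B.H → Finset ℕ)
    (hL : ∀ o c h, (Lh o c h).card = k) :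
    ∃ s : ℕ → Fin k → ℕ, (∀ o, IsState A (s o)) ∧
      ∀ l ∈ K, B.Ext (Lh l.2.1 l.2.2) (s l.1) (s l.2.1) := by
  classical
  let L : ℕ → Finset ℕ := fun v =>
    if h : ∃ z : (ℕ × ℕ) × B.H, z.1.2 < M ∧ v = hc B M z.1.1 z.1.2 z.2 then
      Lh h.choose.1.1 h.choose.1.2 h.choose.2
    else A
  have Lhid : ∀ o c (h : B.H), c < M → L (hc B M o c h) = Lh o c h := by
    intro o c h hcM
    have hex : ∃ z : (ℕ × ℕ) × B.H, z.1.2 < M ∧ hc B M o c h = hc B M z.1.1 z.1.2 z.2 :=
      ⟨((o, c), h), hcM, rfl⟩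
    show (if h' : ∃ z : (ℕ × ℕ) × B.H, z.1.2 < M ∧ hc B M o c h = hc B M z.1.1 z.1.2 z.2 then
      Lh h'.choose.1.1 h'.choose.1.2 h'.choose.2
    else A) = _
    rw [dif_pos hex]
    obtain ⟨h1, h2⟩ := hex.choose_spec
    obtain ⟨e1, e2, e3⟩ := hc_inj hcM h1 h2
    rw [← e1, ← e2, ← e3]
  have Lmain : ∀ o, L (o * zz B M) = A := by
    intro o
    show (if h' : ∃ z : (ℕ × ℕ) × B.H, z.1.2 < M ∧ o * zz B M = hc B M z.1.1 z.1.2 z.2 then
      Lh h'.choose.1.1 h'.choose.1.2 h'.choose.2
    else A) = _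
    rw [dif_neg]
    rintro ⟨z, h1, h2⟩
    exact hc_ne_main h1 h2.symm
  have hLc : ∀ v, (L v).card = k := by
    intro v
    by_cases h : ∃ z : (ℕ × ℕ) × B.H, z.1.2 < M ∧ v = hc B M z.1.1 z.1.2 z.2
    · obtain ⟨z, h1, h2⟩ := h
      rw [h2, Lhid _ _ _ h1]
      exact hL _ _ _
    · show (if h : ∃ z : (ℕ × ℕ) × B.H, z.1.2 < M ∧ v = hc B M z.1.1 z.1.2 z.2 then
          Lh h.choose.1.1 h.choose.1.2 h.choose.2
        else A).card = k
      rw [dif_neg h]
      exact hA
  have hbound : ∀ l ∈ K, ∀ x : Bool ⊕ B.H, lin l (cf B M x) < T * zz B M := by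
    intro l hl x
    have hz := zz_pos B M
    rcases x with (_ | _) | h
    · rw [lin_ff]
      exact Nat.mul_lt_mul_of_pos_right (hK.oth l hl) hz
    · rw [lin_tt]
      exact Nat.mul_lt_mul_of_pos_right (hK.own l hl) hz
    · rw [lin_hh]
      have h1 := inner_lt (hK.num l hl) h
      have h2 : (l.2.1 + 1) * zz B M ≤ T * zz B M := Nat.mul_le_mul_right _ (hK.own l hl)
      rw [Nat.add_mul] at h2
      unfold hc
      omega
  have hinj : ∀ l ∈ K, ∀ x y : Bool ⊕ B.H, lin l (cf B M x) = lin l (cf B M y) → x = y := by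
    intro l hl x y e
    have hz := zz_pos B M
    have hn := hK.num l hl
    rcases x with (_ | _) | h <;> rcases y with (_ | _) | h' <;>
      simp only [lin_ff, lin_tt, lin_hh] at e
    · rfl
    · exact absurd (Nat.eq_of_mul_eq_mul_right hz e) (hK.ne l hl)
    · exact absurd e.symm (hc_ne_main hn)
    · exact absurd (Nat.eq_of_mul_eq_mul_right hz e).symm (hK.ne l hl)
    · rfl
    · exact absurd e.symm (hc_ne_main hn)
    · exact absurd e (hc_ne_main hn)
    · exact absurd e (hc_ne_main hn)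
    · rw [(hc_inj hn hn e).2.2]
  obtain ⟨p, hp1, hp2⟩ := of_packable (X := netG B M T K) (by
    intro e he
    obtain ⟨l, hl, x, y, hxy, rfl⟩ := (mem_netE B M).1 he
    refine ⟨hbound l hl x, hbound l hl y, fun e => ?_⟩
    have := hinj l hl x y e
    rw [this] at hxy
    exact B.irrefl _ hxy) h L hLc
  refine ⟨fun o => p (o * zz B M), fun o => ?_, fun l hl => ?_⟩
  · have := hp1 (o * zz B M)
    rw [Lmain] at this
    exact this
  · refine ⟨fun h => p (hc B M l.2.1 l.2.2 h), fun h => ?_, fun x y hxy i => ?_⟩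
    · have := hp1 (hc B M l.2.1 l.2.2 h)
      rw [Lhid _ _ _ (hK.num l hl)] at this
      exact this
    · have key : ∀ x : Bool ⊕ B.H, ext (p (l.1 * zz B M)) (p (l.2.1 * zz B M))
          (fun h => p (hc B M l.2.1 l.2.2 h)) x = p (lin l (cf B M x)) := by
        rintro ((_ | _) | h)
        · rw [lin_ff]
          rfl
        · rw [lin_tt]
          rfl
        · rw [lin_hh]
          rfl
      rw [key x, key y]
      exact hp2 (lin l (cf B M x), lin l (cf B M y)) ((mem_netE B M).2 ⟨l, hl, x, y, hxy, rfl⟩) i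

end

/-! ### The network of a hypergraph -/

/-- The hub `i` of the hyperedge with the label `a`. -/
def hubC (n a i : ℕ) : ℕ := 5 * a + (i + (n + 1))

/-- The external vertex of the hub `i` of a hyperedge with the nodes `l`. -/
def extC (l : List ℕ) (i : ℕ) : ℕ := (l.map fun x => x + 1).getD i 0

/-- The hubs of a cycle and their successors. -/
def cyc5 : List (ℕ × ℕ) := [(0, 1), (1, 2), (2, 3), (3, 4), (4, 0)]

/-- The links of the hubs of a hyperedge. -/
def hypL (N n : ℕ) (e : ℕ × List ℕ) : List Lnk :=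
  cyc5.flatMap fun q =>
    (hubC n e.1 q.2, (hubC n e.1 q.1, 0)) :: (extC e.2 q.1, (hubC n e.1 q.1, 1)) ::
      (List.range (N - 3)).map fun c => (0, (hubC n e.1 q.1, c + 2))

/-- The links of a node. -/
def nodL (N x : ℕ) : List Lnk := (List.range (N - 2)).map fun c => (0, (x + 1, c))

/-- The links of the network of a hypergraph. -/
def netL (N : ℕ) (H : Hyp) : List Lnk :=
  ((List.range H.1).flatMap fun x => nodL N x) ++ H.2.2.flatMap fun e => hypL N H.1 e

/-- The number of main vertices. -/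
def netT (H : Hyp) : ℕ := 5 * H.2.1 + (H.1 + 1)

/-- The graph of a hypergraph. -/
noncomputable def arG (B : Gadget) (N : ℕ) (H : Hyp) : GraphInput :=
  netG B (N - 1) (netT H) (netL N H)

section PT
universe u
variable {α : Type u} [Rep α]

theorem PT_lin {l : α → Lnk} {q : α → ℕ × (ℕ × (ℕ × ℕ))} (hl : PT l) (hq : PT q) :
    PT (fun a => lin (l a) (q a)) :=
  PT.add (PT.mul hl.fst hq.fst) (PT.add (PT.mul hl.snd.fst hq.snd.fst)
    (PT.add (PT.mul hl.snd.snd hq.snd.snd.fst) hq.snd.snd.snd))

theorem PT_netE (B : Gadget) (M : ℕ) {K : α → List Lnk} (hK : PT K) :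
    PT (fun a => netE B M (K a)) :=
  PT.flatMap hK (PT.map (PT.const (gE B M))
    (PT.pair (PT_lin PT.id.fst.snd PT.id.snd.fst) (PT_lin PT.id.fst.snd PT.id.snd.snd)))

theorem PT_hubC {n e i : α → ℕ} (hn : PT n) (he : PT e) (hi : PT i) :
    PT (fun a => hubC (n a) (e a) (i a)) :=
  PT.add (PT.mul (PT.const 5) he) (PT.add hi (PT.add hn (PT.const 1)))

theorem PT_extC {l : α → List ℕ} {i : α → ℕ} (hl : PT l) (hi : PT i) :
    PT (fun a => extC (l a) (i a)) :=
  PT.listGetD (PT.map hl (PT.succ PT.id.snd)) hi (PT.const 0)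

theorem PT_hypL (N : ℕ) {n : α → ℕ} {e : α → ℕ × List ℕ} (hn : PT n) (he : PT e) :
    PT (fun a => hypL N (n a) (e a)) := by
  refine PT.flatMap (PT.const cyc5) ?_
  have hn' : PT (fun z : α × (ℕ × ℕ) => n z.1) :=
    PT.comp (f := Prod.fst) hn PT.id.fst
  have he' : PT (fun z : α × (ℕ × ℕ) => e z.1) :=
    PT.comp (f := Prod.fst) he PT.id.fst
  have h1 := PT_hubC hn' he'.fst PT.id.snd.fst
  have h2 := PT_hubC hn' he'.fst PT.id.snd.snd
  have h1' : PT (fun z : (α × (ℕ × ℕ)) × ℕ => hubC (n z.1.1) (e z.1.1).1 z.1.2.1) :=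
    PT.comp (f := Prod.fst) h1 PT.id.fst
  exact PT.cons (PT.pair h2 (PT.pair h1 (PT.const 0)))
    (PT.cons (PT.pair (PT_extC he'.snd PT.id.snd.fst) (PT.pair h1 (PT.const 1)))
    (PT.map (PT.const (List.range (N - 3)))
      (PT.pair (PT.const 0) (PT.pair h1' (PT.add PT.id.snd (PT.const 2))))))

theorem PT_nodL (N : ℕ) {x : α → ℕ} (hx : PT x) : PT (fun a => nodL N (x a)) :=
  PT.map (PT.const (List.range (N - 2)))
    (PT.pair (PT.const 0) (PT.pair (PT.succ (PT.comp (f := Prod.fst) hx PT.id.fst)) PT.id.snd))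

theorem PT_netL (N : ℕ) {H : α → Hyp} (hH : PT H) : PT (fun a => netL N (H a)) :=
  PT.append (PT.flatMap (PT.range hH.fst) (PT_nodL N PT.id.snd))
    (PT.flatMap hH.snd.snd (PT_hypL N (PT.comp (f := Prod.fst) hH.fst PT.id.fst) PT.id.snd))

theorem PT_netT {H : α → Hyp} (hH : PT H) : PT (fun a => netT (H a)) :=
  PT.add (PT.mul (PT.const 5) hH.snd.fst) (PT.add hH.fst (PT.const 1))

end PT

theorem PT_arG (B : Gadget) (N : ℕ) : PT (arG B N) :=
  PT.pair (f := fun H => netT H * zz B (N - 1))
    (PT.mul (PT_netT PT.id) (PT.const (zz B (N - 1))))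
    (PT_netE B (N - 1) (PT_netL N PT.id))

end Pool.Agent.MP_c07eba.AR
end

section
/-!
# The network of a hypergraph: packings for satisfiable hypergraphs
-/
namespace Pool.Agent.MP_c07eba.AR

open Pool.Agent.MP_c07eba.KL Finset Function

variable {k : ℕ}

/-! ### The links -/

theorem mem_cyc5 {q : ℕ × ℕ} :
    q ∈ cyc5 ↔ ∃ i : Fin 5, q = ((i : ℕ), ((i + 1 : Fin 5) : ℕ)) := by
  constructor
  · intro h
    simp only [cyc5, List.mem_cons, List.not_mem_nil, or_false] at h
    rcases h with h | h | h | h | h <;> subst h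
    · exact ⟨0, rfl⟩
    · exact ⟨1, rfl⟩
    · exact ⟨2, rfl⟩
    · exact ⟨3, rfl⟩
    · exact ⟨4, rfl⟩
  · rintro ⟨i, rfl⟩
    fin_cases i <;> decide

theorem mem_netL {N : ℕ} {H : Hyp} {l : Lnk} : l ∈ netL N H ↔
    (∃ x < H.1, ∃ c < N - 2, l = (0, (x + 1, c))) ∨
    ∃ e ∈ H.2.2, ∃ i : Fin 5,
      l = (hubC H.1 e.1 (i + 1 : Fin 5), (hubC H.1 e.1 i, 0)) ∨
      l = (extC e.2 i, (hubC H.1 e.1 i, 1)) ∨
      ∃ c < N - 3, l = (0, (hubC H.1 e.1 i, c + 2)) := by
  simp only [netL, List.mem_append, List.mem_flatMap, List.mem_range, nodL, List.mem_map]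
  refine or_congr ?_ ?_
  · constructor
    · rintro ⟨x, hx, c, hc, rfl⟩
      exact ⟨x, hx, c, hc, rfl⟩
    · rintro ⟨x, hx, c, hc, rfl⟩
      exact ⟨x, hx, c, hc, rfl⟩
  · refine exists_congr fun e => and_congr_right fun _ => ?_
    simp only [hypL, List.mem_flatMap, List.mem_cons, List.mem_map, List.mem_range]
    constructor
    · rintro ⟨q, hq, h⟩
      obtain ⟨i, rfl⟩ := mem_cyc5.1 hq
      refine ⟨i, ?_⟩
      rcases h with h | h | ⟨c, hc, h⟩
      · exact Or.inl h
      · exact Or.inr (Or.inl h)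
      · exact Or.inr (Or.inr ⟨c, hc, h.symm⟩)
    · rintro ⟨i, h⟩
      refine ⟨_, mem_cyc5.2 ⟨i, rfl⟩, ?_⟩
      rcases h with h | h | ⟨c, hc, h⟩
      · exact Or.inl h
      · exact Or.inr (Or.inl h)
      · exact Or.inr (Or.inr ⟨c, hc, h.symm⟩)

theorem succ_ne5 : ∀ i : Fin 5, ((i + 1 : Fin 5) : ℕ) ≠ i := by decide

theorem hubC_inj {n a a' i i' : ℕ} (hi : i < 5) (hi' : i' < 5)
    (h : hubC n a i = hubC n a' i') : a = a' ∧ i = i' := by
  unfold hubC at h
  omega

theorem extC_some {l : List ℕ} {i x : ℕ} (h : l[i]? = some x) : extC l i = x + 1 := by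
  simp [extC, List.getD_eq_getElem?_getD, h]

theorem extC_none {l : List ℕ} {i : ℕ} (h : l.length ≤ i) : extC l i = 0 := by
  simp [extC, List.getD_eq_getElem?_getD, List.getElem?_eq_none h]

theorem extC_cases (l : List ℕ) (i : ℕ) :
    (∃ x, l[i]? = some x ∧ extC l i = x + 1) ∨ (l.length ≤ i ∧ extC l i = 0) := by
  by_cases h : i < l.length
  · exact Or.inl ⟨l[i], List.getElem?_eq_getElem h, extC_some (List.getElem?_eq_getElem h)⟩
  · exact Or.inr ⟨not_lt.1 h, extC_none (not_lt.1 h)⟩

section ok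
variable {H : Hyp} (hH : HypOk H)
include hH

theorem extC_le {e : ℕ × List ℕ} (he : e ∈ H.2.2) (i : ℕ) : extC e.2 i ≤ H.1 := by
  rcases extC_cases e.2 i with ⟨x, hx, h⟩ | ⟨_, h⟩
  · rw [h]
    exact hH.node_lt e he x (List.mem_of_getElem? hx)
  · rw [h]
    exact Nat.zero_le _

theorem netL_ok {N : ℕ} (hN : 3 ≤ N) : NetOk (N - 1) (netT H) (netL N H) := by
  have fin5 : ∀ i : Fin 5, (i : ℕ) < 5 := fun i => i.isLt
  refine ⟨fun l hl => ?_, fun l hl => ?_, fun l hl => ?_, fun l hl => ?_,
    fun l hl l' hl' h => ?_⟩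
  · rcases mem_netL.1 hl with ⟨x, hx, c, hc, rfl⟩ | ⟨e, he, i, rfl | rfl | ⟨c, hc, rfl⟩⟩
    · show 0 < netT H
      unfold netT
      omega
    · show hubC H.1 e.1 _ < netT H
      have := hH.lab_lt e he
      have := fin5 (i + 1)
      unfold hubC netT
      omega
    · show extC e.2 i < netT H
      have := extC_le hH he i
      unfold netT
      omega
    · show 0 < netT H
      unfold netT
      omega
  · rcases mem_netL.1 hl with ⟨x, hx, c, hc, rfl⟩ | ⟨e, he, i, rfl | rfl | ⟨c, hc, rfl⟩⟩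
    · show x + 1 < netT H
      unfold netT
      omega
    all_goals
      show hubC H.1 e.1 i < netT H
      have := hH.lab_lt e he
      have := fin5 i
      unfold hubC netT
      omega
  · rcases mem_netL.1 hl with ⟨x, hx, c, hc, rfl⟩ | ⟨e, he, i, rfl | rfl | ⟨c, hc, rfl⟩⟩
    · show c < N - 1
      omega
    · show 0 < N - 1
      omega
    · show 1 < N - 1
      omega
    · show c + 2 < N - 1
      omega
  · rcases mem_netL.1 hl with ⟨x, hx, c, hc, rfl⟩ | ⟨e, he, i, rfl | rfl | ⟨c, hc, rfl⟩⟩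
    · exact (Nat.succ_ne_zero x).symm
    · intro h
      exact succ_ne5 i (hubC_inj (fin5 _) (fin5 _) h).2
    · show extC e.2 i ≠ hubC H.1 e.1 i
      have := extC_le hH he i
      unfold hubC
      omega
    · show 0 ≠ hubC H.1 e.1 i
      unfold hubC
      omega
  · rcases mem_netL.1 hl with ⟨x, hx, c, hc, rfl⟩ | ⟨e, he, i, rfl | rfl | ⟨c, hc, rfl⟩⟩ <;>
    rcases mem_netL.1 hl' with ⟨x', hx', c', hc', rfl⟩ |
      ⟨e', he', i', rfl | rfl | ⟨c', hc', rfl⟩⟩ <;>
    simp only [Prod.mk.injEq] at h ⊢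
    · exfalso
      have h1 := h.1
      unfold hubC at h1
      omega
    · exfalso
      have h1 := h.1
      unfold hubC at h1
      omega
    · exfalso
      have h1 := h.1
      unfold hubC at h1
      omega
    · obtain ⟨h1, h2⟩ := hubC_inj (fin5 _) (fin5 _) h.1
      rw [h1, Fin.ext h2]
    · exact absurd h.2 (by omega)
    · exact absurd h.2 (by omega)
    · exfalso
      have h1 := h.1
      unfold hubC at h1
      omega
    · exact absurd h.2 (by omega)
    · obtain ⟨h1, h2⟩ := hubC_inj (fin5 _) (fin5 _) h.1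
      rw [hH.lab_inj e he e' he' h1, h2]
    · exact absurd h.2 (by omega)
    · exfalso
      have h1 := h.1
      unfold hubC at h1
      omega
    · exact absurd h.2 (by omega)

end ok

/-! ### Packings for satisfiable hypergraphs -/

section yes
variable {B : Gadget} {K : Subgroup (Equiv.Perm (Fin k))} {τ : Equiv.Perm (Fin k)}

/-- The graphs of satisfiable hypergraphs have packings. -/
theorem arG_yes (hB : IsLink k B K τ) {H : Hyp} (hH : HypOk H) (hS : SignSat H) :
    Packable (arG B K.index H).graph k := by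
  classical
  have hcard := Subgroup.card_mul_index K
  have hw : 0 < Nat.card K := Nat.card_pos
  have hN : 3 ≤ K.index := by
    by_contra hc
    have h1 := hB.three
    rw [← hcard] at h1
    have h2 : Nat.card K * K.index ≤ Nat.card K * 2 := Nat.mul_le_mul_left _ (by omega)
    omega
  refine packable_netG (netL_ok hH hN) fun L hL => ?_
  -- abbreviations
  set w := Nat.card K with hwdef
  set N := K.index with hNdef
  let V : ℕ → Finset (Fin k → ℕ) := fun o => St k (L (o * zz B (N - 1)))
  let Q : ℕ → ℕ → (Fin k → ℕ) → (Fin k → ℕ) → Prop := fun o c s t =>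
    ¬ B.Ext (fun h => L (hc B (N - 1) o c h)) s t
  have hQ : ∀ o' o c, Kb w (V o') (V o) (Q o c) := fun o' o c =>
    kb_link hB (hL _) (hL _) fun _ => hL _
  have hV : ∀ o, (V o).card = w * N := fun o => (card_St (hL _)).trans hcard.symm
  obtain ⟨ρ, hρ⟩ : (V 0).Nonempty := by
    rw [← Finset.card_pos, hV]
    exact Nat.mul_pos hw (by omega)
  -- alive states
  let AN : ℕ → Finset (Fin k → ℕ) := fun o =>
    al (V o) fun t => ∀ c ∈ range (N - 2), ¬ Q o c ρ t
  let AH : ℕ → Finset (Fin k → ℕ) := fun o =>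
    al (V o) fun t => ∀ c ∈ range (N - 3), ¬ Q o (c + 2) ρ t
  have hAN : ∀ o, 2 * w ≤ (AN o).card := by
    intro o
    have h := card_alive (fun c => hQ 0 o c) hρ (range (N - 2)) (m := N - 2) (by simp)
    rw [hV] at h
    have e : w * N = 2 * w + (N - 2) * w := by
      obtain ⟨j, hj⟩ := Nat.exists_eq_add_of_le (show 2 ≤ N by omega)
      rw [hj, Nat.add_sub_cancel_left]
      ring
    have h' : w * N ≤ (AN o).card + (N - 2) * w := h
    omega
  have hAH : ∀ o, 3 * w ≤ (AH o).card := by
    intro o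
    have h := card_alive (fun c => hQ 0 o (c + 2)) hρ (range (N - 3)) (m := N - 3) (by simp)
    rw [hV] at h
    have e : w * N = 3 * w + (N - 3) * w := by
      obtain ⟨j, hj⟩ := Nat.exists_eq_add_of_le hN
      rw [hj, Nat.add_sub_cancel_left]
      ring
    have h' : w * N ≤ (AH o).card + (N - 3) * w := h
    omega
  -- the cycle lemma
  have hcyc : ∀ e : ℕ × List ℕ, ∃ E : Fin 5 → Finset (Fin k → ℕ), (∀ i, (E i).card ≤ w) ∧
      ∀ x : Fin 5 → Fin k → ℕ, (∀ i : Fin 5, x i ∈ V (extC e.2 (i : ℕ))) → x 4 = ρ →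
      (∃ i, x i ∉ E i) → ∃ p : Fin 5 → Fin k → ℕ, ∀ i : Fin 5,
        p i ∈ AH (hubC H.1 e.1 (i : ℕ)) ∧ ¬ Q (hubC H.1 e.1 (i : ℕ)) 1 (x i) (p i) ∧
        ¬ Q (hubC H.1 e.1 (i : ℕ)) 0 (p (i + 1)) (p i) := fun e =>
    cyc_main hw (fun i => Q (hubC H.1 e.1 (i : ℕ)) 0) (fun i => Q (hubC H.1 e.1 (i : ℕ)) 1)
      (fun i => V (hubC H.1 e.1 (i : ℕ))) (fun i => AH (hubC H.1 e.1 (i : ℕ)))
      (fun i => V (extC e.2 (i : ℕ))) (fun i => hQ _ _ _) (fun i => hQ _ _ _)
      (fun i => fun t ht => (mem_al.1 ht).1) (fun i => hAH _) ρ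
  choose Ef hEf1 hEf2 using hcyc
  let F : ℕ × ℕ → Finset (Fin k → ℕ) := fun q =>
    if h : ∃ e ∈ H.2.2, e.1 = q.1 then
      (if hr : q.2 < 5 then Ef h.choose ⟨q.2, hr⟩ else ∅) else ∅
  have hF : ∀ q, (F q).card ≤ w := by
    intro q
    show (if h : ∃ e ∈ H.2.2, e.1 = q.1 then
      (if hr : q.2 < 5 then Ef h.choose ⟨q.2, hr⟩ else ∅) else ∅ :
        Finset (Fin k → ℕ)).card ≤ w
    split_ifs with h1 h2
    · exact hEf1 _ _
    · simp
    · simp
  have hFe : ∀ e ∈ H.2.2, ∀ i : Fin 5, F (e.1, (i : ℕ)) = Ef e i := by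
    intro e he i
    have h1 : ∃ e' ∈ H.2.2, e'.1 = e.1 := ⟨e, he, rfl⟩
    show (if h : ∃ e' ∈ H.2.2, e'.1 = e.1 then
      (if hr : (i : ℕ) < 5 then Ef h.choose ⟨i, hr⟩ else ∅) else ∅) = Ef e i
    rw [dif_pos h1, dif_pos i.isLt]
    have h2 := h1.choose_spec
    rw [hH.lab_inj _ h2.1 e he h2.2]
  -- the two states of a node
  have hnode : ∀ x, ∃ t : (Fin k → ℕ) × (Fin k → ℕ), t.1 ∈ AN (x + 1) ∧ t.2 ∈ AN (x + 1) ∧
      ∀ e ∈ H.2.2, ∀ r, e.2[r]? = some x → ¬ (t.1 ∈ F (e.1, r) ∧ t.2 ∈ F (e.1, r)) := by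
    intro x
    obtain ⟨l, hl, hl2⟩ := hH.deg x
    obtain ⟨t, ht, t', ht', hn⟩ := node hw (hAN (x + 1)) F hF hl
    exact ⟨(t, t'), ht, ht', fun e he r hr => hn _ (hl2 e he r hr)⟩
  choose st hst0 hst1 hstF using hnode
  -- the signing
  obtain ⟨v, hv⟩ := hS (fun a r => decide (∃ e ∈ H.2.2, e.1 = a ∧ ∃ x, e.2[r]? = some x ∧
    (st x).2 ∈ F (a, r)))
  let sn : ℕ → Fin k → ℕ := fun x => if v x then (st x).2 else (st x).1
  have hsn : ∀ x, sn x ∈ AN (x + 1) := by
    intro x
    show (if v x then (st x).2 else (st x).1) ∈ AN (x + 1)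
    split_ifs
    · exact hst1 x
    · exact hst0 x
  let s0 : ℕ → Fin k → ℕ := fun o => if o = 0 then ρ else sn (o - 1)
  have hs0 : ∀ o, s0 o ∈ V o := by
    intro o
    show (if o = 0 then ρ else sn (o - 1)) ∈ V o
    split_ifs with h
    · rw [h]
      exact hρ
    · have := hsn (o - 1)
      rw [Nat.sub_add_cancel (Nat.one_le_iff_ne_zero.2 h)] at this
      exact (mem_al.1 this).1
  have hs0z : s0 0 = ρ := rfl
  have hs0x : ∀ x, s0 (x + 1) = sn x := fun x => rfl
  -- the states of the cycles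
  have hcy : ∀ e ∈ H.2.2, ∃ p : Fin 5 → Fin k → ℕ, ∀ i : Fin 5,
      p i ∈ AH (hubC H.1 e.1 (i : ℕ)) ∧
      ¬ Q (hubC H.1 e.1 (i : ℕ)) 1 (s0 (extC e.2 (i : ℕ))) (p i) ∧
      ¬ Q (hubC H.1 e.1 (i : ℕ)) 0 (p (i + 1)) (p i) := by
    intro e he
    refine hEf2 e (fun i => s0 (extC e.2 (i : ℕ))) (fun i => hs0 _) ?_ ?_
    · have : extC e.2 ((4 : Fin 5) : ℕ) = 0 := by
        apply extC_none
        rcases hH.len e he with h | h <;> rw [h] <;> decide
      show s0 (extC e.2 ((4 : Fin 5) : ℕ)) = ρ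
      rw [this, hs0z]
    · obtain ⟨r, x, hr, hne⟩ := hv e he
      have hr5 : r < 5 := by
        have h1 := (List.getElem?_eq_some_iff.1 hr).1
        rcases hH.len e he with h | h <;> omega
      refine ⟨⟨r, hr5⟩, ?_⟩
      rw [← hFe e he]
      show s0 (extC e.2 r) ∉ F (e.1, r)
      rw [extC_some hr, hs0x]
      show (if v x then (st x).2 else (st x).1) ∉ F (e.1, r)
      have hb := hstF x e he r hr
      cases hvx : v x
      · rw [hvx] at hne
        have h1 : decide (∃ e' ∈ H.2.2, e'.1 = e.1 ∧ ∃ x, e'.2[r]? = some x ∧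
            (st x).2 ∈ F (e.1, r)) = true := by
          revert hne
          cases decide (∃ e' ∈ H.2.2, e'.1 = e.1 ∧ ∃ x, e'.2[r]? = some x ∧
            (st x).2 ∈ F (e.1, r))
          · intro h
            exact absurd rfl h
          · intro _
            rfl
        obtain ⟨e', he', h2, x', hx', h3⟩ := of_decide_eq_true h1
        have h4 : e' = e := hH.lab_inj e' he' e he h2
        rw [h4, hr] at hx'
        rw [← Option.some.inj hx'] at h3
        exact fun h => hb ⟨h, h3⟩
      · rw [hvx] at hne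
        intro h3
        exact hne (decide_eq_true ⟨e, he, rfl, x, hr, h3⟩).symm
  choose p hp using hcy
  -- the states of all main vertices
  let s : ℕ → Fin k → ℕ := fun o =>
    if h : ∃ z : {e // e ∈ H.2.2} × Fin 5, o = hubC H.1 z.1.1.1 z.2 then
      p h.choose.1.1 h.choose.1.2 h.choose.2 else s0 o
  have hsh : ∀ e (he : e ∈ H.2.2) (i : Fin 5), s (hubC H.1 e.1 i) = p e he i := by
    intro e he i
    have h1 : ∃ z : {e // e ∈ H.2.2} × Fin 5, hubC H.1 e.1 i = hubC H.1 z.1.1.1 z.2 :=
      ⟨(⟨e, he⟩, i), rfl⟩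
    show (if h : ∃ z : {e // e ∈ H.2.2} × Fin 5, hubC H.1 e.1 i = hubC H.1 z.1.1.1 z.2 then
      p h.choose.1.1 h.choose.1.2 h.choose.2 else s0 (hubC H.1 e.1 i)) = p e he i
    rw [dif_pos h1]
    have h2 := h1.choose_spec
    obtain ⟨h3, h4⟩ := hubC_inj i.isLt h1.choose.2.isLt h2
    have h5 : h1.choose = (⟨e, he⟩, i) := by
      refine Prod.ext (Subtype.ext ?_) (Fin.ext h4.symm)
      exact (hH.lab_inj _ he _ h1.choose.1.2 h3).symm
    rw [h5]
  have hsl : ∀ o ≤ H.1, s o = s0 o := by
    intro o ho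
    show (if h : ∃ z : {e // e ∈ H.2.2} × Fin 5, o = hubC H.1 z.1.1.1 z.2 then
      p h.choose.1.1 h.choose.1.2 h.choose.2 else s0 o) = s0 o
    rw [dif_neg]
    rintro ⟨z, hz⟩
    unfold hubC at hz
    omega
  refine ⟨s, fun o => mem_St.1 ?_, fun l hl => ?_⟩
  · show s o ∈ V o
    by_cases h : ∃ z : {e // e ∈ H.2.2} × Fin 5, o = hubC H.1 z.1.1.1 z.2
    · obtain ⟨z, rfl⟩ := h
      rw [hsh z.1.1 z.1.2]
      exact (mem_al.1 (hp z.1.1 z.1.2 z.2).1).1
    · show (if h : ∃ z : {e // e ∈ H.2.2} × Fin 5, o = hubC H.1 z.1.1.1 z.2 then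
        p h.choose.1.1 h.choose.1.2 h.choose.2 else s0 o) ∈ V o
      rw [dif_neg h]
      exact hs0 o
  · refine not_not.1 (?_ : ¬ Q l.2.1 l.2.2 (s l.1) (s l.2.1))
    rcases mem_netL.1 hl with ⟨x, hx, c, hc, rfl⟩ | ⟨e, he, i, rfl | rfl | ⟨c, hc, rfl⟩⟩
    · show ¬ Q (x + 1) c (s 0) (s (x + 1))
      rw [hsl 0 (Nat.zero_le _), hsl (x + 1) hx, hs0z, hs0x]
      exact (mem_al.1 (hsn x)).2 c (Finset.mem_range.2 hc)
    · show ¬ Q (hubC H.1 e.1 i) 0 (s (hubC H.1 e.1 (i + 1 : Fin 5))) (s (hubC H.1 e.1 i))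
      rw [hsh e he, hsh e he]
      exact (hp e he i).2.2
    · show ¬ Q (hubC H.1 e.1 i) 1 (s (extC e.2 i)) (s (hubC H.1 e.1 i))
      rw [hsh e he, hsl _ (extC_le hH he i)]
      exact (hp e he i).2.1
    · show ¬ Q (hubC H.1 e.1 i) (c + 2) (s 0) (s (hubC H.1 e.1 i))
      rw [hsh e he, hsl 0 (Nat.zero_le _), hs0z]
      exact (mem_al.1 (hp e he i).1).2 c (Finset.mem_range.2 hc)

end yes

end Pool.Agent.MP_c07eba.AR
end

section
/-!
# The network of a hypergraph: no packings for unsatisfiable hypergraphs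
-/
namespace Pool.Agent.MP_c07eba.AR

open Pool.Agent.PolyTime
open Pool.Agent.MP_c07eba.KL Finset Function

variable {k : ℕ}

/-- The elements outside a small set can be enumerated. -/
theorem exists_enum {Q : Type*} [Finite Q] [Nonempty Q] (T : Set Q) (t N : ℕ)
    (hT : t ≤ T.ncard) (hN : Nat.card Q = N) : ∃ f : ℕ → Q, ∀ q ∉ T, ∃ c < N - t, f c = q := by
  classical
  obtain ⟨q0⟩ := ‹Nonempty Q›
  have e := Finite.equivFin (Tᶜ : Set Q)
  have hc : Nat.card (Tᶜ : Set Q) ≤ N - t := by
    have := Set.ncard_add_ncard_compl T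
    rw [hN] at this
    rw [Nat.card_coe_set_eq]
    omega
  refine ⟨fun c => if h : c < Nat.card (Tᶜ : Set Q) then (e.symm ⟨c, h⟩ : Q) else q0,
    fun q hq => ?_⟩
  refine ⟨e ⟨q, hq⟩, lt_of_lt_of_le (e ⟨q, hq⟩).isLt hc, ?_⟩
  dsimp only
  rw [dif_pos (e ⟨q, hq⟩).isLt]
  exact congrArg Subtype.val (e.symm_apply_apply ⟨q, hq⟩)

/-- A state of a vertex with the list `{0, …, k-1}` is given by a permutation. -/
theorem exists_pst {s : Fin k → ℕ} (hs : IsState (range k) s) :
    ∃ π : Equiv.Perm (Fin k), pst π = s := by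
  have hlt : ∀ i, s i < k := fun i => Finset.mem_range.1 (hs.mem i)
  have hinj : Injective fun i : Fin k => (⟨s i, hlt i⟩ : Fin k) := fun i j h =>
    hs.inj (congrArg Fin.val h)
  refine ⟨Equiv.ofBijective _ (Finite.injective_iff_bijective.1 hinj), ?_⟩
  ext i
  rfl

theorem odd_cycle {Q : Type*} {c1 c2 : Q} (θ : Fin 5 → Q) (h : ∀ i, θ i = c1 ∨ θ i = c2)
    (hne : ∀ i, θ (i + 1) ≠ θ i) : False := by
  have h0 := h 0
  have h1 := h 1
  have h2 := h 2
  have h3 := h 3
  have h4 := h 4
  have n0 : θ 1 ≠ θ 0 := hne 0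
  have n1 : θ 2 ≠ θ 1 := hne 1
  have n2 : θ 3 ≠ θ 2 := hne 2
  have n3 : θ 4 ≠ θ 3 := hne 3
  have n4 : θ 0 ≠ θ 4 := hne 4
  rcases h0 with h0 | h0 <;> rcases h1 with h1 | h1 <;> rcases h2 with h2 | h2 <;>
    rcases h3 with h3 | h3 <;> rcases h4 with h4 | h4 <;>
    simp_all

section no
variable {B : Gadget} {K : Subgroup (Equiv.Perm (Fin k))} {τ : Equiv.Perm (Fin k)}

/-- The graphs of unsatisfiable hypergraphs have no packings for some lists. -/
theorem arG_no (hB : IsLink k B K τ) {H : Hyp} (hH : HypOk H) (hS : ¬ SignSat H) :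
    ¬ Packable (arG B K.index H).graph k := by
  classical
  intro hP
  have hcard := Subgroup.card_mul_index K
  have hw : 0 < Nat.card K := Nat.card_pos
  have hN : 3 ≤ K.index := by
    by_contra hc
    have h1 := hB.three
    rw [← hcard] at h1
    have h2 : Nat.card K * K.index ≤ Nat.card K * 2 := Nat.mul_le_mul_left _ (by omega)
    omega
  -- the bad signing
  have hS' : ∃ sgn : ℕ → ℕ → Bool, ∀ v : ℕ → Bool, ∃ e ∈ H.2.2, ∀ r x, e.2[r]? = some x →
      v x = sgn e.1 r := by
    by_contra hc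
    push Not at hc
    apply hS
    intro sgn
    obtain ⟨v, hv⟩ := hc sgn
    exact ⟨v, hv⟩
  obtain ⟨sgn, hsgn⟩ := hS'
  -- the cosets
  let cs : Equiv.Perm (Fin k) → Equiv.Perm (Fin k) ⧸ K := fun g => QuotientGroup.mk g
  have hcs : ∀ a b, cs a = cs b ↔ a⁻¹ * b ∈ K := fun a b => QuotientGroup.eq
  have h01 : cs 1 ≠ cs τ⁻¹ := by
    intro h
    rw [hcs, inv_one, one_mul] at h
    exact hB.not_mem (by simpa using K.inv_mem h)
  have hfin : Nat.card (Equiv.Perm (Fin k) ⧸ K) = K.index := rfl
  obtain ⟨c2, hc2⟩ : ∃ c2, c2 ∉ ({cs 1, cs τ⁻¹} : Set (Equiv.Perm (Fin k) ⧸ K)) := by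
    by_contra hc
    push Not at hc
    have h1 : (Set.univ : Set (Equiv.Perm (Fin k) ⧸ K)) ⊆ {cs 1, cs τ⁻¹} := fun x _ => hc x
    have h2 := Set.ncard_le_ncard h1
    rw [Set.ncard_univ, hfin, Set.ncard_pair h01] at h2
    omega
  have hT2 : ({cs 1, cs τ⁻¹} : Set (Equiv.Perm (Fin k) ⧸ K)).ncard = 2 := Set.ncard_pair h01
  have hT3 : ({c2, cs 1, cs τ⁻¹} : Set (Equiv.Perm (Fin k) ⧸ K)).ncard = 3 := by
    rw [Set.ncard_insert_of_notMem hc2, hT2]
  obtain ⟨fN, hfN⟩ := exists_enum {cs 1, cs τ⁻¹} 2 K.index (by rw [hT2]) hfin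
  obtain ⟨fH, hfH⟩ := exists_enum {c2, cs 1, cs τ⁻¹} 3 K.index (by rw [hT3]) hfin
  -- the hidden lists
  choose Lk hk1 hk2 using hB.kill
  let bad : ℕ → Prop := fun o => ∃ e ∈ H.2.2, ∃ i : Fin 5, o = hubC H.1 e.1 i ∧
    (i : ℕ) < e.2.length ∧ sgn e.1 i = false
  let g : ℕ → ℕ → Equiv.Perm (Fin k) := fun o c =>
    if o ≤ H.1 then (fN c).out else if c = 0 then 1 else if c = 1 then
      (if bad o then τ else 1) else (fH (c - 2)).out
  obtain ⟨s, hs, hsl⟩ := of_packable_netG (netL_ok hH hN) hP (range k) (by simp)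
    (fun o c => Lk (g o c)) (fun o c h => hk1 _ h)
  choose π hπ using fun o => exists_pst (hs o)
  have key : ∀ l ∈ netL K.index H, (g l.2.1 l.2.2)⁻¹ * (π l.1 * (π l.2.1)⁻¹) ∉ K := by
    intro l hl hmem
    have h1 := hsl l hl
    rw [← hπ l.1, ← hπ l.2.1] at h1
    exact hk2 _ _ _ hmem h1
  -- relative cosets
  let θ : ℕ → Equiv.Perm (Fin k) ⧸ K := fun o => cs (π 0 * (π o)⁻¹)
  have hθ0 : θ 0 = cs 1 := by
    show cs (π 0 * (π 0)⁻¹) = cs 1
    rw [mul_inv_cancel]
  have root : ∀ o c, (0, (o, c)) ∈ netL K.index H → θ o ≠ cs (g o c) := by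
    intro o c hl h
    have h1 := key _ hl
    exact h1 ((hcs _ _).1 h.symm)
  have link1 : ∀ o' o c, (o', (o, c)) ∈ netL K.index H → g o c = 1 → θ o' ≠ θ o := by
    intro o' o c hl hg h
    have h1 := key _ hl
    apply h1
    show (g o c)⁻¹ * (π o' * (π o)⁻¹) ∈ K
    rw [hg, inv_one, one_mul]
    have h2 := (hcs _ _).1 h
    have e : (π 0 * (π o')⁻¹)⁻¹ * (π 0 * (π o)⁻¹) = π o' * (π o)⁻¹ := by group
    rw [← e]
    exact h2
  have linkt : ∀ o' o c, (o', (o, c)) ∈ netL K.index H → g o c = τ → θ o' = cs τ⁻¹ →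
      θ o ≠ cs 1 := by
    intro o' o c hl hg h h'
    have h1 := key _ hl
    apply h1
    show (g o c)⁻¹ * (π o' * (π o)⁻¹) ∈ K
    rw [hg]
    have h2 := (hcs _ _).1 h
    have h3 := (hcs _ _).1 h'
    have h4 : τ⁻¹ * ((π 0 * (π o')⁻¹)⁻¹ * τ⁻¹) * τ ∈ K := by
      rw [hB.norm]
      have e : τ * (τ⁻¹ * ((π 0 * (π o')⁻¹)⁻¹ * τ⁻¹) * τ) * τ⁻¹ =
        (π 0 * (π o')⁻¹)⁻¹ * τ⁻¹ := by group
      rw [e]
      exact h2
    have h5 := K.mul_mem h4 (K.inv_mem h3)
    have e : τ⁻¹ * ((π 0 * (π o')⁻¹)⁻¹ * τ⁻¹) * τ * ((π 0 * (π o)⁻¹)⁻¹ * 1)⁻¹ =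
        τ⁻¹ * (π o' * (π o)⁻¹) := by group
    rw [← e]
    exact h5
  -- values of `g`
  have gN : ∀ o c, o ≤ H.1 → g o c = (fN c).out := fun o c ho => if_pos ho
  have hub_gt : ∀ a (i : Fin 5), ¬ hubC H.1 a i ≤ H.1 := by
    intro a i
    unfold hubC
    omega
  have g0 : ∀ a (i : Fin 5), g (hubC H.1 a i) 0 = 1 := by
    intro a i
    show (if hubC H.1 a i ≤ H.1 then _ else if 0 = 0 then (1 : Equiv.Perm (Fin k)) else _) = 1
    rw [if_neg (hub_gt a i), if_pos rfl]
  have g1 : ∀ a (i : Fin 5), g (hubC H.1 a i) 1 = if bad (hubC H.1 a i) then τ else 1 := by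
    intro a i
    show (if hubC H.1 a i ≤ H.1 then _ else if 1 = 0 then (1 : Equiv.Perm (Fin k)) else
      if 1 = 1 then (if bad (hubC H.1 a i) then τ else 1) else _) = _
    rw [if_neg (hub_gt a i), if_neg one_ne_zero, if_pos rfl]
  have gH : ∀ a (i : Fin 5) c, g (hubC H.1 a i) (c + 2) = (fH c).out := by
    intro a i c
    show (if hubC H.1 a i ≤ H.1 then _ else if c + 2 = 0 then (1 : Equiv.Perm (Fin k)) else
      if c + 2 = 1 then (if bad (hubC H.1 a i) then τ else 1) else (fH (c + 2 - 2)).out) = _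
    rw [if_neg (hub_gt a i), if_neg (by omega), if_neg (by omega), Nat.add_sub_cancel]
  have hout : ∀ q : Equiv.Perm (Fin k) ⧸ K, cs q.out = q := fun q => QuotientGroup.out_eq' q
  -- the alive cosets
  have hnode : ∀ x < H.1, θ (x + 1) = cs 1 ∨ θ (x + 1) = cs τ⁻¹ := by
    intro x hx
    by_contra hc
    obtain ⟨c, hcl, hfc⟩ := hfN (θ (x + 1)) (by
      intro h
      exact hc (by simpa using h))
    apply root (x + 1) c (mem_netL.2 (Or.inl ⟨x, hx, c, hcl, rfl⟩))
    rw [gN _ _ hx, hout, hfc]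
  have hhub : ∀ e ∈ H.2.2, ∀ i : Fin 5, θ (hubC H.1 e.1 i) = c2 ∨
      θ (hubC H.1 e.1 i) = cs 1 ∨ θ (hubC H.1 e.1 i) = cs τ⁻¹ := by
    intro e he i
    by_contra hc
    obtain ⟨c, hcl, hfc⟩ := hfH (θ (hubC H.1 e.1 i)) (by
      intro h
      exact hc (by simpa using h))
    apply root (hubC H.1 e.1 i) (c + 2) (mem_netL.2 (Or.inr ⟨e, he, i, Or.inr (Or.inr
      ⟨c, hcl, rfl⟩)⟩))
    rw [gH, hout, hfc]
  -- a bad hyperedge
  obtain ⟨e, he, hbad⟩ := hsgn fun x => decide (θ (x + 1) = cs 1)
  have hne1 : ∀ i : Fin 5, θ (hubC H.1 e.1 i) ≠ cs 1 := by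
    intro i
    have hl : (extC e.2 i, (hubC H.1 e.1 i, 1)) ∈ netL K.index H :=
      mem_netL.2 (Or.inr ⟨e, he, i, Or.inr (Or.inl rfl)⟩)
    rcases extC_cases e.2 i with ⟨x, hx, hext⟩ | ⟨hlen, hext⟩
    · rw [hext] at hl
      have hv : decide (θ (x + 1) = cs 1) = sgn e.1 i := hbad i x hx
      have hxn : x < H.1 := hH.node_lt e he x (List.mem_of_getElem? hx)
      have hil : (i : ℕ) < e.2.length := (List.getElem?_eq_some_iff.1 hx).1
      cases hsg : sgn e.1 i
      · rw [hsg] at hv
        have h1 : θ (x + 1) ≠ cs 1 := of_decide_eq_false hv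
        have h2 : θ (x + 1) = cs τ⁻¹ := (hnode x hxn).resolve_left h1
        refine linkt _ _ _ hl ?_ h2
        rw [g1, if_pos]
        exact ⟨e, he, i, rfl, hil, hsg⟩
      · rw [hsg] at hv
        have h1 : θ (x + 1) = cs 1 := of_decide_eq_true hv
        have h2 := link1 _ _ _ hl (by
          rw [g1, if_neg]
          rintro ⟨e', he', i', h3, h4, h5⟩
          obtain ⟨h6, h7⟩ := hubC_inj i.isLt i'.isLt h3
          have h8 : e' = e := hH.lab_inj e' he' e he h6.symm
          have h9 : i' = i := Fin.ext h7.symm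
          rw [h8, h9, hsg] at h5
          exact absurd h5 (by simp))
        rw [h1] at h2
        exact h2.symm
    · rw [hext] at hl
      have h2 := link1 _ _ _ hl (by
          rw [g1, if_neg]
          rintro ⟨e', he', i', h3, h4, h5⟩
          obtain ⟨h6, h7⟩ := hubC_inj i.isLt i'.isLt h3
          have h8 : e' = e := hH.lab_inj e' he' e he h6.symm
          rw [h8, ← h7] at h4
          omega)
      rw [hθ0] at h2
      exact h2.symm
  refine odd_cycle (c1 := c2) (c2 := cs τ⁻¹) (fun i : Fin 5 => θ (hubC H.1 e.1 i)) (fun i => ?_)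
    (fun i => ?_)
  · rcases hhub e he i with h | h | h
    · exact Or.inl h
    · exact absurd h (hne1 i)
    · exact Or.inr h
  · exact link1 _ _ _ (mem_netL.2 (Or.inr ⟨e, he, i, Or.inl rfl⟩)) (g0 _ _)

end no

end Pool.Agent.MP_c07eba.AR
end

section
/-!
# The Cook–Levin theorem for the second level of the polynomial hierarchy

Every language in `Π₂ᵖ` reduces in polynomial time to `∀∃-3SAT`.  The tableau of the library is
used with arbitrary bits and an index which fixes the lengths of the words.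
-/
namespace Pool.Agent.MP_c07eba

open Function Turing Pool.Agent.PolyTime Pool.Agent.PathSys Polynomial Pool.Agent.CookLevin

/-! ### The tableau for given bits -/

section

variable {Q K G : Type} [DecidableEq K]

/-- The template with the given bits filled in. -/
def fill (b : ℕ → Bool) (t : List (ℕ × (Bool × Bool))) : List Bool :=
  t.map fun e => if b e.1 then e.2.2 else e.2.1

/-- The template without free bits. -/
def fillT (b : ℕ → Bool) (t : List (ℕ × (Bool × Bool))) : List (ℕ × (Bool × Bool)) :=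
  t.map fun e => (0, (if b e.1 then e.2.2 else e.2.1, if b e.1 then e.2.2 else e.2.1))

/-- The start configuration for given bits. -/
def startB (A : Tab Q K G) (t : List (ℕ × (Bool × Bool))) (b : ℕ → Bool) :
    Q × (K → List G) :=
  (A.q0, fun k => if k = A.k0 then ((fill b t).map A.gs).reverse else [])

theorem start_fillT (A : Tab Q K G) (t : List (ℕ × (Bool × Bool))) (b : ℕ → Bool)
    (w : List Bool) : start A (fun _ => fillT b t) w = startB A t b := by
  simp only [start, startB, inst, fill, fillT, List.map_map]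
  congr 1
  funext k
  congr 3
  funext e
  simp

/-- Forget the index and the bits. -/
def dropV (v : Fact Q K G → Bool) : Fact Q K G → Bool
  | .len j => decide (j = 0)
  | .chn j => decide (j = 0)
  | .bit _ => true
  | .ctl t q => v (.ctl t q)
  | .hgt t k j => v (.hgt t k j)
  | .cell t k j g => v (.cell t k j g)
  | .top t k o => v (.top t k o)
  | .rul t q o => v (.rul t q o)

/-- Put in the index and the bits. -/
def putV (v : Fact Q K G → Bool) (l : ℕ) (b : ℕ → Bool) : Fact Q K G → Bool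
  | .len j => decide (j = l)
  | .chn j => decide (j ≤ l)
  | .bit i => b i
  | .ctl t q => v (.ctl t q)
  | .hgt t k j => v (.hgt t k j)
  | .cell t k j g => v (.cell t k j g)
  | .top t k o => v (.top t k o)
  | .rul t q o => v (.rul t q o)

variable [Fintype Q] [Fintype K] [Fintype G] [DecidableEq Q] [DecidableEq G]

omit [DecidableEq Q] in
theorem good_dropV (A : Tab Q K G) (N H P : ℕ) (T : ℕ → List (ℕ × (Bool × Bool)))
    (v : Fact Q K G → Bool) (hv : Good v (tableau A N H P T)) (l : ℕ) (hl : l ≤ P)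
    (hvl : v (.len l) = true) :
    Good (dropV v) (tableau A N H 0 fun _ => fillT (fun i => v (.bit i)) (T l)) := by
  simp only [tableau, cTop, cRul, cFix, cIni, good_append, good_flatMap, good_singleton,
    csat_i1, csat_i2, csat_i3, csat_i4, csat_fc, csat_nc] at hv ⊢
  obtain ⟨⟨⟨⟨⟨a1, a2⟩, ⟨⟨⟨b1, b2⟩, b3⟩, b4⟩⟩, ⟨c1, c2⟩⟩,
    ⟨⟨⟨⟨⟨⟨⟨d1, d2⟩, d3⟩, d4⟩, d5⟩, d6⟩, d7⟩, d8⟩⟩, e1⟩ := hv
  have hlr : l ∈ List.range (P + 1) := List.mem_range.2 (by omega)
  refine ⟨⟨⟨⟨⟨a1, a2⟩, ⟨⟨⟨b1, b2⟩, b3⟩, ?_⟩⟩, ⟨?_, c2⟩⟩,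
    ⟨⟨⟨⟨⟨⟨⟨d1, ?_⟩, ?_⟩, ?_⟩, ?_⟩, ?_⟩, ?_⟩, ?_⟩⟩, e1⟩
  · intro q hq o ho g hg
    have := b4 q hq o ho g hg
    split
    · rename_i h
      rw [if_pos h] at this
      simp only [good_flatMap, good_singleton, csat_i2] at this ⊢
      exact this
    · exact good_nil
  · intro q hq k hk
    have := c1 q hq k hk
    split
    · exact good_nil
    · rename_i h
      rw [if_neg h] at this
      simp only [good_flatMap, good_singleton, csat_i2] at this ⊢
      exact this
  · intro k hk
    have := d2 k hk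
    split
    · exact good_nil
    · rename_i h
      rw [if_neg h] at this
      rw [good_singleton, csat_fc] at this ⊢
      exact this
  · intro l' _ _
    have := d3 l hlr hvl
    simp only [fillT, List.length_map]
    exact this
  · intro l' _ e he _ _
    simp only [fillT, List.zipIdx_map, List.mem_map] at he
    obtain ⟨e', he', rfl⟩ := he
    have g4 := d4 l hlr e' he' hvl
    have g5 := d5 l hlr e' he' hvl
    simp only [Prod.map]
    by_cases hb : v (.bit e'.1.1) = true
    · simp only [hb, if_true]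
      exact g4 hb
    · simp only [hb]
      exact g5.resolve_left hb
  · intro l' _ e he _
    exact .inl rfl
  · simp [dropV]
  · intro l' hl' _
    left
    simpa [dropV] using hl'
  · simp [dropV]

/-- If the formula is satisfied, then the run for its bits avoids the given output. -/
theorem run_of_goodB (A : Tab Q K G) (N H P : ℕ) (T : ℕ → List (ℕ × (Bool × Bool)))
    (v : Fact Q K G → Bool) (hv : Good v (tableau A N H P T)) (l : ℕ) (hl : l ≤ P)
    (hT : (T l).length + N < H) (hvl : v (.len l) = true) :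
    (A.M.run (startB A (T l) fun i => v (.bit i)) N).2 A.k1 ≠ [A.gF] := by
  obtain ⟨w, hw, h⟩ := run_of_good A N H 0 _ (by simpa [fillT] using hT)
    (fun _ _ e he => by
      obtain ⟨e', -, rfl⟩ := List.mem_map.1 he
      exact .inr rfl) _ (good_dropV A N H P T v hv l hl hvl)
  rw [start_fillT] at h
  exact h

omit [DecidableEq Q] in
/-- Some index is chosen. -/
theorem exists_len (A : Tab Q K G) (N H P : ℕ) (T : ℕ → List (ℕ × (Bool × Bool)))
    (v : Fact Q K G → Bool) (hv : Good v (tableau A N H P T)) :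
    ∃ l ≤ P, v (.len l) = true := by
  simp only [tableau, cIni, good_append, good_flatMap, good_singleton,
    csat_i1, csat_i2, csat_i3, csat_i4, csat_fc, csat_nc] at hv
  obtain ⟨⟨-, ⟨⟨⟨-, d6⟩, d7⟩, d8⟩⟩, -⟩ := hv
  by_contra hno
  have hno' : ∀ l ≤ P, ¬ v (.len l) = true := fun l hl h => hno ⟨l, hl, h⟩
  have h : ∀ l ≤ P + 1, v (.chn l) = true := by
    intro l
    induction l with
    | zero => intro _; exact d6
    | succ l ih =>
      intro hl
      rcases d7 l (List.mem_range.2 (by omega)) (ih (by omega)) with h | h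
      · exact absurd h (hno' l (by omega))
      · exact h
  rw [h (P + 1) le_rfl] at d8
  exact absurd d8 (by simp)

/-- If the run for some bits avoids the given output, then the formula is satisfied for these
bits. -/
theorem good_of_runB (A : Tab Q K G) (N H P : ℕ) (T : ℕ → List (ℕ × (Bool × Bool)))
    (b : ℕ → Bool) (l : ℕ) (hl : l ≤ P)
    (hout : (A.M.run (startB A (T l) b) N).2 A.k1 ≠ [A.gF]) :
    ∃ v : Fact Q K G → Bool, Good v (tableau A N H P T) ∧ (∀ i, v (.bit i) = b i) ∧
      ∀ j, v (.len j) = decide (j = l) := by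
  have hv := good_val A N H 0 (fun _ => fillT b (T l)) [] (Nat.zero_le _) (by
    rw [start_fillT]; exact hout)
  set v0 := val A.M (A.M.run (start A (fun _ => fillT b (T l)) [])) [] with hv0
  refine ⟨putV v0 l b, ?_, fun _ => rfl, fun _ => rfl⟩
  simp only [tableau, cTop, cRul, cFix, cIni, good_append, good_flatMap, good_singleton,
    csat_i1, csat_i2, csat_i3, csat_i4, csat_fc, csat_nc] at hv ⊢
  obtain ⟨⟨⟨⟨⟨a1, a2⟩, ⟨⟨⟨b1, b2⟩, b3⟩, b4⟩⟩, ⟨c1, c2⟩⟩,
    ⟨⟨⟨⟨⟨⟨⟨d1, d2⟩, d3⟩, d4⟩, d5⟩, d6⟩, d7⟩, d8⟩⟩, e1⟩ := hv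
  have h0 : 0 ∈ List.range (0 + 1) := by simp
  have hcell : ∀ e ∈ (T l).zipIdx,
      v0 (.cell 0 A.k0 e.2 (A.gs (if b e.1.1 then e.1.2.2 else e.1.2.1))) = true := by
    intro e he
    have hm : ((0, (if b e.1.1 then e.1.2.2 else e.1.2.1,
        if b e.1.1 then e.1.2.2 else e.1.2.1)), e.2) ∈ (fillT b (T l)).zipIdx := by
      simp only [fillT, List.zipIdx_map, List.mem_map]
      exact ⟨e, he, rfl⟩
    exact (d5 0 h0 _ hm rfl).resolve_left (by simp [hv0, val])
  refine ⟨⟨⟨⟨⟨a1, a2⟩, ⟨⟨⟨b1, b2⟩, b3⟩, ?_⟩⟩, ⟨?_, c2⟩⟩,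
    ⟨⟨⟨⟨⟨⟨⟨d1, ?_⟩, ?_⟩, ?_⟩, ?_⟩, ?_⟩, ?_⟩, ?_⟩⟩, e1⟩
  · intro q hq o ho g hg
    have := b4 q hq o ho g hg
    split
    · rename_i h
      rw [if_pos h] at this
      simp only [good_flatMap, good_singleton, csat_i2] at this ⊢
      exact this
    · exact good_nil
  · intro q hq k hk
    have := c1 q hq k hk
    split
    · exact good_nil
    · rename_i h
      rw [if_neg h] at this
      simp only [good_flatMap, good_singleton, csat_i2] at this ⊢
      exact this
  · intro k hk
    have := d2 k hk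
    split
    · exact good_nil
    · rename_i h
      rw [if_neg h] at this
      rw [good_singleton, csat_fc] at this ⊢
      exact this
  · intro j _ hj
    simp only [putV, decide_eq_true_eq] at hj
    subst hj
    have := d3 0 h0 rfl
    simp only [fillT, List.length_map] at this
    exact this
  · intro j _ e he hj hb
    simp only [putV, decide_eq_true_eq] at hj hb
    subst hj
    have := hcell e he
    rw [if_pos hb] at this
    exact this
  · intro j _ e he hj
    simp only [putV, decide_eq_true_eq] at hj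
    subst hj
    by_cases hb : b e.1.1 = true
    · exact .inl hb
    · right
      have := hcell e he
      rw [if_neg hb] at this
      exact this
  · simp [putV]
  · intro j _ hj
    simp only [putV, decide_eq_true_eq] at hj ⊢
    omega
  · simp only [putV, decide_eq_false_iff_not]
    omega

end

/-! ### The encoding of a triple of bit strings -/

/-- The encoding of a triple of bit strings. -/
def encTriple (x y z : List Bool) : List Bool :=
  N487b59b3.delimit (bits3 x) ++ (N487b59b3.delimit (bits3 y) ++ bits3 z)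

theorem bitEncode_triple (x y z : List Bool) :
    N487b59b3.bitEncode (x, (y, z)) = encTriple x y z := by
  show N487b59b3.delimit (N487b59b3.bitEncode x) ++ N487b59b3.bitEncode (y, z) = _
  rw [bitEncode_list, bitEncode_pair]; rfl

theorem length_encTriple (x y z : List Bool) :
    (encTriple x y z).length = 6 * x.length + 6 * y.length + 3 * z.length + 2 := by
  simp only [encTriple, List.length_append, N487b59b3.length_delimit, length_bits3]
  ring

/-- The template of a bit of `y`. -/
def ty (i : ℕ) : List (ℕ × (Bool × Bool)) :=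
  [(0, (true, true)), (0, (true, true)), (0, (true, true)), (3 * i, (false, true)),
    (0, (true, true)), (0, (false, false))]

/-- The template of a bit of `z`. -/
def tz (i : ℕ) : List (ℕ × (Bool × Bool)) :=
  [(0, (true, true)), (3 * i + 2, (false, true)), (0, (false, false))]

/-- The template of the encoding of a triple, of which the second and the third component are
words with given lengths. -/
def tmpl3 (x : List Bool) (m l : ℕ) : List (ℕ × (Bool × Bool)) :=
  (N487b59b3.delimit (bits3 x)).map (fun b => (0, (b, b))) ++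
    ((List.range m).flatMap ty ++ ((0, (false, false)) :: (List.range l).flatMap tz))

theorem fill_tmpl3 (b : ℕ → Bool) (x : List Bool) (m l : ℕ) :
    fill b (tmpl3 x m l) = encTriple x ((List.range m).map fun i => b (3 * i))
      ((List.range l).map fun i => b (3 * i + 2)) := by
  rw [fill, tmpl3, List.map_append, encTriple]
  congr 1
  · rw [List.map_map]
    conv_rhs => rw [← List.map_id (N487b59b3.delimit (bits3 x))]
    apply List.map_congr_left
    intro c _
    simp
  · rw [List.map_append, List.map_cons, List.map_flatMap, List.map_flatMap, delimit_eq, bits3,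
      bits3, List.flatMap_assoc, List.flatMap_map, List.flatMap_map, List.append_assoc]
    congr 1
    · congr 1
      funext i
      simp only [ty, List.map_cons, List.map_nil, ite_self, List.flatMap_cons, List.flatMap_nil]
      cases b (3 * i) <;> simp
    · simp only [ite_self, List.cons_append, List.nil_append, List.cons.injEq, true_and]
      congr 1
      funext i
      simp only [tz, List.map_cons, List.map_nil, ite_self]
      cases b (3 * i + 2) <;> simp

theorem length_tmpl3 (x : List Bool) (m l : ℕ) :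
    (tmpl3 x m l).length = 6 * x.length + 6 * m + 3 * l + 2 := by
  have h := congrArg List.length (fill_tmpl3 (fun _ => false) x m l)
  rw [fill, List.length_map, length_encTriple] at h
  simpa using h

theorem pt_tmpl3 : PT (fun p : List Bool × (ℕ × ℕ) => tmpl3 p.1 p.2.1 p.2.2) := by
  refine PT.append (PT.map (PT.delimit (PT.bits3 PT.id.fst))
    (PT.pair (PT.const 0) (PT.pair PT.id.snd PT.id.snd))) (PT.append ?_ (PT.cons (PT.const _) ?_))
  · refine PT.flatRange PT.id.snd.fst ?_
    refine PT.cons (PT.const _) (PT.cons (PT.const _) (PT.cons (PT.const _) (PT.cons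
      (PT.pair ?_ (PT.const _)) (PT.const _))))
    exact PT.mul (PT.const 3) PT.id.snd
  · refine PT.flatRange PT.id.snd.snd ?_
    refine PT.cons (PT.const _) (PT.cons (PT.pair ?_ (PT.const _)) (PT.const _))
    exact PT.add (PT.mul (PT.const 3) PT.id.snd) (PT.const 2)

/-! ### Formulas -/

section

variable {Q K G : Type} [Fintype Q] [Fintype K] [Fintype G]

theorem pt_toCNF {α : Type} [PolyTime.Rep α] {F : α → List (Cls Q K G)} (h : PT F) :
    PT (fun a => toCNF (F a)) := by
  have hn : PT (fun f : Fact Q K G => num f) := PT.id (α := Fact Q K G)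
  have hl : PT (fun f : FLit Q K G => numL f) := PT.pair
    (PT.comp (g := fun f : Fact Q K G => num f) (f := fun p : FLit Q K G => p.1) hn PT.id.fst)
    PT.id.snd
  refine PT.map h ?_
  refine PT.pair ?_ (PT.pair ?_ ?_)
  · exact PT.comp (g := fun f : FLit Q K G => numL f)
      (f := fun p : α × Cls Q K G => p.2.1) hl PT.id.snd.fst
  · exact PT.comp (g := fun f : FLit Q K G => numL f)
      (f := fun p : α × Cls Q K G => p.2.2.1) hl PT.id.snd.snd.fst
  · exact PT.comp (g := fun f : FLit Q K G => numL f)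
      (f := fun p : α × Cls Q K G => p.2.2.2) hl PT.id.snd.snd.snd

theorem sat_toCNF (φ : List (Cls Q K G)) (v : ℕ → Bool) :
    (∀ c ∈ toCNF φ, litVal v c.1 ∨ litVal v c.2.1 ∨ litVal v c.2.2) ↔
      Good (fun f => v (num f)) φ := by
  simp only [toCNF, List.mem_map, forall_exists_index, and_imp, forall_apply_eq_imp_iff₂]
  rfl

variable [DecidableEq K] [DecidableEq G] [DecidableEq Q]

theorem pt_tableau' {α : Type} [PolyTime.Rep α] (A : Tab Q K G) {N H P : α → ℕ} (hN : PT N)
    (hH : PT H) (hP : PT P) {T : α → ℕ → List (ℕ × (Bool × Bool))}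
    (hT : PT (fun p : α × ℕ => T p.1 p.2)) :
    PT (fun a => tableau A (N a) (H a) (P a) (T a)) :=
  PT.append (PT.append (PT.append (PT.append (pt_cTop hN hH) (pt_cRul A.M hN hH))
      (pt_cFix A.M hN hH)) (pt_cIni A hP hT))
      (PT.single (pt_i4 (pt_hgt hN _ (PT.const 1)) (pt_cell hN _ (PT.const 0) _)))

end

/-! ### The machine of a relation -/

/-- A relation which is computable in polynomial time is either always true or it is described
by a machine with small steps and an output to be avoided. -/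
theorem exists_tab {R : List Bool × (List Bool × List Bool) → Bool}
    (hR : N68a2faeb.IsPolyTime R) :
    (∀ t, R t = true) ∨
    ∃ (Q K G : Type) (_ : Fintype Q) (_ : Fintype K) (_ : Fintype G) (_ : DecidableEq Q)
      (_ : DecidableEq K) (_ : DecidableEq G) (A : Tab Q K G) (c : ℕ) (τ : Polynomial ℕ),
      ∀ (x y z : List Bool) (n N : ℕ), (encTriple x y z).length ≤ n → c * τ.eval n ≤ N →
        (R (x, (y, z)) = true ↔
          (A.M.run (A.q0, fun k => if k = A.k0 then (encTriple x y z).map A.gs else []) N).2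
            A.k1 ≠ [A.gF]) := by
  classical
  obtain ⟨C⟩ := hR
  set tm := C.tm with htm
  set sF : Σ k, tm.Γ k := ⟨tm.k₁, C.outputAlphabet.symm false⟩ with hsF
  set st : List Bool → List Bool → List Bool → Qt tm × (tm.K → List (Gt tm)) := fun x y z =>
    (q0 tm, fun k => if k = tm.k₀ then
      ((encTriple x y z).map C.inputAlphabet.symm).map (inSym tm) else []) with hst
  have hout : ∀ x y z n N, (encTriple x y z).length ≤ n → cost tm * C.time.eval n ≤ N →
      (((mach tm).run (st x y z) N).2 tm.k₁).map Subtype.val =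
        [(⟨tm.k₁, C.outputAlphabet.symm (R (x, (y, z)))⟩ : Σ k, tm.Γ k)] := by
    intro x y z n N hn hN
    have h1 := C.outputsFun (x, (y, z))
    have h2 : (N487b59b3.toEncoding (α := List Bool × (List Bool × List Bool))).encode
      (x, (y, z)) = encTriple x y z := bitEncode_triple x y z
    rw [h2] at h1
    exact output h1 ((Nat.mul_le_mul_left _ (poly_mono _ hn)).trans hN)
  by_cases hF : sF ∈ sym tm
  · right
    refine ⟨Qt tm, tm.K, Gt tm, inferInstance, inferInstance, inferInstance, inferInstance,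
      inferInstance, inferInstance,
      { M := mach tm
        q0 := q0 tm
        k0 := tm.k₀
        k1 := tm.k₁
        gs := fun b => inSym tm (C.inputAlphabet.symm b)
        gF := ⟨sF, hF⟩ }, cost tm, C.time, ?_⟩
    intro x y z n N hn hN
    have hstart : (q0 tm, fun k => if k = tm.k₀ then
        (encTriple x y z).map (fun b => inSym tm (C.inputAlphabet.symm b)) else []) =
        st x y z := by
      rw [hst]
      dsimp only
      congr 1
      funext k
      congr 1
      rw [List.map_map]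
      rfl
    dsimp only
    rw [hstart]
    have h := hout x y z n N hn hN
    constructor
    · intro hr h2
      have h3 : (((mach tm).run (st x y z) N).2 tm.k₁).map Subtype.val = [sF] := by
        have h4 : ((mach tm).run (st x y z) N).2 tm.k₁ = [⟨sF, hF⟩] := h2
        rw [h4]; rfl
      rw [h, hr, hsF] at h3
      have h5 := eq_of_heq (Sigma.mk.inj (List.cons.inj h3).1).2
      exact absurd (C.outputAlphabet.symm.injective h5) (by simp)
    · intro h2
      by_contra hr
      rw [Bool.not_eq_true] at hr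
      rw [hr] at h
      apply h2
      apply List.map_injective_iff.2 Subtype.val_injective
      exact h
  · left
    rintro ⟨x, y, z⟩
    by_contra hr
    rw [Bool.not_eq_true] at hr
    have h := hout x y z _ _ le_rfl le_rfl
    rw [hr] at h
    obtain ⟨g, l, h1, h2, -⟩ := List.map_eq_cons_iff.1 h
    apply hF
    have := g.2
    rw [h2] at this
    exact this

/-- The start configuration of the template of a triple. -/
theorem startB_tmpl3 {Q K G : Type} [DecidableEq K] (A : Tab Q K G) (b : ℕ → Bool)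
    (x : List Bool) (m l : ℕ) :
    startB A (tmpl3 x m l).reverse b = (A.q0, fun k => if k = A.k0 then
      (encTriple x ((List.range m).map fun i => b (3 * i))
        ((List.range l).map fun i => b (3 * i + 2))).map A.gs else []) := by
  rw [startB, ← fill_tmpl3]
  simp only [fill, List.map_reverse, List.reverse_reverse]

theorem map_range_getD (z : List Bool) (m : ℕ) (h : z.length = m) :
    ((List.range m).map fun i => z.getD i false) = z := by
  subst h
  apply List.ext_getElem
  · simp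
  · intro i h1 h2
    simp [h2]

/-- The bits for given universal bits and a word `z`. -/
def bitsOf (z : List Bool) (u : ℕ → Bool) (j : ℕ) : Bool :=
  if j % 3 = 2 then z.getD (j / 3) false else u j

theorem bitsOf_zero (z : List Bool) (u : ℕ → Bool) (i : ℕ) :
    bitsOf z u (3 * i) = u (3 * i) := by
  rw [bitsOf, if_neg (by omega)]

theorem bitsOf_one (z : List Bool) (u : ℕ → Bool) (i : ℕ) :
    bitsOf z u (3 * i + 1) = u (3 * i + 1) := by
  rw [bitsOf, if_neg (by omega)]

theorem bitsOf_two (z : List Bool) (u : ℕ → Bool) (i : ℕ) :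
    bitsOf z u (3 * i + 2) = z.getD i false := by
  rw [bitsOf, if_pos (by omega)]
  congr 1
  omega

/-! ### The theorem for words of given lengths -/

/-- **The Cook–Levin theorem for `Π₂ᵖ`.** -/
theorem pi2_cookLevin {L : List Bool → Bool} (hL : L ∈ Pi2P) :
    ∃ f : List Bool → List ℕ × CNF3, PT f ∧ ∀ x, L x = true ↔ QSat2 (f x) := by
  obtain ⟨p, q, R, hR, hL⟩ := hL
  rcases exists_tab hR with h | ⟨Q, K, G, _, _, _, _, _, _, A, c, τ, hA⟩
  · refine ⟨fun _ => ([], []), PT.const _, fun x => ?_⟩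
    rw [hL]
    constructor
    · intro _ u
      exact ⟨u, by simp, by simp⟩
    · intro _ y _
      exact ⟨List.replicate (q.eval x.length) false, by simp, h _⟩
  · set n : List Bool → ℕ := fun x =>
      6 * x.length + 6 * p.eval x.length + 3 * q.eval x.length + 2 with hn
    set N : List Bool → ℕ := fun x => c * τ.eval (n x) with hN
    set T : List Bool → ℕ → List (ℕ × (Bool × Bool)) := fun x _ =>
      (tmpl3 x (p.eval x.length) (q.eval x.length)).reverse with hT
    have hTl : ∀ x l, (T x l).length = n x := fun x l => by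
      simp only [hT, List.length_reverse, length_tmpl3, hn]
    refine ⟨fun x => ((List.range (p.eval x.length)).map
      (fun i => num (.bit (3 * i) : Fact Q K G)),
      toCNF (tableau A (N x) (n x + N x + 1) 0 (T x))), ?_, ?_⟩
    · have hlen : PT (fun x : List Bool => x.length) := PT.length PT.id
      have hpp : PT (fun x : List Bool => p.eval x.length) := PT.polyEval p hlen
      have hpq : PT (fun x : List Bool => q.eval x.length) := PT.polyEval q hlen
      have hpn : PT n := PT.add (PT.add (PT.add (PT.mul (PT.const 6) hlen)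
        (PT.mul (PT.const 6) hpp)) (PT.mul (PT.const 3) hpq)) (PT.const 2)
      have hpN : PT N := PT.mul (PT.const _) (PT.polyEval τ hpn)
      refine PT.pair (PT.map (PT.range hpp) ?_) (pt_toCNF (pt_tableau' A hpN
        (PT.succ (PT.add hpn hpN)) (PT.const 0) ?_))
      · exact pt_bit (PT.mul (PT.const 3) PT.id.snd)
      · exact PT.reverse (PT.comp (g := fun p : List Bool × (ℕ × ℕ) => tmpl3 p.1 p.2.1 p.2.2)
          (f := fun a : List Bool × ℕ => (a.1, (p.eval a.1.length, q.eval a.1.length)))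
          pt_tmpl3 (PT.comp (f := Prod.fst)
            (g := fun x : List Bool => (x, (p.eval x.length, q.eval x.length)))
            (PT.pair PT.id (PT.pair hpp hpq)) PT.id.fst))
    · intro x
      rw [hL]
      constructor
      · intro h u
        obtain ⟨z, hz, hr⟩ := h ((List.range (p.eval x.length)).map
          fun i => u (num (.bit (3 * i) : Fact Q K G))) (by simp)
        set b : ℕ → Bool := bitsOf z fun j => u (num (.bit j : Fact Q K G)) with hb
        have hout : (A.M.run (startB A (T x 0) b) (N x)).2 A.k1 ≠ [A.gF] := by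
          rw [hT, startB_tmpl3, hb]
          simp only [bitsOf_zero, bitsOf_two]
          rw [map_range_getD z _ hz]
          refine (hA x _ z (n x) (N x) ?_ le_rfl).1 hr
          rw [length_encTriple, List.length_map, List.length_range, hz]
        obtain ⟨v, hv, hvb, -⟩ := good_of_runB A (N x) (n x + N x + 1) 0 (T x) b 0 le_rfl hout
        refine ⟨extend num v (fun _ => false), ?_, ?_⟩
        · intro i hi
          obtain ⟨j, hj, rfl⟩ := List.mem_map.1 hi
          rw [num_injective.extend_apply, hvb, hb, bitsOf_zero]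
        · rw [sat_toCNF]
          simp only [num_injective.extend_apply]
          exact hv
      · intro h y hy
        obtain ⟨v', hv', hc⟩ := h (extend (num : Fact Q K G → ℕ)
          (fun f => match f with
            | .bit j => y.getD (j / 3) false
            | _ => false) (fun _ => false))
        rw [sat_toCNF] at hc
        set v : Fact Q K G → Bool := fun f => v' (num f) with hv
        have hvb : ∀ i < p.eval x.length, v (.bit (3 * i)) = y.getD i false := by
          intro i hi
          rw [hv]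
          dsimp only
          rw [hv' _ (List.mem_map.2 ⟨i, List.mem_range.2 hi, rfl⟩),
            num_injective.extend_apply]
          dsimp only
          congr 1
          omega
        obtain ⟨l, hl, hvl⟩ := exists_len A _ _ _ _ v hc
        obtain rfl : l = 0 := by omega
        have hout := run_of_goodB A _ _ _ _ v hc 0 le_rfl (by rw [hTl x 0]; omega) hvl
        rw [hT, startB_tmpl3] at hout
        have hy' : ((List.range (p.eval x.length)).map fun i => v (.bit (3 * i))) = y := by
          conv_rhs => rw [← map_range_getD y _ hy]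
          apply List.map_congr_left
          intro i hi
          exact hvb i (List.mem_range.1 hi)
        rw [hy'] at hout
        refine ⟨(List.range (q.eval x.length)).map fun i => v (.bit (3 * i + 2)),
          by rw [List.length_map, List.length_range], (hA x y _ (n x) (N x) ?_ le_rfl).2 hout⟩
        rw [length_encTriple, List.length_map, List.length_range, hy]

/-! ### The theorem for words of bounded lengths -/

section

variable {Q K G : Type}

/-- The clauses which force the index to fit the universal length: the index is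
`m * (k + 1) + l`, where `m` is the first number with `¬ bit (3 m + 1)`, or `a`. -/
def cLen (a k P : ℕ) : List (Cls Q K G) :=
  (List.range (P + 1)).flatMap fun j => (List.range a).flatMap fun i =>
    if i < j / (k + 1) then [i1 (.len j) (.bit (3 * i + 1))]
    else if i = j / (k + 1) then [i4 (.len j) (.bit (3 * i + 1))] else []

theorem good_cLen {a k P : ℕ} {v : Fact Q K G → Bool} :
    Good v (cLen a k P) ↔ ∀ j ≤ P, v (.len j) = true →
      (∀ i < a, i < j / (k + 1) → v (.bit (3 * i + 1)) = true) ∧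
      (j / (k + 1) < a → v (.bit (3 * (j / (k + 1)) + 1)) = false) := by
  rw [cLen, good_flatMap]
  simp only [List.mem_range, Nat.lt_succ_iff, good_flatMap]
  constructor
  · intro h j hj hv
    refine ⟨fun i hi hij => ?_, fun hja => ?_⟩
    · have := h j hj i hi
      rw [if_pos hij, good_singleton, csat_i1] at this
      exact this hv
    · have := h j hj _ hja
      rw [if_neg (lt_irrefl _), if_pos rfl, good_singleton, csat_i4] at this
      by_contra hb
      exact this ⟨hv, by simpa using hb⟩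
  · intro h j hj i hi
    by_cases h1 : i < j / (k + 1)
    · rw [if_pos h1, good_singleton, csat_i1]
      exact fun hv => (h j hj hv).1 i hi h1
    · rw [if_neg h1]
      by_cases h2 : i = j / (k + 1)
      · rw [if_pos h2, good_singleton, csat_i4]
        rintro ⟨hv, hb⟩
        have := (h j hj hv).2 (h2 ▸ hi)
        rw [← h2, hb] at this
        exact absurd this (by simp)
      · rw [if_neg h2]
        exact good_nil

theorem pt_cLen [Fintype Q] [Fintype K] [Fintype G] {α : Type} [PolyTime.Rep α]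
    {a k P : α → ℕ} (ha : PT a) (hk : PT k) (hP : PT P) :
    PT (fun x => (cLen (a x) (k x) (P x) : List (Cls Q K G))) := by
  refine PT.flatRange hP.succ (PT.flatRange (PT.comp (f := Prod.fst) ha PT.id.fst) ?_)
  have hk' : PT (fun p : (α × ℕ) × ℕ => k p.1.1) :=
    PT.comp (f := fun p : (α × ℕ) × ℕ => p.1.1) hk PT.id.fst.fst
  have hd : PT (fun p : (α × ℕ) × ℕ => p.1.2 / (k p.1.1 + 1)) :=
    PT.div PT.id.fst.snd hk'.succ
  have hb : PT (fun p : (α × ℕ) × ℕ => (.bit (3 * p.2 + 1) : Fact Q K G)) :=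
    pt_bit (PT.succ (PT.mul (PT.const 3) PT.id.snd))
  exact PT.iteProp (PT.lt PT.id.snd hd) (PT.single (pt_i1 (pt_len PT.id.fst.snd) hb))
    (PT.iteProp (PT.natEq PT.id.snd hd) (PT.single (pt_i4 (pt_len PT.id.fst.snd) hb))
      (PT.const []))

end

/-- **The Cook–Levin theorem for `Π₂ᵖ`**, with words of bounded lengths. -/
theorem pi2_cookLevin_le {L : List Bool → Bool} (hL : L ∈ Pi2Ple) :
    ∃ f : List Bool → List ℕ × CNF3, PT f ∧ ∀ x, L x = true ↔ QSat2 (f x) := by
  obtain ⟨p, q, R, hR, hL⟩ := hL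
  rcases exists_tab hR with h | ⟨Q, K, G, _, _, _, _, _, _, A, c, τ, hA⟩
  · refine ⟨fun _ => ([], []), PT.const _, fun x => ?_⟩
    rw [hL]
    constructor
    · intro _ u
      exact ⟨u, by simp, by simp⟩
    · intro _ y _
      exact ⟨[], by simp, h _⟩
  · set n : List Bool → ℕ := fun x =>
      6 * x.length + 6 * p.eval x.length + 3 * q.eval x.length + 2 with hn
    set N : List Bool → ℕ := fun x => c * τ.eval (n x) with hN
    set P : List Bool → ℕ := fun x =>
      p.eval x.length * (q.eval x.length + 1) + q.eval x.length with hP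
    set T : List Bool → ℕ → List (ℕ × (Bool × Bool)) := fun x j =>
      (tmpl3 x (j / (q.eval x.length + 1)) (j % (q.eval x.length + 1))).reverse with hT
    have hdiv : ∀ x j, j ≤ P x → j / (q.eval x.length + 1) ≤ p.eval x.length := by
      intro x j hj
      rw [hP] at hj
      dsimp only at hj
      apply Nat.le_of_lt_succ
      rw [Nat.div_lt_iff_lt_mul (Nat.succ_pos _)]
      calc j ≤ _ := hj
        _ < _ := by rw [Nat.succ_mul, Nat.succ_eq_add_one]; omega
    have hmod : ∀ (x : List Bool) (j : ℕ), j % (q.eval x.length + 1) ≤ q.eval x.length :=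
      fun x j => Nat.le_of_lt_succ (Nat.mod_lt _ (Nat.succ_pos _))
    have hTl : ∀ x j, j ≤ P x → (T x j).length ≤ n x := fun x j hj => by
      have h1 := hdiv x j hj
      have h2 := hmod x j
      simp only [hT, List.length_reverse, length_tmpl3, hn]
      omega
    refine ⟨fun x => ((List.range (p.eval x.length)).flatMap
      (fun i => [num (.bit (3 * i) : Fact Q K G), num (.bit (3 * i + 1) : Fact Q K G)]),
      toCNF (tableau A (N x) (n x + N x + 1) (P x) (T x) ++
        cLen (p.eval x.length) (q.eval x.length) (P x))), ?_, ?_⟩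
    · have hlen : PT (fun x : List Bool => x.length) := PT.length PT.id
      have hpp : PT (fun x : List Bool => p.eval x.length) := PT.polyEval p hlen
      have hpq : PT (fun x : List Bool => q.eval x.length) := PT.polyEval q hlen
      have hpn : PT n := PT.add (PT.add (PT.add (PT.mul (PT.const 6) hlen)
        (PT.mul (PT.const 6) hpp)) (PT.mul (PT.const 3) hpq)) (PT.const 2)
      have hpN : PT N := PT.mul (PT.const _) (PT.polyEval τ hpn)
      have hpP : PT P := PT.add (PT.mul hpp hpq.succ) hpq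
      have hq1 : PT (fun a : List Bool × ℕ => q.eval a.1.length + 1) :=
        PT.comp (f := Prod.fst) hpq.succ PT.id.fst
      refine PT.pair (PT.flatRange hpp ?_) (pt_toCNF (PT.append (pt_tableau' A hpN
        (PT.succ (PT.add hpn hpN)) hpP ?_) (pt_cLen hpp hpq hpP)))
      · exact PT.cons (pt_bit (Q := Q) (K := K) (G := G) (PT.mul (PT.const 3) PT.id.snd))
          (PT.single (pt_bit (Q := Q) (K := K) (G := G)
            (PT.succ (PT.mul (PT.const 3) PT.id.snd))))
      · exact PT.reverse (PT.comp (g := fun p : List Bool × (ℕ × ℕ) => tmpl3 p.1 p.2.1 p.2.2)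
          (f := fun a : List Bool × ℕ => (a.1, (a.2 / (q.eval a.1.length + 1),
            a.2 % (q.eval a.1.length + 1))))
          pt_tmpl3 (PT.pair PT.id.fst (PT.pair (PT.div PT.id.snd hq1)
            (PT.mod PT.id.snd hq1))))
    · intro x
      set a := p.eval x.length with ha
      set k := q.eval x.length with hk
      rw [hL]
      constructor
      · intro h u
        set u' : ℕ → Bool := fun j => u (num (.bit j : Fact Q K G)) with hu'
        have hm : ∃ m, m = a ∨ u' (3 * m + 1) = false := ⟨a, .inl rfl⟩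
        classical
        set m := Nat.find hm with hmdef
        have hma : m ≤ a := Nat.find_min' hm (.inl rfl)
        have hm1 : ∀ i < m, u' (3 * i + 1) = true := by
          intro i hi
          have := Nat.find_min hm hi
          rw [not_or] at this
          simpa using this.2
        have hm2 : m < a → u' (3 * m + 1) = false := by
          intro h1
          exact (Nat.find_spec hm).resolve_left (by omega)
        obtain ⟨z, hz, hr⟩ := h ((List.range m).map fun i => u' (3 * i)) (by simpa using hma)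
        set b : ℕ → Bool := bitsOf z u' with hb
        set j := m * (k + 1) + z.length with hj
        have hjd : j / (k + 1) = m := by
          rw [hj, Nat.add_comm, Nat.add_mul_div_right _ _ (Nat.succ_pos _),
            Nat.div_eq_of_lt (Nat.lt_succ_of_le hz), Nat.zero_add]
        have hjm : j % (k + 1) = z.length := by
          rw [hj, Nat.add_comm, Nat.add_mul_mod_self_right,
            Nat.mod_eq_of_lt (Nat.lt_succ_of_le hz)]
        have hjP : j ≤ P x := by
          rw [hj, hP]
          dsimp only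
          exact Nat.add_le_add (Nat.mul_le_mul_right _ hma) hz
        have hout : (A.M.run (startB A (T x j) b) (N x)).2 A.k1 ≠ [A.gF] := by
          rw [hT]
          dsimp only
          rw [← hk, hjd, hjm, startB_tmpl3, hb]
          simp only [bitsOf_zero, bitsOf_two]
          rw [map_range_getD z _ rfl]
          refine (hA x _ z (n x) (N x) ?_ le_rfl).1 hr
          rw [length_encTriple, List.length_map, List.length_range, hn]
          dsimp only
          rw [← ha, ← hk]
          omega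
        obtain ⟨v, hv, hvb, hvl⟩ :=
          good_of_runB A (N x) (n x + N x + 1) (P x) (T x) b j hjP hout
        refine ⟨extend num v (fun _ => false), ?_, ?_⟩
        · intro i hi
          obtain ⟨i', hi', hi⟩ := List.mem_flatMap.1 hi
          simp only [List.mem_cons, List.not_mem_nil, or_false] at hi
          rcases hi with rfl | rfl
          · rw [num_injective.extend_apply, hvb, hb, bitsOf_zero]
          · rw [num_injective.extend_apply, hvb, hb, bitsOf_one]
        · rw [sat_toCNF]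
          simp only [num_injective.extend_apply]
          rw [good_append]
          refine ⟨hv, good_cLen.2 ?_⟩
          intro j' _ hj'
          rw [hvl, decide_eq_true_eq] at hj'
          subst hj'
          rw [hjd]
          simp only [hvb, hb, bitsOf_one]
          exact ⟨fun i _ hi => hm1 i hi, hm2⟩
      · intro h y hy
        obtain ⟨v', hv', hc⟩ := h (extend (num : Fact Q K G → ℕ)
          (fun f => match f with
            | .bit j => if j % 3 = 0 then y.getD (j / 3) false else decide (j / 3 < y.length)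
            | _ => false) (fun _ => false))
        rw [sat_toCNF, good_append, good_cLen] at hc
        obtain ⟨hc, hc'⟩ := hc
        set v : Fact Q K G → Bool := fun f => v' (num f) with hv
        have hvb : ∀ i < a, v (.bit (3 * i)) = y.getD i false := by
          intro i hi
          rw [hv]
          dsimp only
          rw [hv' _ (List.mem_flatMap.2 ⟨i, List.mem_range.2 hi, by simp⟩),
            num_injective.extend_apply]
          dsimp only
          rw [if_pos (by omega)]
          congr 1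
          omega
        have hvu : ∀ i < a, v (.bit (3 * i + 1)) = decide (i < y.length) := by
          intro i hi
          rw [hv]
          dsimp only
          rw [hv' _ (List.mem_flatMap.2 ⟨i, List.mem_range.2 hi, by simp⟩),
            num_injective.extend_apply]
          dsimp only
          rw [if_neg (by omega)]
          congr 2
          omega
        obtain ⟨j, hj, hvj⟩ := exists_len A _ _ _ _ v hc
        have hc1 : ∀ i < a, i < j / (k + 1) → v (.bit (3 * i + 1)) = true :=
          (hc' j hj hvj).1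
        have hc2 : j / (k + 1) < a → v (.bit (3 * (j / (k + 1)) + 1)) = false :=
          (hc' j hj hvj).2
        have hjy : j / (k + 1) = y.length := by
          have h1 : j / (k + 1) ≤ a := hdiv x j hj
          rcases lt_trichotomy (j / (k + 1)) y.length with h2 | h2 | h2
          · have h3 := hc2 (by omega)
            rw [hvu _ (by omega), decide_eq_false_iff_not] at h3
            exact absurd h2 h3
          · exact h2
          · have h3 := hc1 y.length (by omega) h2
            rw [hvu _ (by omega), decide_eq_true_eq] at h3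
            omega
        have hout := run_of_goodB A _ _ _ _ v hc j hj
          (by have := hTl x j hj; omega) hvj
        rw [hT] at hout
        dsimp only at hout
        rw [← hk, hjy, startB_tmpl3] at hout
        have hy' : ((List.range y.length).map fun i => v (.bit (3 * i))) = y := by
          conv_rhs => rw [← map_range_getD y _ rfl]
          apply List.map_congr_left
          intro i hi
          have := List.mem_range.1 hi
          exact hvb i (by omega)
        rw [hy'] at hout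
        refine ⟨(List.range (j % (k + 1))).map fun i => v (.bit (3 * i + 2)), ?_,
          (hA x y _ (n x) (N x) ?_ le_rfl).2 hout⟩
        · rw [List.length_map, List.length_range]
          exact hmod x j
        · have h2 : j % (k + 1) ≤ k := hmod x j
          rw [length_encTriple, List.length_map, List.length_range, hn]
          dsimp only
          rw [← ha, ← hk]
          omega

end Pool.Agent.MP_c07eba
end

section
/-!
# From `∀∃-3SAT` to signed hypergraphs

For every `∀∃-3SAT` instance we build a hypergraph with hyperedges of size two and three, in which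
every node has at most three incidences, such that the instance is true iff every signing of the
incidences is satisfiable.
-/
namespace Pool.Agent.MP_c07eba

open Pool.Agent.PolyTime Pool.Agent.PathSys

namespace Sign

/-- The code of a triple. -/
def nd (j a t : ℕ) : ℕ := Nat.pair (Nat.pair j a) t

/-- The decoding function. -/
def dec (x : ℕ) : ℕ × (ℕ × ℕ) :=
  ((Nat.unpair (Nat.unpair x).1).1, ((Nat.unpair (Nat.unpair x).1).2, (Nat.unpair x).2))

@[simp] theorem dec_nd (j a t : ℕ) : dec (nd j a t) = (j, (a, t)) := by simp [dec, nd]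

theorem nd_inj {j a t j' a' t' : ℕ} (h : nd j a t = nd j' a' t') :
    j = j' ∧ a = a' ∧ t = t' := by
  have := congrArg dec h
  simp only [dec_nd, Prod.mk.injEq] at this
  exact this

/-- The code of a literal. -/
def lit (l : Lit) : ℕ := 2 * l.1 + (if l.2 then 1 else 0)

/-- The nodes of the hyperedge with a given label. -/
def body (Q : List ℕ × CNF3) (j a t : ℕ) : List ℕ :=
  if j = 0 then [nd 0 a t, nd 1 a t]
  else if j = 1 then [nd 0 a t, nd 2 a t]
  else if j = 2 then [nd 1 a t, nd 2 a t, nd 3 a t]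
  else if j = 3 then [nd 1 a t, nd 2 a t, nd 0 a (t + 1)]
  else if j = 4 then [nd 4 a 0, nd 5 a 0]
  else if j = 5 then [nd 4 a 0, nd 5 a 0]
  else if j = 6 then [nd 4 a 0, nd 0 (2 * a + 1) 0]
  else if j = 7 then [if a ∈ Q.1 then nd 5 a 0 else nd 4 a 0, nd 0 (2 * a) 0]
  else [nd 3 (lit (Q.2.getD a default).1) (3 * a),
    nd 3 (lit (Q.2.getD a default).2.1) (3 * a + 1),
    nd 3 (lit (Q.2.getD a default).2.2) (3 * a + 2)]

/-- A strict upper bound for the variables of the formula. -/
def nv (φ : CNF3) : ℕ := (φ.map fun c => c.1.1 + (c.2.1.1 + c.2.2.1)).sum + 1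

/-- The labels, as triples. -/
def labs (Q : List ℕ × CNF3) : List (ℕ × (ℕ × ℕ)) :=
  ((List.range (2 * nv Q.2)).flatMap fun a => (List.range (3 * Q.2.length)).flatMap fun t =>
    [(0, (a, t)), (1, (a, t)), (2, (a, t)), (3, (a, t))]) ++
  ((List.range (nv Q.2)).flatMap fun i =>
    (if i ∈ Q.1 then [(4, (i, 0)), (5, (i, 0))] else []) ++ [(6, (i, 0)), (7, (i, 0))]) ++
  ((List.range Q.2.length).map fun k => (8, (k, 0)))

/-- The hyperedges. -/
def hyps (Q : List ℕ × CNF3) : List (ℕ × List ℕ) :=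
  (labs Q).map fun p => (nd p.1 p.2.1 p.2.2, body Q p.1 p.2.1 p.2.2)

theorem mem_labs {Q : List ℕ × CNF3} {p : ℕ × (ℕ × ℕ)} : p ∈ labs Q ↔
    (p.1 ≤ 3 ∧ p.2.1 < 2 * nv Q.2 ∧ p.2.2 < 3 * Q.2.length) ∨
    ((p.1 = 4 ∨ p.1 = 5) ∧ p.2.1 ∈ Q.1 ∧ p.2.1 < nv Q.2 ∧ p.2.2 = 0) ∨
    ((p.1 = 6 ∨ p.1 = 7) ∧ p.2.1 < nv Q.2 ∧ p.2.2 = 0) ∨
    (p.1 = 8 ∧ p.2.1 < Q.2.length ∧ p.2.2 = 0) := by
  obtain ⟨j, a, t⟩ := p
  simp only [labs, List.mem_append, List.mem_flatMap, List.mem_map, List.mem_range]
  constructor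
  · rintro ((⟨a', ha', t', ht', h⟩ | ⟨i, hi, h⟩) | ⟨k, hk, h⟩)
    · simp only [List.mem_cons, List.not_mem_nil, or_false, Prod.mk.injEq] at h
      rcases h with ⟨rfl, rfl, rfl⟩ | ⟨rfl, rfl, rfl⟩ | ⟨rfl, rfl, rfl⟩ | ⟨rfl, rfl, rfl⟩ <;>
        exact .inl ⟨by norm_num, ha', ht'⟩
    · rcases h with h | h
      · by_cases hi' : i ∈ Q.1
        · rw [if_pos hi'] at h
          simp only [List.mem_cons, List.not_mem_nil, or_false, Prod.mk.injEq] at h
          rcases h with ⟨rfl, rfl, rfl⟩ | ⟨rfl, rfl, rfl⟩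
          · exact .inr (.inl ⟨.inl rfl, hi', hi, rfl⟩)
          · exact .inr (.inl ⟨.inr rfl, hi', hi, rfl⟩)
        · rw [if_neg hi'] at h
          simp at h
      · simp only [List.mem_cons, List.not_mem_nil, or_false, Prod.mk.injEq] at h
        rcases h with ⟨rfl, rfl, rfl⟩ | ⟨rfl, rfl, rfl⟩
        · exact .inr (.inr (.inl ⟨.inl rfl, hi, rfl⟩))
        · exact .inr (.inr (.inl ⟨.inr rfl, hi, rfl⟩))
    · simp only [Prod.mk.injEq] at h
      obtain ⟨rfl, rfl, rfl⟩ := h
      exact .inr (.inr (.inr ⟨rfl, hk, rfl⟩))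
  · rintro (⟨h1, h2, h3⟩ | ⟨h1, h2, h3, h4⟩ | ⟨h1, h2, h3⟩ | ⟨h1, h2, h3⟩)
    · refine .inl (.inl ⟨a, h2, t, h3, ?_⟩)
      simp only [List.mem_cons, List.not_mem_nil, or_false, Prod.mk.injEq, and_true]
      omega
    · refine .inl (.inr ⟨a, h3, .inl ?_⟩)
      subst h4
      rw [if_pos h2]
      simp only [List.mem_cons, List.not_mem_nil, or_false, Prod.mk.injEq, and_true]
      exact h1
    · refine .inl (.inr ⟨a, h2, .inr ?_⟩)
      subst h3
      simp only [List.mem_cons, List.not_mem_nil, or_false, Prod.mk.injEq, and_true]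
      exact h1
    · refine .inr ⟨a, h2, ?_⟩
      subst h1 h3
      rfl

end Sign

open Sign in
/-- The hypergraph of an instance. -/
def toHyp (Q : List ℕ × CNF3) : Hyp :=
  (((hyps Q).flatMap Prod.snd).sum + 1, (((hyps Q).map Prod.fst).sum + 1, hyps Q))

namespace Sign

theorem mem_hyps {Q : List ℕ × CNF3} {e : ℕ × List ℕ} : e ∈ hyps Q ↔
    ∃ j a t, (j, (a, t)) ∈ labs Q ∧ e = (nd j a t, body Q j a t) := by
  simp only [hyps, List.mem_map]
  constructor
  · rintro ⟨⟨j, a, t⟩, h, rfl⟩
    exact ⟨j, a, t, h, rfl⟩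
  · rintro ⟨j, a, t, h, rfl⟩
    exact ⟨_, h, rfl⟩

theorem le_sum {l : List ℕ} {x : ℕ} (h : x ∈ l) : x ≤ l.sum :=
  List.single_le_sum (by simp) _ h

theorem lt_nv {φ : CNF3} {c : Lit × (Lit × Lit)} (h : c ∈ φ) :
    c.1.1 < nv φ ∧ c.2.1.1 < nv φ ∧ c.2.2.1 < nv φ := by
  have := le_sum (List.mem_map_of_mem (f := fun c : Lit × (Lit × Lit) =>
    c.1.1 + (c.2.1.1 + c.2.2.1)) h)
  unfold nv
  omega

/-- The incidences of the node `nd j a t`. -/
def inc (Q : List ℕ × CNF3) (j a t : ℕ) : List (ℕ × ℕ) :=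
  if j = 0 then [(nd 0 a t, 0), (nd 1 a t, 0),
    if t = 0 then (nd (if a % 2 = 1 then 6 else 7) (a / 2) 0, 1) else (nd 3 a (t - 1), 2)]
  else if j = 1 then [(nd 0 a t, 1), (nd 2 a t, 0), (nd 3 a t, 0)]
  else if j = 2 then [(nd 1 a t, 1), (nd 2 a t, 1), (nd 3 a t, 1)]
  else if j = 3 then [(nd 2 a t, 2), (nd 8 (t / 3) 0, t % 3)]
  else if j = 4 then
    if a ∈ Q.1 then [(nd 4 a 0, 0), (nd 5 a 0, 0), (nd 6 a 0, 0)]
    else [(nd 6 a 0, 0), (nd 7 a 0, 0)]
  else [(nd 4 a 0, 1), (nd 5 a 0, 1), (nd 7 a 0, 0)]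

theorem length_inc (Q : List ℕ × CNF3) (j a t : ℕ) : (inc Q j a t).length ≤ 3 := by
  unfold inc
  split_ifs <;> simp

theorem mem_inc {Q : List ℕ × CNF3} {j a t r x : ℕ} (h : (j, (a, t)) ∈ labs Q)
    (hr : (body Q j a t)[r]? = some x) :
    (nd j a t, r) ∈ inc Q (dec x).1 (dec x).2.1 (dec x).2.2 := by
  rw [mem_labs] at h
  dsimp only at h
  have hj : j ≤ 8 := by omega
  rcases h with ⟨h1, -, -⟩ | ⟨h1, h2, -, rfl⟩ | ⟨h1, -, rfl⟩ | ⟨rfl, -, rfl⟩
  · interval_cases j <;> rcases r with _ | _ | _ | r <;>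
      simp [body] at hr <;> subst hr <;> simp [inc]
  · rcases h1 with rfl | rfl <;> rcases r with _ | _ | _ | r <;>
      simp [body] at hr <;> subst hr <;> simp [inc, h2]
  · rcases h1 with rfl | rfl
    · rcases r with _ | _ | _ | r <;> simp [body] at hr <;> subst hr
      · by_cases h2 : a ∈ Q.1 <;> simp [inc, h2]
      · have h3 : (2 * a + 1) / 2 = a := by omega
        simp [inc, h3]
    · rcases r with _ | _ | _ | r <;> simp [body] at hr <;> subst hr
      · by_cases h2 : a ∈ Q.1 <;> simp [inc, h2]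
      · simp [inc]
  · have h3 : (3 * a + 1) / 3 = a := by omega
    have h4 : (3 * a + 2) / 3 = a := by omega
    have h5 : (3 * a + 1) % 3 = 1 := by omega
    have h6 : (3 * a + 2) % 3 = 2 := by omega
    rcases r with _ | _ | _ | r <;> simp [body] at hr <;> subst hr <;>
      simp [inc, h3, h4, h5, h6]

end Sign

open Sign in
theorem toHyp_ok (Q : List ℕ × CNF3) : HypOk (toHyp Q) where
  node_lt := by
    intro e he x hx
    exact Nat.lt_succ_of_le (le_sum (List.mem_flatMap.2 ⟨e, he, hx⟩))
  lab_lt := by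
    intro e he
    exact Nat.lt_succ_of_le (le_sum (List.mem_map_of_mem he))
  lab_inj := by
    intro e he e' he' h
    obtain ⟨j, a, t, -, rfl⟩ := mem_hyps.1 he
    obtain ⟨j', a', t', -, rfl⟩ := mem_hyps.1 he'
    obtain ⟨rfl, rfl, rfl⟩ := nd_inj h
    rfl
  len := by
    intro e he
    obtain ⟨j, a, t, -, rfl⟩ := mem_hyps.1 he
    dsimp only [body]
    split_ifs <;> simp
  deg := by
    intro x
    refine ⟨inc Q (dec x).1 (dec x).2.1 (dec x).2.2, length_inc _ _ _ _, ?_⟩
    intro e he r hr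
    obtain ⟨j, a, t, h, rfl⟩ := mem_hyps.1 he
    exact mem_inc h hr

namespace Sign

/-! ### Satisfying assignments -/

theorem fan : ∀ w1 z1 w2 z2 a1 a2 b1 b2 : Bool, ∃ w z z' : Bool, (w ≠ w1 ∨ z ≠ z1) ∧
    (w ≠ w2 ∨ z' ≠ z2) ∧ (z ≠ a1 ∨ z' ≠ a2) ∧ (z ≠ b1 ∨ z' ≠ b2) := by decide

theorem univ : ∀ p1 q1 p2 q2 a b : Bool, ∃ m x y : Bool, (x ≠ p1 ∨ y ≠ q1) ∧
    (x ≠ p2 ∨ y ≠ q2) ∧ (m = true → x ≠ a) ∧ (m = false → y ≠ b) := by decide

/-- A hyperedge is satisfied. -/
def Sat (v s : ℕ → Bool) (l : List ℕ) : Prop := ∃ r x, l[r]? = some x ∧ v x ≠ s r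

theorem sat_two {v s : ℕ → Bool} {x y : ℕ} :
    Sat v s [x, y] ↔ v x ≠ s 0 ∨ v y ≠ s 1 := by
  constructor
  · rintro ⟨r, z, h1, h2⟩
    rcases r with _ | _ | r <;> simp at h1 <;> subst h1
    · exact .inl h2
    · exact .inr h2
  · rintro (h | h)
    · exact ⟨0, x, rfl, h⟩
    · exact ⟨1, y, rfl, h⟩

theorem sat_three {v s : ℕ → Bool} {x y z : ℕ} :
    Sat v s [x, y, z] ↔ v x ≠ s 0 ∨ v y ≠ s 1 ∨ v z ≠ s 2 := by
  constructor
  · rintro ⟨r, w, h1, h2⟩
    rcases r with _ | _ | _ | r <;> simp at h1 <;> subst h1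
    · exact .inl h2
    · exact .inr (.inl h2)
    · exact .inr (.inr h2)
  · rintro (h | h | h)
    · exact ⟨0, x, rfl, h⟩
    · exact ⟨1, y, rfl, h⟩
    · exact ⟨2, z, rfl, h⟩

theorem signSat_iff (Q : List ℕ × CNF3) : SignSat (toHyp Q) ↔
    ∀ s : ℕ → ℕ → Bool, ∃ v : ℕ → Bool, ∀ j a t, (j, (a, t)) ∈ labs Q →
      Sat v (s (nd j a t)) (body Q j a t) := by
  unfold SignSat
  refine forall_congr' fun s => exists_congr fun v => ?_
  constructor
  · intro h j a t hj
    exact h _ (mem_hyps.2 ⟨j, a, t, hj, rfl⟩)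
  · intro h e he
    obtain ⟨j, a, t, hj, rfl⟩ := mem_hyps.1 he
    exact h j a t hj

/-- The value of a node. -/
def value (s : ℕ → ℕ → Bool) (F : ℕ → ℕ → Bool × (Bool × Bool)) (m : ℕ → Bool)
    (AB : ℕ → Bool × Bool) (j a t : ℕ) : Bool :=
  if j = 0 then
    if m a then (F a t).1
    else if t = 0 then !s (nd (if a % 2 = 1 then 6 else 7) (a / 2) 0) 1
    else !s (nd 3 a (t - 1)) 2
  else if j = 1 then if m a then (F a t).2.1 else !s (nd 0 a t) 1
  else if j = 2 then if m a then (F a t).2.2 else !s (nd 1 a t) 1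
  else if j = 3 then if m a then !s (nd 8 (t / 3) 0) (t % 3) else !s (nd 2 a t) 2
  else if j = 4 then (AB a).1 else (AB a).2

theorem sat_of_qsat {Q : List ℕ × CNF3} (hQ : QSat2 Q) : SignSat (toHyp Q) := by
  rw [signSat_iff]
  intro s
  have hF : ∀ a t : ℕ, ∃ p : Bool × (Bool × Bool),
      (p.1 ≠ s (nd 0 a t) 0 ∨ p.2.1 ≠ s (nd 0 a t) 1) ∧
      (p.1 ≠ s (nd 1 a t) 0 ∨ p.2.2 ≠ s (nd 1 a t) 1) ∧
      (p.2.1 ≠ s (nd 2 a t) 0 ∨ p.2.2 ≠ s (nd 2 a t) 1) ∧
      (p.2.1 ≠ s (nd 3 a t) 0 ∨ p.2.2 ≠ s (nd 3 a t) 1) := by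
    intro a t
    obtain ⟨w, z, z', h⟩ := fan (s (nd 0 a t) 0) (s (nd 0 a t) 1) (s (nd 1 a t) 0)
      (s (nd 1 a t) 1) (s (nd 2 a t) 0) (s (nd 2 a t) 1) (s (nd 3 a t) 0) (s (nd 3 a t) 1)
    exact ⟨(w, (z, z')), h⟩
  choose F hF using hF
  have hU : ∀ i : ℕ, ∃ p : Bool × (Bool × Bool),
      (p.2.1 ≠ s (nd 4 i 0) 0 ∨ p.2.2 ≠ s (nd 4 i 0) 1) ∧
      (p.2.1 ≠ s (nd 5 i 0) 0 ∨ p.2.2 ≠ s (nd 5 i 0) 1) ∧
      (p.1 = true → p.2.1 ≠ s (nd 6 i 0) 0) ∧ (p.1 = false → p.2.2 ≠ s (nd 7 i 0) 0) := by
    intro i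
    obtain ⟨m, x, y, h⟩ := univ (s (nd 4 i 0) 0) (s (nd 4 i 0) 1) (s (nd 5 i 0) 0)
      (s (nd 5 i 0) 1) (s (nd 6 i 0) 0) (s (nd 7 i 0) 0)
    exact ⟨(m, (x, y)), h⟩
  choose U hU using hU
  obtain ⟨v, hv1, hv2⟩ := hQ fun i => (U i).1
  set m : ℕ → Bool := fun a => if a % 2 = 1 then v (a / 2) else !v (a / 2) with hm
  set AB : ℕ → Bool × Bool := fun i => if i ∈ Q.1 then (U i).2 else
    (if v i then !s (nd 6 i 0) 0 else !s (nd 7 i 0) 0, true) with hAB
  set V : ℕ → Bool := fun x => value s F m AB (dec x).1 (dec x).2.1 (dec x).2.2 with hV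
  have hVnd : ∀ j a t, V (nd j a t) = value s F m AB j a t := by
    intro j a t
    simp only [hV, dec_nd]
  refine ⟨V, ?_⟩
  intro j a t hj
  rw [mem_labs] at hj
  dsimp only at hj
  have hj8 : j ≤ 8 := by omega
  rcases hj with ⟨h1, -, -⟩ | ⟨h1, h2, -, rfl⟩ | ⟨h1, -, rfl⟩ | ⟨rfl, h2, rfl⟩
  · obtain ⟨f0, f1, f2, f3⟩ := hF a t
    interval_cases j
    · simp only [body, if_true]
      rw [sat_two, hVnd, hVnd]
      by_cases hma : m a
      · simpa [value, hma] using f0
      · right
        simp [value, hma]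
    · simp only [body, if_true, one_ne_zero, if_false]
      rw [sat_two, hVnd, hVnd]
      by_cases hma : m a
      · simpa [value, hma] using f1
      · right
        simp [value, hma]
    · simp only [body, if_true, OfNat.ofNat_ne_zero, OfNat.ofNat_ne_one, if_false]
      rw [sat_three, hVnd, hVnd, hVnd]
      by_cases hma : m a
      · rw [← or_assoc]
        left
        simpa [value, hma] using f2
      · right; right
        simp [value, hma]
    · simp only [body, if_true, OfNat.ofNat_ne_zero, OfNat.ofNat_ne_one, if_false,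
        show ¬ (3 = 2) by norm_num]
      rw [sat_three, hVnd, hVnd, hVnd]
      by_cases hma : m a
      · rw [← or_assoc]
        left
        simpa [value, hma] using f3
      · right; right
        simp [value, hma]
  · obtain ⟨u1, u2, -, -⟩ := hU a
    rcases h1 with rfl | rfl
    · simp only [body, if_true, OfNat.ofNat_ne_zero, OfNat.ofNat_ne_one, if_false,
        show ¬ (4 = 2) by norm_num, show ¬ (4 = 3) by norm_num]
      rw [sat_two, hVnd, hVnd]
      simpa [value, hAB, h2] using u1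
    · simp only [body, if_true, OfNat.ofNat_ne_zero, OfNat.ofNat_ne_one, if_false,
        show ¬ (5 = 2) by norm_num, show ¬ (5 = 3) by norm_num, show ¬ (5 = 4) by norm_num]
      rw [sat_two, hVnd, hVnd]
      simpa [value, hAB, h2] using u2
  · obtain ⟨-, -, u3, u4⟩ := hU a
    rcases h1 with rfl | rfl
    · have e1 : (2 * a + 1) % 2 = 1 := by omega
      have e2 : (2 * a + 1) / 2 = a := by omega
      simp only [body, if_true, OfNat.ofNat_ne_zero, OfNat.ofNat_ne_one, if_false,
        show ¬ (6 = 2) by norm_num, show ¬ (6 = 3) by norm_num, show ¬ (6 = 4) by norm_num,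
        show ¬ (6 = 5) by norm_num]
      rw [sat_two, hVnd, hVnd]
      by_cases hva : v a = true
      · left
        by_cases hi : a ∈ Q.1
        · have h5 : (U a).1 = true := by rw [← hv1 a hi]; exact hva
          simpa [value, hAB, hi] using u3 h5
        · simp [value, hAB, hi, hva]
      · right
        simp [value, hm, e1, e2, hva]
    · have e1 : (2 * a) % 2 = 0 := by omega
      have e2 : (2 * a) / 2 = a := by omega
      simp only [body, if_true, OfNat.ofNat_ne_zero, OfNat.ofNat_ne_one, if_false,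
        show ¬ (7 = 2) by norm_num, show ¬ (7 = 3) by norm_num, show ¬ (7 = 4) by norm_num,
        show ¬ (7 = 5) by norm_num, show ¬ (7 = 6) by norm_num]
      rw [sat_two]
      by_cases hva : v a = true
      · right
        rw [hVnd]
        simp [value, hm, e1, e2, hva]
      · left
        rw [Bool.not_eq_true] at hva
        by_cases hi : a ∈ Q.1
        · have h5 : (U a).1 = false := by rw [← hv1 a hi]; exact hva
          rw [if_pos hi, hVnd]
          simpa [value, hAB, hi] using u4 h5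
        · rw [if_neg hi, hVnd]
          simp [value, hAB, hi, hva]
  · have hlit : ∀ l : Lit, litVal v l → m (lit l) = true := by
      rintro ⟨i, b⟩ h
      simp only [litVal] at h
      cases b
      · have e1 : (2 * i) % 2 = 0 := by omega
        have e2 : (2 * i) / 2 = i := by omega
        simp [hm, lit, h]
      · have e1 : (2 * i + 1) % 2 = 1 := by omega
        have e2 : (2 * i + 1) / 2 = i := by omega
        simp [hm, lit, h, e1, e2]
    have e0 : (3 * a) / 3 = a := by omega
    have e0' : (3 * a) % 3 = 0 := by omega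
    have e1 : (3 * a + 1) / 3 = a := by omega
    have e1' : (3 * a + 1) % 3 = 1 := by omega
    have e2 : (3 * a + 2) / 3 = a := by omega
    have e2' : (3 * a + 2) % 3 = 2 := by omega
    have hmem : Q.2.getD a default ∈ Q.2 := by
      rw [List.getD_eq_getElem _ _ h2]
      exact List.getElem_mem h2
    simp only [body, OfNat.ofNat_ne_zero, OfNat.ofNat_ne_one, if_false,
      show ¬ (8 = 2) by norm_num, show ¬ (8 = 3) by norm_num, show ¬ (8 = 4) by norm_num,
      show ¬ (8 = 5) by norm_num, show ¬ (8 = 6) by norm_num, show ¬ (8 = 7) by norm_num]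
    rw [sat_three, hVnd, hVnd, hVnd]
    generalize List.getD Q.2 a default = c at hmem ⊢
    rcases hv2 _ hmem with h | h | h
    · left
      simp [value, hlit _ h, e0, e0']
    · right; left
      simp [value, hlit _ h, e1, e1']
    · right; right
      simp [value, hlit _ h, e2, e2']

/-- The canonical signing. -/
def csign (Q : List ℕ × CNF3) (u : ℕ → Bool) (j a r : ℕ) : Bool :=
  if j ≤ 1 then decide (r = 1)
  else if j ≤ 3 then decide (r = 2)
  else if j = 4 then true
  else if j = 5 then if r = 0 then !u a else u a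
  else if j = 6 then decide (r = 1)
  else if j = 7 then if r = 0 then decide (a ∉ Q.1) else true
  else false

theorem qsat_of_sat {Q : List ℕ × CNF3} (hQ : SignSat (toHyp Q)) : QSat2 Q := by
  rw [signSat_iff] at hQ
  intro u
  obtain ⟨v, hv⟩ := hQ fun e r => csign Q u (dec e).1 (dec e).2.1 r
  simp only [dec_nd, mem_labs] at hv
  have h0 : ∀ a t, a < 2 * nv Q.2 → t < 3 * Q.2.length → v (nd 1 a t) = true →
      v (nd 0 a t) = true := by
    intro a t ha ht h
    have := hv 0 a t (.inl ⟨by norm_num, ha, ht⟩)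
    simp only [body, if_true] at this
    rw [sat_two] at this
    simpa [csign, h] using this
  have h1 : ∀ a t, a < 2 * nv Q.2 → t < 3 * Q.2.length → v (nd 2 a t) = true →
      v (nd 0 a t) = true := by
    intro a t ha ht h
    have := hv 1 a t (.inl ⟨by norm_num, ha, ht⟩)
    simp only [body, if_true, one_ne_zero, if_false] at this
    rw [sat_two] at this
    simpa [csign, h] using this
  have h2 : ∀ a t, a < 2 * nv Q.2 → t < 3 * Q.2.length → v (nd 3 a t) = true →
      v (nd 0 a t) = true := by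
    intro a t ha ht h
    have := hv 2 a t (.inl ⟨by norm_num, ha, ht⟩)
    simp only [body, if_true, OfNat.ofNat_ne_zero, OfNat.ofNat_ne_one, if_false] at this
    rw [sat_three] at this
    have : v (nd 1 a t) = true ∨ v (nd 2 a t) = true := by
      simpa [csign, h] using this
    rcases this with h | h
    · exact h0 a t ha ht h
    · exact h1 a t ha ht h
  have h3 : ∀ a t, a < 2 * nv Q.2 → t < 3 * Q.2.length → v (nd 0 a (t + 1)) = true →
      v (nd 0 a t) = true := by
    intro a t ha ht h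
    have := hv 3 a t (.inl ⟨by norm_num, ha, ht⟩)
    simp only [body, if_true, OfNat.ofNat_ne_zero, OfNat.ofNat_ne_one, if_false,
        show ¬ (3 = 2) by norm_num] at this
    rw [sat_three] at this
    have : v (nd 1 a t) = true ∨ v (nd 2 a t) = true := by
      simpa [csign, h] using this
    rcases this with h | h
    · exact h0 a t ha ht h
    · exact h1 a t ha ht h
  have h4 : ∀ a t, a < 2 * nv Q.2 → t ≤ 3 * Q.2.length → v (nd 0 a t) = true →
      v (nd 0 a 0) = true := by
    intro a t ha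
    induction t with
    | zero => exact fun _ h => h
    | succ t ih => exact fun ht h => ih (by omega) (h3 a t ha (by omega) h)
  have hlab : ∀ j i, (j = 6 ∨ j = 7) → i < nv Q.2 →
      Sat v (fun r => csign Q u j i r) (body Q j i 0) := by
    intro j i hj hi
    exact hv j i 0 (.inr (.inr (.inl ⟨hj, hi, rfl⟩)))
  have h6 : ∀ i, i < nv Q.2 → v (nd 0 (2 * i + 1) 0) = true → v (nd 4 i 0) = true := by
    intro i hi h
    have := hlab 6 i (.inl rfl) hi
    simp only [body, if_true, OfNat.ofNat_ne_zero, OfNat.ofNat_ne_one, if_false,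
        show ¬ (6 = 2) by norm_num, show ¬ (6 = 3) by norm_num, show ¬ (6 = 4) by norm_num,
        show ¬ (6 = 5) by norm_num] at this
    rw [sat_two] at this
    simpa [csign, h] using this
  have h7 : ∀ i, i < nv Q.2 → v (nd 0 (2 * i) 0) = true → i ∉ Q.1 → v (nd 4 i 0) = false := by
    intro i hi h hiQ
    have := hlab 7 i (.inr rfl) hi
    simp only [body, if_true, OfNat.ofNat_ne_zero, OfNat.ofNat_ne_one, if_false,
        show ¬ (7 = 2) by norm_num, show ¬ (7 = 3) by norm_num, show ¬ (7 = 4) by norm_num,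
        show ¬ (7 = 5) by norm_num, show ¬ (7 = 6) by norm_num, if_neg hiQ] at this
    rw [sat_two] at this
    simpa [csign, h, hiQ] using this
  have h8 : ∀ i, i < nv Q.2 → v (nd 0 (2 * i) 0) = true → i ∈ Q.1 → v (nd 5 i 0) = true := by
    intro i hi h hiQ
    have := hlab 7 i (.inr rfl) hi
    simp only [body, if_true, OfNat.ofNat_ne_zero, OfNat.ofNat_ne_one, if_false,
        show ¬ (7 = 2) by norm_num, show ¬ (7 = 3) by norm_num, show ¬ (7 = 4) by norm_num,
        show ¬ (7 = 5) by norm_num, show ¬ (7 = 6) by norm_num, if_pos hiQ] at this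
    rw [sat_two] at this
    simpa [csign, h, hiQ] using this
  have h9 : ∀ i, i < nv Q.2 → i ∈ Q.1 →
      (u i = true → v (nd 5 i 0) = false) ∧ (u i = false → v (nd 4 i 0) = false) := by
    intro i hi hiQ
    have e4 := hv 4 i 0 (.inr (.inl ⟨.inl rfl, hiQ, hi, rfl⟩))
    have e5 := hv 5 i 0 (.inr (.inl ⟨.inr rfl, hiQ, hi, rfl⟩))
    simp only [body, if_true, OfNat.ofNat_ne_zero, OfNat.ofNat_ne_one, if_false,
        show ¬ (4 = 2) by norm_num, show ¬ (4 = 3) by norm_num] at e4
    simp only [body, if_true, OfNat.ofNat_ne_zero, OfNat.ofNat_ne_one, if_false,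
        show ¬ (5 = 2) by norm_num, show ¬ (5 = 3) by norm_num,
        show ¬ (5 = 4) by norm_num] at e5
    rw [sat_two] at e4 e5
    simp [csign] at e4 e5
    revert e4 e5
    cases u i <;> cases v (nd 4 i 0) <;> cases v (nd 5 i 0) <;> simp
  refine ⟨fun i => if i ∈ Q.1 then u i else v (nd 4 i 0), fun i hi => if_pos hi, ?_⟩
  have hl : ∀ l : Lit, l.1 < nv Q.2 → v (nd 0 (lit l) 0) = true →
      litVal (fun i => if i ∈ Q.1 then u i else v (nd 4 i 0)) l := by
    rintro ⟨i, b⟩ hi h
    dsimp only at hi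
    simp only [litVal]
    cases b
    · simp only [lit, Bool.false_eq_true, if_false, add_zero] at h
      by_cases hiQ : i ∈ Q.1
      · rw [if_pos hiQ]
        have e1 := h8 i hi h hiQ
        have e2 := (h9 i hi hiQ).1
        cases hu : u i
        · rfl
        · rw [e2 hu] at e1; simp at e1
      · rw [if_neg hiQ]
        exact h7 i hi h hiQ
    · simp only [lit, if_true] at h
      have e1 := h6 i hi h
      by_cases hiQ : i ∈ Q.1
      · rw [if_pos hiQ]
        have e2 := (h9 i hi hiQ).2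
        cases hu : u i
        · rw [e2 hu] at e1; simp at e1
        · rfl
      · rw [if_neg hiQ]
        exact e1
  have hlt : ∀ l : Lit, l.1 < nv Q.2 → lit l < 2 * nv Q.2 := by
    rintro ⟨i, b⟩ hi
    dsimp only at hi
    simp only [lit]
    cases b <;> simp <;> omega
  intro c hc
  obtain ⟨k, hk, rfl⟩ := List.mem_iff_getElem.1 hc
  obtain ⟨n1, n2, n3⟩ := lt_nv hc
  have := hv 8 k 0 (.inr (.inr (.inr ⟨rfl, hk, rfl⟩)))
  simp only [body, OfNat.ofNat_ne_zero, OfNat.ofNat_ne_one, if_false,
      show ¬ (8 = 2) by norm_num, show ¬ (8 = 3) by norm_num, show ¬ (8 = 4) by norm_num,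
      show ¬ (8 = 5) by norm_num, show ¬ (8 = 6) by norm_num, show ¬ (8 = 7) by norm_num,
      List.getD_eq_getElem _ _ hk] at this
  rw [sat_three] at this
  have key : ∀ (l : Lit) (t : ℕ), l.1 < nv Q.2 → t < 3 * Q.2.length →
      v (nd 3 (lit l) t) = true →
      litVal (fun i => if i ∈ Q.1 then u i else v (nd 4 i 0)) l := by
    intro l t h1 h5 h
    exact hl l h1 (h4 _ t (hlt l h1) h5.le (h2 _ t (hlt l h1) h5 h))
  rcases this with h | h | h
  · exact .inl (key _ (3 * k) n1 (by omega) (by simpa [csign] using h))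
  · exact .inr (.inl (key _ (3 * k + 1) n2 (by omega) (by simpa [csign] using h)))
  · exact .inr (.inr (key _ (3 * k + 2) n3 (by omega) (by simpa [csign] using h)))

end Sign

theorem signSat_toHyp (Q : List ℕ × CNF3) : SignSat (toHyp Q) ↔ QSat2 Q :=
  ⟨Sign.qsat_of_sat, Sign.sat_of_qsat⟩

/-! ### Polynomial time -/

namespace Sign

universe u

variable {α : Type u} [Rep α]

theorem PT.natPair {f g : α → ℕ} (hf : PT f) (hg : PT g) :
    PT (fun a => Nat.pair (f a) (g a)) :=
  PT.iteProp (c := fun a => f a < g a) (PT.lt hf hg) (PT.add (PT.mul hg hg) hf)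
    (PT.add (PT.add (PT.mul hf hf) hf) hg)

theorem PT.nd {j a t : α → ℕ} (hj : PT j) (ha : PT a) (ht : PT t) :
    PT (fun x => nd (j x) (a x) (t x)) := PT.natPair (PT.natPair hj ha) ht

theorem PT.lit {l : α → Lit} (hl : PT l) : PT (fun x => lit (l x)) :=
  PT.add (PT.mul (PT.const 2) hl.fst) (PT.ite hl.snd (PT.const 1) (PT.const 0))

theorem PT.nv : PT nv := by
  refine PT.succ (PT.sum (PT.map (l := fun φ : CNF3 => φ)
    (g := fun _ c => c.1.1 + (c.2.1.1 + c.2.2.1)) PT.id ?_))
  exact PT.add PT.id.snd.fst.fst (PT.add PT.id.snd.snd.fst.fst PT.id.snd.snd.snd.fst)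

attribute [local irreducible] Sign.nd Sign.lit Sign.nv

theorem PT.body {Q : α → List ℕ × CNF3} {j a t : α → ℕ} (hQ : PT Q) (hj : PT j) (ha : PT a)
    (ht : PT t) : PT (fun x => body (Q x) (j x) (a x) (t x)) := by
  have hc : ∀ k : ℕ, PT (fun x => decide (j x = k)) := fun k => PT.natEq hj (PT.const k)
  have hD : PT (fun x => (Q x).2.getD (a x) default) :=
    PT.listGetD hQ.snd ha (PT.const default)
  refine PT.iteProp (hc 0) (PT.cons (PT.nd (PT.const 0) ha ht)
    (PT.cons (PT.nd (PT.const 1) ha ht) (PT.const []))) ?_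
  refine PT.iteProp (hc 1) (PT.cons (PT.nd (PT.const 0) ha ht)
    (PT.cons (PT.nd (PT.const 2) ha ht) (PT.const []))) ?_
  refine PT.iteProp (hc 2) (PT.cons (PT.nd (PT.const 1) ha ht)
    (PT.cons (PT.nd (PT.const 2) ha ht) (PT.cons (PT.nd (PT.const 3) ha ht)
      (PT.const [])))) ?_
  refine PT.iteProp (hc 3) (PT.cons (PT.nd (PT.const 1) ha ht)
    (PT.cons (PT.nd (PT.const 2) ha ht) (PT.cons (PT.nd (PT.const 0) ha (PT.succ ht))
      (PT.const [])))) ?_
  refine PT.iteProp (hc 4) (PT.cons (PT.nd (PT.const 4) ha (PT.const 0))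
    (PT.cons (PT.nd (PT.const 5) ha (PT.const 0)) (PT.const []))) ?_
  refine PT.iteProp (hc 5) (PT.cons (PT.nd (PT.const 4) ha (PT.const 0))
    (PT.cons (PT.nd (PT.const 5) ha (PT.const 0)) (PT.const []))) ?_
  refine PT.iteProp (hc 6) (PT.cons (PT.nd (PT.const 4) ha (PT.const 0))
    (PT.cons (PT.nd (PT.const 0) (PT.succ (PT.mul (PT.const 2) ha)) (PT.const 0))
      (PT.const []))) ?_
  refine PT.iteProp (hc 7) (PT.cons (PT.iteProp (PT.contains ha hQ.fst)
      (PT.nd (PT.const 5) ha (PT.const 0)) (PT.nd (PT.const 4) ha (PT.const 0)))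
    (PT.cons (PT.nd (PT.const 0) (PT.mul (PT.const 2) ha) (PT.const 0))
      (PT.const []))) ?_
  exact PT.cons (PT.nd (PT.const 3) (PT.lit hD.fst) (PT.mul (PT.const 3) ha))
    (PT.cons (PT.nd (PT.const 3) (PT.lit hD.snd.fst) (PT.succ (PT.mul (PT.const 3) ha)))
      (PT.cons (PT.nd (PT.const 3) (PT.lit hD.snd.snd)
        (PT.add (PT.mul (PT.const 3) ha) (PT.const 2))) (PT.const [])))

theorem PT.labs : PT labs := by
  have hn : PT (fun Q : List ℕ × CNF3 => Sign.nv Q.2) := PT.nv.comp PT.id.snd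
  have h3 : ∀ k : ℕ, PT (fun p : ((List ℕ × CNF3) × ℕ) × ℕ => (k, (p.1.2, p.2))) := fun k =>
    PT.pair (PT.const k) (PT.pair PT.id.fst.snd PT.id.snd)
  have h4 : ∀ k : ℕ, PT (fun p : (List ℕ × CNF3) × ℕ => (k, (p.2, 0))) := fun k =>
    PT.pair (PT.const k) (PT.pair PT.id.snd (PT.const 0))
  have g1 : PT (fun Q : List ℕ × CNF3 => (List.range (2 * Sign.nv Q.2)).flatMap fun a =>
      (List.range (3 * Q.2.length)).flatMap fun t =>
        [(0, (a, t)), (1, (a, t)), (2, (a, t)), (3, (a, t))]) := by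
    refine PT.flatMap (g := fun (Q : List ℕ × CNF3) a =>
      (List.range (3 * Q.2.length)).flatMap fun t =>
      [(0, (a, t)), (1, (a, t)), (2, (a, t)), (3, (a, t))])
      (PT.range (PT.mul (PT.const 2) hn)) ?_
    refine PT.flatMap (l := fun p : (List ℕ × CNF3) × ℕ => List.range (3 * p.1.2.length))
      (g := fun p t => [(0, (p.2, t)), (1, (p.2, t)), (2, (p.2, t)), (3, (p.2, t))])
      (PT.range (PT.mul (PT.const 3) (PT.length PT.id.fst.snd))) ?_
    exact PT.cons (h3 0) (PT.cons (h3 1) (PT.cons (h3 2) (PT.cons (h3 3) (PT.const []))))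
  have g2 : PT (fun Q : List ℕ × CNF3 => (List.range (Sign.nv Q.2)).flatMap fun i =>
      (if i ∈ Q.1 then [(4, (i, 0)), (5, (i, 0))] else []) ++
        [(6, (i, 0)), (7, (i, 0))]) := by
    refine PT.flatMap (g := fun (Q : List ℕ × CNF3) i =>
      (if i ∈ Q.1 then [(4, (i, 0)), (5, (i, 0))] else []) ++
      [(6, (i, 0)), (7, (i, 0))]) (PT.range hn) ?_
    refine PT.append (f := fun p : (List ℕ × CNF3) × ℕ =>
      if p.2 ∈ p.1.1 then [(4, (p.2, 0)), (5, (p.2, 0))] else [])
      (g := fun p => [(6, (p.2, 0)), (7, (p.2, 0))]) ?_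
      (PT.cons (h4 6) (PT.cons (h4 7) (PT.const [])))
    exact PT.iteProp (c := fun p : (List ℕ × CNF3) × ℕ => p.2 ∈ p.1.1)
      (PT.contains PT.id.snd PT.id.fst.fst)
      (PT.cons (h4 4) (PT.cons (h4 5) (PT.const []))) (PT.const [])
  have g3 : PT (fun Q : List ℕ × CNF3 => (List.range Q.2.length).map fun k =>
      (8, (k, 0))) :=
    PT.map (g := fun (_ : List ℕ × CNF3) k => (8, (k, 0))) (PT.range (PT.length PT.id.snd))
      (h4 8)
  exact PT.append (PT.append g1 g2) g3

theorem PT.hyps : PT hyps := by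
  refine PT.map (l := Sign.labs)
    (g := fun Q p => (Sign.nd p.1 p.2.1 p.2.2, Sign.body Q p.1 p.2.1 p.2.2))
    PT.labs ?_
  exact PT.pair (PT.nd PT.id.snd.fst PT.id.snd.snd.fst PT.id.snd.snd.snd)
    (PT.body PT.id.fst PT.id.snd.fst PT.id.snd.snd.fst PT.id.snd.snd.snd)

theorem PT.maxNode : PT (fun Q : List ℕ × CNF3 => ((Sign.hyps Q).flatMap Prod.snd).sum + 1) :=
  PT.succ (PT.sum (PT.flatMap (l := Sign.hyps) (g := fun (_ : List ℕ × CNF3)
    (e : ℕ × List ℕ) => e.2) PT.hyps PT.id.snd.snd))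

theorem PT.maxLab : PT (fun Q : List ℕ × CNF3 => ((Sign.hyps Q).map Prod.fst).sum + 1) :=
  PT.succ (PT.sum (PT.map (l := Sign.hyps) (g := fun (_ : List ℕ × CNF3)
    (e : ℕ × List ℕ) => e.1) PT.hyps PT.id.snd.fst))

end Sign

theorem PT_toHyp : PT toHyp :=
  PT.pair Sign.PT.maxNode (PT.pair Sign.PT.maxLab Sign.PT.hyps)

end Pool.Agent.MP_c07eba
end

section
/-!
# A base link for `k` makes `LP_k` hard for `Π₂ᵖ`
-/
namespace Pool.Agent.MP_c07eba.AR

open Pool.Agent.PolyTime Pool.Agent.PathSys Pool.Agent.CookLevin Turing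
open Pool.Agent.MP_c07eba.KL

variable {k : ℕ} {B : Gadget} {K : Subgroup (Equiv.Perm (Fin k))} {τ : Equiv.Perm (Fin k)}

theorem link_three_le (hB : IsLink k B K τ) : 3 ≤ k := by
  have h1 := hB.three
  have h2 : 0 < Nat.card K := Nat.card_pos
  rw [Nat.card_eq_fintype_card (α := Equiv.Perm (Fin k)), Fintype.card_perm,
    Fintype.card_fin] at h1
  by_contra hc
  have h3 : k = 0 ∨ k = 1 ∨ k = 2 := by omega
  have h4 : k.factorial ≤ 2 := by
    rcases h3 with rfl | rfl | rfl <;> decide
  omega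

/-- **The reduction.** -/
theorem lp_arG (hB : IsLink k B K τ) {H : Hyp} (hH : HypOk H) :
    LP k (arG B K.index H) ↔ SignSat H := by
  have hk := link_three_le hB
  rw [lp_iff (by omega)]
  refine ⟨fun h => ?_, fun h => arG_yes hB hH h⟩
  by_contra hS
  exact arG_no hB hH hS h

/-- If there is a base link for `k`, then every problem in `Π₂ᵖ` reduces to `LP_k`. -/
theorem hard_of_link (hB : IsLink k B K τ) : ∀ L ∈ Pi2P ∪ Pi2Ple,
    ∃ f : List Bool → GraphInput,
      Nonempty (TM2ComputableInPolyTime (N487b59b3.bitEncode (α := List Bool))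
        (encode (α := GraphInput)) f) ∧
      (∀ x, L x = true ↔ LP k (f x)) := by
  intro L hL
  obtain ⟨g, hg, hgL⟩ : ∃ g : List Bool → List ℕ × CNF3, PT g ∧ ∀ x, L x = true ↔ QSat2 (g x) := by
    rcases hL with hL | hL
    · exact pi2_cookLevin hL
    · exact pi2_cookLevin_le hL
  refine ⟨fun x => arG B K.index (toHyp (g x)), ?_, fun x => ?_⟩
  · exact PT.tm2Fmt inFmt_bitEncode outFmt_encode
      (PT.comp (g := arG B K.index) (PT_arG B K.index) (PT.comp (g := toHyp) PT_toHyp hg))
  · exact (hgL x).trans ((signSat_toHyp (g x)).symm.trans (lp_arG hB (toHyp_ok _)).symm)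

end Pool.Agent.MP_c07eba.AR
end

section
/-!
# Stars of chains: states in terms of chains, and index symmetry
-/
namespace Pool.Agent.MP_c07eba.KL

open Finset Function

variable {k : ℕ}

/-! ### Index symmetry -/

theorem IsState.comp {A : Finset ℕ} {s : Fin k → ℕ} (hs : IsState A s)
    (π : Equiv.Perm (Fin k)) : IsState A (s ∘ π) :=
  ⟨hs.inj.comp π.injective, fun i => hs.mem (π i)⟩

theorem Dia.comp {Q : Fin (k - 1) → Finset ℕ} {s t : Fin k → ℕ} (h : Dia Q s t)
    (π : Equiv.Perm (Fin k)) : Dia Q (s ∘ π) (t ∘ π) := by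
  obtain ⟨q, h1, h2, h3⟩ := h
  exact ⟨fun j => q j ∘ π, fun j => (h1 j).comp π, fun j j' hj i => h2 j j' hj (π i),
    fun j i => h3 j (π i)⟩

theorem IsChn.comp {l : ℕ} {Q : ℕ → Fin (k - 1) → Finset ℕ} {B : ℕ → Finset ℕ}
    {c : ℕ → Fin k → ℕ} (h : IsChn l Q B c) (π : Equiv.Perm (Fin k)) :
    IsChn l Q B fun m => c m ∘ π :=
  ⟨fun m hm => (h.st m hm).comp π, fun m hm => (h.dia m hm).comp π⟩

theorem Chn.comp {l : ℕ} {Q : ℕ → Fin (k - 1) → Finset ℕ} {B : ℕ → Finset ℕ}
    {s t : Fin k → ℕ} (h : Chn l Q B s t) (π : Equiv.Perm (Fin k)) :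
    Chn l Q B (s ∘ π) (t ∘ π) := by
  obtain ⟨c, h1, rfl, rfl⟩ := h
  exact ⟨_, h1.comp π, rfl, rfl⟩

theorem ext_comp {H : Type} (s t : Fin k → ℕ) (p : H → Fin k → ℕ) (π : Equiv.Perm (Fin k))
    (x : Bool ⊕ H) : ext (s ∘ π) (t ∘ π) (fun h => p h ∘ π) x = ext s t p x ∘ π := by
  rcases x with (_ | _) | h <;> rfl

theorem Gadget.Ext.comp {B : Gadget} {L : B.H → Finset ℕ} {s t : Fin k → ℕ}
    (h : B.Ext L s t) (π : Equiv.Perm (Fin k)) : B.Ext L (s ∘ π) (t ∘ π) := by
  obtain ⟨p, h1, h2⟩ := h
  refine ⟨fun h => p h ∘ π, fun h => (h1 h).comp π, fun x y hxy i => ?_⟩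
  rw [ext_comp, ext_comp]
  exact h2 x y hxy (π i)

theorem comp_perm_inv (s : Fin k → ℕ) (π : Equiv.Perm (Fin k)) :
    (s ∘ π) ∘ (π⁻¹ : Equiv.Perm (Fin k)) = s := by
  funext i
  simp [Function.comp]

theorem comp_inv_perm (s : Fin k → ℕ) (π : Equiv.Perm (Fin k)) :
    (s ∘ (π⁻¹ : Equiv.Perm (Fin k))) ∘ π = s := by
  funext i
  simp [Function.comp]

theorem Gadget.ext_comp_iff {B : Gadget} {L : B.H → Finset ℕ} {s t : Fin k → ℕ}
    (π : Equiv.Perm (Fin k)) : B.Ext L (s ∘ π) (t ∘ π) ↔ B.Ext L s t := by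
  refine ⟨fun h => ?_, fun h => h.comp π⟩
  have := h.comp π⁻¹
  rwa [comp_perm_inv, comp_perm_inv] at this

/-- A state is a bijection onto its list. -/
theorem IsState.surj {A : Finset ℕ} {s : Fin k → ℕ} (h : IsState A s) (hA : A.card = k)
    {c : ℕ} (hc : c ∈ A) : ∃ i, s i = c := by
  have h1 : univ.image s = A := eq_of_subset_of_card_le
    (fun x hx => by
      obtain ⟨i, -, rfl⟩ := mem_image.1 hx
      exact h.mem i)
    (by rw [card_image_of_injective _ h.inj, hA, card_univ, Fintype.card_fin])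
  rw [← h1] at hc
  obtain ⟨i, -, h⟩ := mem_image.1 hc
  exact ⟨i, h⟩

/-- Two states of the same list differ by a permutation of the indices. -/
theorem IsState.exists_perm {A : Finset ℕ} (hA : A.card = k) {s t : Fin k → ℕ}
    (hs : IsState A s) (ht : IsState A t) : ∃ π : Equiv.Perm (Fin k), t = s ∘ π := by
  classical
  choose f hf using fun i => hs.surj hA (ht.mem i)
  have hinj : Injective f := fun i j h => ht.inj (by rw [← hf i, ← hf j, h])
  refine ⟨Equiv.ofBijective f (Finite.injective_iff_bijective.1 hinj), ?_⟩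
  funext i
  exact (hf i).symm

/-- The bounds for rows and columns are equivalent. -/
theorem col_of_row {B : Gadget} {w : ℕ} {A A' : Finset ℕ} {L : B.H → Finset ℕ}
    (hA' : A'.card = k)
    (row : ∀ t : Fin k → ℕ, IsState A' t →
      {s : Fin k → ℕ | IsState A s ∧ ¬ B.Ext L s t}.ncard ≤ w)
    (s : Fin k → ℕ) (hs : IsState A s) :
    {t : Fin k → ℕ | IsState A' t ∧ ¬ B.Ext L s t}.ncard ≤ w := by
  obtain ⟨t₀, ht₀⟩ := exists_isState hA'
  refine le_trans ?_ (row t₀ ht₀)
  -- `t = t₀ ∘ π` is mapped to `s ∘ π⁻¹`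
  have key : ∀ t, IsState A' t → ∃ π : Equiv.Perm (Fin k), t = t₀ ∘ π := fun t ht =>
    ht₀.exists_perm hA' ht
  classical
  let f : (Fin k → ℕ) → Fin k → ℕ := fun t =>
    if h : IsState A' t then s ∘ ((Classical.choose (key t h))⁻¹ : Equiv.Perm (Fin k)) else t
  refine Set.ncard_le_ncard_of_injOn f ?_ ?_ ?_
  · rintro t ⟨ht, hext⟩
    have hc := Classical.choose_spec (key t ht)
    simp only [f, dif_pos ht]
    refine ⟨hs.comp _, fun h => hext ?_⟩
    have h2 := h.comp (Classical.choose (key t ht))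
    rwa [← hc, comp_inv_perm] at h2
  · rintro t ⟨ht, -⟩ t' ⟨ht', -⟩ h
    have hc := Classical.choose_spec (key t ht)
    have hc' := Classical.choose_spec (key t' ht')
    simp only [f, dif_pos ht, dif_pos ht'] at h
    have h2 : (Classical.choose (key t ht))⁻¹ = (Classical.choose (key t' ht'))⁻¹ := by
      ext i
      have := congrFun h i
      exact congrArg _ (hs.inj this)
    rw [inv_inj] at h2
    rw [hc, hc', h2]
  · have hfin : {s : Fin k → ℕ | IsState A s}.Finite := by
      refine Set.Finite.subset (Set.Finite.pi' fun _ : Fin k => A.finite_toSet) ?_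
      intro r hr i
      exact hr.mem i
    exact hfin.subset fun r hr => hr.1

/-! ### States of stars -/

variable {J M : ℕ}

theorem ext_prevV_zero {s t : Fin k → ℕ} {p : StarH k J M → Fin k → ℕ} (b : Bool) (j : Fin J) :
    ext s t p (prevV k b j 0) = if b then t else s := by
  cases b <;> rfl

theorem ext_prevV_succ {s t : Fin k → ℕ} {p : StarH k J M → Fin k → ℕ} (b : Bool) (j : Fin J)
    (m : Fin M) : ext s t p (prevV k b j m.succ) = p (some (j, m, none)) := by
  simp [prevV, ext]

/-- The states along the chain `j` of a star. -/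
def chSt (s : Fin k → ℕ) (p : StarH k J M → Fin k → ℕ) (j : Fin J) : ℕ → Fin k → ℕ
  | 0 => s
  | m + 1 => if h : m < M then p (some (j, ⟨m, h⟩, none)) else s

theorem ext_prevV {s t : Fin k → ℕ} {p : StarH k J M → Fin k → ℕ} (b : Bool) (j : Fin J)
    (m : Fin (M + 1)) :
    ext s t p (prevV k b j m) = chSt (if b then t else s) p j m := by
  refine Fin.cases ?_ (fun m' => ?_) m
  · exact ext_prevV_zero b j
  · rw [ext_prevV_succ]
    simp [chSt, Fin.val_succ]

/-- States which extend to the star come from states of the chains. -/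
theorem starOk_of_ext {ar : Fin J → Bool × Fin (M + 1)} {L : StarH k J M → Finset ℕ}
    {s t : Fin k → ℕ} (h : (star k ar).Ext L s t) : StarOk ar (L none) (qL L) (bL L) s t := by
  obtain ⟨p, h1, h2⟩ := h
  replace h1 : ∀ x : StarH k J M, IsState (L x) (p x) := h1
  replace h2 : ∀ x y : Bool ⊕ StarH k J M, StarAdj k ar x y → ∀ i,
    ext (H := StarH k J M) s t p x i ≠ ext (H := StarH k J M) s t p y i := h2
  refine ⟨fun j => chSt (if (ar j).1 then t else s) p j (ar j).2, p none, h1 none, fun j =>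
    ⟨⟨chSt (if (ar j).1 then t else s) p j, ⟨fun m hm => ?_, fun m hm => ?_⟩, rfl, rfl⟩, ?_⟩⟩
  · have hm' : m < M := lt_of_lt_of_le hm (Nat.lt_succ_iff.1 (ar j).2.2)
    simp only [chSt, bL, hm', dif_pos]
    exact h1 _
  · have hm' : m < M := lt_of_lt_of_le hm (Nat.lt_succ_iff.1 (ar j).2.2)
    have hlt : (⟨m, hm'⟩ : Fin M).castSucc < (ar j).2 := by
      rw [Fin.lt_def]
      exact hm
    refine ⟨fun q => p (some (j, ⟨m, hm'⟩, some q)), fun q => ?_, fun q q' hq i => ?_,
      fun q i => ⟨?_, ?_⟩⟩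
    · simp only [qL, hm', dif_pos]
      exact h1 _
    · exact h2 (.inr (some (j, ⟨m, hm'⟩, some q))) (.inr (some (j, ⟨m, hm'⟩, some q')))
        ⟨hlt, Or.inr (Or.inr ⟨q', hq.symm, rfl⟩)⟩ i
    · have := h2 (.inr (some (j, ⟨m, hm'⟩, some q)))
        (prevV k (ar j).1 j (⟨m, hm'⟩ : Fin M).castSucc) ⟨hlt, Or.inl rfl⟩ i
      rw [ext_prevV] at this
      exact this
    · have := h2 (.inr (some (j, ⟨m, hm'⟩, some q))) (.inr (some (j, ⟨m, hm'⟩, none)))
        ⟨hlt, Or.inr (Or.inl rfl)⟩ i
      simp only [chSt, hm', dif_pos]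
      exact this
  · intro i
    have := h2 (.inr none) (prevV k (ar j).1 j (ar j).2) ⟨j, rfl⟩ i
    rw [ext_prevV] at this
    exact this

/-- States of the chains give states which extend to the star. -/
theorem ext_of_starOk {ar : Fin J → Bool × Fin (M + 1)} {L : StarH k J M → Finset ℕ}
    (hL : ∀ x, (L x).card = k) {s t : Fin k → ℕ}
    (h : StarOk ar (L none) (qL L) (bL L) s t) : (star k ar).Ext L s t := by
  classical
  obtain ⟨p, y, hy, hp⟩ := h
  have hyp := fun j => (hp j).2
  have hc : ∀ j, ∃ c, IsChn (ar j).2 (qL L j) (bL L j) c ∧ c 0 = (if (ar j).1 then t else s) ∧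
    c (ar j).2 = p j := fun j => (hp j).1
  choose c hc h0 hl using hc
  have st := fun j => (hc j).st
  have dia := fun j => (hc j).dia
  choose e he using fun x => exists_isState (hL x)
  have dia' : ∀ j, ∀ m, ∀ _ : m < ((ar j).2 : ℕ), ∃ q : Fin (k - 1) → Fin k → ℕ,
      (∀ a, IsState (qL L j m a) (q a)) ∧ (∀ a a', a ≠ a' → ∀ i, q a i ≠ q a' i) ∧
      ∀ a i, q a i ≠ c j m i ∧ q a i ≠ c j (m + 1) i := dia
  choose q hq1 hq2 hq3 using dia'
  let P : StarH k J M → Fin k → ℕ := fun x => match x with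
    | none => y
    | some (j, m, none) => if (m : ℕ) < (ar j).2 then c j (m + 1) else e (some (j, m, none))
    | some (j, m, some a) => if h : (m : ℕ) < (ar j).2 then q j m h a else
        e (some (j, m, some a))
  have hP : ∀ (j : Fin J) (m : ℕ) (hm : m ≤ (ar j).2),
      chSt (if (ar j).1 then t else s) P j m = c j m := by
    intro j m hm
    cases m with
    | zero => rw [h0]; rfl
    | succ m =>
      have hm' : m < M := lt_of_lt_of_le hm (Nat.lt_succ_iff.1 (ar j).2.2)
      simp only [chSt, hm', dif_pos, P]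
      rw [if_pos (by simpa using hm)]
  have key : ∀ (j : Fin J) (m : Fin (M + 1)) (hm : m ≤ (ar j).2),
      ext s t P (prevV k (ar j).1 j m) = c j m := by
    intro j m hm
    rw [ext_prevV]
    exact hP j m hm
  suffices main : (∀ x : StarH k J M, IsState (L x) (P x)) ∧
      ∀ x y : Bool ⊕ StarH k J M, StarAdj k ar x y → ∀ i,
        ext (H := StarH k J M) s t P x i ≠ ext (H := StarH k J M) s t P y i from
    ⟨P, main.1, main.2⟩
  refine ⟨?_, ?_⟩
  · rintro (_ | ⟨j, m, _ | a⟩)
    · exact hy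
    · by_cases h : (m : ℕ) < (ar j).2
      · simp only [P, h, if_true]
        have := st j m h
        simpa [bL] using this
      · simp only [P, h, if_false]
        exact he _
    · by_cases h : (m : ℕ) < (ar j).2
      · simp only [P, h, dif_pos]
        have := hq1 j m h a
        simpa [qL] using this
      · simp only [P, h, dif_neg, not_false_eq_true]
        exact he _
  · rintro (b | _ | ⟨j, m, _ | a⟩) w hw i
    · exact hw.elim
    · obtain ⟨j, rfl⟩ := hw
      rw [key j _ le_rfl, hl]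
      exact hyp j i
    · exact hw.elim
    · obtain ⟨hm, hw⟩ := hw
      have hm' : (m : ℕ) < (ar j).2 := hm
      have hx : ext s t P (.inr (some (j, m, some a))) = q j m hm' a := by
        simp only [ext, P, hm', dif_pos]
      rw [hx]
      rcases hw with rfl | rfl | ⟨a', ha', rfl⟩
      · rw [key j _ hm.le]
        exact (hq3 j m hm' a i).1
      · have : ext s t P (.inr (some (j, m, none))) = c j (m + 1) := by
          simp only [ext, P, hm', if_true]
        rw [this]
        exact (hq3 j m hm' a i).2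
      · have : ext s t P (.inr (some (j, m, some a'))) = q j m hm' a' := by
          simp only [ext, P, hm', dif_pos]
        rw [this]
        exact hq2 j m hm' a a' ha'.symm i

/-- The lists of a star. -/
def mkL (Y : Finset ℕ) (Q : Fin J → ℕ → Fin (k - 1) → Finset ℕ) (B : Fin J → ℕ → Finset ℕ) :
    StarH k J M → Finset ℕ
  | none => Y
  | some (j, m, none) => B j m
  | some (j, m, some a) => Q j m a

end Pool.Agent.MP_c07eba.KL
end

section
/-!
# The base link for `k = 4`: the finite check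
-/
namespace Pool.Agent.MP_c07eba.KL

open Finset Function

/-- Values of a function `Fin 4 → Fin 4` as a code. -/
def gt (x : ℕ) (i : Fin 4) : ℕ := x / 4 ^ (i : ℕ) % 4

/-- The 24 permutations of `Fin 4`. -/
def perms : List ℕ := (List.range 256).filter fun x =>
  (List.finRange 4).all fun i => (List.finRange 4).all fun j => i == j || gt x i != gt x j

/-- Blocked: every permutation meets `a`, or `1` or `c` outside `E`. -/
def bl (E : ℕ) (a c : ℕ) : Bool := perms.all fun y =>
  (List.finRange 4).any fun i => Nat.beq (gt y i) (gt a i) ||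
    (!Nat.testBit E i && (Nat.beq (gt y i) i || Nat.beq (gt y i) (gt c i)))

theorem checkA : (perms.all fun a => perms.all fun c => !bl 0 a c ||
    (List.finRange 4).any fun i => perms.all fun c' => Nat.beq c c' ||
      !Nat.beq (gt c i) (gt c' i) || !bl 0 a c') = true := by decide +kernel

theorem checkB : ((List.finRange 4).all fun i => perms.all fun a => perms.all fun c =>
    !Nat.beq (gt c i) i || !bl 0 a c || perms.all fun c' => Nat.beq c c' ||
      !Nat.beq (gt c' i) i || !bl 0 a c') = true := by decide +kernel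

theorem checkC : ((List.finRange 4).all fun i => perms.all fun a => perms.all fun c =>
    !bl (2 ^ (i : ℕ)) a c || perms.all fun c' => Nat.beq c c' ||
      !Nat.beq (gt c i) (gt c' i) || !bl (2 ^ (i : ℕ)) a c') = true := by decide +kernel

theorem checkR : ((List.finRange 4).all fun i => (List.finRange 4).all fun j => i == j ||
    [0, 2 ^ (i : ℕ), 2 ^ (j : ℕ), 2 ^ (i : ℕ) + 2 ^ (j : ℕ)].all fun E => perms.all fun c =>
      !((Nat.testBit E i || Nat.beq (gt c i) i) && (Nat.testBit E j || Nat.beq (gt c j) j)) ||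
        Nat.ble (perms.filter fun a => bl E a c).length 2) = true := by decide +kernel

end Pool.Agent.MP_c07eba.KL
end
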