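import Pool.Agent.Lib.MP_c07eba_lc.Four

/-!
# The base link for `k = 4`: at most two states are killed
-/

namespace Pool.Agent.MP_c07eba.KL

open Finset Function

/-! ### Codes -/

theorem gt_lt (x : ℕ) (i : Fin 4) : gt x i < 4 := Nat.mod_lt _ (by norm_num)

/-- The code of a function. -/
def enc (f : Fin 4 → Fin 4) : ℕ := (f 0 : ℕ) + 4 * (f 1 : ℕ) + 16 * (f 2 : ℕ) + 64 * (f 3 : ℕ)

theorem gt_enc (f : Fin 4 → Fin 4) (i : Fin 4) : gt (enc f) i = f i := by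
  have h0 := (f 0).2
  have h1 := (f 1).2
  have h2 := (f 2).2
  have h3 := (f 3).2
  obtain ⟨i, hi⟩ := i
  interval_cases i
  · change enc f / 4 ^ 0 % 4 = (f 0 : ℕ)
    unfold enc
    omega
  · change enc f / 4 ^ 1 % 4 = (f 1 : ℕ)
    unfold enc
    omega
  · change enc f / 4 ^ 2 % 4 = (f 2 : ℕ)
    unfold enc
    omega
  · change enc f / 4 ^ 3 % 4 = (f 3 : ℕ)
    unfold enc
    omega

theorem enc_lt (f : Fin 4 → Fin 4) : enc f < 256 := by
  have h0 := (f 0).2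
  have h1 := (f 1).2
  have h2 := (f 2).2
  have h3 := (f 3).2
  unfold enc
  omega

theorem mem_perms {x : ℕ} : x ∈ perms ↔ x < 256 ∧ ∀ i j : Fin 4, i ≠ j → gt x i ≠ gt x j := by
  simp only [perms, List.mem_filter, List.mem_range, List.all_eq_true, List.mem_finRange,
    true_imp_iff, Bool.or_eq_true, beq_iff_eq, bne_iff_ne]
  refine and_congr_right fun _ => ?_
  constructor
  · intro h i j hij
    exact (h i j).resolve_left hij
  · intro h i j
    by_cases hij : i = j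
    · exact Or.inl hij
    · exact Or.inr (h i j hij)

theorem enc_mem {f : Fin 4 → Fin 4} (hf : Injective f) : enc f ∈ perms := by
  rw [mem_perms]
  refine ⟨enc_lt f, fun i j hij h => hij (hf (Fin.ext ?_))⟩
  rwa [gt_enc, gt_enc] at h

/-- The function with a given code. -/
def dcd (x : ℕ) (i : Fin 4) : Fin 4 := ⟨gt x i, gt_lt x i⟩

theorem dcd_inj {x : ℕ} (hx : x ∈ perms) : Injective (dcd x) := by
  intro i j h
  by_contra hij
  exact (mem_perms.1 hx).2 i j hij (congrArg Fin.val h)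

theorem enc_inj : Injective enc := by
  intro f g h
  funext i
  apply Fin.ext
  rw [← gt_enc f i, ← gt_enc g i, h]

/-- Not blocked: there is a permutation. -/
theorem bl_false {E a c : ℕ} (h : bl E a c = false) : ∃ y : Fin 4 → Fin 4, Injective y ∧
    ∀ i, (y i : ℕ) ≠ gt a i ∧ (Nat.testBit E i = false → y i ≠ i ∧ (y i : ℕ) ≠ gt c i) := by
  unfold bl at h
  rw [List.all_eq_false] at h
  obtain ⟨y, hy, h⟩ := h
  refine ⟨dcd y, dcd_inj hy, fun i => ?_⟩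
  simp only [List.any_eq_true, List.mem_finRange, true_and, Bool.or_eq_true,
    Nat.beq_eq, Bool.and_eq_true, Bool.not_eq_true', not_exists, not_or, not_and] at h
  obtain ⟨h1, h2⟩ := h i
  refine ⟨h1, fun hE => ?_⟩
  have := h2 hE
  exact ⟨fun e => this.1 (congrArg Fin.val e), this.2⟩

/-! ### Coordinates -/

variable {k : ℕ}

/-- A bijection between two lists which fixes the common colours. -/
theorem exists_fix {A Y : Finset ℕ} (h : A.card = Y.card) : ∃ e : ℕ → ℕ,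
    (∀ x ∈ A, e x ∈ Y) ∧ Set.InjOn e A ∧ ∀ x ∈ A, x ∈ Y → e x = x := by
  classical
  have h1 : (A \ Y).card = (Y \ A).card := by
    have h2 := card_sdiff_add_card_inter A Y
    have h3 := card_sdiff_add_card_inter Y A
    rw [inter_comm] at h3
    omega
  obtain ⟨f⟩ : Nonempty ((A \ Y : Finset ℕ) ≃ (Y \ A : Finset ℕ)) :=
    ⟨Finset.equivOfCardEq h1⟩
  refine ⟨fun x => if hx : x ∈ A \ Y then f ⟨x, hx⟩ else x, fun x hx => ?_, fun x hx y hy he => ?_,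
    fun x hx hy => ?_⟩
  · by_cases hx' : x ∈ A \ Y
    · simp only [dif_pos hx']
      exact (mem_sdiff.1 (f ⟨x, hx'⟩).2).1
    · simp only [dif_neg hx']
      by_contra hxy
      exact hx' (mem_sdiff.2 ⟨hx, hxy⟩)
  · rw [mem_coe] at hx hy
    by_cases hx' : x ∈ A \ Y <;> by_cases hy' : y ∈ A \ Y
    · simp only [dif_pos hx', dif_pos hy'] at he
      have := f.injective (Subtype.ext he)
      exact congrArg Subtype.val this
    · simp only [dif_pos hx', dif_neg hy'] at he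
      exact absurd (he ▸ hy) (mem_sdiff.1 (f ⟨x, hx'⟩).2).2
    · simp only [dif_neg hx', dif_pos hy'] at he
      exact absurd (he ▸ hx) (mem_sdiff.1 (f ⟨y, hy'⟩).2).2
    · simpa only [dif_neg hx', dif_neg hy'] using he
  · have : ¬ x ∈ A \ Y := fun h => (mem_sdiff.1 h).2 hy
    simp only [dif_neg this]

theorem IsState.map {A Y : Finset ℕ} {e : ℕ → ℕ} (h1 : ∀ x ∈ A, e x ∈ Y) (h2 : Set.InjOn e A)
    {s : Fin k → ℕ} (hs : IsState A s) : IsState Y fun i => e (s i) :=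
  ⟨fun _ _ h => hs.inj (h2 (hs.mem _) (hs.mem _) h), fun i => h1 _ (hs.mem i)⟩

/-- A vertex with the list `Y` and neighbours with the states `a`, `b`, `c` is blocked. -/
def Blk4 (Y : Finset ℕ) (a b c : Fin k → ℕ) : Prop :=
  ¬ ∃ y, IsState Y y ∧ ∀ i, y i ≠ a i ∧ y i ≠ b i ∧ y i ≠ c i

/-- Coordinates: all states are expressed by the state of `b`. -/
theorem exists_coord {Y : Finset ℕ} (hY : Y.card = 4) {Lb : Finset ℕ} (hLb : Lb.card = 4)
    {b : Fin 4 → ℕ} (hb : IsState Lb b) : ∃ β : Fin 4 → ℕ, IsState Y β ∧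
      (∀ i, b i ∈ Y → β i = b i) ∧ ∀ (L : Finset ℕ), L.card = 4 → ∃ e : ℕ → ℕ,
        ∀ s : Fin 4 → ℕ, IsState L s → ∃ σ : Equiv.Perm (Fin 4), ∀ i, β (σ i) = e (s i) ∧
          (s i ∈ Y → e (s i) = s i) := by
  obtain ⟨e, h1, h2, h3⟩ := exists_fix (hLb.trans hY.symm)
  refine ⟨fun i => e (b i), hb.map h1 h2, fun i hi => h3 _ (hb.mem i) hi, fun L hL => ?_⟩
  obtain ⟨e', h1', h2', h3'⟩ := exists_fix (hL.trans hY.symm)
  refine ⟨e', fun s hs => ?_⟩
  obtain ⟨π, hπ⟩ := (hb.map h1 h2).exists_perm hY (hs.map h1' h2')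
  exact ⟨π, fun i => ⟨(congrFun hπ i).symm, fun hi => h3' _ (hs.mem i) hi⟩⟩

/-- A blocked vertex is blocked in coordinates. -/
theorem bl_of_blk {Y : Finset ℕ} {β a b c : Fin 4 → ℕ} (hβ : IsState Y β)
    (hb : ∀ i, b i ∈ Y → β i = b i) {ea ec : ℕ → ℕ} {α γ : Equiv.Perm (Fin 4)}
    (hα : ∀ i, β (α i) = ea (a i) ∧ (a i ∈ Y → ea (a i) = a i))
    (hγ : ∀ i, β (γ i) = ec (c i) ∧ (c i ∈ Y → ec (c i) = c i)) {E : ℕ}
    (hE : ∀ i : Fin 4, Nat.testBit E i = true → b i ∉ Y ∧ c i ∉ Y) (h : Blk4 Y a b c) :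
    bl E (enc α) (enc γ) = true := by
  by_contra hno
  obtain ⟨y, hy, hy'⟩ := bl_false (by simpa using hno)
  refine h ⟨fun i => β (y i), ⟨hβ.inj.comp hy, fun i => hβ.mem _⟩, fun i => ?_⟩
  obtain ⟨h1, h2⟩ := hy' i
  rw [gt_enc] at h1
  refine ⟨fun (e : β (y i) = a i) => ?_, ?_⟩
  · have hm : a i ∈ Y := e ▸ hβ.mem _
    have h3 : β (y i) = β (α i) := by rw [e, (hα i).1, (hα i).2 hm]
    exact h1 (congrArg Fin.val (hβ.inj h3))
  · by_cases hEi : Nat.testBit E i = true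
    · obtain ⟨h3, h4⟩ := hE i hEi
      exact ⟨fun (e : β (y i) = b i) => h3 (e ▸ hβ.mem _),
        fun (e : β (y i) = c i) => h4 (e ▸ hβ.mem _)⟩
    · obtain ⟨h3, h4⟩ := h2 (by simpa using hEi)
      rw [gt_enc] at h4
      refine ⟨fun (e : β (y i) = b i) => ?_, fun (e : β (y i) = c i) => ?_⟩
      · have hm : b i ∈ Y := e ▸ hβ.mem _
        exact h3 (hβ.inj (e.trans (hb i hm).symm))
      · have hm : c i ∈ Y := e ▸ hβ.mem _
        have h5 : β (y i) = β (γ i) := by rw [e, (hγ i).1, (hγ i).2 hm]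
        exact h4 (congrArg Fin.val (hβ.inj h5))

theorem checkA' {a c : ℕ} (ha : a ∈ perms) (hc : c ∈ perms) (h : bl 0 a c = true) :
    ∃ i : Fin 4, ∀ c' ∈ perms, c ≠ c' → gt c i = gt c' i → bl 0 a c' = false := by
  have h1 := checkA
  simp only [List.all_eq_true, Bool.or_eq_true, Bool.not_eq_true', List.any_eq_true,
    List.mem_finRange, true_and, Nat.beq_eq] at h1
  rcases h1 a ha c hc with h2 | ⟨i, h2⟩
  · rw [h] at h2; exact absurd h2 (by simp)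
  · refine ⟨i, fun c' hc' hne heq => ?_⟩
    rcases h2 c' hc' with (h3 | h3) | h3
    · exact absurd h3 hne
    · rw [heq] at h3
      simp [Nat.beq_refl] at h3
    · exact h3

theorem checkB' {a c : ℕ} {i : Fin 4} (ha : a ∈ perms) (hc : c ∈ perms) (hi : gt c i = i)
    (h : bl 0 a c = true) : ∀ c' ∈ perms, c ≠ c' → gt c' i = i → bl 0 a c' = false := by
  have h1 := checkB
  simp only [List.all_eq_true, Bool.or_eq_true, Bool.not_eq_true',
    List.mem_finRange, true_imp_iff, Nat.beq_eq] at h1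
  intro c' hc' hne heq
  rcases h1 i a ha c hc with (h2 | h2) | h2
  · rw [hi] at h2
    simp [Nat.beq_refl] at h2
  · rw [h] at h2; exact absurd h2 (by simp)
  · rcases h2 c' hc' with (h3 | h3) | h3
    · exact absurd h3 hne
    · rw [heq] at h3
      simp [Nat.beq_refl] at h3
    · exact h3

theorem checkC' {a c : ℕ} {i : Fin 4} (ha : a ∈ perms) (hc : c ∈ perms)
    (h : bl (2 ^ (i : ℕ)) a c = true) :
    ∀ c' ∈ perms, c ≠ c' → gt c i = gt c' i → bl (2 ^ (i : ℕ)) a c' = false := by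
  have h1 := checkC
  simp only [List.all_eq_true, Bool.or_eq_true, Bool.not_eq_true',
    List.mem_finRange, true_imp_iff, Nat.beq_eq] at h1
  intro c' hc' hne heq
  rcases h1 i a ha c hc with h2 | h2
  · rw [h] at h2; exact absurd h2 (by simp)
  · rcases h2 c' hc' with (h3 | h3) | h3
    · exact absurd h3 hne
    · rw [heq] at h3
      simp [Nat.beq_refl] at h3
    · exact h3

theorem checkR' {c : ℕ} {i j : Fin 4} (hij : i ≠ j) (hc : c ∈ perms) {E : ℕ}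
    (hE : E ∈ [0, 2 ^ (i : ℕ), 2 ^ (j : ℕ), 2 ^ (i : ℕ) + 2 ^ (j : ℕ)])
    (hi : Nat.testBit E i = true ∨ gt c i = i) (hj : Nat.testBit E j = true ∨ gt c j = j) :
    (perms.filter fun a => bl E a c).length ≤ 2 := by
  have h1 := checkR
  simp only [List.all_eq_true, Bool.or_eq_true, Bool.not_eq_true', List.mem_finRange,
    true_imp_iff, Bool.and_eq_false_iff, Bool.or_eq_false_iff, beq_iff_eq, Nat.ble_eq] at h1
  rcases h1 i j with h2 | h2
  · exact absurd h2 hij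
  · rcases h2 E hE c hc with (⟨h3, h4⟩ | ⟨h3, h4⟩) | h3
    · rcases hi with hi | hi
      · rw [hi] at h3; exact absurd h3 (by simp)
      · rw [hi] at h4; simp [Nat.beq_refl] at h4
    · rcases hj with hj | hj
      · rw [hj] at h3; exact absurd h3 (by simp)
      · rw [hj] at h4; simp [Nat.beq_refl] at h4
    · exact h3

theorem fin4_ne_succ : ∀ i : Fin 4, i ≠ i + 1 := by decide

theorem testBit_aux (i j : Fin 4) (hij : i ≠ j) :
    Nat.testBit (2 ^ (i : ℕ)) i = true ∧ Nat.testBit (2 ^ (i : ℕ)) j = false ∧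
      ∀ l : Fin 4, (Nat.testBit (2 ^ (i : ℕ)) l = true → l = i) ∧
        (Nat.testBit (2 ^ (j : ℕ)) l = true → l = j) ∧
        (Nat.testBit (2 ^ (i : ℕ) + 2 ^ (j : ℕ)) l = true → l = i ∨ l = j) ∧
        Nat.testBit (2 ^ (i : ℕ) + 2 ^ (j : ℕ)) i = true ∧
        Nat.testBit (2 ^ (i : ℕ) + 2 ^ (j : ℕ)) j = true := by
  revert hij
  revert i j
  decide

/-- At most two states are killed. -/
theorem four_count {Y : Finset ℕ} (hY : Y.card = 4) {Aa Ab Ac : Finset ℕ} (hAa : Aa.card = 4)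
    (hAb : Ab.card = 4) (hAc : Ac.card = 4) {a b : Fin 4 → ℕ} (ha : IsState Aa a)
    (hb : IsState Ab b) (W : (Fin 4 → ℕ) → Prop) (hW0 : ∃ c, W c)
    (hW : ∀ c, W c → IsState Ac c)
    (hW3 : ∀ c, W c → ∀ i₀, (∀ i, i ≠ i₀ → b i ≠ c i) →
      ∃ π : Equiv.Perm (Fin 4), π ≠ 1 ∧ π i₀ = i₀ ∧ W (c ∘ π)) :
    {π : Equiv.Perm (Fin 4) | ∀ c, W c → Blk4 Y (a ∘ π) b c}.ncard ≤ 2 := by
  classical
  obtain ⟨β, hβ, hbβ, hco⟩ := exists_coord hY hAb hb
  obtain ⟨ea, hea⟩ := hco Aa hAa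
  obtain ⟨ec, hec⟩ := hco Ac hAc
  obtain ⟨α, hα⟩ := hea a ha
  obtain ⟨c, hc⟩ := hW0
  obtain ⟨γ, hγ⟩ := hec c (hW c hc)
  have key : ∀ (π π' : Equiv.Perm (Fin 4)) (E : ℕ), (∀ i : Fin 4, Nat.testBit E i = true →
      b i ∉ Y ∧ c (π' i) ∉ Y) → Blk4 Y (a ∘ π) b (c ∘ π') →
      bl E (enc (α * π : Equiv.Perm (Fin 4))) (enc (γ * π' : Equiv.Perm (Fin 4))) = true := by
    intro π π' E hE h
    refine bl_of_blk (ea := ea) (ec := ec) hβ hbβ (fun i => ?_) (fun i => ?_) hE h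
    · exact hα (π i)
    · exact hγ (π' i)
  have hmem : ∀ σ : Equiv.Perm (Fin 4), enc σ ∈ perms := fun σ => enc_mem σ.injective
  have hγne : ∀ π' : Equiv.Perm (Fin 4), π' ≠ 1 → enc γ ≠ enc (γ * π' : Equiv.Perm (Fin 4)) := by
    intro π' hne h
    apply hne
    have h2 := enc_inj h
    ext i
    have h3 := congrFun h2 i
    simp only [Equiv.Perm.coe_mul, comp_apply] at h3
    have h4 := γ.injective h3
    rw [← h4]
    rfl
  by_cases h4 : ∀ i, b i ≠ c i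
  · -- four different columns
    have hemp : {π : Equiv.Perm (Fin 4) | ∀ c, W c → Blk4 Y (a ∘ π) b c} = ∅ := by
      rw [Set.eq_empty_iff_forall_notMem]
      intro π hπ
      have h0 := key π 1 0 (by simp) (hπ c hc)
      rw [mul_one] at h0
      obtain ⟨i, hi⟩ := checkA' (hmem _) (hmem _) h0
      obtain ⟨π', h1, h2, h3⟩ := hW3 c hc i fun i _ => h4 i
      have h5 := hi _ (hmem (γ * π')) (hγne π' h1) (by
        rw [gt_enc, gt_enc, Equiv.Perm.coe_mul, comp_apply, h2])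
      have h6 := key π π' 0 (by simp) (hπ _ h3)
      rw [h5] at h6
      exact absurd h6 (by simp)
    rw [hemp, Set.ncard_empty]
    norm_num
  push Not at h4
  obtain ⟨i₀, hi₀⟩ := h4
  by_cases h3 : ∀ i, i ≠ i₀ → b i ≠ c i
  · -- three different columns
    have hemp : {π : Equiv.Perm (Fin 4) | ∀ c, W c → Blk4 Y (a ∘ π) b c} = ∅ := by
      rw [Set.eq_empty_iff_forall_notMem]
      intro π hπ
      obtain ⟨π', h1, h2, h3'⟩ := hW3 c hc i₀ h3
      by_cases hY' : b i₀ ∈ Y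
      · have hγ0 : γ i₀ = i₀ := by
          apply hβ.inj
          rw [(hγ i₀).1, (hγ i₀).2 (hi₀ ▸ hY'), hbβ i₀ hY', hi₀]
        have h0 := key π 1 0 (by simp) (hπ c hc)
        rw [mul_one] at h0
        have h5 := checkB' (hmem _) (hmem _) (by rw [gt_enc, hγ0]) h0 _ (hmem (γ * π'))
          (hγne π' h1) (by rw [gt_enc, Equiv.Perm.coe_mul, comp_apply, h2, hγ0])
        have h6 := key π π' 0 (by simp) (hπ _ h3')
        rw [h5] at h6
        exact absurd h6 (by simp)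
      · have hE : ∀ i : Fin 4, Nat.testBit (2 ^ (i₀ : ℕ)) i = true → i = i₀ := by
          obtain ⟨j, hj⟩ : ∃ j : Fin 4, i₀ ≠ j := ⟨i₀ + 1, fin4_ne_succ i₀⟩
          exact fun i => ((testBit_aux i₀ j hj).2.2 i).1
        have h0 := key π 1 (2 ^ (i₀ : ℕ)) (fun i hi => by
          obtain rfl := hE i hi
          exact ⟨hY', by simpa [hi₀] using hY'⟩) (hπ c hc)
        rw [mul_one] at h0
        have h5 := checkC' (hmem _) (hmem _) h0 _ (hmem (γ * π'))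
          (hγne π' h1) (by rw [gt_enc, gt_enc, Equiv.Perm.coe_mul, comp_apply, h2])
        have h6 := key π π' (2 ^ (i₀ : ℕ)) (fun i hi => by
          obtain rfl := hE i hi
          rw [h2, ← hi₀]
          exact ⟨hY', hY'⟩) (hπ _ h3')
        rw [h5] at h6
        exact absurd h6 (by simp)
    rw [hemp, Set.ncard_empty]
    norm_num
  push Not at h3
  obtain ⟨j₀, hij, hj₀⟩ := h3
  -- two equal columns
  obtain ⟨t1, t2, t3⟩ := testBit_aux i₀ j₀ hij.symm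
  obtain ⟨t1', t2', -⟩ := testBit_aux j₀ i₀ hij
  have hfix : ∀ i, b i = c i → b i ∈ Y → gt (enc γ) i = i := by
    intro i hi hiY
    rw [gt_enc]
    congr 1
    apply hβ.inj
    rw [(hγ i).1, (hγ i).2 (hi ▸ hiY), hbβ i hiY, hi]
  obtain ⟨E, hE, hE1, hE2, hE3⟩ : ∃ E ∈ [0, 2 ^ (i₀ : ℕ), 2 ^ (j₀ : ℕ), 2 ^ (i₀ : ℕ) + 2 ^ (j₀ : ℕ)],
      (Nat.testBit E i₀ = true ∨ gt (enc γ) i₀ = i₀) ∧
      (Nat.testBit E j₀ = true ∨ gt (enc γ) j₀ = j₀) ∧
      ∀ i : Fin 4, Nat.testBit E i = true → b i ∉ Y ∧ c i ∉ Y := by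
    by_cases h1 : b i₀ ∈ Y <;> by_cases h2 : b j₀ ∈ Y
    · exact ⟨0, by simp, Or.inr (hfix _ hi₀ h1), Or.inr (hfix _ hj₀ h2), by simp⟩
    · refine ⟨2 ^ (j₀ : ℕ), by simp, Or.inr (hfix _ hi₀ h1), Or.inl t1', fun i hi => ?_⟩
      obtain rfl := (t3 i).2.1 hi
      exact ⟨h2, hj₀ ▸ h2⟩
    · refine ⟨2 ^ (i₀ : ℕ), by simp, Or.inl t1, Or.inr (hfix _ hj₀ h2), fun i hi => ?_⟩
      obtain rfl := (t3 i).1 hi
      exact ⟨h1, hi₀ ▸ h1⟩
    · refine ⟨2 ^ (i₀ : ℕ) + 2 ^ (j₀ : ℕ), by simp, Or.inl (t3 0).2.2.2.1,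
        Or.inl (t3 0).2.2.2.2, fun i hi => ?_⟩
      rcases (t3 i).2.2.1 hi with rfl | rfl
      · exact ⟨h1, hi₀ ▸ h1⟩
      · exact ⟨h2, hj₀ ▸ h2⟩
  have hlen := checkR' hij.symm (hmem γ) hE hE1 hE2
  have hcard : ((perms.filter fun a => bl E a (enc γ)).toFinset : Set ℕ).ncard ≤ 2 := by
    rw [Set.ncard_coe_finset]
    exact (List.toFinset_card_le _).trans hlen
  refine le_trans (Set.ncard_le_ncard_of_injOn (fun π => enc (α * π : Equiv.Perm (Fin 4)))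
    (fun π hπ => ?_) (fun π _ π' _ h => ?_) (Finset.finite_toSet _)) hcard
  · simp only [List.coe_toFinset, List.mem_filter, Set.mem_ofPred_eq]
    refine ⟨hmem _, ?_⟩
    have := key π 1 E hE3 (hπ c hc)
    rwa [mul_one] at this
  · have h2 := enc_inj h
    have h3 : (α * π : Equiv.Perm (Fin 4)) = α * π' := by
      ext i
      exact congrArg Fin.val (congrFun h2 i)
    exact mul_left_cancel h3

/-- The chains of the base link for `k = 4`. -/
def ar4 : Fin 3 → Bool × Fin 5 := ![(false, 4), (true, 0), (true, 1)]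

/-- The base link for `k = 4` kills at most two states. -/
theorem four_row
    (hch : ∀ (l : ℕ) (Q : ℕ → Fin (4 - 1) → Finset ℕ) (B : ℕ → Finset ℕ) (A : Finset ℕ)
      (s : Fin 4 → ℕ), ListsOk 4 l Q B → A.card = 4 → IsState A s →
      ∃ c, IsChn l Q B c ∧ c 0 = s)
    (h3 : ∀ (A B : Finset ℕ) (Q : Fin (4 - 1) → Finset ℕ) (s t : Fin 4 → ℕ), IsState A s →
      IsState B t → Dia Q s t → ∀ i₁ i₂ i₃ : Fin 4, i₁ ≠ i₂ → i₁ ≠ i₃ → i₂ ≠ i₃ →
      s i₁ ≠ t i₁ → s i₂ ≠ t i₂ → s i₃ ≠ t i₃ → ∃ π : Equiv.Perm (Fin 4), π ≠ 1 ∧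
        (∀ i, i ≠ i₁ → i ≠ i₂ → i ≠ i₃ → π i = i) ∧ Dia Q s (t ∘ π))
    {A A' Y : Finset ℕ} (hA : A.card = 4) (hA' : A'.card = 4) (hY : Y.card = 4)
    {Q : Fin 3 → ℕ → Fin (4 - 1) → Finset ℕ} {B : Fin 3 → ℕ → Finset ℕ}
    (hQ : ∀ j, ListsOk 4 (ar4 j).2 (Q j) (B j)) {t : Fin 4 → ℕ} (ht : IsState A' t) :
    {s : Fin 4 → ℕ | IsState A s ∧ ¬ StarOk ar4 Y Q B s t}.ncard ≤ 2 := by
  classical
  obtain ⟨s₀, hs₀⟩ := exists_isState hA
  have hQ0 : ListsOk 4 4 (Q 0) (B 0) := hQ 0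
  have hQ2 : ListsOk 4 1 (Q 2) (B 2) := hQ 2
  obtain ⟨c₀, hc₀, hc₀0⟩ := hch 4 _ _ A s₀ hQ0 hA hs₀
  have ha : IsState (B 0 3) (c₀ 4) := hc₀.st 3 (by norm_num)
  let W : (Fin 4 → ℕ) → Prop := fun c => IsState (B 2 0) c ∧ Dia (Q 2 0) t c
  have hW0 : ∃ c, W c := by
    obtain ⟨c, hc, hc0⟩ := hch 1 _ _ A' t hQ2 hA' ht
    have h1 := hc.st 0 (by norm_num)
    have h2 := hc.dia 0 (by norm_num)
    rw [hc0] at h2
    exact ⟨_, h1, h2⟩
  have hcount := four_count hY (hQ0 3 (by norm_num)).2 hA' (hQ2 0 (by norm_num)).2 ha ht W hW0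
    (fun c hc => hc.1) (fun c hc i₀ hi => by
      obtain ⟨i₁, i₂, i₃, h12, h13, h23, hi1, hi2, hi3, hall⟩ : ∃ i₁ i₂ i₃ : Fin 4, i₁ ≠ i₂ ∧
          i₁ ≠ i₃ ∧ i₂ ≠ i₃ ∧ i₁ ≠ i₀ ∧ i₂ ≠ i₀ ∧ i₃ ≠ i₀ ∧ ∀ i, i = i₀ ∨ i = i₁ ∨ i = i₂ ∨
            i = i₃ := by
        clear hi
        revert i₀
        decide
      obtain ⟨π, hπ, hπ', hπ''⟩ := h3 _ _ _ _ _ ht hc.1 hc.2 i₁ i₂ i₃ h12 h13 h23
        (hi _ hi1) (hi _ hi2) (hi _ hi3)
      exact ⟨π, hπ, hπ' i₀ hi1.symm hi2.symm hi3.symm, hc.1.comp π, hπ''⟩)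
  refine le_trans (le_trans (Set.ncard_le_ncard (t := (fun π : Equiv.Perm (Fin 4) => s₀ ∘ π) ''
    {π : Equiv.Perm (Fin 4) | ∀ c, W c → Blk4 Y (c₀ 4 ∘ π) t c}) ?_ (Set.toFinite _))
    (Set.ncard_image_le (Set.toFinite _))) hcount
  rintro s ⟨hs, hno⟩
  obtain ⟨π, rfl⟩ := hs₀.exists_perm hA hs
  refine ⟨π, fun c hc hy => hno ?_, rfl⟩
  obtain ⟨y, hy, hy'⟩ := hy
  refine ⟨![c₀ 4 ∘ π, t, c], y, hy, fun j => ?_⟩
  fin_cases j
  · refine ⟨?_, fun i => (hy' i).1⟩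
    have h5 : Chn 4 (Q 0) (B 0) s₀ (c₀ 4) := ⟨c₀, hc₀, hc₀0, rfl⟩
    exact h5.comp π
  · refine ⟨⟨fun _ => t, ⟨fun m hm => ?_, fun m hm => ?_⟩, rfl, rfl⟩, fun i => (hy' i).2.1⟩
    · exact absurd hm (by simp [ar4])
    · exact absurd hm (by simp [ar4])
  · refine ⟨⟨fun m => if m = 0 then t else c, ⟨fun m hm => ?_, fun m hm => ?_⟩, rfl, rfl⟩,
      fun i => (hy' i).2.2⟩
    · have hm0 : m = 0 := by
        have : m < 1 := hm
        omega
      subst hm0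
      exact hc.1
    · have hm0 : m = 0 := by
        have : m < 1 := hm
        omega
      subst hm0
      exact hc.2

end Pool.Agent.MP_c07eba.KL
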