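import Mathlib
import Pool.Agent.Lib.MP_c07eba_lc.Four

section
/-!
# Rounding of fractional splittings of a bipartite graph, and König's edge colouring theorem

A bipartite graph is given by a finite index set `ι` and sets `L q`, `q : ι`, of natural numbers.
-/
namespace Pool.Agent.MP_c07eba

open Finset Function

/-- A fractional perfect matching (with respect to the left side) gives a matching. -/
theorem frac_hall {α β : Type*} [Fintype α] [Fintype β] (w : α → β → ℚ)
    (h0 : ∀ a b, 0 ≤ w a b) (h1 : ∀ a, ∑ b, w a b = 1) (h2 : ∀ b, ∑ a, w a b ≤ 1) :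
    ∃ f : α → β, Injective f ∧ ∀ a, w a (f a) ≠ 0 := by
  classical
  let t : α → Finset β := fun a => univ.filter fun b => w a b ≠ 0
  have hall : ∀ s : Finset α, s.card ≤ (s.biUnion t).card := by
    intro s
    have e1 : (s.card : ℚ) = ∑ a ∈ s, ∑ b ∈ s.biUnion t, w a b := by
      have : ∀ a ∈ s, ∑ b ∈ s.biUnion t, w a b = 1 := by
        intro a ha
        rw [← h1 a]
        apply sum_subset (subset_univ _)
        intro b _ hb
        by_contra hne
        exact hb (mem_biUnion.2 ⟨a, ha, mem_filter.2 ⟨mem_univ _, hne⟩⟩)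
      rw [sum_congr rfl this]
      simp
    have e2 : (s.card : ℚ) ≤ (s.biUnion t).card := by
      rw [e1, sum_comm]
      calc ∑ b ∈ s.biUnion t, ∑ a ∈ s, w a b ≤ ∑ b ∈ s.biUnion t, (1 : ℚ) := by
            apply sum_le_sum
            intro b _
            refine le_trans ?_ (h2 b)
            exact sum_le_sum_of_subset_of_nonneg (subset_univ _) fun a _ _ => h0 a b
        _ = _ := by simp
    exact_mod_cast e2
  obtain ⟨f, hf, hf'⟩ := (all_card_le_biUnion_card_iff_exists_injective t).1 hall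
  exact ⟨f, hf, fun a => (mem_filter.1 (hf' a)).2⟩

/-- The same with mandatory elements of the right side. -/
theorem frac_hall_mand {α β : Type*} [Fintype α] [Fintype β] (w : α → β → ℚ)
    (h0 : ∀ a b, 0 ≤ w a b) (h1 : ∀ a, ∑ b, w a b = 1) (h2 : ∀ b, ∑ a, w a b ≤ 1) :
    ∃ f : α → β, Injective f ∧ (∀ a, w a (f a) ≠ 0) ∧
      ∀ b, ∑ a, w a b = 1 → ∃ a, f a = b := by
  classical
  have hcard : (Fintype.card α : ℚ) = ∑ b, ∑ a, w a b := by
    rw [sum_comm, sum_congr rfl fun a _ => h1 a]
    simp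
  have hle : Fintype.card α ≤ Fintype.card β := by
    have : (Fintype.card α : ℚ) ≤ Fintype.card β := by
      rw [hcard]
      calc ∑ b, ∑ a, w a b ≤ ∑ b : β, (1 : ℚ) := sum_le_sum fun b _ => h2 b
        _ = _ := by simp
    exact_mod_cast this
  obtain ⟨n, hn⟩ := Nat.exists_eq_add_of_le hle
  have hnq : (n : ℚ) = ∑ b, (1 - ∑ a, w a b) := by
    rw [sum_sub_distrib, ← hcard]
    simp [hn]
  let w' : α ⊕ Fin n → β → ℚ := Sum.elim w fun _ b => (1 - ∑ a, w a b) / n
  have hsum : ∀ b, ∑ x, w' x b = ∑ a, w a b + n * ((1 - ∑ a, w a b) / n) := by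
    intro b
    rw [Fintype.sum_sum_type]
    simp [w']
  obtain ⟨f, hf, hf'⟩ := frac_hall w' (by
      rintro (a | j) b
      · exact h0 a b
      · exact div_nonneg (sub_nonneg.2 (h2 b)) (Nat.cast_nonneg _)) (by
      rintro (a | j)
      · exact h1 a
      · have hn0 : (n : ℚ) ≠ 0 := by
          have := j.pos
          exact_mod_cast this.ne'
        change ∑ b, (1 - ∑ a, w a b) / (n : ℚ) = 1
        rw [← sum_div, ← hnq, div_self hn0]) (by
      intro b
      rw [hsum]
      rcases Nat.eq_zero_or_pos n with h | h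
      · subst h
        simpa using h2 b
      · have hn0 : (n : ℚ) ≠ 0 := by exact_mod_cast h.ne'
        rw [mul_div_cancel₀ _ hn0]
        linarith)
  have hbij : Bijective f := by
    rw [Fintype.bijective_iff_injective_and_card]
    refine ⟨hf, ?_⟩
    simp [hn]
  refine ⟨f ∘ Sum.inl, hf.comp Sum.inl_injective, fun a => hf' (Sum.inl a), ?_⟩
  intro b hb
  obtain ⟨x, hx⟩ := hbij.2 b
  rcases x with a | j
  · exact ⟨a, hx⟩
  · exfalso
    apply hf' (Sum.inr j)
    change (1 - ∑ a, w a (f (Sum.inr j))) / (n : ℚ) = 0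
    rw [hx, hb]
    simp

variable {ι : Type*} [Fintype ι]

/-- The number of the sets `L q` which contain `c`. -/
def dg (L : ι → Finset ℕ) (c : ℕ) : ℕ := (univ.filter fun q => c ∈ L q).card

/-- Rounding: a fractional subgraph with row sums `z` and with column sums between `lo` and `hi`
gives a subgraph with these properties. -/
theorem exists_split (L : ι → Finset ℕ) (X : ι → ℕ → ℚ) (z : ℕ) (lo hi : ℕ → ℕ)
    (h0 : ∀ q, ∀ c ∈ L q, 0 ≤ X q c) (h1 : ∀ q, ∀ c ∈ L q, X q c ≤ 1)
    (hrow : ∀ q, ∑ c ∈ L q, X q c = z)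
    (hlo : ∀ c, (lo c : ℚ) ≤ ∑ q ∈ univ.filter fun q => c ∈ L q, X q c)
    (hhi : ∀ c, ∑ q ∈ univ.filter (fun q => c ∈ L q), X q c ≤ hi c) :
    ∃ E : ι → Finset ℕ, (∀ q, E q ⊆ L q) ∧ (∀ q, (E q).card = z) ∧
      ∀ c, lo c ≤ dg E c ∧ dg E c ≤ hi c := by
  classical
  -- the entries of the bipartite graph
  set σ : ℕ → ℚ := fun c => ∑ q ∈ univ.filter (fun q => c ∈ L q), X q c with hσ
  let U : Finset ℕ := univ.biUnion L
  let α := (q : ι) × ↥(L q)
  let β := ((q : ι) × Fin ((L q).card - z)) ⊕ ((c : ↥U) × Fin (hi c))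
  let load : (c : ℕ) → ℕ → ℚ := fun c j =>
    if j < lo c then 1 else (σ c - lo c) / (hi c - lo c : ℕ)
  let w : α → β → ℚ := fun e => Sum.elim
    (fun s => if s.1 = e.1 then (1 - X e.1 e.2) / ((L e.1).card - z : ℕ) else 0)
    (fun s => if (s.1 : ℕ) = e.2 then X e.1 e.2 / σ e.2 * load s.1 s.2 else 0)
  have hlohi : ∀ c, lo c ≤ hi c := fun c => by exact_mod_cast (hlo c).trans (hhi c)
  have hσ0 : ∀ c, 0 ≤ σ c := fun c => (Nat.cast_nonneg _).trans (hlo c)
  have hload0 : ∀ c j, 0 ≤ load c j := by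
    intro c j
    change (0 : ℚ) ≤ if j < lo c then 1 else (σ c - lo c) / (hi c - lo c : ℕ)
    split
    · exact zero_le_one
    · exact div_nonneg (sub_nonneg.2 (hlo c)) (Nat.cast_nonneg _)
  have hload1 : ∀ c j, load c j ≤ 1 := by
    intro c j
    change (if j < lo c then (1 : ℚ) else (σ c - lo c) / (hi c - lo c : ℕ)) ≤ 1
    split
    · exact le_rfl
    · apply div_le_one_of_le₀ _ (Nat.cast_nonneg _)
      rw [Nat.cast_sub (hlohi c)]
      have := hhi c
      linarith
  have hloadsum : ∀ c, ∑ j : Fin (hi c), load c j = σ c := by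
    intro c
    have e1 : ∑ j : Fin (hi c), load c j = ∑ j ∈ range (hi c), load c j :=
      Fin.sum_univ_eq_sum_range (fun j => load c j) (hi c)
    have e2 : ∀ a b, a ≤ b → lo c = a → hi c = b → ∑ j ∈ range (hi c), load c j
        = a + (b - a : ℕ) * ((σ c - a) / (b - a : ℕ)) := by
      intro a b hab ha hb
      rw [hb, ← Nat.add_sub_cancel' hab, sum_range_add, Nat.add_sub_cancel' hab]
      congr 1
      · rw [sum_congr rfl (g := fun _ => (1 : ℚ))]
        · simp
        · intro j hj
          exact if_pos (by rw [ha]; exact mem_range.1 hj)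
      · rw [sum_congr rfl (g := fun _ => (σ c - a) / (b - a : ℕ))]
        · simp
        · intro j _
          change (if a + j < lo c then (1 : ℚ) else (σ c - lo c) / (hi c - lo c : ℕ)) = _
          rw [if_neg (by omega), ha, hb]
    rw [e1, e2 _ _ (hlohi c) rfl rfl]
    rcases Nat.eq_zero_or_pos (hi c - lo c) with h | h
    · have h3 : hi c = lo c := by have := hlohi c; omega
      have h4 : σ c = lo c := le_antisymm (by rw [← h3]; exact hhi c) (hlo c)
      rw [h, h4]
      simp
    · have h3 : ((hi c - lo c : ℕ) : ℚ) ≠ 0 := by exact_mod_cast h.ne'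
      rw [mul_div_cancel₀ _ h3]
      ring
  have hσX : ∀ q, ∀ c ∈ L q, σ c = 0 → X q c = 0 := by
    intro q c hc h
    have := (sum_eq_zero_iff_of_nonneg (fun q hq => h0 q c (mem_filter.1 hq).2)).1 h q
      (mem_filter.2 ⟨mem_univ _, hc⟩)
    exact this
  have hzle : ∀ q, z ≤ (L q).card := by
    intro q
    have : (z : ℚ) ≤ (L q).card := by
      rw [← hrow q]
      calc ∑ c ∈ L q, X q c ≤ ∑ c ∈ L q, (1 : ℚ) := sum_le_sum fun c hc => h1 q c hc
        _ = _ := by simp
    exact_mod_cast this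
  have hsub : ∀ q, ∑ c ∈ L q, (1 - X q c) = ((L q).card - z : ℕ) := by
    intro q
    rw [sum_sub_distrib, hrow, Nat.cast_sub (hzle q)]
    simp
  have hX1 : ∀ q, ∀ c ∈ L q, (L q).card - z = 0 → X q c = 1 := by
    intro q c hc h
    have h3 := hsub q
    rw [h, Nat.cast_zero] at h3
    have := (sum_eq_zero_iff_of_nonneg (fun c hc => sub_nonneg.2 (h1 q c hc))).1 h3 c hc
    linarith
  -- row sums of the weights
  have hw1 : ∀ e, ∑ s, w e s = 1 := by
    rintro ⟨q, c, hc⟩
    rw [Fintype.sum_sum_type]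
    have e1 : ∑ s : (q : ι) × Fin ((L q).card - z), w ⟨q, c, hc⟩ (Sum.inl s) = 1 - X q c := by
      rw [Fintype.sum_sigma, sum_eq_single q]
      · have : ∀ j : Fin ((L q).card - z), w ⟨q, c, hc⟩ (Sum.inl ⟨q, j⟩)
            = (1 - X q c) / ((L q).card - z : ℕ) := fun j => if_pos rfl
        rw [sum_congr rfl fun j _ => this j]
        rcases Nat.eq_zero_or_pos ((L q).card - z) with h | h
        · rw [hX1 q c hc h]
          simp
        · have h3 : (((L q).card - z : ℕ) : ℚ) ≠ 0 := by exact_mod_cast h.ne'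
          simp only [sum_const, card_univ, Fintype.card_fin, nsmul_eq_mul]
          rw [mul_div_cancel₀ _ h3]
      · intro q' _ hq'
        exact sum_eq_zero fun j _ => if_neg hq'
      · intro h
        exact absurd (mem_univ _) h
    have hcU : c ∈ U := mem_biUnion.2 ⟨q, mem_univ _, hc⟩
    have e2 : ∑ s : (c : ↥U) × Fin (hi c), w ⟨q, c, hc⟩ (Sum.inr s) = X q c := by
      rw [Fintype.sum_sigma, sum_eq_single ⟨c, hcU⟩]
      · have : ∀ j : Fin (hi c), w ⟨q, c, hc⟩ (Sum.inr ⟨⟨c, hcU⟩, j⟩)
            = X q c / σ c * load c j := fun j => if_pos rfl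
        rw [sum_congr rfl fun j _ => this j, ← mul_sum, hloadsum]
        by_cases h : σ c = 0
        · rw [h, hσX q c hc h]
          simp
        · rw [div_mul_cancel₀ _ h]
      · intro c' _ hc'
        apply sum_eq_zero fun j _ => if_neg ?_
        intro h
        exact hc' (Subtype.ext h)
      · intro h
        exact absurd (mem_univ _) h
    rw [e1, e2]
    ring
  -- column sums of the weights
  have hcolL : ∀ q (j : Fin ((L q).card - z)), ∑ e, w e (Sum.inl ⟨q, j⟩) = 1 := by
    intro q j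
    rw [Fintype.sum_sigma, sum_eq_single q]
    · have : ∀ c : ↥(L q), w ⟨q, c⟩ (Sum.inl ⟨q, j⟩)
          = (1 - X q c) / ((L q).card - z : ℕ) := fun c => if_pos rfl
      rw [sum_congr rfl fun c _ => this c, ← sum_div]
      have h3 : (((L q).card - z : ℕ) : ℚ) ≠ 0 := by
        have := j.pos
        exact_mod_cast this.ne'
      rw [sum_coe_sort (L q) fun c => 1 - X q c, hsub, div_self h3]
    · intro q' _ hq'
      exact sum_eq_zero fun c _ => if_neg fun h => hq' h.symm
    · intro h
      exact absurd (mem_univ _) h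
  have hcolR : ∀ (c : ↥U) (j : Fin (hi c)), ∑ e, w e (Sum.inr ⟨c, j⟩)
      = σ c / σ c * load c j := by
    intro c j
    have e1 : ∀ q, ∑ x : ↥(L q), w ⟨q, x⟩ (Sum.inr ⟨c, j⟩)
        = if (c : ℕ) ∈ L q then X q c / σ c * load c j else 0 := by
      intro q
      split
      · rename_i hc
        rw [sum_eq_single ⟨c, hc⟩]
        · exact if_pos rfl
        · intro x _ hx
          apply if_neg
          intro h
          exact hx (Subtype.ext h.symm)
        · intro h
          exact absurd (mem_univ _) h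
      · rename_i hc
        apply sum_eq_zero
        intro x _
        apply if_neg
        intro h
        apply hc
        change (c : ℕ) = (x : ℕ) at h
        rw [h]
        exact x.2
    rw [Fintype.sum_sigma, sum_congr rfl fun q _ => e1 q, ← sum_filter, ← sum_mul, ← sum_div]
  obtain ⟨f, hf, hfw, hfm⟩ := frac_hall_mand w (by
      rintro ⟨q, c, hc⟩ (s | s)
      · change 0 ≤ if s.1 = q then (1 - X q c) / ((L q).card - z : ℕ) else 0
        split
        · exact div_nonneg (sub_nonneg.2 (h1 q c hc)) (Nat.cast_nonneg _)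
        · exact le_rfl
      · change 0 ≤ if (s.1 : ℕ) = c then X q c / σ c * load s.1 s.2 else 0
        split
        · exact mul_nonneg (div_nonneg (h0 q c hc) (hσ0 c)) (hload0 _ _)
        · exact le_rfl) hw1 (by
      rintro (⟨q, j⟩ | ⟨c, j⟩)
      · exact (hcolL q j).le
      · rw [hcolR]
        by_cases h : σ c = 0
        · rw [h]
          simp
        · rw [div_self h, one_mul]
          exact hload1 _ _)
  -- the subgraph
  let isR : α → Prop := fun e => ∃ s, f e = Sum.inr s
  refine ⟨fun q => (univ.filter fun c : ↥(L q) => isR ⟨q, c⟩).map ⟨Subtype.val, Subtype.val_injective⟩,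
    ?_, ?_, ?_⟩
  · intro q c hc
    obtain ⟨x, _, rfl⟩ := mem_map.1 hc
    exact x.2
  · intro q
    rw [card_map]
    -- the other entries are matched with all row slots
    have e1 : (univ.filter fun c : ↥(L q) => ¬ isR ⟨q, c⟩).card = (L q).card - z := by
      have : ∀ j : Fin ((L q).card - z), ∃ c : ↥(L q), f ⟨q, c⟩ = Sum.inl ⟨q, j⟩ := by
        intro j
        obtain ⟨⟨q', c⟩, hc⟩ := hfm (Sum.inl ⟨q, j⟩) (hcolL q j)
        have h3 := hfw ⟨q', c⟩
        rw [hc] at h3
        have h4 : q = q' := by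
          by_contra h
          exact h3 (if_neg h)
        subst h4
        exact ⟨c, hc⟩
      choose g hg using this
      have hginj : Injective g := by
        intro j j' h
        have h3 := hg j
        rw [h, hg j'] at h3
        exact (eq_of_heq (Sigma.mk.inj (Sum.inl.inj h3)).2).symm
      have : (univ.filter fun c : ↥(L q) => ¬ isR ⟨q, c⟩) = univ.image g := by
        ext c
        simp only [mem_filter, mem_univ, true_and, mem_image]
        constructor
        · intro hc
          rcases h : f ⟨q, c⟩ with ⟨q', j⟩ | s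
          · have h3 := hfw ⟨q, c⟩
            rw [h] at h3
            have h4 : q' = q := by
              by_contra h
              exact h3 (if_neg h)
            subst h4
            refine ⟨j, ?_⟩
            have h5 := hf ((hg j).trans h.symm)
            exact eq_of_heq (Sigma.mk.inj h5).2
          · exact absurd ⟨s, h⟩ hc
        · rintro ⟨j, rfl⟩ ⟨s, hs⟩
          rw [hg j] at hs
          exact absurd hs (by simp)
      rw [this, card_image_of_injective _ hginj, card_univ, Fintype.card_fin]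
    have e2 := card_filter_add_card_filter_not (s := (univ : Finset ↥(L q)))
      (fun c : ↥(L q) => isR ⟨q, c⟩)
    rw [e1] at e2
    have := hzle q
    simp only [card_univ, Fintype.card_coe] at e2
    omega
  · intro c
    have hE : ∀ q, (c ∈ (univ.filter fun c : ↥(L q) => isR ⟨q, c⟩).map
        ⟨Subtype.val, Subtype.val_injective⟩) ↔ ∃ h : c ∈ L q, isR ⟨q, c, h⟩ := by
      intro q
      rw [mem_map]
      constructor
      · rintro ⟨x, hx, rfl⟩
        exact ⟨x.2, (mem_filter.1 hx).2⟩
      · rintro ⟨h, h'⟩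
        exact ⟨⟨c, h⟩, mem_filter.2 ⟨mem_univ _, h'⟩, rfl⟩
    constructor
    · -- the mandatory column slots
      have : ∀ j : Fin (lo c), ∃ q, ∃ h : c ∈ L q, ∃ hU : c ∈ U,
          f ⟨q, c, h⟩ = Sum.inr ⟨⟨c, hU⟩, ⟨j, j.2.trans_le (hlohi c)⟩⟩ := by
        intro j
        have hpos : (0 : ℚ) < lo c := by
          have := j.pos
          exact_mod_cast this
        have hs : σ c ≠ 0 := (hpos.trans_le (hlo c)).ne'
        have hU : c ∈ U := by
          by_contra h
          apply hs
          apply sum_eq_zero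
          intro q hq
          exact absurd (mem_biUnion.2 ⟨q, mem_univ _, (mem_filter.1 hq).2⟩) h
        obtain ⟨⟨q, c', hc'⟩, h3⟩ := hfm (Sum.inr ⟨⟨c, hU⟩, ⟨j, j.2.trans_le (hlohi c)⟩⟩) (by
          rw [hcolR, div_self hs, one_mul]
          exact if_pos j.2)
        have h4 := hfw ⟨q, c', hc'⟩
        rw [h3] at h4
        have h5 : c = c' := by
          by_contra h
          exact h4 (if_neg h)
        subst h5
        exact ⟨q, hc', hU, h3⟩
      choose g hg1 hg2 hg3 using this
      have hginj : Injective g := by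
        intro j j' h
        have h3 := hg3 j
        have h4 := hg3 j'
        have h6 : ∀ q q' (h : c ∈ L q) (h' : c ∈ L q'), q = q' →
            (⟨q, c, h⟩ : α) = ⟨q', c, h'⟩ := by
          rintro q _ h h' rfl
          rfl
        rw [h6 _ _ (hg1 j) (hg1 j') h, h4] at h3
        have h7 := eq_of_heq (Sigma.mk.inj (Sum.inr.inj h3)).2
        exact Fin.ext (congrArg Fin.val h7).symm
      calc lo c = (univ.image g).card := by
            rw [card_image_of_injective _ hginj, card_univ, Fintype.card_fin]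
        _ ≤ _ := by
            apply card_le_card
            intro q hq
            obtain ⟨j, _, rfl⟩ := mem_image.1 hq
            exact mem_filter.2 ⟨mem_univ _, (hE _).2 ⟨hg1 j, _, hg3 j⟩⟩
    · have : ∀ q : ↥(univ.filter fun q => c ∈ (univ.filter fun c : ↥(L q) => isR ⟨q, c⟩).map
          ⟨Subtype.val, Subtype.val_injective⟩), ∃ h : c ∈ L q, ∃ hU : c ∈ U, ∃ j : Fin (hi c),
          f ⟨q, c, h⟩ = Sum.inr ⟨⟨c, hU⟩, j⟩ := by
        rintro ⟨q, hq⟩
        obtain ⟨h, s, hs⟩ := (hE q).1 (mem_filter.1 hq).2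
        have h4 := hfw ⟨q, c, h⟩
        rw [hs] at h4
        obtain ⟨⟨c', hU⟩, j⟩ := s
        have h5 : c' = c := by
          by_contra h
          exact h4 (if_neg h)
        subst h5
        exact ⟨h, hU, j, hs⟩
      choose g1 g2 g3 hg using this
      have hginj : Injective g3 := by
        intro q q' h
        have h3 := hg q
        rw [h, ← hg q'] at h3
        have h4 := hf h3
        have h5 := congrArg Sigma.fst h4
        exact Subtype.ext h5
      have := Fintype.card_le_of_injective g3 hginj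
      rw [Fintype.card_coe, Fintype.card_fin] at this
      exact this

/-- The degrees in the rest. -/
theorem dg_sdiff {L E : ι → Finset ℕ} (h : ∀ q, E q ⊆ L q) (c : ℕ) :
    dg (fun q => L q \ E q) c + dg E c = dg L c := by
  classical
  unfold dg
  rw [← card_union_of_disjoint]
  · congr 1
    ext q
    simp only [mem_union, mem_filter, mem_univ, true_and, mem_sdiff]
    constructor
    · rintro (h1 | h1)
      · exact h1.1
      · exact h q h1
    · intro h1
      by_cases h2 : c ∈ E q
      · exact Or.inr h2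
      · exact Or.inl ⟨h1, h2⟩
  · rw [disjoint_left]
    intro q h1 h2
    exact (mem_sdiff.1 (mem_filter.1 h1).2).2 (mem_filter.1 h2).2

/-- König's edge colouring theorem. -/
theorem koenig : ∀ (m : ℕ) (L : ι → Finset ℕ), (∀ q, (L q).card = m) → (∀ c, dg L c ≤ m) →
    ∃ f : ι → Fin m → ℕ, (∀ q, Injective (f q)) ∧ (∀ q i, f q i ∈ L q) ∧
      ∀ q q', q ≠ q' → ∀ i, f q i ≠ f q' i
  | 0, _, _, _ => ⟨fun _ i => i.elim0, fun _ i => i.elim0, fun _ i => i.elim0,
      fun _ _ _ i => i.elim0⟩
  | m + 1, L, hL, hd => by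
    classical
    have hm : ((m : ℚ) + 1) ≠ 0 := by positivity
    have hcs : ∀ c, ∑ q ∈ univ.filter (fun q => c ∈ L q), (1 : ℚ) / (m + 1)
        = (dg L c : ℚ) / (m + 1) := by
      intro c
      rw [sum_const, nsmul_eq_mul, mul_one_div]
      rfl
    obtain ⟨E, hE1, hE2, hE3⟩ := exists_split L (fun _ _ => 1 / (m + 1)) 1
      (fun c => dg L c - m) (fun _ => 1) (fun _ _ _ => by positivity)
      (fun _ _ _ => by
        rw [div_le_one (by positivity)]
        have : (0 : ℚ) ≤ m := Nat.cast_nonneg _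
        linarith)
      (fun q => by
        rw [sum_const, hL q, nsmul_eq_mul]
        push_cast
        field_simp)
      (fun c => by
        rw [hcs]
        have h1 := hd c
        rcases Nat.lt_or_ge (dg L c) (m + 1) with h | h
        · rw [Nat.sub_eq_zero_of_le (by omega)]
          positivity
        · have : dg L c = m + 1 := by omega
          rw [this]
          push_cast
          rw [div_self hm]
          simp)
      (fun c => by
        rw [hcs]
        rw [Nat.cast_one, div_le_one (by positivity)]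
        exact_mod_cast hd c)
    obtain ⟨f, hf1, hf2, hf3⟩ := koenig m (fun q => L q \ E q) (fun q => by
        rw [card_sdiff_of_subset (hE1 q), hL, hE2]
        rfl) (fun c => by
        have h1 := dg_sdiff hE1 c
        have h2 := (hE3 c).1
        have h3 := hd c
        omega)
    choose e he using fun q => card_eq_one.1 (hE2 q)
    have heE : ∀ q, e q ∈ E q := fun q => by rw [he q]; exact mem_singleton_self _
    refine ⟨fun q => Fin.cons (e q) (f q), ?_, ?_, ?_⟩
    · intro q
      rw [Fin.cons_injective_iff]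
      refine ⟨?_, hf1 q⟩
      rintro ⟨i, hi⟩
      have := (mem_sdiff.1 (hf2 q i)).2
      rw [hi] at this
      exact this (heE q)
    · intro q i
      refine Fin.cases ?_ (fun i => ?_) i
      · exact hE1 q (heE q)
      · exact (mem_sdiff.1 (hf2 q i)).1
    · intro q q' hq i
      refine Fin.cases ?_ (fun i => ?_) i
      · intro h
        change e q = e q' at h
        have h1 := (hE3 (e q)).2
        have h2 : ({q, q'} : Finset ι) ⊆ univ.filter fun p => e q ∈ E p := by
          intro p hp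
          rw [mem_insert, mem_singleton] at hp
          rcases hp with rfl | rfl
          · exact mem_filter.2 ⟨mem_univ _, heE _⟩
          · exact mem_filter.2 ⟨mem_univ _, by rw [h]; exact heE _⟩
        have h3 := card_le_card h2
        rw [card_pair hq] at h3
        unfold dg at h1
        omega
      · exact hf3 q q' hq i

end Pool.Agent.MP_c07eba
end

section
/-!
# `K_{k+1}` minus an edge is `k`-packable
-/
namespace Pool.Agent.MP_c07eba

open Finset Function

variable {ι : Type*} [Fintype ι]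

/-- A matching which covers `ι` and `T`. -/
theorem exists_matching {n : ℕ} (hn : Fintype.card ι = n) (M : ι → Finset ℕ)
    (hM : ∀ q, n ≤ (M q).card) (T : Finset ℕ)
    (hall : ∀ S ⊆ T, S.card ≤ (univ.filter fun q => ∃ c ∈ S, c ∈ M q).card) :
    ∃ e : ι → ℕ, Injective e ∧ (∀ q, e q ∈ M q) ∧ ∀ c ∈ T, ∃ q, e q = c := by
  classical
  obtain ⟨τ, hτ, hτM⟩ := (all_card_le_biUnion_card_iff_exists_injective
    (fun c : ↥T => univ.filter fun q => (c : ℕ) ∈ M q)).1 (by
      intro s
      have h1 := hall (s.map ⟨Subtype.val, Subtype.val_injective⟩) (by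
        intro c hc
        obtain ⟨x, _, rfl⟩ := mem_map.1 hc
        exact x.2)
      rw [card_map] at h1
      refine h1.trans (card_le_card ?_)
      intro q hq
      obtain ⟨c, hc, hcq⟩ := (mem_filter.1 hq).2
      obtain ⟨x, hx, rfl⟩ := mem_map.1 hc
      exact mem_biUnion.2 ⟨x, hx, mem_filter.2 ⟨mem_univ _, hcq⟩⟩)
  have hτM' : ∀ c : ↥T, (c : ℕ) ∈ M (τ c) := fun c => (mem_filter.1 (hτM c)).2
  let t : ι → Finset ℕ := fun q => if h : ∃ c, τ c = q then {(h.choose : ℕ)} else M q \ T
  have ht1 : ∀ c : ↥T, t (τ c) = {(c : ℕ)} := by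
    intro c
    have hex : ∃ c', τ c' = τ c := ⟨c, rfl⟩
    have h1 : t (τ c) = {(hex.choose : ℕ)} := dif_pos hex
    rw [h1, hτ hex.choose_spec]
  have ht2 : ∀ q, (¬ ∃ c, τ c = q) → t q = M q \ T := fun q h => dif_neg h
  obtain ⟨e, he, het⟩ := (all_card_le_biUnion_card_iff_exists_injective t).1 (by
    intro s
    have hcardT : (univ.image τ).card = T.card := by
      rw [card_image_of_injective _ hτ, card_univ, Fintype.card_coe]
    -- the part of `s` in the image of `τ`, and the rest
    let A : Finset ℕ := (univ.filter fun c : ↥T => τ c ∈ s).map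
      ⟨Subtype.val, Subtype.val_injective⟩
    have hA : A.card = (s.filter fun q => ∃ c, τ c = q).card := by
      rw [card_map, ← card_image_of_injective _ hτ]
      congr 1
      ext q
      simp only [mem_image, mem_filter, mem_univ, true_and]
      constructor
      · rintro ⟨c, hc, rfl⟩
        exact ⟨hc, c, rfl⟩
      · rintro ⟨h, c, rfl⟩
        exact ⟨c, h, rfl⟩
    have hAT : A ⊆ T := by
      intro c hc
      obtain ⟨x, _, rfl⟩ := mem_map.1 hc
      exact x.2
    have hAU : A ⊆ s.biUnion t := by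
      intro c hc
      obtain ⟨x, hx, rfl⟩ := mem_map.1 hc
      refine mem_biUnion.2 ⟨τ x, (mem_filter.1 hx).2, ?_⟩
      rw [ht1]
      exact mem_singleton_self _
    have hsplit := card_filter_add_card_filter_not (s := s) (fun q => ∃ c, τ c = q)
    by_cases hr : ∃ q ∈ s, ¬ ∃ c, τ c = q
    · obtain ⟨q, hq, hq'⟩ := hr
      have h1 : (s.filter fun q => ¬ ∃ c, τ c = q).card ≤ n - T.card := by
        have h2 : (s.filter fun q => ¬ ∃ c, τ c = q) ⊆ univ \ univ.image τ := by
          intro p hp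
          rw [mem_sdiff]
          refine ⟨mem_univ _, ?_⟩
          rw [mem_image]
          rintro ⟨c, _, hc⟩
          exact (mem_filter.1 hp).2 ⟨c, hc⟩
        have h3 := card_le_card h2
        rw [card_sdiff_of_subset (subset_univ _), card_univ, hn, hcardT] at h3
        exact h3
      have h4 : n - T.card ≤ (M q \ T).card :=
        (Nat.sub_le_sub_right (hM q) _).trans (le_card_sdiff _ _)
      have h5 : A.card + (M q \ T).card ≤ (s.biUnion t).card := by
        rw [← card_union_of_disjoint]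
        · apply card_le_card
          apply union_subset hAU
          intro c hc
          refine mem_biUnion.2 ⟨q, hq, ?_⟩
          rw [ht2 q hq']
          exact hc
        · rw [disjoint_left]
          intro c h6 h7
          exact (mem_sdiff.1 h7).2 (hAT h6)
      omega
    · have h1 : (s.filter fun q => ¬ ∃ c, τ c = q).card = 0 := by
        rw [card_eq_zero, filter_eq_empty_iff]
        intro q hq h
        exact hr ⟨q, hq, h⟩
      have := card_le_card hAU
      omega)
  refine ⟨e, he, fun q => ?_, fun c hc => ⟨τ ⟨c, hc⟩, ?_⟩⟩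
  · have h1 := het q
    by_cases h : ∃ c, τ c = q
    · obtain ⟨c, rfl⟩ := h
      rw [ht1] at h1
      rw [mem_singleton.1 h1]
      exact hτM' c
    · rw [ht2 q h] at h1
      exact (mem_sdiff.1 h1).1
  · have h1 := het (τ ⟨c, hc⟩)
    rw [ht1] at h1
    exact mem_singleton.1 h1

/-- Double counting. -/
theorem sum_dg (L : ι → Finset ℕ) (U : Finset ℕ) (g : ℕ → ℚ) :
    ∑ c ∈ U, (dg L c : ℚ) * g c = ∑ q, ∑ c ∈ L q ∩ U, g c := by
  classical
  have h1 : ∀ c, (dg L c : ℚ) * g c = ∑ q, if c ∈ L q then g c else 0 := by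
    intro c
    rw [← sum_filter, sum_const, nsmul_eq_mul]
    rfl
  rw [sum_congr rfl fun c _ => h1 c, sum_comm]
  apply sum_congr rfl
  intro q _
  rw [← sum_filter]
  congr 1
  ext c
  simp only [mem_filter, mem_inter]
  exact and_comm

/-- The indicator of a set. -/
def ind (A : Finset ℕ) (c : ℕ) : ℕ := if c ∈ A then 1 else 0

theorem dg_le (L : ι → Finset ℕ) (c : ℕ) : dg L c ≤ Fintype.card ι :=
  (card_filter_le _ _).trans_eq card_univ

theorem dg_eq_card {L : ι → Finset ℕ} {c : ℕ} (h : dg L c = Fintype.card ι) (q : ι) :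
    c ∈ L q := by
  have h1 : univ.filter (fun q => c ∈ L q) = univ := by
    apply eq_of_subset_of_card_le (subset_univ _)
    rw [card_univ]
    exact h.ge
  have := mem_univ q
  rw [← h1] at this
  exact (mem_filter.1 this).2

theorem dg_of_forall {L : ι → Finset ℕ} {c : ℕ} (h : ∀ q, c ∈ L q) :
    dg L c = Fintype.card ι := by
  unfold dg
  rw [filter_true_of_mem fun q _ => h q, card_univ]

/-- The main step: the splitting of the lists of the clique. -/
theorem exists_E {d z : ℕ} (hι : Fintype.card ι + 1 = d + z) (L : ι → Finset ℕ)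
    (hL : ∀ q, (L q).card = d + z) {A B : Finset ℕ} (hA : A.card = d + z)
    (hB : B.card = d + z) (hAB : A ≠ B) (Z : Finset ℕ)
    (hZ : ∀ c, c ∈ Z ↔ c ∈ A ∧ c ∈ B ∧ ∀ q, c ∈ L q) (hz : Z.card = z) :
    ∃ E : ι → Finset ℕ, (∀ q, E q ⊆ L q) ∧ (∀ q, (E q).card = z) ∧
      (∀ c ∈ Z, dg E c = z - 1) ∧
      ∀ c ∉ Z, dg E c ≤ z ∧ dg L c + ind A c + ind B c ≤ dg E c + d := by
  classical
  obtain ⟨n, hn⟩ : ∃ n, Fintype.card ι = n := ⟨_, rfl⟩
  rw [hn] at hι
  have hZA : Z ⊆ A ∩ B := fun c hc => mem_inter.2 ⟨((hZ c).1 hc).1, ((hZ c).1 hc).2.1⟩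
  have hAB1 : (A ∩ B).card < d + z := by
    rw [← hA]
    apply card_lt_card
    rw [ssubset_iff_subset_ne]
    refine ⟨inter_subset_left, fun h => hAB ?_⟩
    have h1 : A ⊆ B := inter_eq_left.1 h
    exact eq_of_subset_of_card_le h1 (by rw [hA, hB])
  have hd1 : 1 ≤ d := by
    have := card_le_card hZA
    omega
  have hd2 : ∀ c ∈ A, c ∈ B → c ∉ Z → 2 ≤ d := by
    intro c hcA hcB hcZ
    have h1 : (insert c Z).card ≤ (A ∩ B).card :=
      card_le_card (insert_subset (mem_inter.2 ⟨hcA, hcB⟩) hZA)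
    rw [card_insert_of_notMem hcZ] at h1
    omega
  have hdgn : ∀ c, dg L c ≤ n := fun c => hn ▸ dg_le L c
  -- the colours in both lists are not full
  have hnf : ∀ c ∈ A, c ∈ B → c ∉ Z → dg L c + 1 ≤ n := by
    intro c hcA hcB hcZ
    rcases Nat.lt_or_ge (dg L c) n with h | h
    · exact h
    · exact absurd ((hZ c).2 ⟨hcA, hcB, dg_eq_card (by rw [hn]; exact le_antisymm (hdgn c) h)⟩) hcZ
  have hind : ∀ (A : Finset ℕ) c, (c ∈ A ∧ ind A c = 1) ∨ (c ∉ A ∧ ind A c = 0) := by
    intro A c
    by_cases h : c ∈ A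
    · exact Or.inl ⟨h, if_pos h⟩
    · exact Or.inr ⟨h, if_neg h⟩
  set g : ℕ → ℕ := fun c => dg L c + ind A c + ind B c with hg
  have hgk : ∀ c ∉ Z, g c ≤ d + z := by
    intro c hc
    have h1 := hdgn c
    change dg L c + ind A c + ind B c ≤ d + z
    rcases hind A c with ⟨h2, h3⟩ | ⟨h2, h3⟩ <;> rcases hind B c with ⟨h4, h5⟩ | ⟨h4, h5⟩
    · have := hnf c h2 h4 hc
      omega
    all_goals omega
  let W : Finset ℕ := (univ.biUnion L ∪ A ∪ B) \ Z
  have hWZ : ∀ c ∈ W, c ∉ Z := fun c hc => (mem_sdiff.1 hc).2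
  have hLW : ∀ q, L q ∩ W = L q \ Z := by
    intro q
    ext c
    simp only [W, mem_inter, mem_sdiff, mem_union, mem_biUnion, mem_univ, true_and]
    constructor
    · rintro ⟨h1, _, h2⟩
      exact ⟨h1, h2⟩
    · rintro ⟨h1, h2⟩
      exact ⟨h1, Or.inl (Or.inl ⟨q, h1⟩), h2⟩
  have hLZ : ∀ q, (L q \ Z).card = d := by
    intro q
    rw [card_sdiff_of_subset (fun c hc => ((hZ c).1 hc).2.2 q), hL, hz]
    omega
  have hsumdg : ∑ c ∈ W, dg L c = n * d := by
    have h1 := sum_dg L W fun _ => 1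
    simp only [mul_one, hLW, sum_const, hLZ, card_univ, hn, nsmul_eq_mul] at h1
    exact_mod_cast h1
  have hsumind : ∀ C : Finset ℕ, C ⊆ A ∪ B → Z ⊆ C → C.card = d + z → ∑ c ∈ W, ind C c = d := by
    intro C hC hZC hCc
    unfold ind
    rw [← sum_filter, sum_const, smul_eq_mul, mul_one]
    have : W.filter (fun c => c ∈ C) = C \ Z := by
      ext c
      simp only [W, mem_filter, mem_sdiff, mem_union, mem_biUnion, mem_univ, true_and]
      constructor
      · rintro ⟨⟨_, h1⟩, h2⟩
        exact ⟨h2, h1⟩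
      · rintro ⟨h1, h2⟩
        refine ⟨⟨?_, h2⟩, h1⟩
        rcases mem_union.1 (hC h1) with h | h
        · exact Or.inl (Or.inr h)
        · exact Or.inr h
    rw [this, card_sdiff_of_subset hZC, hCc, hz]
    omega
  have hsumg : ∑ c ∈ W, g c = (n + 2) * d := by
    simp only [hg, sum_add_distrib, hsumdg]
    rw [hsumind A subset_union_left (fun c hc => ((hZ c).1 hc).1) hA,
      hsumind B subset_union_right (fun c hc => ((hZ c).1 hc).2.1) hB]
    ring
  have hW0 : ∀ c ∉ Z, c ∉ W → g c = 0 := by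
    intro c hc hcW
    have h1 : c ∉ univ.biUnion L ∪ A ∪ B := fun h => hcW (mem_sdiff.2 ⟨h, hc⟩)
    simp only [mem_union, mem_biUnion, mem_univ, true_and, not_or, not_exists] at h1
    have h2 : dg L c = 0 := by
      unfold dg
      rw [card_eq_zero, filter_eq_empty_iff]
      exact fun q _ => h1.1.1 q
    change dg L c + ind A c + ind B c = 0
    rw [h2, ind, ind, if_neg h1.1.2, if_neg h1.2]
  rcases Nat.lt_or_ge z 1 with hz0 | hz1
  · -- no common colours
    refine ⟨fun _ => ∅, fun _ => empty_subset _, fun _ => by rw [card_empty]; omega, ?_, ?_⟩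
    · intro c hc
      have : 0 < Z.card := card_pos.2 ⟨c, hc⟩
      omega
    · intro c hc
      have h1 : dg (fun _ : ι => (∅ : Finset ℕ)) c = 0 := by simp [dg]
      rw [h1]
      have h2 : dg L c + ind A c + ind B c ≤ d + z := hgk c hc
      omega
  rcases Nat.lt_or_ge z 2 with hz1' | hz2
  · -- one common colour
    obtain rfl : z = 1 := by omega
    let T : Finset ℕ := W.filter fun c => g c = d + 1
    have hT : T.card ≤ n := by
      have h1 : ∑ c ∈ T, g c ≤ ∑ c ∈ W, g c :=
        sum_le_sum_of_subset (filter_subset _ _)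
      rw [hsumg, sum_congr rfl fun c hc => (mem_filter.1 hc).2, sum_const, smul_eq_mul] at h1
      have h2 : d = n := by omega
      subst h2
      change T.card * (d + 1) ≤ _ at h1
      by_contra h3
      have h4 : d + 1 ≤ T.card := by omega
      have := Nat.mul_le_mul_right (d + 1) h4
      nlinarith
    obtain ⟨e, he, heM, heT⟩ := exists_matching hn (fun q => L q \ Z)
      (fun q => by rw [hLZ]; omega) T (by
        intro S hS
        rcases S.eq_empty_or_nonempty with rfl | ⟨c0, hc0⟩
        · simp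
        by_cases hex : ∃ c ∈ S, ¬ (c ∈ A ∧ c ∈ B)
        · obtain ⟨c, hc, hcAB⟩ := hex
          have hcT := mem_filter.1 (hS hc)
          have h1 : dg L c = n := by
            have h2 : dg L c + ind A c + ind B c = d + 1 := hcT.2
            have h3 := hdgn c
            rcases hind A c with ⟨h2, h3⟩ | ⟨h2, h3⟩ <;>
              rcases hind B c with ⟨h4, h5⟩ | ⟨h4, h5⟩
            · exact absurd ⟨h2, h4⟩ hcAB
            all_goals omega
          have h2 : univ.filter (fun q => ∃ c ∈ S, c ∈ L q \ Z) = univ := by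
            rw [filter_true_of_mem]
            intro q _
            exact ⟨c, hc, mem_sdiff.2 ⟨dg_eq_card (by rw [h1, hn]) q, hWZ c hcT.1⟩⟩
          rw [h2, card_univ, hn]
          exact (card_le_card hS).trans hT
        · have hex' : ∀ c ∈ S, c ∈ A ∧ c ∈ B := by
            intro c hc
            by_contra h
            exact hex ⟨c, hc, h⟩
          have h1 : S ∪ Z ⊆ A ∩ B := union_subset (fun c hc => mem_inter.2 (hex' c hc)) hZA
          have h2 : Disjoint S Z := by
            rw [disjoint_left]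
            intro c hc
            exact hWZ c (mem_filter.1 (hS hc)).1
          have h3 := card_le_card h1
          rw [card_union_of_disjoint h2, hz] at h3
          have hcT := mem_filter.1 (hS hc0)
          have h4 : dg L c0 + ind A c0 + ind B c0 = d + 1 := hcT.2
          have h5 : ind A c0 = 1 := if_pos (hex' c0 hc0).1
          have h6 : ind B c0 = 1 := if_pos (hex' c0 hc0).2
          have h7 : dg L c0 ≤ (univ.filter fun q => ∃ c ∈ S, c ∈ L q \ Z).card := by
            apply card_le_card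
            intro q hq
            exact mem_filter.2 ⟨mem_univ _, c0, hc0, mem_sdiff.2
              ⟨(mem_filter.1 hq).2, hWZ c0 hcT.1⟩⟩
          omega)
    have hdE : ∀ c, dg (fun q => {e q}) c ≤ 1 := by
      intro c
      unfold dg
      rw [card_le_one]
      intro a ha b hb
      have h1 := mem_singleton.1 (mem_filter.1 ha).2
      have h2 := mem_singleton.1 (mem_filter.1 hb).2
      exact he (h1.symm.trans h2)
    refine ⟨fun q => {e q}, fun q => ?_, fun q => card_singleton _, ?_, ?_⟩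
    · rw [singleton_subset_iff]
      exact (mem_sdiff.1 (heM q)).1
    · intro c hc
      unfold dg
      rw [card_eq_zero, filter_eq_empty_iff]
      intro q _ h
      rw [mem_singleton.1 h] at hc
      exact (mem_sdiff.1 (heM q)).2 hc
    · intro c hc
      refine ⟨hdE c, ?_⟩
      have h1 : dg L c + ind A c + ind B c ≤ d + 1 := hgk c hc
      by_cases h2 : g c = d + 1
      · have hcW : c ∈ W := by
          by_contra h
          have := hW0 c hc h
          omega
        obtain ⟨q, hq⟩ := heT c (mem_filter.2 ⟨hcW, h2⟩)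
        have h3 : 1 ≤ dg (fun q => {e q}) c := by
          unfold dg
          rw [Nat.one_le_iff_ne_zero, Ne, card_eq_zero, filter_eq_empty_iff]
          intro h
          exact h (mem_univ q) (mem_singleton.2 hq.symm)
        omega
      · have h3 : dg L c + ind A c + ind B c ≠ d + 1 := h2
        omega
  · -- the fractional splitting
    have hn2 : 2 ≤ n := by omega
    have hnq : (0 : ℚ) < (n : ℚ) - 1 := by
      have : (2 : ℚ) ≤ n := by exact_mod_cast hn2
      linarith
    have hnq0 : (0 : ℚ) < n := by linarith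
    have hzq0 : (0 : ℚ) < z := by
      have : (2 : ℚ) ≤ z := by exact_mod_cast hz2
      linarith
    let lo : ℕ → ℕ := fun c => g c - d
    have hloz : ∀ c ∉ Z, lo c ≤ z := by
      intro c hc
      have h1 := hgk c hc
      change g c - d ≤ z
      omega
    have hlo_dg : ∀ c ∉ Z, lo c ≤ dg L c := by
      intro c hc
      change dg L c + ind A c + ind B c - d ≤ dg L c
      rcases hind A c with ⟨h2, h3⟩ | ⟨h2, h3⟩ <;> rcases hind B c with ⟨h4, h5⟩ | ⟨h4, h5⟩
      · have := hd2 c h2 h4 hc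
        omega
      all_goals omega
    have hF2 : ∀ c ∉ Z, (lo c : ℚ) * ((n : ℚ) - 1) ≤ z * dg L c := by
      intro c hc
      have h1 := hlo_dg c hc
      have h1' := hdgn c
      obtain ⟨x, hx⟩ := Nat.exists_eq_add_of_le h1'
      rcases Nat.eq_zero_or_pos (lo c) with h0 | h0
      · rw [h0]
        simp only [Nat.cast_zero, zero_mul]
        positivity
      have hlo : lo c = dg L c + ind A c + ind B c - d := rfl
      -- either `z ≥ lo + x` or (`z + 1 ≥ lo + x` and `x ≥ 1`)
      have hcases : lo c + x ≤ z ∨ (lo c + x ≤ z + 1 ∧ 1 ≤ x) := by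
        rcases hind A c with ⟨h2, h3⟩ | ⟨h2, h3⟩ <;> rcases hind B c with ⟨h4, h5⟩ | ⟨h4, h5⟩
        · have := hnf c h2 h4 hc
          right
          omega
        all_goals left; omega
      have h1q : (lo c : ℚ) ≤ dg L c := by exact_mod_cast h1
      have hxq : (n : ℚ) = dg L c + x := by exact_mod_cast hx
      have hlq : (0 : ℚ) ≤ lo c := Nat.cast_nonneg _
      have hdq : (0 : ℚ) ≤ dg L c := Nat.cast_nonneg _
      have hxq0 : (0 : ℚ) ≤ x := Nat.cast_nonneg _
      rcases hcases with h | ⟨h, h'⟩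
      · have hq : (lo c : ℚ) + x ≤ z := by exact_mod_cast h
        rw [hxq]
        have e1 : ((lo c : ℚ) + x) * dg L c ≤ z * dg L c := mul_le_mul_of_nonneg_right hq hdq
        have e2 : (x : ℚ) * lo c ≤ x * dg L c := mul_le_mul_of_nonneg_left h1q hxq0
        nlinarith
      · have hq : (lo c : ℚ) + x ≤ z + 1 := by exact_mod_cast h
        have hq' : (1 : ℚ) ≤ x := by exact_mod_cast h'
        rw [hxq]
        have e1 : ((lo c : ℚ) + (x - 1)) * dg L c ≤ z * dg L c :=
          mul_le_mul_of_nonneg_right (by linarith) hdq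
        have e2 : ((x : ℚ) - 1) * lo c ≤ (x - 1) * dg L c :=
          mul_le_mul_of_nonneg_left h1q (by linarith)
        nlinarith
    have hlosum : ∑ c ∈ W, lo c ≤ z * d := by
      let H := W.filter fun c => d < g c
      have e1 : ∑ c ∈ W, lo c = ∑ c ∈ H, lo c := by
        symm
        apply sum_subset (filter_subset _ _)
        intro c hc hcH
        have : ¬ d < g c := fun h => hcH (mem_filter.2 ⟨hc, h⟩)
        change g c - d = 0
        omega
      rw [e1]
      rcases Nat.lt_or_ge d H.card with h | h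
      · have e2 : ∑ c ∈ H, lo c + H.card * d = ∑ c ∈ H, g c := by
          rw [← smul_eq_mul, ← sum_const, ← sum_add_distrib]
          apply sum_congr rfl
          intro c hc
          have : d < g c := (mem_filter.1 hc).2
          change g c - d + d = g c
          omega
        have e3 : ∑ c ∈ H, g c ≤ (n + 2) * d := by
          rw [← hsumg]
          exact sum_le_sum_of_subset (filter_subset _ _)
        have e4 : (d + 1) * d ≤ H.card * d := Nat.mul_le_mul_right d h
        have e5 : (n + 2) * d = z * d + (d + 1) * d := by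
          have : n + 2 = z + (d + 1) := by omega
          rw [this]
          ring
        omega
      · calc ∑ c ∈ H, lo c ≤ ∑ c ∈ H, z :=
              sum_le_sum fun c hc => hloz c (hWZ c (mem_filter.1 hc).1)
          _ = H.card * z := by rw [sum_const, smul_eq_mul]
          _ ≤ d * z := Nat.mul_le_mul_right z h
          _ = z * d := mul_comm _ _
    let m : ℕ → ℚ := fun c => max (z * dg L c / n) (lo c)
    have hm1 : ∀ c, (lo c : ℚ) ≤ m c := fun c => le_max_right _ _
    have hm2 : ∀ c ∉ Z, m c ≤ z / (n - 1) * dg L c := by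
      intro c hc
      apply max_le
      · rw [div_mul_eq_mul_div]
        apply div_le_div_of_nonneg_left _ hnq (by linarith)
        positivity
      · rw [div_mul_eq_mul_div, le_div_iff₀ hnq]
        exact hF2 c hc
    have hzn : (z : ℚ) ≤ n := by
      have : z ≤ n := by omega
      exact_mod_cast this
    have hm3 : ∀ c ∉ Z, m c ≤ dg L c := by
      intro c hc
      apply max_le
      · rw [div_le_iff₀ hnq0, mul_comm (dg L c : ℚ)]
        exact mul_le_mul_of_nonneg_right hzn (Nat.cast_nonneg _)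
      · exact_mod_cast hlo_dg c hc
    have hm4 : ∀ c ∉ Z, m c ≤ z := by
      intro c hc
      apply max_le
      · rw [div_le_iff₀ hnq0]
        apply mul_le_mul_of_nonneg_left _ hzq0.le
        exact_mod_cast hdgn c
      · exact_mod_cast hloz c hc
    -- the parameter
    obtain ⟨θ, hθ0, hθ1, hθ⟩ : ∃ θ : ℚ, 0 ≤ θ ∧ θ ≤ 1 ∧
        ∑ c ∈ W, ((lo c : ℚ) + θ * (m c - lo c)) = z * d := by
      have e1 : (∑ c ∈ W, (lo c : ℚ)) ≤ z * d := by exact_mod_cast hlosum
      have e2 : (z : ℚ) * d ≤ ∑ c ∈ W, m c := by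
        calc (z : ℚ) * d = ∑ c ∈ W, (z * dg L c / n : ℚ) := by
              rw [← sum_div, ← mul_sum, ← Nat.cast_sum, hsumdg]
              push_cast
              field_simp
          _ ≤ _ := sum_le_sum fun c _ => le_max_left _ _
      set S0 : ℚ := ∑ c ∈ W, (lo c : ℚ)
      set S1 : ℚ := ∑ c ∈ W, m c
      have e3 : ∀ θ : ℚ, ∑ c ∈ W, ((lo c : ℚ) + θ * (m c - lo c)) = S0 + θ * (S1 - S0) := by
        intro θ
        rw [sum_add_distrib, ← mul_sum, sum_sub_distrib]
      rcases (e1.trans e2).eq_or_lt with h | h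
      · refine ⟨0, le_rfl, zero_le_one, ?_⟩
        rw [e3]
        linarith
      · refine ⟨(z * d - S0) / (S1 - S0), div_nonneg (by linarith) (by linarith),
          (div_le_one (by linarith)).2 (by linarith), ?_⟩
        rw [e3, div_mul_cancel₀ _ (by linarith : S1 - S0 ≠ 0).symm.symm]
        ring
    let y : ℕ → ℚ := fun c => ((lo c : ℚ) + θ * (m c - lo c)) / dg L c
    have hv0 : ∀ c, 0 ≤ (lo c : ℚ) + θ * (m c - lo c) := fun c =>
      add_nonneg (Nat.cast_nonneg _) (mul_nonneg hθ0 (sub_nonneg.2 (hm1 c)))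
    have hvlo : ∀ c, (lo c : ℚ) ≤ (lo c : ℚ) + θ * (m c - lo c) := fun c =>
      le_add_of_nonneg_right (mul_nonneg hθ0 (sub_nonneg.2 (hm1 c)))
    have hvm : ∀ c, (lo c : ℚ) + θ * (m c - lo c) ≤ m c := by
      intro c
      have := mul_le_mul_of_nonneg_right hθ1 (sub_nonneg.2 (hm1 c))
      linarith
    have hy0 : ∀ c, 0 ≤ y c := fun c => div_nonneg (hv0 c) (Nat.cast_nonneg _)
    have hyv : ∀ c ∉ Z, (dg L c : ℚ) * y c = (lo c : ℚ) + θ * (m c - lo c) := by
      intro c hc
      by_cases h : (dg L c : ℚ) = 0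
      · have h1 := (hvm c).trans (hm3 c hc)
        have h2 := hv0 c
        rw [h] at h1 ⊢
        rw [zero_mul]
        exact le_antisymm h2 h1
      · exact mul_div_cancel₀ _ h
    have hy1 : ∀ c ∉ Z, y c ≤ z / (n - 1) := by
      intro c hc
      by_cases h : (dg L c : ℚ) = 0
      · change ((lo c : ℚ) + θ * (m c - lo c)) / dg L c ≤ _
        rw [h, div_zero]
        positivity
      · have h1 : (0 : ℚ) < dg L c := lt_of_le_of_ne (Nat.cast_nonneg _) (Ne.symm h)
        exact (div_le_iff₀ h1).2 ((hvm c).trans (hm2 c hc))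
    have hy2 : ∀ c ∉ Z, y c ≤ 1 := by
      intro c hc
      exact div_le_one_of_le₀ ((hvm c).trans (hm3 c hc)) (Nat.cast_nonneg _)
    let ρ : ι → ℚ := fun q => ∑ c ∈ L q \ Z, y c
    have hρ0 : ∀ q, 0 ≤ ρ q := fun q => sum_nonneg fun c _ => hy0 c
    have hρz : ∀ q, ρ q ≤ z := by
      intro q
      calc ρ q ≤ ∑ c ∈ L q \ Z, ((z : ℚ) / (n - 1)) :=
            sum_le_sum fun c hc => hy1 c (mem_sdiff.1 hc).2
        _ = d * (z / (n - 1)) := by rw [sum_const, hLZ, nsmul_eq_mul]
        _ ≤ (n - 1) * (z / (n - 1)) := by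
            apply mul_le_mul_of_nonneg_right
            · have : d + 1 ≤ n := by omega
              have : (d : ℚ) + 1 ≤ n := by exact_mod_cast this
              linarith
            · positivity
        _ = z := by rw [mul_div_cancel₀ _ hnq.ne']
    have hρsum : ∑ q, ρ q = z * d := by
      have h1 := sum_dg L W y
      simp only [hLW] at h1
      rw [← hθ, sum_congr rfl fun c hc => (hyv c (hWZ c hc)).symm, h1]
    have hZL : ∀ q, Z ⊆ L q := fun q c hc => ((hZ c).1 hc).2.2 q
    have hcolZ : ∀ c ∈ Z, ∑ q ∈ univ.filter (fun q => c ∈ L q),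
        (if c ∈ Z then ((z : ℚ) - ρ q) / z else y c) = (z - 1 : ℕ) := by
      intro c hc
      rw [filter_true_of_mem fun q _ => hZL q hc, sum_congr rfl fun q _ => if_pos hc,
        ← sum_div, sum_sub_distrib, hρsum, sum_const, card_univ, hn, nsmul_eq_mul,
        Nat.cast_sub (by omega : 1 ≤ z), div_eq_iff hzq0.ne']
      have h1 : (n : ℚ) + 1 = d + z := by exact_mod_cast hι
      have h2 : (n : ℚ) = d + z - 1 := by linarith
      rw [h2]
      push_cast
      ring
    have hcolW : ∀ c ∉ Z, ∑ q ∈ univ.filter (fun q => c ∈ L q),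
        (if c ∈ Z then ((z : ℚ) - ρ q) / z else y c) = (lo c : ℚ) + θ * (m c - lo c) := by
      intro c hc
      rw [sum_congr rfl fun q _ => if_neg hc, sum_const, nsmul_eq_mul]
      exact hyv c hc
    obtain ⟨E, hE1, hE2, hE3⟩ := exists_split L
      (fun q c => if c ∈ Z then (z - ρ q) / z else y c) z
      (fun c => if c ∈ Z then z - 1 else lo c) (fun c => if c ∈ Z then z - 1 else z)
      (fun q c _ => by
        split
        · exact div_nonneg (sub_nonneg.2 (hρz q)) hzq0.le
        · exact hy0 c)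
      (fun q c _ => by
        split
        · rw [div_le_one hzq0]
          linarith [hρ0 q]
        · rename_i h
          exact hy2 c h)
      (fun q => by
        rw [← sum_sdiff (hZL q)]
        rw [sum_congr rfl (g := y) (fun c hc => if_neg (mem_sdiff.1 hc).2)]
        rw [sum_congr (s₁ := Z) rfl (g := fun _ => (z - ρ q) / z) (fun c hc => if_pos hc)]
        rw [sum_const, hz, nsmul_eq_mul, mul_div_cancel₀ _ hzq0.ne']
        change ρ q + (z - ρ q) = z
        ring)
      (fun c => by
        by_cases h : c ∈ Z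
        · rw [hcolZ c h, if_pos h]
        · rw [hcolW c h, if_neg h]
          exact hvlo c)
      (fun c => by
        by_cases h : c ∈ Z
        · rw [hcolZ c h, if_pos h]
        · rw [hcolW c h, if_neg h]
          exact (hvm c).trans (hm4 c h))
    refine ⟨E, hE1, hE2, fun c hc => ?_, fun c hc => ?_⟩
    · have h1 := hE3 c
      simp only [if_pos hc] at h1
      omega
    · have h1 := hE3 c
      simp only [if_neg hc] at h1
      have h2 : g c - d ≤ dg E c := h1.1
      have h3 : g c = dg L c + ind A c + ind B c := rfl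
      omega

theorem dg_option (L : Option ι → Finset ℕ) (c : ℕ) :
    dg L c = ind (L none) c + dg (fun q => L (some q)) c := by
  classical
  unfold dg ind
  simp only [card_filter]
  rw [Fintype.sum_option]

theorem dg_le_of_subset {L E : ι → Finset ℕ} (h : ∀ q, E q ⊆ L q) (c : ℕ) : dg E c ≤ dg L c :=
  card_le_card fun q hq => mem_filter.2 ⟨mem_univ _, h q (mem_filter.1 hq).2⟩

/-- `K_{k+1}` minus an edge is `k`-packable. -/
theorem exists_link {k : ℕ} (hι : Fintype.card ι + 1 = k) (L : ι → Finset ℕ)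
    (hL : ∀ q, (L q).card = k) {A B : Finset ℕ} (hA : A.card = k) (hB : B.card = k) :
    ∃ (a b : Fin k → ℕ) (f : ι → Fin k → ℕ), KL.IsState A a ∧ KL.IsState B b ∧
      (∀ q, KL.IsState (L q) (f q)) ∧ (∀ q q', q ≠ q' → ∀ i, f q i ≠ f q' i) ∧
      ∀ q i, f q i ≠ a i ∧ f q i ≠ b i := by
  classical
  by_cases hAB : A = B
  · subst hAB
    obtain ⟨f, hf1, hf2, hf3⟩ := koenig k (fun q : Option ι => q.elim A L)
      (fun q => by cases q <;> simp [hA, hL]) (fun c => by
        refine (dg_le _ _).trans ?_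
        rw [Fintype.card_option, hι])
    refine ⟨f none, f none, fun q => f (some q), ⟨hf1 _, hf2 none⟩, ⟨hf1 _, hf2 none⟩,
      fun q => ⟨hf1 _, hf2 (some q)⟩, fun q q' h i => hf3 _ _ (by simpa using h) i,
      fun q i => ⟨hf3 _ _ (by simp) i, hf3 _ _ (by simp) i⟩⟩
  · let Z : Finset ℕ := (A ∩ B).filter fun c => ∀ q, c ∈ L q
    have hZ : ∀ c, c ∈ Z ↔ c ∈ A ∧ c ∈ B ∧ ∀ q, c ∈ L q := by
      intro c
      simp only [Z, mem_filter, mem_inter, and_assoc]
    have hZA : Z ⊆ A := fun c hc => ((hZ c).1 hc).1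
    have hZB : Z ⊆ B := fun c hc => ((hZ c).1 hc).2.1
    have hzk : Z.card ≤ k := hA ▸ card_le_card hZA
    obtain ⟨z, hz⟩ : ∃ z, Z.card = z := ⟨_, rfl⟩
    obtain ⟨d, hd⟩ := Nat.exists_eq_add_of_le' hzk
    rw [hz] at hd
    subst hd
    obtain ⟨E, hE1, hE2, hE3, hE4⟩ := exists_E hι L hL hA hB hAB Z hZ hz
    have hsub : ∀ c, dg (fun q => L q \ E q) c + dg E c = dg L c := dg_sdiff hE1
    -- the indices where the two ends are different
    obtain ⟨f, hf1, hf2, hf3⟩ := koenig d (fun q : Option (Option ι) =>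
        q.elim (A \ Z) fun q => q.elim (B \ Z) fun q => L q \ E q)
      (fun q => by
        rcases q with _ | _ | q
        · change (A \ Z).card = d
          rw [card_sdiff_of_subset hZA, hA, hz]
          omega
        · change (B \ Z).card = d
          rw [card_sdiff_of_subset hZB, hB, hz]
          omega
        · change (L q \ E q).card = d
          rw [card_sdiff_of_subset (hE1 q), hL, hE2]
          omega) (fun c => by
        rw [dg_option, dg_option]
        change ind (A \ Z) c + (ind (B \ Z) c + dg (fun q => L q \ E q) c) ≤ d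
        have h1 := hsub c
        by_cases hc : c ∈ Z
        · have h2 : ind (A \ Z) c = 0 := if_neg fun h => (mem_sdiff.1 h).2 hc
          have h3 : ind (B \ Z) c = 0 := if_neg fun h => (mem_sdiff.1 h).2 hc
          have h4 := hE3 c hc
          have h5 := dg_le L c
          have h6 : 0 < Z.card := card_pos.2 ⟨c, hc⟩
          omega
        · have h2 : ind (A \ Z) c = ind A c := by
            unfold ind
            simp only [mem_sdiff, hc, not_false_eq_true, and_true]
          have h3 : ind (B \ Z) c = ind B c := by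
            unfold ind
            simp only [mem_sdiff, hc, not_false_eq_true, and_true]
          have h4 := (hE4 c hc).2
          omega)
    -- the indices where the two ends are equal
    obtain ⟨g, hg1, hg2, hg3⟩ := koenig z (fun q : Option ι => q.elim Z E)
      (fun q => by cases q <;> simp [hz, hE2]) (fun c => by
        rw [dg_option]
        change ind Z c + dg E c ≤ z
        by_cases hc : c ∈ Z
        · have h2 : ind Z c = 1 := if_pos hc
          have h4 := hE3 c hc
          have h6 : 0 < Z.card := card_pos.2 ⟨c, hc⟩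
          omega
        · have h2 : ind Z c = 0 := if_neg hc
          have h4 := (hE4 c hc).1
          omega)
    have happ : ∀ (F : Fin d → ℕ) (G : Fin z → ℕ) (C D : Finset ℕ), Injective F → Injective G →
        (∀ i, F i ∈ C \ D) → (∀ i, G i ∈ D) → D ⊆ C →
        KL.IsState C (Fin.append F G : Fin (d + z) → ℕ) := by
      intro F G C D hF hG hFC hGD hDC
      refine ⟨Fin.append_injective_iff.2 ⟨hF, hG, fun i j h => ?_⟩, fun i => ?_⟩
      · have h1 := (mem_sdiff.1 (hFC i)).2
        rw [h] at h1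
        exact h1 (hGD j)
      · refine Fin.addCases (fun i => ?_) (fun i => ?_) i
        · rw [Fin.append_left]
          exact (mem_sdiff.1 (hFC i)).1
        · rw [Fin.append_right]
          exact hDC (hGD i)
    have hne : ∀ (F F' : Fin d → ℕ) (G G' : Fin z → ℕ), (∀ i, F i ≠ F' i) → (∀ i, G i ≠ G' i) →
        ∀ i, (Fin.append F G : Fin (d + z) → ℕ) i ≠ (Fin.append F' G' : Fin (d + z) → ℕ) i := by
      intro F F' G G' h1 h2 i
      refine Fin.addCases (fun i => ?_) (fun i => ?_) i
      · rw [Fin.append_left, Fin.append_left]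
        exact h1 i
      · rw [Fin.append_right, Fin.append_right]
        exact h2 i
    refine ⟨Fin.append (f none) (g none), Fin.append (f (some none)) (g none),
      fun q => Fin.append (f (some (some q))) (g (some q)), ?_, ?_, ?_, ?_, ?_⟩
    · exact happ _ _ A Z (hf1 _) (hg1 _) (hf2 none) (hg2 none) hZA
    · exact happ _ _ B Z (hf1 _) (hg1 _) (hf2 (some none)) (hg2 none) hZB
    · exact fun q => happ _ _ (L q) (E q) (hf1 _) (hg1 _) (hf2 (some (some q))) (hg2 (some q))
        (hE1 q)
    · intro q q' h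
      exact hne _ _ _ _ (hf3 _ _ (by simpa using h)) (hg3 _ _ (by simpa using h))
    · intro q i
      exact ⟨hne _ _ _ _ (hf3 _ _ (by simp)) (hg3 _ _ (by simp)) i,
        hne _ _ _ _ (hf3 _ _ (by simp)) (hg3 _ _ (by simp)) i⟩

end Pool.Agent.MP_c07eba
end

section
/-!
# Chains of diamonds: states extend to chains, and natural chains are rigid
-/
namespace Pool.Agent.MP_c07eba.KL

open Finset Function

variable {k : ℕ}

/-! ### States -/

/-- A state of its set of values. -/
theorem isState_image {s : Fin k → ℕ} (hs : Injective s) : IsState (univ.image s) s :=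
  ⟨hs, fun i => mem_image_of_mem s (mem_univ i)⟩

theorem card_image_state {s : Fin k → ℕ} (hs : Injective s) : (univ.image s).card = k := by
  rw [card_image_of_injective _ hs, card_univ, Fintype.card_fin]

/-! ### The link lemma -/

theorem Dia.symm {Q : Fin (k - 1) → Finset ℕ} {s t : Fin k → ℕ} (h : Dia Q s t) : Dia Q t s := by
  obtain ⟨q, h1, h2, h3⟩ := h
  exact ⟨q, h1, h2, fun j i => (h3 j i).symm⟩

/-- Every state of one end of a diamond extends. -/
theorem dia_exists (hk : 1 ≤ k) {A B : Finset ℕ} (hA : A.card = k) (hB : B.card = k)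
    {Q : Fin (k - 1) → Finset ℕ} (hQ : ∀ j, (Q j).card = k) {s : Fin k → ℕ}
    (hs : IsState A s) : ∃ t, IsState B t ∧ Dia Q s t := by
  obtain ⟨a, b, f, ha, hb, hf, h1, h2⟩ := exists_link
    (by rw [Fintype.card_fin]; omega) Q hQ hA hB
  obtain ⟨π, rfl⟩ := ha.exists_perm hA hs
  exact ⟨b ∘ π, hb.comp π, Dia.comp ⟨f, hf, h1, h2⟩ π⟩

/-- Every state of the first vertex of a chain extends. -/
theorem chn_exists (hk : 1 ≤ k) {A : Finset ℕ} (hA : A.card = k) {l : ℕ}
    {Q : ℕ → Fin (k - 1) → Finset ℕ} {B : ℕ → Finset ℕ} (h : ListsOk k l Q B) {s : Fin k → ℕ}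
    (hs : IsState A s) : ∃ c, IsChn l Q B c ∧ c 0 = s := by
  induction l with
  | zero => exact ⟨fun _ => s, ⟨fun m hm => absurd hm (Nat.not_lt_zero m),
      fun m hm => absurd hm (Nat.not_lt_zero m)⟩, rfl⟩
  | succ l ih =>
    obtain ⟨c, hc, hc0⟩ := ih fun m hm => h m (hm.trans (Nat.lt_succ_self l))
    have h1 : ∃ A' : Finset ℕ, A'.card = k ∧ IsState A' (c l) := by
      rcases Nat.eq_zero_or_pos l with h0 | h0
      · subst h0
        exact ⟨A, hA, hc0 ▸ hs⟩
      · obtain ⟨m, rfl⟩ := Nat.exists_eq_succ_of_ne_zero h0.ne'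
        exact ⟨B m, (h m (by omega)).2, hc.st m (Nat.lt_succ_self m)⟩
    obtain ⟨A', hA', hc'⟩ := h1
    obtain ⟨t, ht, htd⟩ := dia_exists hk hA' (h l (Nat.lt_succ_self l)).2
      (h l (Nat.lt_succ_self l)).1 hc'
    refine ⟨fun m => if m ≤ l then c m else t, ⟨fun m hm => ?_, fun m hm => ?_⟩, ?_⟩
    · rcases Nat.lt_succ_iff_lt_or_eq.1 hm with h2 | rfl
      · rw [if_pos (by omega)]
        exact hc.st m h2
      · rw [if_neg (by omega)]
        exact ht
    · rcases Nat.lt_succ_iff_lt_or_eq.1 hm with h2 | rfl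
      · rw [if_pos (by omega), if_pos (by omega)]
        exact hc.dia m h2
      · rw [if_pos le_rfl, if_neg (by omega)]
        exact htd
    · change (if 0 ≤ l then c 0 else t) = s
      rw [if_pos (Nat.zero_le _), hc0]

/-- Every state of the first vertex of a chain extends, with a state of the last vertex. -/
theorem chn_exists' (hk : 1 ≤ k) {A : Finset ℕ} (hA : A.card = k) {l : ℕ}
    {Q : ℕ → Fin (k - 1) → Finset ℕ} {B : ℕ → Finset ℕ} (h : ListsOk k l Q B) {s : Fin k → ℕ}
    (hs : IsState A s) : ∃ t, Chn l Q B s t := by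
  obtain ⟨c, hc, hc0⟩ := chn_exists hk hA h hs
  exact ⟨c l, c, hc, hc0, rfl⟩

/-! ### Natural diamonds -/

/-- The missing colours of a clique of `k - 1` vertices with the same list. -/
theorem exists_missing (hk : 1 ≤ k) {T : Finset ℕ} (hT : T.card = k) {q : Fin (k - 1) → Fin k → ℕ}
    (hq : ∀ j, IsState T (q j)) (hne : ∀ j j', j ≠ j' → ∀ i, q j i ≠ q j' i) :
    ∃ m : Fin k → ℕ, IsState T m ∧ ∀ i, ∀ c ∈ T, c ≠ m i → ∃ j, q j i = c := by
  have h1 : ∀ i, (univ.image fun j => q j i).card = k - 1 := by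
    intro i
    rw [card_image_of_injective, card_univ, Fintype.card_fin]
    intro j j' h
    by_contra hj
    exact hne j j' hj i h
  have h2 : ∀ i, (T \ univ.image fun j => q j i).card = 1 := by
    intro i
    rw [card_sdiff_of_subset, h1, hT]
    · omega
    · intro c hc
      obtain ⟨j, _, rfl⟩ := mem_image.1 hc
      exact (hq j).mem i
  choose m hm using fun i => card_eq_one.1 (h2 i)
  have hmem : ∀ i, m i ∈ T \ univ.image fun j => q j i := fun i => by
    rw [hm i]
    exact mem_singleton_self _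
  refine ⟨m, ⟨?_, fun i => (mem_sdiff.1 (hmem i)).1⟩, fun i c hc hcm => ?_⟩
  · intro i i' h
    by_contra hi
    -- the indices where the colour `m i` is used
    choose p hp using fun j => (hq j).surj hT (mem_sdiff.1 (hmem i)).1
    have hpinj : Injective p := by
      intro j j' hj
      by_contra hjj
      apply hne j j' hjj (p j)
      rw [hp j, hj, hp j']
    have hp1 : ∀ j, p j ∈ (univ : Finset (Fin k)) \ {i, i'} := by
      intro j
      rw [mem_sdiff]
      refine ⟨mem_univ _, fun h3 => ?_⟩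
      rw [mem_insert, mem_singleton] at h3
      rcases h3 with h3 | h3
      · apply (mem_sdiff.1 (hmem i)).2
        rw [mem_image]
        exact ⟨j, mem_univ _, h3 ▸ hp j⟩
      · apply (mem_sdiff.1 (hmem i')).2
        rw [mem_image, ← h]
        exact ⟨j, mem_univ _, h3 ▸ hp j⟩
    have h3 : (univ.image p).card ≤ ((univ : Finset (Fin k)) \ {i, i'}).card := by
      apply card_le_card
      intro x hx
      obtain ⟨j, _, rfl⟩ := mem_image.1 hx
      exact hp1 j
    rw [card_image_of_injective _ hpinj, card_univ, Fintype.card_fin,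
      card_sdiff_of_subset (subset_univ _), card_univ, Fintype.card_fin, card_pair hi] at h3
    have : 0 < k := i.pos
    have h4 : ({i, i'} : Finset (Fin k)).card ≤ (univ : Finset (Fin k)).card :=
      card_le_card (subset_univ _)
    rw [card_pair hi, card_univ, Fintype.card_fin] at h4
    omega
  · by_contra h
    have : c ∈ T \ univ.image fun j => q j i := by
      rw [mem_sdiff, mem_image]
      exact ⟨hc, fun ⟨j, _, hj⟩ => h ⟨j, hj⟩⟩
    rw [hm i, mem_singleton] at this
    exact hcm this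

/-- Two states which differ in at most one index. -/
def Near (s t : Fin k → ℕ) : Prop := ∃ i0, ∀ i, i ≠ i0 → s i = t i

theorem Near.comp {s t : Fin k → ℕ} (h : Near s t) (π : Equiv.Perm (Fin k)) :
    Near (s ∘ π) (t ∘ π) := by
  obtain ⟨i0, h⟩ := h
  refine ⟨π.symm i0, fun i hi => h _ fun h' => hi ?_⟩
  rw [← h', Equiv.symm_apply_apply]

/-- A state which avoids the colours of the clique. -/
theorem eq_of_avoid {T : Finset ℕ} {m τ u : Fin k → ℕ} (hm : IsState T m)
    (hτ : Injective τ) (hnear : Near m τ) (hu : IsState (univ.image τ) u)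
    (h : ∀ i, u i ∈ T → u i = m i) : u = τ := by
  obtain ⟨i0, hi0⟩ := hnear
  by_cases h0 : m i0 = τ i0
  · have h1 : m = τ := by
      funext i
      by_cases hi : i = i0
      · rw [hi, h0]
      · exact hi0 i hi
    subst h1
    funext i
    apply h
    obtain ⟨i', _, h2⟩ := mem_image.1 (hu.mem i)
    rw [← h2]
    exact hm.mem i'
  · -- the colour `m i0` is replaced by `τ i0`
    have h1 : ∀ i, i ≠ i0 → τ i ∈ T := fun i hi => hi0 i hi ▸ hm.mem i
    have h2 : ∀ i, τ i ≠ m i0 := by
      intro i h3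
      by_cases hi : i = i0
      · subst hi
        exact h0 h3.symm
      · rw [← hi0 i hi] at h3
        exact hi (hm.inj h3)
    obtain ⟨i1, hi1⟩ := hu.surj (card_image_state hτ) (mem_image_of_mem τ (mem_univ i0))
    have h3 : ∀ i, i ≠ i1 → u i = m i := by
      intro i hi
      apply h
      obtain ⟨i', _, h4⟩ := mem_image.1 (hu.mem i)
      by_cases hi' : i' = i0
      · subst hi'
        exact absurd (hu.inj (hi1.trans h4)) (Ne.symm hi)
      · rw [← h4]
        exact h1 i' hi'
    have h4 : i1 = i0 := by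
      by_contra h5
      obtain ⟨i', _, h6⟩ := mem_image.1 (hu.mem i0)
      rw [h3 i0 (Ne.symm h5)] at h6
      exact h2 i' h6
    subst h4
    funext i
    by_cases hi : i = i1
    · rw [hi, hi1]
    · rw [h3 i hi, hi0 i hi]

/-- A natural diamond is rigid. -/
theorem dia_rigid (hk : 1 ≤ k) {T : Finset ℕ} (hT : T.card = k) {m0 σ τ : Fin k → ℕ}
    (hm0 : IsState T m0) (h1 : Near σ m0) (hτ : Injective τ) (h2 : Near m0 τ)
    (π : Equiv.Perm (Fin k)) {t : Fin k → ℕ} (ht : IsState (univ.image τ) t)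
    (h : Dia (fun _ => T) (σ ∘ π) t) : t = τ ∘ π := by
  obtain ⟨q, hq, hne, hst⟩ := h
  obtain ⟨m, hm, hmq⟩ := exists_missing hk hT hq hne
  have hs : ∀ i, σ (π i) ∈ T → σ (π i) = m i := by
    intro i hi
    by_contra h3
    obtain ⟨j, hj⟩ := hmq i _ hi h3
    exact (hst j i).1 hj
  have ht' : ∀ i, t i ∈ T → t i = m i := by
    intro i hi
    by_contra h3
    obtain ⟨j, hj⟩ := hmq i _ hi h3
    exact (hst j i).2 hj
  have hm' : m = m0 ∘ π := by
    obtain ⟨i0, hi0⟩ := h1
    have h3 : ∀ i, π i ≠ i0 → m i = m0 (π i) := by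
      intro i hi
      rw [← hi0 _ hi]
      symm
      apply hs
      rw [hi0 _ hi]
      exact hm0.mem _
    funext i
    by_cases hi : π i = i0
    · obtain ⟨i', hi'⟩ := hm.surj hT (hm0.mem (π i))
      by_cases h4 : π i' = i0
      · have h5 : i' = i := π.injective (h4.trans hi.symm)
        rw [← h5] at hi' ⊢
        exact hi'
      · rw [h3 i' h4] at hi'
        have h5 := hm0.inj hi'
        exact absurd (h5.trans hi) h4
    · exact h3 i hi
  have himg : univ.image (τ ∘ π) = univ.image τ := by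
    ext c
    simp only [mem_image, mem_univ, true_and, comp_apply]
    constructor
    · rintro ⟨i, rfl⟩
      exact ⟨π i, rfl⟩
    · rintro ⟨i, rfl⟩
      exact ⟨π.symm i, by rw [Equiv.apply_symm_apply]⟩
  apply eq_of_avoid (hm0.comp π) (hτ.comp π.injective) (h2.comp π) (himg ▸ ht)
  intro i hi
  rw [ht' i hi, hm']

/-! ### Natural chains -/

/-- The lists of the cliques of the natural chain of a path of states. -/
def natQ (τ : ℕ → Fin k → ℕ) (m : ℕ) (_ : Fin (k - 1)) : Finset ℕ := univ.image (τ (2 * m + 1))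

/-- The lists of the ends of the diamonds of the natural chain of a path of states. -/
def natB (τ : ℕ → Fin k → ℕ) (m : ℕ) : Finset ℕ := univ.image (τ (2 * m + 2))

theorem natLists {l : ℕ} {τ : ℕ → Fin k → ℕ} (hτ : ∀ j ≤ 2 * l, Injective (τ j)) :
    ListsOk k l (natQ τ) (natB τ) := fun m hm =>
  ⟨fun _ => card_image_state (hτ _ (by omega)), card_image_state (hτ _ (by omega))⟩

/-- The natural chain of a path of states, in which consecutive states differ in at most one
index, is rigid. -/
theorem chn_natural (hk : 1 ≤ k) {l : ℕ} {τ : ℕ → Fin k → ℕ} (hτ : ∀ j ≤ 2 * l, Injective (τ j))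
    (hn : ∀ j < 2 * l, Near (τ j) (τ (j + 1))) (π : Equiv.Perm (Fin k)) {t : Fin k → ℕ}
    (h : Chn l (natQ τ) (natB τ) (τ 0 ∘ π) t) : t = τ (2 * l) ∘ π := by
  obtain ⟨c, hc, hc0, rfl⟩ := h
  have : ∀ m ≤ l, c m = τ (2 * m) ∘ π := by
    intro m
    induction m with
    | zero => exact fun _ => hc0
    | succ m ih =>
      intro hm
      have h1 := hc.dia m (by omega)
      rw [ih (by omega)] at h1
      have h2 := hτ (2 * m + 1) (by omega)
      exact dia_rigid hk (card_image_state h2) (isState_image h2) (hn (2 * m) (by omega))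
        (hτ (2 * m + 2) (by omega)) (hn (2 * m + 1) (by omega)) π (hc.st m (by omega)) h1
  exact this l le_rfl

/-- The path of states of the universal chain. -/
def upath (N : ℕ) (s t : Fin k → ℕ) (j : ℕ) (i : Fin k) : ℕ :=
  if j ≤ k then (if i.val < j then N + i else s i) else if i.val < j - k then t i else N + i

theorem upath_inj {N : ℕ} {s t : Fin k → ℕ} (hs : Injective s) (ht : Injective t)
    (hsN : ∀ i, s i < N) (htN : ∀ i, t i < N) (j : ℕ) : Injective (upath N s t j) := by
  intro a b h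
  unfold upath at h
  have ha := hsN a
  have hb := hsN b
  have ha' := htN a
  have hb' := htN b
  split_ifs at h
  · exact Fin.ext (by omega)
  · omega
  · omega
  · exact hs h
  · exact ht h
  · omega
  · omega
  · exact Fin.ext (by omega)

theorem upath_near {N : ℕ} {s t : Fin k → ℕ} {j : ℕ} (hj : j < 2 * k) :
    Near (upath N s t j) (upath N s t (j + 1)) := by
  by_cases h : j < k
  · refine ⟨⟨j, h⟩, fun i hi => ?_⟩
    have hi' : i.val ≠ j := fun h' => hi (Fin.ext h')
    have hik := i.2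
    unfold upath
    split_ifs <;> first | rfl | omega
  · refine ⟨⟨j - k, by omega⟩, fun i hi => ?_⟩
    have hi' : i.val ≠ j - k := fun h' => hi (Fin.ext h')
    have hik := i.2
    unfold upath
    split_ifs <;> first | rfl | omega

/-- The universal chain: for given states `s` and `t` of the ends there are lists such that `s`
forces `t`. -/
theorem chn_univ (hk : 1 ≤ k) {A B : Finset ℕ} (hB : B.card = k)
    {s t : Fin k → ℕ} (hs : IsState A s) (ht : IsState B t) :
    ∃ (Q : ℕ → Fin (k - 1) → Finset ℕ) (Bl : ℕ → Finset ℕ), ListsOk k k Q Bl ∧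
      Bl (k - 1) = B ∧ ∀ (π : Equiv.Perm (Fin k)) (t' : Fin k → ℕ),
        Chn k Q Bl (s ∘ π) t' → t' = t ∘ π := by
  let N := (A ∪ B).sup id + 1
  have hN : ∀ c ∈ A ∪ B, c < N := fun c hc => Nat.lt_succ_of_le (le_sup (f := id) hc)
  have hinj : ∀ j, Injective (upath N s t j) := upath_inj hs.inj ht.inj
    (fun i => hN _ (mem_union_left _ (hs.mem i))) (fun i => hN _ (mem_union_right _ (ht.mem i)))
  have h0 : upath N s t 0 = s := by
    funext i
    unfold upath
    rw [if_pos (Nat.zero_le _), if_neg (Nat.not_lt_zero _)]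
  have h1 : upath N s t (2 * k) = t := by
    funext i
    have := i.2
    unfold upath
    rw [if_neg (by omega), if_pos (by omega)]
  refine ⟨natQ (upath N s t), natB (upath N s t), natLists fun j _ => hinj j, ?_, ?_⟩
  · unfold natB
    have : 2 * (k - 1) + 2 = 2 * k := by omega
    rw [this, h1]
    apply eq_of_subset_of_card_le
    · intro c hc
      obtain ⟨i, _, rfl⟩ := mem_image.1 hc
      exact ht.mem i
    · rw [card_image_state ht.inj, hB]
  · intro π t' h
    rw [← h1]
    apply chn_natural hk (fun j _ => hinj j) (fun j hj => upath_near hj) π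
    rw [h0]
    exact h

end Pool.Agent.MP_c07eba.KL
end

section
/-!
# The NO side of the base links

Arms which force a colour map, and the explicit lists for which a star of arms is not
colourable.
-/
namespace Pool.Agent.MP_c07eba.KL

open Finset Function

variable {k : ℕ}

/-! ### Arms -/

/-- An arm: there are lists of a chain of `l` diamonds, such that a state `σ` of the first vertex
(with list `{0, …, k-1}`) forces the state `φ ∘ σ` of the last vertex. -/
def Arm (k l : ℕ) (φ : Fin k → ℕ) : Prop :=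
  ∃ (Q : ℕ → Fin (k - 1) → Finset ℕ) (B : ℕ → Finset ℕ), ListsOk k l Q B ∧
    ∀ (σ : Equiv.Perm (Fin k)) (p : Fin k → ℕ), Chn l Q B (pst σ) p → ∀ i, p i = φ (σ i)

theorem isState_val : IsState (range k) (fun i : Fin k => (i : ℕ)) :=
  ⟨Fin.val_injective, fun i => mem_range.2 i.2⟩

theorem arm_zero : Arm k 0 (fun i : Fin k => (i : ℕ)) := by
  refine ⟨fun _ _ => range k, fun _ => range k, fun m hm => absurd hm (Nat.not_lt_zero m), ?_⟩
  rintro σ p ⟨c, _, h0, h1⟩ i
  rw [← h1, h0]
  rfl

theorem arm_univ (hk : 1 ≤ k) {φ : Fin k → ℕ} (hφ : Injective φ) : Arm k k φ := by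
  obtain ⟨Q, B, h1, _, h3⟩ := chn_univ hk (card_image_state hφ) (isState_val (k := k))
    (isState_image hφ)
  refine ⟨Q, B, h1, fun σ p hp i => ?_⟩
  have := h3 σ p hp
  rw [this]
  rfl

theorem arm_path (hk : 1 ≤ k) {l : ℕ} {τ : ℕ → Fin k → ℕ} (h0 : ∀ i, τ 0 i = i)
    (hτ : ∀ j ≤ 2 * l, Injective (τ j)) (hn : ∀ j < 2 * l, Near (τ j) (τ (j + 1))) :
    Arm k l (τ (2 * l)) := by
  refine ⟨natQ τ, natB τ, natLists hτ, fun σ p hp i => ?_⟩
  have h1 : pst σ = τ 0 ∘ σ := by
    funext i
    exact (h0 (σ i)).symm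
  rw [h1] at hp
  rw [chn_natural hk hτ hn σ hp]
  rfl

/-- A replacement path: `c 1 ↦ c 0`, then `c 2 ↦ c 1`, ..., `c (2 l) ↦ c (2 l - 1)`. -/
theorem arm_repl (hk : 1 ≤ k) {l : ℕ} {c : ℕ → ℕ} (h0 : k ≤ c 0)
    (hc : ∀ i, 1 ≤ i → i ≤ 2 * l → c i < k)
    (hinj : ∀ i j, 1 ≤ i → i < j → j ≤ 2 * l → c i ≠ c j) {φ : Fin k → ℕ}
    (h1 : ∀ (x : Fin k) (m : ℕ), 1 ≤ m → m ≤ 2 * l → (x : ℕ) = c m → φ x = c (m - 1))
    (h2 : ∀ x : Fin k, (∀ m, 1 ≤ m → m ≤ 2 * l → (x : ℕ) ≠ c m) → φ x = x) : Arm k l φ := by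
  classical
  let τ : ℕ → Fin k → ℕ := fun j => Nat.rec (fun x : Fin k => (x : ℕ))
    (fun j f x => if (x : ℕ) = c (j + 1) then c j else f x) j
  have hτ0 : ∀ x, τ 0 x = x := fun _ => rfl
  have hτs : ∀ j x, τ (j + 1) x = if (x : ℕ) = c (j + 1) then c j else τ j x := fun _ _ => rfl
  have hinj' : ∀ i j, i < j → j ≤ 2 * l → c i ≠ c j := by
    intro i j hij hj
    rcases Nat.eq_zero_or_pos i with rfl | hi
    · have := hc j (by omega) hj
      omega
    · exact hinj i j hi hij hj
  have hspec : ∀ j ≤ 2 * l, ∀ x : Fin k,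
      (∀ m, 1 ≤ m → m ≤ j → (x : ℕ) = c m → τ j x = c (m - 1)) ∧
      ((∀ m, 1 ≤ m → m ≤ j → (x : ℕ) ≠ c m) → τ j x = x) := by
    intro j
    induction j with
    | zero => exact fun _ x => ⟨fun m h1 h2 => by omega, fun _ => hτ0 x⟩
    | succ j ih =>
      intro hj x
      obtain ⟨ih1, ih2⟩ := ih (by omega) x
      refine ⟨fun m hm1 hm2 hm3 => ?_, fun h => ?_⟩
      · rw [hτs]
        rcases Nat.lt_or_ge m (j + 1) with h4 | h4
        · rw [if_neg (hm3 ▸ hinj' m (j + 1) h4 (by omega)), ih1 m hm1 (by omega) hm3]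
        · have h5 : m = j + 1 := by omega
          subst h5
          rw [if_pos hm3]
          rfl
      · rw [hτs, if_neg (h (j + 1) (by omega) le_rfl), ih2 fun m h1 h2 => h m h1 (by omega)]
  have hfin : ∀ x, τ (2 * l) x = φ x := by
    intro x
    obtain ⟨h3, h4⟩ := hspec (2 * l) le_rfl x
    by_cases h : ∃ m, 1 ≤ m ∧ m ≤ 2 * l ∧ (x : ℕ) = c m
    · obtain ⟨m, hm1, hm2, hm3⟩ := h
      rw [h3 m hm1 hm2 hm3, h1 x m hm1 hm2 hm3]
    · push Not at h
      rw [h4 h, h2 x h]
  have hinjτ : ∀ j ≤ 2 * l, Injective (τ j) := by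
    intro j hj x y hxy
    obtain ⟨x1, x2⟩ := hspec j hj x
    obtain ⟨y1, y2⟩ := hspec j hj y
    apply Fin.ext
    have hne : ∀ (y : Fin k), (∀ m, 1 ≤ m → m ≤ j → (y : ℕ) ≠ c m) → ∀ m, 1 ≤ m → m ≤ j →
        c (m - 1) ≠ (y : ℕ) := by
      intro y hy m hm1 hm2 h
      rcases Nat.eq_or_lt_of_le hm1 with rfl | hm3
      · have := y.2
        rw [← h] at this
        exact absurd this (by simpa using h0)
      · exact hy (m - 1) (by omega) (by omega) h.symm
    by_cases h : ∃ m, 1 ≤ m ∧ m ≤ j ∧ (x : ℕ) = c m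
    · obtain ⟨m, hm1, hm2, hm3⟩ := h
      rw [x1 m hm1 hm2 hm3] at hxy
      by_cases h' : ∃ m, 1 ≤ m ∧ m ≤ j ∧ (y : ℕ) = c m
      · obtain ⟨m', hm1', hm2', hm3'⟩ := h'
        rw [y1 m' hm1' hm2' hm3'] at hxy
        rcases lt_trichotomy m m' with h5 | h5 | h5
        · exact absurd hxy (hinj' _ _ (by omega) (by omega))
        · rw [hm3, hm3', h5]
        · exact absurd hxy.symm (hinj' _ _ (by omega) (by omega))
      · push Not at h'
        rw [y2 h'] at hxy
        exact absurd hxy (hne y h' m hm1 hm2)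
    · push Not at h
      rw [x2 h] at hxy
      by_cases h' : ∃ m, 1 ≤ m ∧ m ≤ j ∧ (y : ℕ) = c m
      · obtain ⟨m', hm1', hm2', hm3'⟩ := h'
        rw [y1 m' hm1' hm2' hm3'] at hxy
        exact absurd hxy.symm (hne x h m' hm1' hm2')
      · push Not at h'
        rw [y2 h'] at hxy
        exact hxy
  have := arm_path hk (l := l) (τ := τ) hτ0 hinjτ (fun j hj => by
    refine ⟨⟨c (j + 1), hc (j + 1) (by omega) (by omega)⟩, fun x hx => ?_⟩
    rw [hτs, if_neg]
    intro h
    exact hx (Fin.ext h))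
  obtain ⟨Q, B, h3, h4⟩ := this
  exact ⟨Q, B, h3, fun σ p hp i => by rw [h4 σ p hp i, hfin]⟩

theorem Arm.congr {l : ℕ} {φ φ' : Fin k → ℕ} (h : Arm k l φ) (hφ : ∀ i, φ i = φ' i) :
    Arm k l φ' := by
  obtain ⟨Q, B, h1, h2⟩ := h
  exact ⟨Q, B, h1, fun σ p hp i => by rw [h2 σ p hp i, hφ]⟩

/-! ### The abstract argument -/

variable {J M : ℕ}

/-- A star whose arms cover all cells `X × R` kills. -/
theorem star_not_ok {ar : Fin J → Bool × Fin (M + 1)} {φ : Fin J → Fin k → ℕ}
    {Q : Fin J → ℕ → Fin (k - 1) → Finset ℕ} {B : Fin J → ℕ → Finset ℕ}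
    (hφ : ∀ (j : Fin J) (σ : Equiv.Perm (Fin k)) (p : Fin k → ℕ),
      Chn (ar j).2 (Q j) (B j) (pst σ) p → ∀ i, p i = φ j (σ i))
    {Y R : Finset ℕ} (hR : R ⊆ Y) (hY : Y.card = k) {X : Finset (Fin k)}
    (hc : k < R.card + X.card) {s t : Equiv.Perm (Fin k)}
    (hcov : ∀ x ∈ X, ∀ r ∈ R, ∃ j, (if (ar j).1 then φ j x else φ j (s (t⁻¹ x))) = r) :
    ¬ StarOk ar Y Q B (pst s) (pst t) := by
  rintro ⟨p, y, hy, hp⟩
  -- the colours of `y` at the indices `t⁻¹ x`
  have h1 : ∀ x ∈ X, y (t⁻¹ x) ∈ Y \ R := by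
    intro x hx
    rw [mem_sdiff]
    refine ⟨hy.mem _, fun hr => ?_⟩
    obtain ⟨j, hj⟩ := hcov x hx _ hr
    obtain ⟨h2, h3⟩ := hp j
    by_cases h4 : (ar j).1 = true
    · rw [if_pos h4] at h2 hj
      have := hφ j t (p j) h2 (t⁻¹ x)
      rw [show t (t⁻¹ x) = x from t.apply_symm_apply x, hj] at this
      exact h3 _ this.symm
    · rw [if_neg h4] at h2 hj
      have := hφ j s (p j) h2 (t⁻¹ x)
      rw [hj] at this
      exact h3 _ this.symm
  have h2 : (X.image fun x => y (t⁻¹ x)).card ≤ (Y \ R).card := by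
    apply card_le_card
    intro c hc
    obtain ⟨x, hx, rfl⟩ := mem_image.1 hc
    exact h1 x hx
  have h3 : Injective fun x => y (t⁻¹ x) := hy.inj.comp (t⁻¹ : Equiv.Perm (Fin k)).injective
  rw [card_image_of_injective _ h3, card_sdiff_of_subset hR, hY] at h2
  have h4 := card_le_card hR
  omega

/-- A star whose arms cover all cells `X × R` kills, with all lists of size `k`. -/
theorem star_kill {ar : Fin J → Bool × Fin (M + 1)} {φ : Fin J → Fin k → ℕ}
    (hφ : ∀ j, Arm k (ar j).2 (φ j)) {R : Finset ℕ} (hRk : R.card ≤ k) {X : Finset (Fin k)}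
    (hc : k < R.card + X.card) :
    ∃ (Y : Finset ℕ) (Q : Fin J → ℕ → Fin (k - 1) → Finset ℕ) (B : Fin J → ℕ → Finset ℕ),
      Y.card = k ∧ (∀ j m q, (Q j m q).card = k) ∧ (∀ j m, (B j m).card = k) ∧
      ∀ s t : Equiv.Perm (Fin k),
        (∀ x ∈ X, ∀ r ∈ R, ∃ j, (if (ar j).1 then φ j x else φ j (s (t⁻¹ x))) = r) →
        ¬ StarOk ar Y Q B (pst s) (pst t) := by
  choose Q B hQ hφ using hφ
  obtain ⟨Y, hRY, _, hY⟩ := Finset.exists_subsuperset_card_eq
    (Finset.subset_union_left (s₁ := R) (s₂ := range k)) hRk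
    (le_trans (card_range k).ge (card_le_card subset_union_right))
  refine ⟨Y, fun j m q => if m < ((ar j).2 : ℕ) then Q j m q else range k,
    fun j m => if m < ((ar j).2 : ℕ) then B j m else range k, hY, ?_, ?_, ?_⟩
  · intro j m q
    by_cases h : m < ((ar j).2 : ℕ)
    · simp only [if_pos h]; exact (hQ j m h).1 q
    · simp only [if_neg h, card_range]
  · intro j m
    by_cases h : m < ((ar j).2 : ℕ)
    · simp only [if_pos h]; exact (hQ j m h).2
    · simp only [if_neg h, card_range]
  · intro s t hcov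
    refine star_not_ok (φ := φ) (fun j σ p hp => ?_) hRY hY hc hcov
    refine hφ j σ p ?_
    obtain ⟨c, h1, h2, h3⟩ := hp
    refine ⟨c, ⟨fun m hm => ?_, fun m hm => ?_⟩, h2, h3⟩
    · have := h1.st m hm
      rwa [if_pos hm] at this
    · have := h1.dia m hm
      simp only [if_pos hm] at this
      exact this

/-! ### The stabilizer -/

/-- The pointwise stabilizer of the first `d` colours. -/
def KS (k d : ℕ) : Subgroup (Equiv.Perm (Fin k)) where
  carrier := {κ | ∀ x : Fin k, (x : ℕ) < d → κ x = x}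
  mul_mem' {a b} ha hb x hx := by
    rw [Equiv.Perm.mul_apply, hb x hx, ha x hx]
  one_mem' x _ := rfl
  inv_mem' {a} ha x hx := by
    have := ha x hx
    calc a⁻¹ x = a⁻¹ (a x) := by rw [this]
      _ = x := a.symm_apply_apply x

theorem mem_KS {d : ℕ} {κ : Equiv.Perm (Fin k)} :
    κ ∈ KS k d ↔ ∀ x : Fin k, (x : ℕ) < d → κ x = x := Iff.rfl

theorem card_KS {d : ℕ} (hd : d ≤ k) : Nat.card (KS k d) = (k - d).factorial := by
  classical
  have e := Equiv.Perm.subtypeEquivSubtypePerm (fun x : Fin k => ¬ (x : ℕ) < d)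
  have e2 : {f : Equiv.Perm (Fin k) // ∀ a : Fin k, ¬¬ (a : ℕ) < d → f a = a} ≃ KS k d :=
    Equiv.subtypeEquivRight fun f => by
      rw [mem_KS]
      simp only [not_not]
  rw [← Nat.card_congr e2, ← Nat.card_congr e, Nat.card_eq_fintype_card, Fintype.card_perm,
    Fintype.card_subtype_compl, Fintype.card_fin]
  congr 2
  have : Fintype.card {x : Fin k // (x : ℕ) < d} = Fintype.card (Fin d) :=
    Fintype.card_congr ⟨fun x => ⟨x.1, x.2⟩, fun x => ⟨⟨x, by omega⟩, x.2⟩, fun _ => rfl,
      fun _ => rfl⟩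
  rw [this, Fintype.card_fin]

theorem three_KS {d : ℕ} (hd : 2 ≤ d) (hdk : d ≤ k) (hk : 3 ≤ k) :
    3 * Nat.card (KS k d) ≤ Nat.card (Equiv.Perm (Fin k)) := by
  rw [card_KS hdk, Nat.card_eq_fintype_card, Fintype.card_perm, Fintype.card_fin]
  obtain ⟨n, rfl⟩ : ∃ n, k = n + 3 := ⟨k - 3, by omega⟩
  have h1 : (n + 3 - d).factorial ≤ (n + 1).factorial := Nat.factorial_le (by omega)
  have h2 : (n + 3).factorial = (n + 3) * ((n + 2) * (n + 1).factorial) := by
    rw [Nat.factorial_succ, Nat.factorial_succ (n + 1)]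
  rw [h2]
  have h3 : (n + 1).factorial ≤ (n + 2) * (n + 1).factorial := Nat.le_mul_of_pos_left _ (by omega)
  calc 3 * (n + 3 - d).factorial ≤ 3 * (n + 1).factorial := Nat.mul_le_mul_left _ h1
    _ ≤ (n + 3) * (n + 1).factorial := Nat.mul_le_mul_right _ (by omega)
    _ ≤ (n + 3) * ((n + 2) * (n + 1).factorial) := Nat.mul_le_mul_left _ h3

/-- The transposition of the first two colours. -/
def tau (hk : 2 ≤ k) : Equiv.Perm (Fin k) := Equiv.swap ⟨0, by omega⟩ ⟨1, by omega⟩

theorem tau_lt (hk : 2 ≤ k) {d : ℕ} (hd : 2 ≤ d) {x : Fin k} (hx : (x : ℕ) < d) :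
    ((tau hk x : Fin k) : ℕ) < d := by
  unfold tau
  by_cases h0 : x = ⟨0, by omega⟩
  · rw [h0, Equiv.swap_apply_left]
    exact hd
  · by_cases h1 : x = ⟨1, by omega⟩
    · rw [h1, Equiv.swap_apply_right]
      change 0 < d
      omega
    · rw [Equiv.swap_apply_of_ne_of_ne h0 h1]
      exact hx

theorem tau_tau (hk : 2 ≤ k) : (tau hk)⁻¹ = tau hk := Equiv.swap_inv _ _

theorem norm_KS (hk : 2 ≤ k) {d : ℕ} (hd : 2 ≤ d) (κ : Equiv.Perm (Fin k)) :
    κ ∈ KS k d ↔ tau hk * κ * (tau hk)⁻¹ ∈ KS k d := by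
  have h1 : ∀ κ ∈ KS k d, tau hk * κ * (tau hk)⁻¹ ∈ KS k d := by
    intro κ h x hx
    rw [Equiv.Perm.mul_apply, Equiv.Perm.mul_apply, tau_tau, h _ (tau_lt hk hd hx)]
    have := Equiv.swap_apply_self (⟨0, by omega⟩ : Fin k) ⟨1, by omega⟩ x
    exact this
  refine ⟨h1 κ, fun h => ?_⟩
  have h2 := h1 _ h
  have h3 : tau hk * tau hk = 1 := Equiv.swap_mul_self _ _
  rw [tau_tau] at h2
  have h4 : tau hk * (tau hk * κ * tau hk) * tau hk = κ := by
    calc tau hk * (tau hk * κ * tau hk) * tau hk
        = (tau hk * tau hk) * κ * (tau hk * tau hk) := by simp only [mul_assoc]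
      _ = κ := by rw [h3, one_mul, mul_one]
  rwa [h4] at h2

theorem tau_notMem (hk : 2 ≤ k) {d : ℕ} (hd : 1 ≤ d) : tau hk ∉ KS k d := by
  intro h
  have := h ⟨0, by omega⟩ (by exact hd)
  unfold tau at this
  rw [Equiv.swap_apply_left] at this
  exact absurd (congrArg Fin.val this) (by simp)

/-! ### Odd `k` -/

theorem add_mod_lt {d a b : ℕ} (ha : a < d) (hb : b < d) :
    (a + b) % d = if a + b < d then a + b else a + b - d := by
  by_cases h : a + b < d
  · rw [if_pos h, Nat.mod_eq_of_lt h]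
  · rw [if_neg h, Nat.mod_eq_sub_mod (by omega), Nat.mod_eq_of_lt (by omega)]

/-- the shift of the first `d` colours -/
def shf (d j : ℕ) (x : Fin k) : ℕ := if (x : ℕ) < d then ((x : ℕ) + j) % d else x

theorem shf_inj {d j : ℕ} (hj : j < d) : Injective (shf (k := k) d j) := by
  intro x y h
  unfold shf at h
  apply Fin.ext
  by_cases hx : (x : ℕ) < d
  · have h1 : ((x : ℕ) + j) % d < d := Nat.mod_lt _ (by omega)
    by_cases hy : (y : ℕ) < d
    · rw [if_pos hx, if_pos hy, add_mod_lt hx hj, add_mod_lt hy hj] at h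
      split_ifs at h <;> omega
    · rw [if_pos hx, if_neg hy] at h
      omega
  · by_cases hy : (y : ℕ) < d
    · have h1 : ((y : ℕ) + j) % d < d := Nat.mod_lt _ (by omega)
      rw [if_neg hx, if_pos hy] at h
      omega
    · rw [if_neg hx, if_neg hy] at h
      exact h

theorem card_lt_filter {d : ℕ} (hd : d ≤ k) :
    (univ.filter fun x : Fin k => (x : ℕ) < d).card = d := by
  have : (univ.filter fun x : Fin k => (x : ℕ) < d).card = (range d).card := by
    apply card_bij (fun (x : Fin k) _ => (x : ℕ))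
    · intro x hx
      rw [mem_range]
      exact (mem_filter.1 hx).2
    · intro x _ y _ h
      exact Fin.ext h
    · intro b hb
      have hb' := mem_range.1 hb
      exact ⟨⟨b, by omega⟩, mem_filter.2 ⟨mem_univ _, hb'⟩, rfl⟩
  rw [this, card_range]

/-- the permutation `s t⁻¹` of the first colours -/
theorem kill_perm {d : ℕ} {g s t : Equiv.Perm (Fin k)} (h : g⁻¹ * (s * t⁻¹) ∈ KS k d)
    {x : Fin k} (hx : (x : ℕ) < d) : s (t⁻¹ x) = g x := by
  have := h x hx
  rw [Equiv.Perm.mul_apply, Equiv.Perm.mul_apply, Equiv.Perm.inv_eq_iff_eq] at this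
  exact this

/-- The lists for odd `k = 2 d - 1`. -/
theorem odd_kill' {d : ℕ} (hd : 2 ≤ d) (hkd : k = 2 * d - 1) {ar : Fin d → Bool × Fin (M + 1)}
    (h0 : ∀ j : Fin d, (ar j).1 = decide (j.val ≠ 0)) (hl : ∀ j, ((ar j).2 : ℕ) = k)
    (g : Equiv.Perm (Fin k)) :
    ∃ (Y : Finset ℕ) (Q : Fin d → ℕ → Fin (k - 1) → Finset ℕ) (B : Fin d → ℕ → Finset ℕ),
      Y.card = k ∧ (∀ j m q, (Q j m q).card = k) ∧ (∀ j m, (B j m).card = k) ∧
      ∀ s t : Equiv.Perm (Fin k), g⁻¹ * (s * t⁻¹) ∈ KS k d → ¬ StarOk ar Y Q B (pst s) (pst t) := by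
  classical
  obtain ⟨Y, Q, B, h1, h2, h3, h4⟩ := star_kill (k := k) (ar := ar)
    (φ := fun j x => if j.val = 0 then shf d 0 (g⁻¹ x) else shf d j.val x)
    (fun j => by
      rw [hl j]
      apply arm_univ (by omega)
      by_cases hj : j.val = 0
      · simp only [if_pos hj]
        exact (shf_inj (by omega)).comp (g⁻¹ : Equiv.Perm (Fin k)).injective
      · simp only [if_neg hj]
        exact shf_inj j.2)
    (R := range d) (by rw [card_range]; omega) (X := univ.filter fun x : Fin k => (x : ℕ) < d)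
    (by rw [card_range, card_lt_filter (by omega)]; omega)
  refine ⟨Y, Q, B, h1, h2, h3, fun s t hst => h4 s t fun x hx r hr => ?_⟩
  have hx' : (x : ℕ) < d := (mem_filter.1 hx).2
  have hr' : r < d := mem_range.1 hr
  -- the difference of `r` and `x`
  refine ⟨⟨(r + (d - x)) % d, Nat.mod_lt _ (by omega)⟩, ?_⟩
  rw [h0]
  by_cases hrx : r = x
  · have h5 : (r + (d - x)) % d = 0 := by
      rw [hrx, Nat.add_sub_cancel' hx'.le, Nat.mod_self]
    simp only [h5, ne_eq, not_true_eq_false, decide_false, Bool.false_eq_true, if_false, if_true]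
    rw [kill_perm hst hx']
    have h6 : g⁻¹ (g x) = x := g.symm_apply_apply x
    rw [h6, shf, if_pos hx', add_zero, Nat.mod_eq_of_lt hx', hrx]
  · have h5 : (r + (d - x)) % d = if x ≤ r then r - x else r + (d - x) := by
      split_ifs with h
      · have : r + (d - x) = (r - x) + d := by omega
        rw [this, Nat.add_mod_right, Nat.mod_eq_of_lt (by omega)]
      · rw [Nat.mod_eq_of_lt (by omega)]
    have h6 : (r + (d - x)) % d ≠ 0 := by
      rw [h5]; split_ifs <;> omega
    simp only [h6, ne_eq, not_false_eq_true, decide_true, if_true, if_false]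
    rw [shf, if_pos hx', Nat.add_mod_mod, ← Nat.add_assoc, Nat.add_comm (x : ℕ) r, Nat.add_assoc,
      Nat.add_sub_cancel' hx'.le, Nat.add_mod_right, Nat.mod_eq_of_lt hr']

/-! ### Even `k` -/

/-- the colours of the block -/
def RR (k d : ℕ) : Finset ℕ := insert k (range d)

theorem mem_RR {d c : ℕ} : c ∈ RR k d ↔ c = k ∨ c < d := by
  rw [RR, mem_insert, mem_range]

theorem card_RR {d : ℕ} (hd : d ≤ k) : (RR k d).card = d + 1 := by
  rw [RR, card_insert_of_notMem (by rw [mem_range]; omega), card_range]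

/-- completion of three rows to all cells of the block -/
theorem exists_rest {d : ℕ} (hd : 2 ≤ d) (hdk : d ≤ k) (p1 p2 p3 : ℕ → ℕ)
    (h1 : ∀ x < d, p1 x ∈ RR k d) (h2 : ∀ x < d, p2 x ∈ RR k d) (h3 : ∀ x < d, p3 x ∈ RR k d)
    (h12 : ∀ x < d, p1 x ≠ p2 x) (h13 : ∀ x < d, p1 x ≠ p3 x) (h23 : ∀ x < d, p2 x ≠ p3 x)
    (hc : ∀ c ∈ RR k d, ∃ x < d, ∃ y < d, x ≠ y ∧ (c = p1 x ∨ c = p2 x ∨ c = p3 x) ∧
      (c = p1 y ∨ c = p2 y ∨ c = p3 y)) :
    ∃ f : Fin d → Fin (d - 2) → ℕ, (∀ i, Injective fun x => f x i) ∧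
      (∀ x i, f x i ∈ RR k d) ∧ ∀ x : Fin d, ∀ r ∈ RR k d,
        r = p1 x ∨ r = p2 x ∨ r = p3 x ∨ ∃ i, f x i = r := by
  classical
  let L : Fin d → Finset ℕ := fun x => RR k d \ {p1 x, p2 x, p3 x}
  have hmemL : ∀ x c, c ∈ L x ↔ c ∈ RR k d ∧ ¬ (c = p1 x ∨ c = p2 x ∨ c = p3 x) := by
    intro x c
    simp only [L, mem_sdiff, mem_insert, mem_singleton]
  have hL : ∀ x, (L x).card = d - 2 := by
    intro x
    have hx := x.2
    have h4 : ({p1 x, p2 x, p3 x} : Finset ℕ) ⊆ RR k d := by
      intro c hc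
      simp only [mem_insert, mem_singleton] at hc
      rcases hc with rfl | rfl | rfl
      · exact h1 _ hx
      · exact h2 _ hx
      · exact h3 _ hx
    have h5 : ({p1 x, p2 x, p3 x} : Finset ℕ).card = 3 := by
      rw [card_insert_of_notMem, card_insert_of_notMem, card_singleton]
      · rw [mem_singleton]; exact h23 _ hx
      · rw [mem_insert, mem_singleton, not_or]; exact ⟨h12 _ hx, h13 _ hx⟩
    simp only [L]
    rw [card_sdiff_of_subset h4, h5, card_RR hdk]
    omega
  have hdg : ∀ c, dg L c ≤ d - 2 := by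
    intro c
    by_cases hcR : c ∈ RR k d
    · obtain ⟨x, hx, y, hy, hxy, hcx, hcy⟩ := hc c hcR
      have h4 : (univ.filter fun q => c ∈ L q) ⊆ univ \ {⟨x, hx⟩, ⟨y, hy⟩} := by
        intro q hq
        have hq' := ((hmemL q c).1 (mem_filter.1 hq).2).2
        rw [mem_sdiff]
        refine ⟨mem_univ _, fun h => ?_⟩
        rw [mem_insert, mem_singleton] at h
        rcases h with rfl | rfl
        · exact hq' hcx
        · exact hq' hcy
      have h5 := card_le_card h4
      rw [card_sdiff_of_subset (subset_univ _), card_univ, Fintype.card_fin, card_pair] at h5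
      · exact h5
      · intro h
        exact hxy (congrArg Fin.val h)
    · have : dg L c = 0 := by
        rw [dg, card_eq_zero, filter_eq_empty_iff]
        intro q _ hq
        exact hcR ((hmemL q c).1 hq).1
      rw [this]
      exact Nat.zero_le _
  obtain ⟨f, hf1, hf2, hf3⟩ := koenig (d - 2) L hL hdg
  refine ⟨f, fun i x y h => ?_, fun x i => ((hmemL x _).1 (hf2 x i)).1, fun x r hr => ?_⟩
  · by_contra hne
    exact hf3 x y hne i h
  · by_cases hr' : r = p1 x ∨ r = p2 x ∨ r = p3 x
    · tauto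
    · right; right; right
      have h4 : univ.image (f x) = L x := by
        apply eq_of_subset_of_card_le
        · intro c hc
          obtain ⟨i, _, rfl⟩ := mem_image.1 hc
          exact hf2 x i
        · rw [card_image_of_injective _ (hf1 x), card_univ, Fintype.card_fin, hL]
      have h5 : r ∈ L x := (hmemL x r).2 ⟨hr, hr'⟩
      rw [← h4] at h5
      obtain ⟨i, _, hi⟩ := mem_image.1 h5
      exact ⟨i, hi⟩

/-- a map on the first `d` colours extended by the identity -/
def exd (d : ℕ) (f : Fin d → ℕ) (x : Fin k) : ℕ := if h : (x : ℕ) < d then f ⟨x, h⟩ else x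

theorem exd_lt {d : ℕ} {f : Fin d → ℕ} {x : Fin k} (h : (x : ℕ) < d) :
    exd d f x = f ⟨x, h⟩ := dif_pos h

theorem exd_inj {d : ℕ} {f : Fin d → ℕ} (hf : Injective f) (hR : ∀ x, f x ∈ RR k d) :
    Injective (exd (k := k) d f) := by
  intro x y h
  unfold exd at h
  by_cases hx : (x : ℕ) < d
  · have h1 := mem_RR.1 (hR ⟨x, hx⟩)
    by_cases hy : (y : ℕ) < d
    · rw [dif_pos hx, dif_pos hy] at h
      have := hf h
      simp only [Fin.mk.injEq] at this
      exact Fin.ext this
    · rw [dif_pos hx, dif_neg hy] at h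
      have := y.2
      omega
  · by_cases hy : (y : ℕ) < d
    · have h1 := mem_RR.1 (hR ⟨y, hy⟩)
      rw [dif_neg hx, dif_pos hy] at h
      have := x.2
      omega
    · rw [dif_neg hx, dif_neg hy] at h
      exact Fin.ext h

/-- the first row -/
def pp1 (k d x : ℕ) : ℕ :=
  if d % 2 = 0 then x else if x = d - 2 then k else if x = d - 1 then d - 2 else x

/-- the second row -/
def pp2 (k d x : ℕ) : ℕ :=
  if d % 2 = 0 then (if x = 0 then k else x - 1) else
    if x = 0 then k else if x = d - 1 then d - 1 else x - 1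

/-- the third row -/
def pp3 (k d x : ℕ) : ℕ :=
  if d % 2 = 0 then (if x = d - 1 then k else x + 1) else
    if x = d - 1 then k else if x = d - 2 then d - 2 else if x = d - 3 then d - 1 else x + 1

theorem arm_pp1 {d : ℕ} (hd : 3 ≤ d) (hdk : d ≤ k) :
    Arm k (d % 2) (exd d fun x => pp1 k d x) := by
  by_cases hpar : d % 2 = 0
  · rw [hpar]
    refine arm_zero.congr fun x => ?_
    unfold exd pp1
    split_ifs <;> rfl
  · have h1 : d % 2 = 1 := by omega
    rw [h1]
    refine arm_repl (by omega) (c := fun i => if i = 0 then k else d - 3 + i) (by simp) ?_ ?_ ?_ ?_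
    · intro i h1 h2
      try dsimp only
      rw [if_neg (by omega)]
      omega
    · intro i j h1 h2 h3
      try dsimp only
      rw [if_neg (by omega), if_neg (by omega)]
      omega
    · intro x m hm1 hm2 hm3
      try dsimp only at hm3 ⊢
      rw [if_neg (by omega)] at hm3
      have hx : (x : ℕ) < d := by omega
      rw [exd_lt hx]
      unfold pp1
      try dsimp only
      split_ifs <;> omega
    · intro x hx
      have e1 := hx 1 (by omega) (by omega)
      have e2 := hx 2 (by omega) (by omega)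
      try dsimp only at e1 e2
      rw [if_neg (by omega)] at e1 e2
      by_cases h3 : (x : ℕ) < d
      · rw [exd_lt h3]
        unfold pp1
        dsimp only
        split_ifs <;> omega
      · unfold exd
        rw [dif_neg h3]

theorem arm_pp2 {d : ℕ} (hd : 3 ≤ d) (hdk : d ≤ k) :
    Arm k (d / 2) (exd d fun x => pp2 k d x) := by
  refine arm_repl (by omega) (c := fun i => if i = 0 then k else i - 1) (by simp) ?_ ?_ ?_ ?_
  · intro i h1 h2
    try dsimp only
    rw [if_neg (by omega)]
    omega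
  · intro i j h1 h2 h3
    try dsimp only
    rw [if_neg (by omega), if_neg (by omega)]
    omega
  · intro x m hm1 hm2 hm3
    try dsimp only at hm3 ⊢
    rw [if_neg (by omega)] at hm3
    have hx : (x : ℕ) < d := by omega
    rw [exd_lt hx]
    unfold pp2
    try dsimp only
    split_ifs <;> omega
  · intro x hx
    by_cases h : (x : ℕ) + 1 ≤ 2 * (d / 2)
    · have e1 := hx ((x : ℕ) + 1) (by omega) h
      try dsimp only at e1
      rw [if_neg (by omega)] at e1
      omega
    · by_cases h3 : (x : ℕ) < d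
      · rw [exd_lt h3]
        unfold pp2
        dsimp only
        split_ifs <;> omega
      · unfold exd
        rw [dif_neg h3]

theorem arm_pp3 {d : ℕ} (hd : 3 ≤ d) (hdk : d ≤ k) :
    Arm k (d / 2) (exd d fun x => pp3 k d x) := by
  by_cases hpar : d % 2 = 0
  · refine arm_repl (by omega) (c := fun i => if i = 0 then k else d - i) (by simp) ?_ ?_ ?_ ?_
    · intro i h1 h2
      try dsimp only
      rw [if_neg (by omega)]
      omega
    · intro i j h1 h2 h3
      try dsimp only
      rw [if_neg (by omega), if_neg (by omega)]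
      omega
    · intro x m hm1 hm2 hm3
      try dsimp only at hm3 ⊢
      rw [if_neg (by omega)] at hm3
      have hx : (x : ℕ) < d := by omega
      rw [exd_lt hx]
      unfold pp3
      try dsimp only
      split_ifs <;> omega
    · intro x hx
      by_cases h : (x : ℕ) < d
      · have e1 := hx (d - x) (by omega) (by omega)
        try dsimp only at e1
        rw [if_neg (by omega)] at e1
        omega
      · unfold exd
        rw [dif_neg h]
  · refine arm_repl (by omega) (c := fun i => if i = 0 then k else if i = 1 then d - 1 else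
      d - 1 - i) (by simp) ?_ ?_ ?_ ?_
    · intro i h1 h2
      try dsimp only
      split_ifs <;> omega
    · intro i j h1 h2 h3
      try dsimp only
      split_ifs <;> omega
    · intro x m hm1 hm2 hm3
      try dsimp only at hm3 ⊢
      have hx : (x : ℕ) < d := by split_ifs at hm3 <;> omega
      rw [exd_lt hx]
      unfold pp3
      try dsimp only
      split_ifs at hm3 ⊢ <;> omega
    · intro x hx
      by_cases h : (x : ℕ) < d
      · by_cases h5 : (x : ℕ) = d - 2
        · rw [exd_lt h]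
          unfold pp3
          try dsimp only
          split_ifs <;> omega
        · by_cases h6 : (x : ℕ) = d - 1
          · have e1 := hx 1 (by omega) (by omega)
            rw [if_neg (by omega), if_pos rfl] at e1
            exact absurd h6 e1
          · have e1 := hx (d - 1 - x) (by omega) (by omega)
            rw [if_neg (by omega), if_neg (by omega)] at e1
            omega
      · unfold exd
        rw [dif_neg h]

theorem pp_mem {d : ℕ} (hd : 3 ≤ d) {x : ℕ} (hx : x < d) :
    pp1 k d x ∈ RR k d ∧ pp2 k d x ∈ RR k d ∧ pp3 k d x ∈ RR k d := by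
  simp only [mem_RR]
  unfold pp1 pp2 pp3
  refine ⟨?_, ?_, ?_⟩ <;> split_ifs <;> omega

theorem pp_ne {d : ℕ} (hd : 3 ≤ d) (hdk : d ≤ k) {x : ℕ} (hx : x < d) :
    pp1 k d x ≠ pp2 k d x ∧ pp1 k d x ≠ pp3 k d x ∧ pp2 k d x ≠ pp3 k d x := by
  unfold pp1 pp2 pp3
  refine ⟨?_, ?_, ?_⟩ <;> split_ifs <;> omega

theorem pp_two {d : ℕ} (hd : 3 ≤ d) (hdk : d ≤ k) {c : ℕ} (hc : c ∈ RR k d) :
    ∃ x < d, ∃ y < d, x ≠ y ∧ (c = pp1 k d x ∨ c = pp2 k d x ∨ c = pp3 k d x) ∧
      (c = pp1 k d y ∨ c = pp2 k d y ∨ c = pp3 k d y) := by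
  rw [mem_RR] at hc
  by_cases hpar : d % 2 = 0
  · rcases hc with rfl | hc
    · refine ⟨0, by omega, d - 1, by omega, by omega, Or.inr (Or.inl ?_), Or.inr (Or.inr ?_)⟩
      · rw [pp2, if_pos hpar, if_pos rfl]
      · rw [pp3, if_pos hpar, if_pos rfl]
    · by_cases h : c = d - 1
      · refine ⟨c, hc, d - 2, by omega, by omega, Or.inl ?_, Or.inr (Or.inr ?_)⟩
        · rw [pp1, if_pos hpar]
        · rw [pp3, if_pos hpar, if_neg (by omega)]; omega
      · refine ⟨c, hc, c + 1, by omega, by omega, Or.inl ?_, Or.inr (Or.inl ?_)⟩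
        · rw [pp1, if_pos hpar]
        · rw [pp2, if_pos hpar, if_neg (by omega)]; omega
  · rcases hc with rfl | hc
    · refine ⟨d - 2, by omega, 0, by omega, by omega, Or.inl ?_, Or.inr (Or.inl ?_)⟩
      · rw [pp1, if_neg hpar, if_pos rfl]
      · rw [pp2, if_neg hpar, if_pos rfl]
    · by_cases h : c = d - 1
      · refine ⟨d - 1, by omega, d - 3, by omega, by omega, Or.inr (Or.inl ?_),
          Or.inr (Or.inr ?_)⟩
        · rw [pp2, if_neg hpar, if_neg (by omega), if_pos rfl]; exact h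
        · rw [pp3, if_neg hpar, if_neg (by omega), if_neg (by omega), if_pos rfl]; exact h
      · by_cases h' : c = d - 2
        · refine ⟨d - 1, by omega, d - 2, by omega, by omega, Or.inl ?_, Or.inr (Or.inr ?_)⟩
          · rw [pp1, if_neg hpar, if_neg (by omega), if_pos rfl]; exact h'
          · rw [pp3, if_neg hpar, if_neg (by omega), if_pos rfl]; exact h'
        · refine ⟨c, hc, c + 1, by omega, by omega, Or.inl ?_, Or.inr (Or.inl ?_)⟩
          · rw [pp1, if_neg hpar, if_neg (by omega), if_neg (by omega)]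
          · rw [pp2, if_neg hpar, if_neg (by omega), if_neg (by omega)]; omega

/-- The lists for even `k = 2 d`, `d ≥ 3`. -/
theorem even_kill' {d : ℕ} (hd : 3 ≤ d) (hkd : k = 2 * d) {ar : Fin (d + 1) → Bool × Fin (M + 1)}
    (h0 : ∀ j : Fin (d + 1), (ar j).1 = decide (j.val ≠ 0))
    (hl0 : ∀ j : Fin (d + 1), (j.val = 0 ∨ 4 ≤ j.val) → ((ar j).2 : ℕ) = k)
    (hl1 : ∀ j : Fin (d + 1), j.val = 1 → ((ar j).2 : ℕ) = d % 2)
    (hl2 : ∀ j : Fin (d + 1), (j.val = 2 ∨ j.val = 3) → ((ar j).2 : ℕ) = d / 2)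
    (g : Equiv.Perm (Fin k)) :
    ∃ (Y : Finset ℕ) (Q : Fin (d + 1) → ℕ → Fin (k - 1) → Finset ℕ)
      (B : Fin (d + 1) → ℕ → Finset ℕ),
      Y.card = k ∧ (∀ j m q, (Q j m q).card = k) ∧ (∀ j m, (B j m).card = k) ∧
      ∀ s t : Equiv.Perm (Fin k), g⁻¹ * (s * t⁻¹) ∈ KS k d → ¬ StarOk ar Y Q B (pst s) (pst t) := by
  classical
  have hdk : d ≤ k := by omega
  obtain ⟨f, hf1, hf2, hf3⟩ := exists_rest (by omega) hdk (pp1 k d) (pp2 k d) (pp3 k d)
    (fun x hx => (pp_mem hd hx).1) (fun x hx => (pp_mem hd hx).2.1)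
    (fun x hx => (pp_mem hd hx).2.2) (fun x hx => (pp_ne hd hdk hx).1)
    (fun x hx => (pp_ne hd hdk hx).2.1) (fun x hx => (pp_ne hd hdk hx).2.2)
    (fun c hc => pp_two hd hdk hc)
  have hz : 0 < d - 2 := by omega
  let φ : Fin (d + 1) → Fin k → ℕ := fun j x =>
    if j.val = 0 then exd d (fun y => f y ⟨0, hz⟩) (g⁻¹ x)
    else if j.val = 1 then exd d (fun y => pp1 k d y) x
    else if j.val = 2 then exd d (fun y => pp2 k d y) x
    else if j.val = 3 then exd d (fun y => pp3 k d y) x
    else if h : j.val - 3 < d - 2 then exd d (fun y => f y ⟨j.val - 3, h⟩) x else x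
  obtain ⟨Y, Q, B, h1, h2, h3, h4⟩ := star_kill (k := k) (ar := ar) (φ := φ)
    (fun j => by
      have hj := j.2
      by_cases j0 : j.val = 0
      · rw [hl0 j (Or.inl j0)]
        simp only [φ, if_pos j0]
        exact arm_univ (by omega) ((exd_inj (hf1 _) fun x => hf2 x _).comp
          (g⁻¹ : Equiv.Perm (Fin k)).injective)
      by_cases j1 : j.val = 1
      · rw [hl1 j j1]
        refine (arm_pp1 hd hdk).congr fun x => ?_
        simp only [φ]
        rw [if_neg j0, if_pos j1]
      by_cases j2 : j.val = 2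
      · rw [hl2 j (Or.inl j2)]
        refine (arm_pp2 hd hdk).congr fun x => ?_
        simp only [φ]
        rw [if_neg j0, if_neg j1, if_pos j2]
      by_cases j3 : j.val = 3
      · rw [hl2 j (Or.inr j3)]
        refine (arm_pp3 hd hdk).congr fun x => ?_
        simp only [φ]
        rw [if_neg j0, if_neg j1, if_neg j2, if_pos j3]
      · have hj' : j.val - 3 < d - 2 := by omega
        rw [hl0 j (Or.inr (by omega))]
        refine (arm_univ (by omega) (exd_inj (hf1 ⟨j.val - 3, hj'⟩)
          fun x => hf2 x _)).congr fun x => ?_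
        simp only [φ]
        rw [if_neg j0, if_neg j1, if_neg j2, if_neg j3, dif_pos hj'])
    (R := RR k d) (by rw [card_RR hdk]; omega) (X := univ.filter fun x : Fin k => (x : ℕ) < d)
    (by rw [card_RR hdk, card_lt_filter hdk]; omega)
  refine ⟨Y, Q, B, h1, h2, h3, fun s t hst => h4 s t fun x hx r hr => ?_⟩
  have hx' : (x : ℕ) < d := (mem_filter.1 hx).2
  rcases hf3 ⟨x, hx'⟩ r hr with h5 | h5 | h5 | ⟨i, hi⟩
  · refine ⟨⟨1, by omega⟩, ?_⟩
    rw [h0, if_pos (by simp)]
    change exd d (fun y => pp1 k d y) x = r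
    rw [exd_lt hx']
    exact h5.symm
  · refine ⟨⟨2, by omega⟩, ?_⟩
    rw [h0, if_pos (by simp)]
    change exd d (fun y => pp2 k d y) x = r
    rw [exd_lt hx']
    exact h5.symm
  · refine ⟨⟨3, by omega⟩, ?_⟩
    rw [h0, if_pos (by simp)]
    change exd d (fun y => pp3 k d y) x = r
    rw [exd_lt hx']
    exact h5.symm
  · by_cases hi0 : i.val = 0
    · refine ⟨⟨0, by omega⟩, ?_⟩
      rw [h0, if_neg (by simp)]
      change exd d (fun y => f y ⟨0, hz⟩) (g⁻¹ (s (t⁻¹ x))) = r
      rw [kill_perm hst hx', show g⁻¹ (g x) = x from g.symm_apply_apply x, exd_lt hx']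
      rw [← hi]
      congr 1
      exact Fin.ext hi0.symm
    · have hi2 := i.2
      refine ⟨⟨i.val + 3, by omega⟩, ?_⟩
      rw [h0, if_pos (by simp)]
      simp only [φ]
      rw [if_neg (by omega), if_neg (by omega), if_neg (by omega), if_neg (by omega),
        dif_pos (by omega), exd_lt hx', ← hi]
      congr 1

/-! ### The case `k = 4` -/

/-- The lists for `k = 4`. -/
theorem four_kill' {ar : Fin 3 → Bool × Fin (M + 1)}
    (h0 : ∀ j : Fin 3, (ar j).1 = decide (j.val ≠ 0))
    (hl0 : ((ar 0).2 : ℕ) = 4) (hl1 : ((ar 1).2 : ℕ) = 0) (hl2 : ((ar 2).2 : ℕ) = 1)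
    (g : Equiv.Perm (Fin 4)) :
    ∃ (Y : Finset ℕ) (Q : Fin 3 → ℕ → Fin (4 - 1) → Finset ℕ)
      (B : Fin 3 → ℕ → Finset ℕ),
      Y.card = 4 ∧ (∀ j m q, (Q j m q).card = 4) ∧ (∀ j m, (B j m).card = 4) ∧
      ∀ s t : Equiv.Perm (Fin 4), g⁻¹ * (s * t⁻¹) ∈ KS 4 2 → ¬ StarOk ar Y Q B (pst s) (pst t) := by
  classical
  let e : Fin 2 → ℕ := fun y => if y.val = 0 then 1 else 4
  have he1 : Injective e := by
    intro x y h
    simp only [e] at h
    apply Fin.ext
    split_ifs at h <;> omega
  have he2 : ∀ x, e x ∈ RR 4 2 := by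
    intro x
    rw [mem_RR]
    simp only [e]
    split_ifs <;> omega
  let φ : Fin 3 → Fin 4 → ℕ := fun j x =>
    if j.val = 0 then exd 2 e (g⁻¹ x)
    else if j.val = 1 then (x : ℕ) else exd 2 (fun y => if y.val = 0 then 4 else 0) x
  have h2 : Arm 4 1 (exd 2 (fun y => if y.val = 0 then 4 else 0)) := by
    refine arm_repl (by omega) (c := fun i => if i = 0 then 4 else i - 1) (by simp) ?_ ?_ ?_ ?_
    · intro i h1 h2
      try dsimp only
      rw [if_neg (by omega)]
      omega
    · intro i j h1 h2 h3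
      try dsimp only
      rw [if_neg (by omega), if_neg (by omega)]
      omega
    · intro x m hm1 hm2 hm3
      try dsimp only at hm3 ⊢
      rw [if_neg (by omega)] at hm3
      have hx : (x : ℕ) < 2 := by omega
      rw [exd_lt hx]
      try dsimp only
      split_ifs <;> omega
    · intro x hx
      by_cases h : (x : ℕ) < 2
      · have e1 := hx ((x : ℕ) + 1) (by omega) (by omega)
        try dsimp only at e1
        rw [if_neg (by omega)] at e1
        omega
      · unfold exd
        rw [dif_neg h]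
  obtain ⟨Y, Q, B, h1, h2, h3, h4⟩ := star_kill (k := 4) (ar := ar) (φ := φ)
    (fun j => by
      have hj := j.2
      by_cases j0 : j.val = 0
      · have : j = 0 := Fin.ext j0
        subst this
        rw [hl0]
        simp only [φ, if_pos j0]
        exact arm_univ (by omega) ((exd_inj he1 he2).comp (g⁻¹ : Equiv.Perm (Fin 4)).injective)
      by_cases j1 : j.val = 1
      · have : j = 1 := Fin.ext j1
        subst this
        rw [hl1]
        refine arm_zero.congr fun x => ?_
        simp only [φ]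
        rw [if_neg j0, if_pos j1]
      · have : j = 2 := Fin.ext (by change j.val = 2; omega)
        subst this
        rw [hl2]
        refine h2.congr fun x => ?_
        simp only [φ]
        rw [if_neg j0, if_neg j1])
    (R := RR 4 2) (by rw [card_RR (by omega)]; omega)
    (X := univ.filter fun x : Fin 4 => (x : ℕ) < 2)
    (by rw [card_RR (by omega), card_lt_filter (by omega)]; omega)
  refine ⟨Y, Q, B, h1, h2, h3, fun s t hst => h4 s t fun x hx r hr => ?_⟩
  have hx' : (x : ℕ) < 2 := (mem_filter.1 hx).2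
  rw [mem_RR] at hr
  have hcase : r = (x : ℕ) ∨ r = (if (x : ℕ) = 0 then 4 else 0) ∨ r = e ⟨x, hx'⟩ := by
    simp only [e]
    split_ifs <;> omega
  rcases hcase with h5 | h5 | h5
  · refine ⟨1, ?_⟩
    rw [h0, if_pos (by decide)]
    simp only [φ]
    rw [if_neg (by decide), if_pos (by decide)]
    exact h5.symm
  · refine ⟨2, ?_⟩
    rw [h0, if_pos (by decide)]
    simp only [φ]
    rw [if_neg (by decide), if_neg (by decide), exd_lt hx']
    exact h5.symm
  · refine ⟨0, ?_⟩
    rw [h0, if_neg (by decide)]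
    simp only [φ]
    rw [if_pos (by decide), kill_perm hst hx', show g⁻¹ (g x) = x from g.symm_apply_apply x,
      exd_lt hx']
    exact h5.symm

/-! ### The form needed for base links -/

/-- the lists of a star which is killed -/
theorem kill_of_star {J : ℕ} {ar : Fin J → Bool × Fin (M + 1)}
    {P : Equiv.Perm (Fin k) → Equiv.Perm (Fin k) → Prop}
    (h : ∃ (Y : Finset ℕ) (Q : Fin J → ℕ → Fin (k - 1) → Finset ℕ) (B : Fin J → ℕ → Finset ℕ),
      Y.card = k ∧ (∀ j m q, (Q j m q).card = k) ∧ (∀ j m, (B j m).card = k) ∧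
      ∀ s t : Equiv.Perm (Fin k), P s t → ¬ StarOk ar Y Q B (pst s) (pst t)) :
    ∃ L : (star k ar).H → Finset ℕ, (∀ h, (L h).card = k) ∧
      ∀ s t : Equiv.Perm (Fin k), P s t → ¬ (star k ar).Ext L (pst s) (pst t) := by
  obtain ⟨Y, Q, B, hY, hQ, hB, h⟩ := h
  refine ⟨mkL (M := M) Y Q B, ?_, fun s t hst hext => h s t hst ?_⟩
  · rintro (_ | ⟨j, m, _ | a⟩)
    · exact hY
    · exact hB j m
    · exact hQ j m a
  · obtain ⟨p, y, hy, hp⟩ := starOk_of_ext hext
    refine ⟨p, y, hy, fun j => ?_⟩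
    obtain ⟨⟨c, h1, h2, h3⟩, h4⟩ := hp j
    have hM : ((ar j).2 : ℕ) ≤ M := Nat.lt_succ_iff.1 (ar j).2.2
    refine ⟨⟨c, ⟨fun m hm => ?_, fun m hm => ?_⟩, h2, h3⟩, h4⟩
    · have := h1.st m hm
      rw [bL, dif_pos (lt_of_lt_of_le hm hM)] at this
      exact this
    · have h5 := h1.dia m hm
      have h6 : qL (mkL (k := k) (M := M) Y Q B) j m = Q j m := by
        funext q
        rw [qL, dif_pos (lt_of_lt_of_le hm hM)]
        rfl
      rw [h6] at h5
      exact h5

/-- The field `kill` of a base link for odd `k = 2 d - 1`. -/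
theorem odd_kill {d : ℕ} (hd : 2 ≤ d) (hkd : k = 2 * d - 1) {ar : Fin d → Bool × Fin (M + 1)}
    (h0 : ∀ j : Fin d, (ar j).1 = decide (j.val ≠ 0)) (hl : ∀ j, ((ar j).2 : ℕ) = k)
    (g : Equiv.Perm (Fin k)) :
    ∃ L : (star k ar).H → Finset ℕ, (∀ h, (L h).card = k) ∧
      ∀ s t : Equiv.Perm (Fin k), g⁻¹ * (s * t⁻¹) ∈ KS k d →
        ¬ (star k ar).Ext L (pst s) (pst t) :=
  kill_of_star (odd_kill' hd hkd h0 hl g)

/-- The field `kill` of a base link for even `k = 2 d`, `d ≥ 3`. -/
theorem even_kill {d : ℕ} (hd : 3 ≤ d) (hkd : k = 2 * d) {ar : Fin (d + 1) → Bool × Fin (M + 1)}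
    (h0 : ∀ j : Fin (d + 1), (ar j).1 = decide (j.val ≠ 0))
    (hl0 : ∀ j : Fin (d + 1), (j.val = 0 ∨ 4 ≤ j.val) → ((ar j).2 : ℕ) = k)
    (hl1 : ∀ j : Fin (d + 1), j.val = 1 → ((ar j).2 : ℕ) = d % 2)
    (hl2 : ∀ j : Fin (d + 1), (j.val = 2 ∨ j.val = 3) → ((ar j).2 : ℕ) = d / 2)
    (g : Equiv.Perm (Fin k)) :
    ∃ L : (star k ar).H → Finset ℕ, (∀ h, (L h).card = k) ∧
      ∀ s t : Equiv.Perm (Fin k), g⁻¹ * (s * t⁻¹) ∈ KS k d →
        ¬ (star k ar).Ext L (pst s) (pst t) :=
  kill_of_star (even_kill' hd hkd h0 hl0 hl1 hl2 g)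

/-- The field `kill` of a base link for `k = 4`. -/
theorem four_kill {ar : Fin 3 → Bool × Fin (M + 1)}
    (h0 : ∀ j : Fin 3, (ar j).1 = decide (j.val ≠ 0))
    (hl0 : ((ar 0).2 : ℕ) = 4) (hl1 : ((ar 1).2 : ℕ) = 0) (hl2 : ((ar 2).2 : ℕ) = 1)
    (g : Equiv.Perm (Fin 4)) :
    ∃ L : (star 4 ar).H → Finset ℕ, (∀ h, (L h).card = 4) ∧
      ∀ s t : Equiv.Perm (Fin 4), g⁻¹ * (s * t⁻¹) ∈ KS 4 2 →
        ¬ (star 4 ar).Ext L (pst s) (pst t) :=
  kill_of_star (four_kill' h0 hl0 hl1 hl2 g)

/-! ### The form needed for `isLink_star` -/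

theorem kill_one {J : ℕ} {ar : Fin J → Bool × Fin (M + 1)} {K : Subgroup (Equiv.Perm (Fin k))}
    {g : Equiv.Perm (Fin k)}
    (h : ∃ (Y : Finset ℕ) (Q : Fin J → ℕ → Fin (k - 1) → Finset ℕ) (B : Fin J → ℕ → Finset ℕ),
      Y.card = k ∧ (∀ j m q, (Q j m q).card = k) ∧ (∀ j m, (B j m).card = k) ∧
      ∀ s t : Equiv.Perm (Fin k), g⁻¹ * (s * t⁻¹) ∈ K → ¬ StarOk ar Y Q B (pst s) (pst t)) :
    ∃ (Y : Finset ℕ) (Q : Fin J → ℕ → Fin (k - 1) → Finset ℕ) (B : Fin J → ℕ → Finset ℕ),
      Y.card = k ∧ (∀ j, ∀ m < M, (∀ a, (Q j m a).card = k) ∧ (B j m).card = k) ∧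
      ∀ s : Equiv.Perm (Fin k), g⁻¹ * s ∈ K → ¬ StarOk ar Y Q B (pst s) (pst 1) := by
  obtain ⟨Y, Q, B, hY, hQ, hB, h⟩ := h
  exact ⟨Y, Q, B, hY, fun j m _ => ⟨hQ j m, hB j m⟩, fun s hs => h s 1 (by simpa using hs)⟩

theorem odd_kill_one {d : ℕ} (hd : 2 ≤ d) (hkd : k = 2 * d - 1)
    {ar : Fin d → Bool × Fin (M + 1)}
    (h0 : ∀ j : Fin d, (ar j).1 = decide (j.val ≠ 0)) (hl : ∀ j, ((ar j).2 : ℕ) = k)
    (g : Equiv.Perm (Fin k)) :
    ∃ (Y : Finset ℕ) (Q : Fin d → ℕ → Fin (k - 1) → Finset ℕ) (B : Fin d → ℕ → Finset ℕ),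
      Y.card = k ∧ (∀ j, ∀ m < M, (∀ a, (Q j m a).card = k) ∧ (B j m).card = k) ∧
      ∀ s : Equiv.Perm (Fin k), g⁻¹ * s ∈ KS k d → ¬ StarOk ar Y Q B (pst s) (pst 1) :=
  kill_one (odd_kill' hd hkd h0 hl g)

theorem even_kill_one {d : ℕ} (hd : 3 ≤ d) (hkd : k = 2 * d)
    {ar : Fin (d + 1) → Bool × Fin (M + 1)}
    (h0 : ∀ j : Fin (d + 1), (ar j).1 = decide (j.val ≠ 0))
    (hl0 : ∀ j : Fin (d + 1), (j.val = 0 ∨ 4 ≤ j.val) → ((ar j).2 : ℕ) = k)
    (hl1 : ∀ j : Fin (d + 1), j.val = 1 → ((ar j).2 : ℕ) = d % 2)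
    (hl2 : ∀ j : Fin (d + 1), (j.val = 2 ∨ j.val = 3) → ((ar j).2 : ℕ) = d / 2)
    (g : Equiv.Perm (Fin k)) :
    ∃ (Y : Finset ℕ) (Q : Fin (d + 1) → ℕ → Fin (k - 1) → Finset ℕ)
      (B : Fin (d + 1) → ℕ → Finset ℕ),
      Y.card = k ∧ (∀ j, ∀ m < M, (∀ a, (Q j m a).card = k) ∧ (B j m).card = k) ∧
      ∀ s : Equiv.Perm (Fin k), g⁻¹ * s ∈ KS k d → ¬ StarOk ar Y Q B (pst s) (pst 1) :=
  kill_one (even_kill' hd hkd h0 hl0 hl1 hl2 g)

theorem four_kill_one {ar : Fin 3 → Bool × Fin (M + 1)}
    (h0 : ∀ j : Fin 3, (ar j).1 = decide (j.val ≠ 0))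
    (hl0 : ((ar 0).2 : ℕ) = 4) (hl1 : ((ar 1).2 : ℕ) = 0) (hl2 : ((ar 2).2 : ℕ) = 1)
    (g : Equiv.Perm (Fin 4)) :
    ∃ (Y : Finset ℕ) (Q : Fin 3 → ℕ → Fin (4 - 1) → Finset ℕ) (B : Fin 3 → ℕ → Finset ℕ),
      Y.card = 4 ∧ (∀ j, ∀ m < M, (∀ a, (Q j m a).card = 4) ∧ (B j m).card = 4) ∧
      ∀ s : Equiv.Perm (Fin 4), g⁻¹ * s ∈ KS 4 2 → ¬ StarOk ar Y Q B (pst s) (pst 1) :=
  kill_one (four_kill' h0 hl0 hl1 hl2 g)

end Pool.Agent.MP_c07eba.KL
end
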