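import Pool.Agent.Lib.MP_c07eba_lc.Four

section
/-!
# Full rectangles

A vertex `y` with list `Y`, whose neighbours have the states `p j`, has no state if and only if
there is a *full* rectangle: a set `C` of indices and a set `R ⊆ Y` of colours, `|C| + |R| = k + 1`,
such that every cell of `C × R` is on one of the maps `p j`.
-/
namespace Pool.Agent.MP_c07eba.KL

open Finset Function

/-! ### Partial injections and full rectangles -/

section General

variable {I X J : Type*}

/-- The relation is the graph of a partial injection. -/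
structure PI (P : I → X → Prop) : Prop where
  fn : ∀ {i x x'}, P i x → P i x' → x = x'
  inj : ∀ {i i' x}, P i x → P i' x → i = i'

/-- The transposed relation. -/
abbrev tr (P : I → X → Prop) : X → I → Prop := fun x i => P i x

theorem PI.tr {P : I → X → Prop} (h : PI P) : PI (tr P) := ⟨h.inj, h.fn⟩

/-- All cells of the rectangle `C × R` are covered. -/
def Full (P : J → I → X → Prop) (C : Finset I) (R : Finset X) : Prop :=
  ∀ i ∈ C, ∀ x ∈ R, ∃ j, P j i x

theorem Full.tr {P : J → I → X → Prop} {C : Finset I} {R : Finset X} (h : Full P C R) :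
    Full (fun j => tr (P j)) R C := fun x hx i hi => h i hi x hx

theorem Full.card_le [Fintype J] {P : J → I → X → Prop} (hP : ∀ j, PI (P j)) {C : Finset I}
    {R : Finset X} (hf : Full P C R) {i : I} (hi : i ∈ C) : R.card ≤ Fintype.card J := by
  classical
  refine card_le_card_of_forall_subsingleton (t := (univ : Finset J)) (fun x j => P j i x)
    (fun x hx => ?_) fun j _ x hx x' hx' => (hP j).fn hx.2 hx'.2
  obtain ⟨j, hj⟩ := hf i hi x hx
  exact ⟨j, mem_univ _, hj⟩

theorem Full.col [Fintype J] {P : J → I → X → Prop} (hP : ∀ j, PI (P j)) {C : Finset I}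
    {R : Finset X} (hf : Full P C R) (hR : R.card = Fintype.card J) {i : I} (hi : i ∈ C) :
    (∀ j, ∃ x ∈ R, P j i x) ∧ ∀ x ∈ R, ∀ j j', P j i x → P j' i x → j = j' := by
  classical
  choose g hg using fun x : R => hf i hi x x.2
  have hgi : Injective g := by
    intro x x' h
    have h1 := hg x
    rw [h] at h1
    exact Subtype.ext ((hP _).fn h1 (hg x'))
  have hgs : Surjective g :=
    ((Fintype.bijective_iff_injective_and_card g).2 ⟨hgi, by simpa using hR⟩).2
  refine ⟨fun j => ?_, fun x hx j j' h h' => ?_⟩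
  · obtain ⟨x, rfl⟩ := hgs j
    exact ⟨x, x.2, hg x⟩
  · have key : ∀ j, P j i x → j = g ⟨x, hx⟩ := by
      intro j h
      obtain ⟨x', rfl⟩ := hgs j
      have : (x' : X) = x := (hP _).fn (hg x') h
      congr 1
      exact Subtype.ext this
    rw [key j h, key j' h']

/-- A full rectangle with `d` columns and `d + 1` rows or with `d + 1` columns and `d` rows. -/
structure Blk (d : ℕ) (P : J → I → X → Prop) (C : Finset I) (R : Finset X) : Prop where
  full : Full P C R
  card : (C.card = d ∧ R.card = d + 1) ∨ (C.card = d + 1 ∧ R.card = d)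

theorem Blk.tr {d : ℕ} {P : J → I → X → Prop} {C : Finset I} {R : Finset X} (h : Blk d P C R) :
    Blk d (fun j => tr (P j)) R C := ⟨h.full.tr, by
      rcases h.card with h | h
      · exact Or.inr ⟨h.2, h.1⟩
      · exact Or.inl ⟨h.2, h.1⟩⟩

theorem Blk.uniq [Fintype J] {d : ℕ} {P : J → I → X → Prop} {C : Finset I} {R : Finset X}
    (h : Blk d P C R) (hJ : Fintype.card J = d + 1) (hP : ∀ j, PI (P j)) {i : I} (hi : i ∈ C)
    {x : X} (hx : x ∈ R) {j j' : J} (h1 : P j i x) (h2 : P j' i x) : j = j' := by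
  rcases h.card with ⟨_, hc⟩ | ⟨hc, _⟩
  · exact (h.full.col hP (hc.trans hJ.symm) hi).2 x hx j j' h1 h2
  · exact (h.full.tr.col (fun j => (hP j).tr) (hc.trans hJ.symm) hx).2 i hi j j' h1 h2

open Classical in
/-- The cells of a map in a rectangle. -/
noncomputable def nu (P : I → X → Prop) (C : Finset I) (R : Finset X) : Finset (I × X) :=
  (C ×ˢ R).filter fun c => P c.1 c.2

theorem mem_nu {P : I → X → Prop} {C : Finset I} {R : Finset X} {c : I × X} :
    c ∈ nu P C R ↔ c.1 ∈ C ∧ c.2 ∈ R ∧ P c.1 c.2 := by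
  classical
  simp [nu, and_assoc]

theorem mem_nu_swap {P : I → X → Prop} {C : Finset I} {R : Finset X} {c : X × I} :
    c.swap ∈ nu P C R ↔ c ∈ nu (tr P) R C := by
  simp only [mem_nu, Prod.fst_swap, Prod.snd_swap]
  tauto

theorem card_nu_tr (P : I → X → Prop) (C : Finset I) (R : Finset X) :
    (nu (tr P) R C).card = (nu P C R).card := by
  classical
  refine card_bij (fun c _ => c.swap) (fun c hc => mem_nu_swap.2 hc)
    (fun c _ c' _ h => Prod.swap_injective h) fun c hc => ⟨c.swap, ?_, Prod.swap_swap c⟩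
  rw [← mem_nu_swap, Prod.swap_swap]
  exact hc

theorem card_nu_le {P : I → X → Prop} (hP : PI P) (C : Finset I) (R : Finset X) :
    (nu P C R).card ≤ C.card :=
  card_le_card_of_injOn Prod.fst (fun c hc => (mem_nu.1 hc).1) fun c hc c' hc' h => by
    have h1 := (mem_nu.1 hc).2.2
    have h2 := (mem_nu.1 hc').2.2
    rw [← h] at h2
    exact Prod.ext h (hP.fn h1 h2)

theorem card_nu_le' {P : I → X → Prop} (hP : PI P) (C : Finset I) (R : Finset X) :
    (nu P C R).card ≤ R.card := by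
  rw [← card_nu_tr]
  exact card_nu_le hP.tr R C

theorem Full.card_nu [Fintype J] {P : J → I → X → Prop} (hP : ∀ j, PI (P j)) {C : Finset I}
    {R : Finset X} (hf : Full P C R) (hR : R.card = Fintype.card J) (j : J) :
    (nu (P j) C R).card = C.card := by
  classical
  refine le_antisymm (card_nu_le (hP j) C R) ?_
  refine card_le_card_of_forall_subsingleton (fun i (c : I × X) => c.1 = i) (fun i hi => ?_)
    fun c _ i hi i' hi' => hi.2.symm.trans hi'.2
  obtain ⟨x, hx, hxP⟩ := (hf.col hP hR hi).1 j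
  exact ⟨(i, x), mem_nu.2 ⟨hi, hx, hxP⟩, rfl⟩

theorem Blk.card_nu [Fintype J] {d : ℕ} {P : J → I → X → Prop} {C : Finset I} {R : Finset X}
    (h : Blk d P C R) (hJ : Fintype.card J = d + 1) (hP : ∀ j, PI (P j)) (j : J) :
    (nu (P j) C R).card = d := by
  rcases h.card with ⟨hc, hr⟩ | ⟨hc, hr⟩
  · rw [h.full.card_nu hP (hr.trans hJ.symm), hc]
  · rw [← card_nu_tr, h.full.tr.card_nu (fun j => (hP j).tr) (hc.trans hJ.symm), hr]

/-! ### Comparison of two full rectangles -/

section Compare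

variable [Fintype J] {d : ℕ} {P P' : J → I → X → Prop} {C C' : Finset I} {R R' : Finset X}
  {j₀ : J}

/-- Common cells of two full rectangles. -/
theorem common (hJ : Fintype.card J = d + 1) (hP : ∀ j, PI (P j))
    (hag : ∀ j, j ≠ j₀ → P j = P' j) (hB : Blk d P C R) (hB' : Full P' C' R')
    {i : I} (hi : i ∈ C) (hi' : i ∈ C') {x : X} (hx : x ∈ R) (hx' : x ∈ R') (h : P j₀ i x) :
    P' j₀ i x := by
  obtain ⟨j, hj⟩ := hB' i hi' x hx'
  by_cases hj0 : j = j₀
  · rwa [hj0] at hj
  · rw [← hag j hj0] at hj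
    exact absurd (hB.uniq hJ hP hi hx hj h) hj0

/-- A column of two full rectangles of which the second one has all rows. -/
theorem diff_col (hP' : ∀ j, PI (P' j)) (hag : ∀ j, j ≠ j₀ → P j = P' j)
    (hf : Full P C R) (hf' : Full P' C' R') (hR' : R'.card = Fintype.card J)
    {i : I} (hi : i ∈ C) (hi' : i ∈ C') {x : X} (hx : x ∈ R) (hx' : x ∉ R') : P j₀ i x := by
  obtain ⟨j, hj⟩ := hf i hi x hx
  by_cases hj0 : j = j₀
  · rwa [hj0] at hj
  · exfalso
    rw [hag j hj0] at hj
    obtain ⟨x', hx'R, hx'P⟩ := (hf'.col hP' hR' hi').1 j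
    exact hx' ((hP' j).fn hj hx'P ▸ hx'R)

variable [DecidableEq I] [DecidableEq X]

/-- Two full rectangles with `d` columns. -/
theorem st_cc (hd : 3 ≤ d) (hJ : Fintype.card J = d + 1) (hP : ∀ j, PI (P j))
    (hP' : ∀ j, PI (P' j)) (hag : ∀ j, j ≠ j₀ → P j = P' j) (hf : Full P C R)
    (hf' : Full P' C' R') (hC : C.card = d) (hC' : C'.card = d) (hR : R.card = d + 1)
    (hR' : R'.card = d + 1) (hRR : (R ∪ R').card ≤ 2 * d) :
    R = R' ∧ (C ∪ C').card ≤ d + 1 := by
  classical
  have hag' : ∀ j, j ≠ j₀ → P' j = P j := fun j hj => (hag j hj).symm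
  have hcol : ∀ {i}, i ∈ C → ∀ j, ∃ x ∈ R, P j i x := fun hi =>
    (hf.col hP (hR.trans hJ.symm) hi).1
  have hcol' : ∀ {i}, i ∈ C' → ∀ j, ∃ x ∈ R', P' j i x := fun hi =>
    (hf'.col hP' (hR'.trans hJ.symm) hi).1
  -- there is a common row, so at least one common column
  have hcc : (C ∪ C').card ≤ d + 2 := by
    have h1 := card_union_add_card_inter R R'
    have : 0 < (R ∩ R').card := by omega
    obtain ⟨x, hx⟩ := card_pos.1 this
    rw [mem_inter] at hx
    have : (univ : Finset (Option J)).card = d + 2 := by simp [hJ]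
    rw [← this]
    refine card_le_card_of_forall_subsingleton
      (fun i (o : Option J) => (i ∈ C ∧ ∃ j, o = some j ∧ P j i x) ∨
        (i ∉ C ∧ ((o = none ∧ P' j₀ i x) ∨ ∃ j, j ≠ j₀ ∧ o = some j ∧ P' j i x)))
      (fun i hi => ?_) fun o _ i hi i' hi' => ?_
    · by_cases hiC : i ∈ C
      · obtain ⟨j, hj⟩ := hf i hiC x hx.1
        exact ⟨some j, mem_univ _, Or.inl ⟨hiC, j, rfl, hj⟩⟩
      · have hiC' : i ∈ C' := (mem_union.1 hi).resolve_left hiC
        obtain ⟨j, hj⟩ := hf' i hiC' x hx.2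
        by_cases hj0 : j = j₀
        · subst hj0
          exact ⟨none, mem_univ _, Or.inr ⟨hiC, Or.inl ⟨rfl, hj⟩⟩⟩
        · exact ⟨some j, mem_univ _, Or.inr ⟨hiC, Or.inr ⟨j, hj0, rfl, hj⟩⟩⟩
    · have h1 := hi.2
      have h2 := hi'.2
      rcases o with _ | j
      · have k1 : P' j₀ i x := by
          rcases h1 with ⟨_, j, h, _⟩ | ⟨_, ⟨_, h⟩ | ⟨j, _, h, _⟩⟩
          · cases h
          · exact h
          · cases h
        have k2 : P' j₀ i' x := by
          rcases h2 with ⟨_, j, h, _⟩ | ⟨_, ⟨_, h⟩ | ⟨j, _, h, _⟩⟩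
          · cases h
          · exact h
          · cases h
        exact (hP' _).inj k1 k2
      · have k1 : P j i x := by
          rcases h1 with ⟨_, j', h, h'⟩ | ⟨_, ⟨h, _⟩ | ⟨j', hj, h, h'⟩⟩
          · cases h
            exact h'
          · cases h
          · cases h
            rw [hag _ hj]
            exact h'
        have k2 : P j i' x := by
          rcases h2 with ⟨_, j', h, h'⟩ | ⟨_, ⟨h, _⟩ | ⟨j', hj, h, h'⟩⟩
          · cases h
            exact h'
          · cases h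
          · cases h
            rw [hag _ hj]
            exact h'
        exact (hP _).inj k1 k2
  have hU := card_union_add_card_inter C C'
  have hRR' : R = R' := by
    by_contra hne
    -- a row of R which is not a row of R'
    have hns : ¬ R ⊆ R' := fun h => hne (eq_of_subset_of_card_le h (by omega))
    obtain ⟨x₀, hx₀, hx₀'⟩ := not_subset.1 hns
    have hone : ∀ i ∈ C, i ∈ C' → P j₀ i x₀ := fun i hi hi' =>
      diff_col hP' hag hf hf' (hR'.trans hJ.symm) hi hi' hx₀ hx₀'
    have hle : (C ∩ C').card ≤ 1 := by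
      rw [card_le_one]
      intro i hi i' hi'
      rw [mem_inter] at hi hi'
      exact (hP _).inj (hone i hi.1 hi.2) (hone i' hi'.1 hi'.2)
    have hpos : 0 < (C ∩ C').card := by omega
    obtain ⟨i₁, hi₁⟩ := card_pos.1 hpos
    rw [mem_inter] at hi₁
    -- rows of R different from x₀ are rows of R'
    have hsub : ∀ x ∈ R, x ≠ x₀ → x ∈ R' := by
      intro x hx hne
      by_contra hx'
      exact hne ((hP _).fn (diff_col hP' hag hf hf' (hR'.trans hJ.symm) hi₁.1 hi₁.2 hx hx')
        (hone i₁ hi₁.1 hi₁.2))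
    -- a map e which has no cell of C in the row x₀
    obtain ⟨e, he⟩ : ∃ e : J, ∀ i ∈ C, ¬ P e i x₀ := by
      by_contra hcon
      push Not at hcon
      have : (univ : Finset J).card ≤ C.card := by
        refine card_le_card_of_forall_subsingleton (fun j i => P j i x₀)
          (fun j _ => hcon j) fun i hi j hj j' hj' => ?_
        exact (hf.col hP (hR.trans hJ.symm) hi).2 x₀ hx₀ j j' hj.2 hj'.2
      rw [card_univ, hJ, hC] at this
      omega
    have he0 : e ≠ j₀ := fun h => he i₁ hi₁.1 (h ▸ hone i₁ hi₁.1 hi₁.2)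
    have : (C ∪ C').card ≤ R'.card := by
      refine card_le_card_of_forall_subsingleton (fun i x => P e i x) (fun i hi => ?_)
        fun x _ i hi i' hi' => (hP e).inj hi.2 hi'.2
      rcases mem_union.1 hi with hi | hi
      · obtain ⟨x, hx, hxP⟩ := hcol hi e
        exact ⟨x, hsub x hx (fun h => he i hi (h ▸ hxP)), hxP⟩
      · obtain ⟨x, hx, hxP⟩ := hcol' hi e
        rw [← hag e he0] at hxP
        exact ⟨x, hx, hxP⟩
    omega
  refine ⟨hRR', ?_⟩
  obtain ⟨e, he⟩ : ∃ e : J, e ≠ j₀ := by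
    have : 1 < Fintype.card J := by omega
    exact Fintype.exists_ne_of_one_lt_card this j₀
  rw [← hR']
  refine card_le_card_of_forall_subsingleton (fun i x => P e i x) (fun i hi => ?_)
    fun x _ i hi i' hi' => (hP e).inj hi.2 hi'.2
  rcases mem_union.1 hi with hi | hi
  · obtain ⟨x, hx, hxP⟩ := hcol hi e
    exact ⟨x, hRR' ▸ hx, hxP⟩
  · obtain ⟨x, hx, hxP⟩ := hcol' hi e
    rw [← hag e he] at hxP
    exact ⟨x, hx, hxP⟩

/-- A full rectangle with `d` columns and a full rectangle with `d` rows. -/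
theorem st_cr (hd : 3 ≤ d) (hJ : Fintype.card J = d + 1) (hP : ∀ j, PI (P j))
    (hP' : ∀ j, PI (P' j)) (hag : ∀ j, j ≠ j₀ → P j = P' j) (hf : Full P C R)
    (hf' : Full P' C' R') (hC : C.card = d) (hC' : C'.card = d + 1) (hR : R.card = d + 1)
    (hR' : R'.card = d) (hCC : (C ∪ C').card ≤ 2 * d) (hRR : (R ∪ R').card ≤ 2 * d) :
    C ⊆ C' ∧ R' ⊆ R := by
  classical
  have hag' : ∀ j, j ≠ j₀ → P' j = P j := fun j hj => (hag j hj).symm
  have hUC := card_union_add_card_inter C C'
  have hUR := card_union_add_card_inter R R'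
  -- columns of C which are not columns of C'
  have ha : ∀ x, x ∈ R → x ∈ R' → ∀ i, i ∈ C → i ∉ C' → P j₀ i x := fun x hx hx' i hi hi' =>
    diff_col (P := fun j => tr (P j)) (P' := fun j => tr (P' j)) (fun j => (hP' j).tr)
      (fun j hj => by rw [hag j hj]) hf.tr hf'.tr (hC'.trans hJ.symm) hx hx' hi hi'
  have hb : ∀ i, i ∈ C → i ∈ C' → ∀ x, x ∈ R' → x ∉ R → P' j₀ i x := fun i hi hi' x hx hx' =>
    diff_col hP hag' hf' hf (hR.trans hJ.symm) hi' hi hx hx'
  obtain ⟨x₁, hx₁⟩ : (R ∩ R').Nonempty := card_pos.1 (by omega)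
  obtain ⟨i₁, hi₁⟩ : (C ∩ C').Nonempty := card_pos.1 (by omega)
  rw [mem_inter] at hx₁ hi₁
  have h1 : (C \ C').card ≤ 1 := by
    rw [card_le_one]
    intro i hi i' hi'
    rw [mem_sdiff] at hi hi'
    exact (hP _).inj (ha x₁ hx₁.1 hx₁.2 i hi.1 hi.2) (ha x₁ hx₁.1 hx₁.2 i' hi'.1 hi'.2)
  have h2 : (R' \ R).card ≤ 1 := by
    rw [card_le_one]
    intro x hx x' hx'
    rw [mem_sdiff] at hx hx'
    exact (hP' _).fn (hb i₁ hi₁.1 hi₁.2 x hx.1 hx.2) (hb i₁ hi₁.1 hi₁.2 x' hx'.1 hx'.2)
  have h1' := card_sdiff_add_card_inter C C'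
  have h2' := card_sdiff_add_card_inter R' R
  rw [inter_comm] at h2'
  constructor
  · intro i hi
    by_contra hi'
    obtain ⟨x, hx, x', hx', hne⟩ := one_lt_card.1 (show 1 < (R ∩ R').card by omega)
    rw [mem_inter] at hx hx'
    exact hne ((hP _).fn (ha x hx.1 hx.2 i hi hi') (ha x' hx'.1 hx'.2 i hi hi'))
  · intro x hx
    by_contra hx'
    obtain ⟨i, hi, i', hi', hne⟩ := one_lt_card.1 (show 1 < (C ∩ C').card by omega)
    rw [mem_inter] at hi hi'
    exact hne ((hP' _).inj (hb i hi.1 hi.2 x hx hx') (hb i' hi'.1 hi'.2 x hx hx'))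

end Compare

/-- The cells of two maps in two rectangles: their union is a partial injection and all but at
most one of the cells are common cells. -/
structure STc (P P' : I → X → Prop) (C : Finset I) (R : Finset X) (C' : Finset I)
    (R' : Finset X) : Prop where
  iff : ∀ c ∈ nu P C R, ∀ c' ∈ nu P' C' R', c.1 = c'.1 ↔ c.2 = c'.2
  le : ∀ c ∈ nu P C R, c ∉ nu P' C' R' → ∀ c' ∈ nu P C R, c' ∉ nu P' C' R' → c = c'

theorem STc.tr {P P' : I → X → Prop} {C C' : Finset I} {R R' : Finset X}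
    (h : STc (tr P) (tr P') R C R' C') : STc P P' C R C' R' := by
  constructor
  · intro c hc c' hc'
    rw [← Prod.swap_swap c, mem_nu_swap] at hc
    rw [← Prod.swap_swap c', mem_nu_swap] at hc'
    exact (h.iff _ hc _ hc').symm
  · intro c hc hn c' hc' hn'
    rw [← Prod.swap_swap c, mem_nu_swap] at hc hn
    rw [← Prod.swap_swap c', mem_nu_swap] at hc' hn'
    exact Prod.swap_injective (h.le _ hc hn _ hc' hn')

theorem le_symm {α : Type*} {S T : Finset α} (h : S.card = T.card)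
    (hle : ∀ c ∈ S, c ∉ T → ∀ c' ∈ S, c' ∉ T → c = c') :
    ∀ c ∈ T, c ∉ S → ∀ c' ∈ T, c' ∉ S → c = c' := by
  classical
  have h1 : (S \ T).card ≤ 1 := by
    rw [card_le_one]
    intro c hc c' hc'
    rw [mem_sdiff] at hc hc'
    exact hle c hc.1 hc.2 c' hc'.1 hc'.2
  have h2 : (T \ S).card ≤ 1 := by rwa [card_sdiff_comm h.symm]
  intro c hc hn c' hc' hn'
  exact card_le_one.1 h2 c (mem_sdiff.2 ⟨hc, hn⟩) c' (mem_sdiff.2 ⟨hc', hn'⟩)

section ST

variable [Fintype J] {d : ℕ} {P P' : J → I → X → Prop} {C C' : Finset I} {R R' : Finset X}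
  {j₀ : J} [DecidableEq I] [DecidableEq X]

theorem st_col (hd : 3 ≤ d) (hJ : Fintype.card J = d + 1) (hP : ∀ j, PI (P j))
    (hP' : ∀ j, PI (P' j)) (hag : ∀ j, j ≠ j₀ → P j = P' j) (hB : Blk d P C R)
    (hB' : Blk d P' C' R') (hC : C.card = d) (hR : R.card = d + 1) (hCC : (C ∪ C').card ≤ 2 * d)
    (hRR : (R ∪ R').card ≤ 2 * d) : STc (P j₀) (P' j₀) C R C' R' := by
  classical
  have hag' : ∀ j, j ≠ j₀ → P' j = P j := fun j hj => (hag j hj).symm
  have hcm : ∀ {i x}, i ∈ C → i ∈ C' → x ∈ R → x ∈ R' → P j₀ i x → P' j₀ i x :=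
    fun hi hi' hx hx' h => common hJ hP hag hB hB'.full hi hi' hx hx' h
  have hcm' : ∀ {i x}, i ∈ C → i ∈ C' → x ∈ R → x ∈ R' → P' j₀ i x → P j₀ i x :=
    fun hi hi' hx hx' h => common hJ hP' hag' hB' hB.full hi' hi hx' hx h
  rcases hB'.card with ⟨hC', hR'⟩ | ⟨hC', hR'⟩
  · obtain ⟨rfl, hU⟩ := st_cc hd hJ hP hP' hag hB.full hB'.full hC hC' hR hR' hRR
    have hUC := card_union_add_card_inter C C'
    constructor
    · rintro ⟨i, x⟩ hc ⟨i', x'⟩ hc'
      rw [mem_nu] at hc hc'
      obtain ⟨hi, hx, h⟩ := hc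
      obtain ⟨hi', hx', h'⟩ := hc'
      simp only at hi hx h hi' hx' h' ⊢
      constructor
      · rintro rfl
        exact (hP' _).fn (hcm hi hi' hx hx h) h'
      · rintro rfl
        by_contra hne
        have hn : i' ∉ C := fun hiC => hne ((hP _).inj h (hcm' hiC hi' hx hx h'))
        have hn' : i ∉ C' := fun hiC => hne ((hP' _).inj (hcm hi hiC hx hx h) h')
        -- the maps different from j₀ have cells in the row x, in the other columns
        have key : ((univ : Finset J).erase j₀).card ≤ (((C ∪ C').erase i).erase i').card := by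
          refine card_le_card_of_forall_subsingleton (fun e i'' => P e i'' x)
            (fun e he => ?_) ?_
          · have he0 : e ≠ j₀ := ne_of_mem_erase he
            obtain ⟨i'', hi'', hP''⟩ : ∃ i'' ∈ C ∪ C', P e i'' x := by
              by_contra hcon
              push Not at hcon
              have : (C ∪ C').card ≤ (R.erase x).card := by
                refine card_le_card_of_forall_subsingleton (fun i x => P e i x)
                  (fun i2 hi2 => ?_) fun x2 _ i2 hi2 i3 hi3 => (hP e).inj hi2.2 hi3.2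
                rcases mem_union.1 hi2 with hi3 | hi3
                · obtain ⟨x2, hx2, hxP⟩ := (hB.full.col hP (hR.trans hJ.symm) hi3).1 e
                  exact ⟨x2, mem_erase.2 ⟨fun h => hcon i2 hi2 (h ▸ hxP), hx2⟩, hxP⟩
                · obtain ⟨x2, hx2, hxP⟩ := (hB'.full.col hP' (hR.trans hJ.symm) hi3).1 e
                  rw [← hag e he0] at hxP
                  exact ⟨x2, mem_erase.2 ⟨fun h => hcon i2 hi2 (h ▸ hxP), hx2⟩, hxP⟩
              rw [card_erase_of_mem hx] at this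
              have h3 : C ≠ C' := fun h => hn (h ▸ hi')
              have h4 : (C ∩ C').card < C.card := by
                refine card_lt_card ⟨inter_subset_left, fun h => ?_⟩
                exact hn' (mem_inter.1 (h hi)).2
              omega
            refine ⟨i'', mem_erase.2 ⟨?_, mem_erase.2 ⟨?_, hi''⟩⟩, hP''⟩
            · rintro rfl
              rw [hag e he0] at hP''
              exact he0 (hB'.uniq hJ hP' hi' hx hP'' h')
            · rintro rfl
              exact he0 (hB.uniq hJ hP hi hx hP'' h)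
          · intro i'' hi'' e he e' he'
            have hm : i'' ∈ C ∪ C' := mem_of_mem_erase (mem_of_mem_erase hi'')
            have he0 : e ≠ j₀ := ne_of_mem_erase he.1
            have he0' : e' ≠ j₀ := ne_of_mem_erase he'.1
            have h1 := he.2
            have h2 := he'.2
            rcases mem_union.1 hm with hm | hm
            · exact hB.uniq hJ hP hm hx h1 h2
            · rw [hag e he0] at h1
              rw [hag e' he0'] at h2
              exact hB'.uniq hJ hP' hm hx h1 h2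
        rw [card_erase_of_mem (mem_univ _), card_univ, hJ, card_erase_of_mem,
          card_erase_of_mem (mem_union_left _ hi)] at key
        · omega
        · exact mem_erase.2 ⟨fun h => hne h.symm, mem_union_right _ hi'⟩
    · rintro ⟨i, x⟩ hc hn ⟨i', x'⟩ hc' hn'
      rw [mem_nu] at hc hc'
      obtain ⟨hi, hx, h⟩ := hc
      obtain ⟨hi', hx', h'⟩ := hc'
      simp only at hi hx h hi' hx' h'
      have k : i ∉ C' := fun hiC => hn (mem_nu.2 ⟨hiC, hx, hcm hi hiC hx hx h⟩)
      have k' : i' ∉ C' := fun hiC => hn' (mem_nu.2 ⟨hiC, hx', hcm hi' hiC hx' hx' h'⟩)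
      have hle : (C \ C').card ≤ 1 := by
        have := card_sdiff_add_card_inter C C'
        omega
      have : i = i' := card_le_one.1 hle i (mem_sdiff.2 ⟨hi, k⟩) i' (mem_sdiff.2 ⟨hi', k'⟩)
      subst this
      rw [(hP _).fn h h']
  · obtain ⟨hCs, hRs⟩ := st_cr hd hJ hP hP' hag hB.full hB'.full hC hC' hR hR' hCC hRR
    constructor
    · rintro ⟨i, x⟩ hc ⟨i', x'⟩ hc'
      rw [mem_nu] at hc hc'
      obtain ⟨hi, hx, h⟩ := hc
      obtain ⟨hi', hx', h'⟩ := hc'
      simp only at hi hx h hi' hx' h' ⊢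
      constructor
      · rintro rfl
        exact (hP _).fn h (hcm' hi hi' (hRs hx') hx' h')
      · rintro rfl
        exact (hP' _).inj (hcm hi (hCs hi) hx hx' h) h'
    · rintro ⟨i, x⟩ hc hn ⟨i', x'⟩ hc' hn'
      rw [mem_nu] at hc hc'
      obtain ⟨hi, hx, h⟩ := hc
      obtain ⟨hi', hx', h'⟩ := hc'
      simp only at hi hx h hi' hx' h'
      have k : x ∉ R' := fun hxR => hn (mem_nu.2 ⟨hCs hi, hxR, hcm hi (hCs hi) hx hxR h⟩)
      have k' : x' ∉ R' := fun hxR =>
        hn' (mem_nu.2 ⟨hCs hi', hxR, hcm hi' (hCs hi') hx' hxR h'⟩)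
      have hle : (R \ R').card ≤ 1 := by
        rw [card_sdiff_of_subset hRs]
        omega
      have : x = x' := card_le_one.1 hle x (mem_sdiff.2 ⟨hx, k⟩) x' (mem_sdiff.2 ⟨hx', k'⟩)
      subst this
      rw [(hP _).inj h h']

/-- **Lemma ST.** Two full rectangles for two families of maps which differ in one map. -/
theorem st (hd : 3 ≤ d) (hJ : Fintype.card J = d + 1) (hP : ∀ j, PI (P j))
    (hP' : ∀ j, PI (P' j)) (hag : ∀ j, j ≠ j₀ → P j = P' j) (hB : Blk d P C R)
    (hB' : Blk d P' C' R') (hCC : (C ∪ C').card ≤ 2 * d)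
    (hRR : (R ∪ R').card ≤ 2 * d) : STc (P j₀) (P' j₀) C R C' R' := by
  rcases hB.card with ⟨hC, hR⟩ | ⟨hC, hR⟩
  · exact st_col hd hJ hP hP' hag hB hB' hC hR hCC hRR
  · exact (st_col (P := fun j => tr (P j)) (P' := fun j => tr (P' j)) hd hJ
      (fun j => (hP j).tr) (fun j => (hP' j).tr) (fun j hj => by rw [hag j hj]) hB.tr hB'.tr
      hR hC hRR hCC).tr

/-- All full rectangles with `d` columns have the same rows, and if there is a full rectangle with
`d + 1` columns, these contain the columns of all full rectangles. -/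
theorem Blk.cases (hd : 3 ≤ d) (hJ : Fintype.card J = d + 1) (hP : ∀ j, PI (P j))
    (hB : Blk d P C R) (hB' : Blk d P C' R') (hCC : (C ∪ C').card ≤ 2 * d)
    (hRR : (R ∪ R').card ≤ 2 * d) :
    (C'.card = d + 1 → C ⊆ C') ∧ (C.card = d → C'.card = d → R = R') := by
  obtain ⟨j₀⟩ : Nonempty J := Fintype.card_pos_iff.1 (by omega)
  have hag : ∀ j, j ≠ j₀ → P j = P j := fun _ _ => rfl
  constructor
  · intro hC'
    have hR' : R'.card = d := by
      rcases hB'.card with h | h <;> omega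
    rcases hB.card with ⟨hC, hR⟩ | ⟨hC, hR⟩
    · exact (st_cr hd hJ hP hP hag hB.full hB'.full hC hC' hR hR' hCC hRR).1
    · have := (st_cc (P := fun j => KL.tr (P j)) (P' := fun j => KL.tr (P j)) (j₀ := j₀) hd hJ
        (fun j => (hP j).tr) (fun j => (hP j).tr) (fun j hj => rfl) hB.full.tr hB'.full.tr
        hR hR' hC hC' hCC).1
      rw [this]
  · intro hC hC'
    have hR : R.card = d + 1 := by
      rcases hB.card with h | h <;> omega
    have hR' : R'.card = d + 1 := by
      rcases hB'.card with h | h <;> omega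
    exact (st_cc hd hJ hP hP hag hB.full hB'.full hC hC' hR hR' hRR).1

end ST

section Columns

variable [Fintype J] {d : ℕ} {P : J → I → X → Prop} {C : Finset I} {R : Finset X}

/-- At most one map has no cell in a given column of a full rectangle. -/
theorem Blk.miss (hJ : Fintype.card J = d + 1) (hP : ∀ j, PI (P j)) (hB : Blk d P C R) {i : I}
    (hi : i ∈ C) {j j' : J} (hj : ∀ x ∈ R, ¬ P j i x) (hj' : ∀ x ∈ R, ¬ P j' i x) : j = j' := by
  classical
  by_contra hne
  have h1 : R.card ≤ (((univ : Finset J).erase j).erase j').card := by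
    refine card_le_card_of_forall_subsingleton (fun x j => P j i x) (fun x hx => ?_)
      fun j _ x hx x' hx' => (hP j).fn hx.2 hx'.2
    obtain ⟨e, he⟩ := hB.full i hi x hx
    refine ⟨e, mem_erase.2 ⟨?_, mem_erase.2 ⟨?_, mem_univ _⟩⟩, he⟩
    · rintro rfl
      exact hj' x hx he
    · rintro rfl
      exact hj x hx he
  rw [card_erase_of_mem (mem_erase.2 ⟨fun h => hne h.symm, mem_univ _⟩),
    card_erase_of_mem (mem_univ _), card_univ, hJ] at h1
  rcases hB.card with h | h
  · omega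
  · obtain ⟨_, h⟩ := h
    have : 0 < d ∨ d = 0 := by omega
    rcases this with h0 | h0
    · omega
    · subst h0
      have : Subsingleton J := Fintype.card_le_one_iff_subsingleton.1 (by omega)
      exact hne (Subsingleton.elim _ _)

/-- The values of the maps in a column of a full rectangle are different. -/
theorem Blk.ne (hJ : Fintype.card J = d + 1) (hP : ∀ j, PI (P j)) (hB : Blk d P C R) {i : I}
    (hi : i ∈ C) {j j' : J} (hne : j ≠ j') {x : X} (h : P j i x) (h' : P j' i x) : False := by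
  by_cases hx : x ∈ R
  · exact hne (hB.uniq hJ hP hi hx h h')
  · refine hne (hB.miss hJ hP hi (fun x' hx' k => ?_) fun x' hx' k => ?_)
    · exact hx ((hP _).fn h k ▸ hx')
    · exact hx ((hP _).fn h' k ▸ hx')

/-- Two of three maps have cells in a given column of a full rectangle, and one of these is not on
`T`. -/
theorem Blk.changed (hJ : Fintype.card J = d + 1) (hP : ∀ j, PI (P j)) (hB : Blk d P C R)
    {arm : Fin 3 → J} (harm : Injective arm) {T : I → X → Prop}
    (hT : ∀ i x x', T i x → T i x' → x = x') {i : I} (hi : i ∈ C) :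
    ∃ a, ∃ x ∈ R, P (arm a) i x ∧ ¬ T i x := by
  obtain ⟨a, b, hab, ⟨x, hx, hxP⟩, ⟨x', hx', hxP'⟩⟩ : ∃ a b, a ≠ b ∧
      (∃ x ∈ R, P (arm a) i x) ∧ ∃ x ∈ R, P (arm b) i x := by
    have key : ∀ a b, a ≠ b → (∃ x ∈ R, P (arm a) i x) ∨ ∃ x ∈ R, P (arm b) i x := by
      intro a b hab
      by_contra hcon
      push Not at hcon
      exact hab (harm (hB.miss hJ hP hi hcon.1 hcon.2))
    rcases key 0 1 (by decide) with h | h
    · rcases key 1 2 (by decide) with h' | h'
      · exact ⟨0, 1, by decide, h, h'⟩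
      · exact ⟨0, 2, by decide, h, h'⟩
    · rcases key 0 2 (by decide) with h' | h'
      · exact ⟨1, 0, by decide, h, h'⟩
      · exact ⟨1, 2, by decide, h, h'⟩
  by_cases h : T i x
  · by_cases h' : T i x'
    · have := hT _ _ _ h h'
      subst this
      exact absurd (harm (hB.uniq hJ hP hi hx hxP hxP')) hab
    · exact ⟨b, x', hx', hxP', h'⟩
  · exact ⟨a, x, hx, hxP, h⟩

end Columns

end General

/-! ### Blocked vertices -/

section Func

variable {k : ℕ} {J : Type*}

/-- The graphs of the states. -/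
def gr (p : J → Fin k → ℕ) : J → Fin k → ℕ → Prop := fun j i x => p j i = x

theorem pi_gr {p : J → Fin k → ℕ} (h : ∀ j, Injective (p j)) (j : J) : PI (gr p j) :=
  ⟨fun h1 h2 => h1.symm.trans h2, fun h1 h2 => h j (h1.trans h2.symm)⟩

/-- A vertex with the list `Y` whose neighbours have the states `p j` has no state. -/
def Blocked (Y : Finset ℕ) (p : J → Fin k → ℕ) : Prop :=
  ¬ ∃ y : Fin k → ℕ, IsState Y y ∧ ∀ j i, y i ≠ p j i

theorem Blocked.exists_full {Y : Finset ℕ} (hY : Y.card = k) {p : J → Fin k → ℕ}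
    (h : Blocked Y p) : ∃ (C : Finset (Fin k)) (R : Finset ℕ), R ⊆ Y ∧
      C.card + R.card = k + 1 ∧ Full (gr p) C R := by
  classical
  by_contra hcon
  push Not at hcon
  apply h
  obtain ⟨y, hyi, hy⟩ := (Finset.all_card_le_biUnion_card_iff_exists_injective
    (fun i : Fin k => Y.filter fun x => ∀ j, p j i ≠ x)).1 (by
    intro C
    by_contra hlt
    push Not at hlt
    set U := C.biUnion fun i : Fin k => Y.filter fun x => ∀ j, p j i ≠ x with hU
    have hUY : U ⊆ Y := by
      intro x hx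
      rw [hU, mem_biUnion] at hx
      obtain ⟨i, _, hi⟩ := hx
      exact (mem_filter.1 hi).1
    have h1 : (Y \ U).card = k - U.card := by rw [card_sdiff_of_subset hUY, hY]
    have h2 : U.card ≤ k := hY ▸ card_le_card hUY
    have h3 : C.card ≤ k := by simpa using card_le_univ C
    obtain ⟨R, hRs, hRc⟩ := exists_subset_card_eq (s := Y \ U) (n := k + 1 - C.card) (by omega)
    refine hcon C R (hRs.trans sdiff_subset) (by omega) fun i hi x hx => ?_
    have hxU := mem_sdiff.1 (hRs hx)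
    by_contra hno
    push Not at hno
    exact hxU.2 (by
      rw [hU, mem_biUnion]
      exact ⟨i, hi, mem_filter.2 ⟨hxU.1, hno⟩⟩))
  exact ⟨y, ⟨hyi, fun i => (mem_filter.1 (hy i)).1⟩, fun j i h =>
    (mem_filter.1 (hy i)).2 j h.symm⟩

theorem blocked_of_full {Y : Finset ℕ} (hY : Y.card = k) {p : J → Fin k → ℕ}
    {C : Finset (Fin k)} {R : Finset ℕ} (hR : R ⊆ Y) (hc : k + 1 ≤ C.card + R.card)
    (hf : Full (gr p) C R) : Blocked Y p := by
  classical
  rintro ⟨y, hy, hyp⟩
  have h1 : C.card ≤ (Y \ R).card := by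
    refine card_le_card_of_injOn y (fun i hi => ?_) hy.inj.injOn
    refine mem_sdiff.2 ⟨hy.mem i, fun hyR => ?_⟩
    obtain ⟨j, hj⟩ := hf i hi _ hyR
    exact hyp j i hj.symm
  rw [card_sdiff_of_subset hR, hY] at h1
  have h2 : R.card ≤ k := hY ▸ card_le_card hR
  omega

end Func

end Pool.Agent.MP_c07eba.KL
end

section
/-!
# Full rectangles of a star, even case

`d + 1` maps `Fin (2 d) → ℕ`; three of them (the arms) are the ends of chains which start at the
same state `t` and have together at most `d` diamonds.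
-/
namespace Pool.Agent.MP_c07eba.KL

open Finset Function

variable {k d : ℕ} {J : Type*} [Fintype J] [DecidableEq J]

/-- A full rectangle of a vertex with the list `Y`. -/
structure IsBlk (d : ℕ) (Y : Finset ℕ) (p : J → Fin k → ℕ) (C : Finset (Fin k))
    (R : Finset ℕ) : Prop where
  sub : R ⊆ Y
  blk : Blk d (gr p) C R

omit [DecidableEq J] in
theorem exists_isBlk (hk : k = 2 * d) (hJ : Fintype.card J = d + 1) {Y : Finset ℕ}
    (hY : Y.card = k) {p : J → Fin k → ℕ} (hp : ∀ j, Injective (p j)) (h : Blocked Y p) :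
    ∃ C R, IsBlk d Y p C R := by
  obtain ⟨C, R, hRY, hc, hf⟩ := h.exists_full hY
  have h1 : R.card ≤ k := hY ▸ card_le_card hRY
  have h2 : C.card ≤ k := by simpa using card_le_univ C
  obtain ⟨i, hi⟩ : C.Nonempty := card_pos.1 (by omega)
  obtain ⟨x, hx⟩ : R.Nonempty := card_pos.1 (by omega)
  have h3 := hf.card_le (pi_gr hp) hi
  have h4 := hf.tr.card_le (fun j => (pi_gr hp j).tr) hx
  exact ⟨C, R, hRY, hf, by omega⟩

open Classical in
/-- The columns of the cells of `p j` in full rectangles. -/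
noncomputable def Nc (d : ℕ) (Y : Finset ℕ) (p : J → Fin k → ℕ) (j : J) : Finset (Fin k) :=
  univ.filter fun i => ∃ C R, IsBlk d Y p C R ∧ i ∈ C ∧ p j i ∈ R

omit [Fintype J] [DecidableEq J] in
theorem mem_Nc {Y : Finset ℕ} {p : J → Fin k → ℕ} {j : J} {i : Fin k} :
    i ∈ Nc d Y p j ↔ ∃ C R, IsBlk d Y p C R ∧ i ∈ C ∧ p j i ∈ R := by
  classical
  simp [Nc]

/-- The columns of the cells of `p j` in a rectangle. -/
def cl (p : J → Fin k → ℕ) (j : J) (C : Finset (Fin k)) (R : Finset ℕ) : Finset (Fin k) :=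
  C.filter fun i => p j i ∈ R

omit [Fintype J] [DecidableEq J] in
theorem mem_cl {p : J → Fin k → ℕ} {j : J} {C : Finset (Fin k)} {R : Finset ℕ} {i : Fin k} :
    i ∈ cl p j C R ↔ i ∈ C ∧ p j i ∈ R := mem_filter

omit [Fintype J] [DecidableEq J] in
theorem cl_subset {Y : Finset ℕ} {p : J → Fin k → ℕ} {j : J} {C : Finset (Fin k)} {R : Finset ℕ}
    (h : IsBlk d Y p C R) : cl p j C R ⊆ Nc d Y p j := fun _ hi =>
  mem_Nc.2 ⟨C, R, h, (mem_cl.1 hi).1, (mem_cl.1 hi).2⟩

omit [DecidableEq J] in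
theorem card_cl (hJ : Fintype.card J = d + 1) {p : J → Fin k → ℕ} (hp : ∀ j, Injective (p j))
    {C : Finset (Fin k)} {R : Finset ℕ} (h : Blk d (gr p) C R) (j : J) :
    (cl p j C R).card = d := by
  rw [← h.card_nu hJ (pi_gr hp) j]
  symm
  refine card_bij (fun c _ => c.1) (fun c hc => ?_) (fun c hc c' hc' hcc => ?_) fun i hi => ?_
  · have := mem_nu.1 hc
    have h3 : p j c.1 = c.2 := this.2.2
    exact mem_cl.2 ⟨this.1, h3 ▸ this.2.1⟩
  · have h1 : p j c.1 = c.2 := (mem_nu.1 hc).2.2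
    have h2 : p j c'.1 = c'.2 := (mem_nu.1 hc').2.2
    exact Prod.ext hcc (by rw [← h1, ← h2]; exact congrArg _ hcc)
  · exact ⟨(i, p j i), mem_nu.2 ⟨(mem_cl.1 hi).1, (mem_cl.1 hi).2, rfl⟩, rfl⟩

theorem card_union_Y {Y : Finset ℕ} (hk : k = 2 * d) (hY : Y.card = k) {R R' : Finset ℕ}
    (h : R ⊆ Y) (h' : R' ⊆ Y) : (R ∪ R').card ≤ 2 * d := by
  have := card_le_card (union_subset h h')
  omega

theorem card_union_k (hk : k = 2 * d) (C C' : Finset (Fin k)) : (C ∪ C').card ≤ 2 * d := by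
  have := card_le_univ (C ∪ C')
  rw [Fintype.card_fin] at this
  omega

omit [DecidableEq J] in
theorem card_Nc_le (hd : 3 ≤ d) (hk : k = 2 * d) (hJ : Fintype.card J = d + 1) {Y : Finset ℕ}
    (hY : Y.card = k) {p : J → Fin k → ℕ} (hp : ∀ j, Injective (p j)) (j : J) :
    (Nc d Y p j).card ≤ d + 1 := by
  classical
  by_cases h : ∃ C R, IsBlk d Y p C R ∧ C.card = d + 1
  · obtain ⟨C', R', hB', hc⟩ := h
    rw [← hc]
    refine card_le_card fun i hi => ?_
    obtain ⟨C, R, hB, hiC, _⟩ := mem_Nc.1 hi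
    exact ((Blk.cases hd hJ (pi_gr hp) hB.blk hB'.blk (card_union_k hk _ _)
      (card_union_Y hk hY hB.sub hB'.sub)).1 hc) hiC
  · push Not at h
    rcases (Nc d Y p j).eq_empty_or_nonempty with he | ⟨i₀, hi₀⟩
    · rw [he, card_empty]
      omega
    · obtain ⟨C', R', hB', _, _⟩ := mem_Nc.1 hi₀
      have hC' : C'.card = d := by
        have := h C' R' hB'
        rcases hB'.blk.card with h1 | h1
        · exact h1.1
        · exact absurd h1.1 this
      have hR' : R'.card = d + 1 := by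
        rcases hB'.blk.card with h1 | h1 <;> omega
      rw [← hR']
      refine card_le_card_of_injOn (p j) (fun i hi => ?_) (hp j).injOn
      obtain ⟨C, R, hB, hiC, hiR⟩ := mem_Nc.1 hi
      have hC : C.card = d := by
        have := h C R hB
        rcases hB.blk.card with h1 | h1
        · exact h1.1
        · exact absurd h1.1 this
      rw [← (Blk.cases hd hJ (pi_gr hp) hB.blk hB'.blk (card_union_k hk _ _)
        (card_union_Y hk hY hB.sub hB'.sub)).2 hC hC']
      exact hiR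

/-! ### Swapping columns of one map -/

/-- The family in which the columns of `p j₀` are permuted. -/
def sw (p : J → Fin k → ℕ) (j₀ : J) (π : Equiv.Perm (Fin k)) : J → Fin k → ℕ :=
  update p j₀ (p j₀ ∘ π)

omit [Fintype J] in
theorem sw_inj {p : J → Fin k → ℕ} (hp : ∀ j, Injective (p j)) (j₀ : J)
    (π : Equiv.Perm (Fin k)) (j : J) : Injective (sw p j₀ π j) := by
  rw [sw]
  by_cases h : j = j₀
  · subst h
    rw [update_self]
    exact (hp j).comp π.injective
  · rw [update_of_ne h]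
    exact hp j

/-- The possible full rectangles after a permutation of the columns of one map. -/
theorem swap_core (hd : 3 ≤ d) (hk : k = 2 * d) (hJ : Fintype.card J = d + 1) {Y : Finset ℕ}
    (hY : Y.card = k) {p : J → Fin k → ℕ} (hp : ∀ j, Injective (p j)) {j₀ : J}
    {π : Equiv.Perm (Fin k)} {C C' : Finset (Fin k)} {R R' : Finset ℕ} (hB : IsBlk d Y p C R)
    (hB' : IsBlk d Y (sw p j₀ π) C' R') :
    (∀ i ∈ cl p j₀ C R, π i ≠ i → ∀ i' ∈ cl p j₀ C R, π i' ≠ i' → i = i') ∧
    ∀ n ∈ cl p j₀ C R, π n ≠ n → ∃ m, m ∉ cl p j₀ C R ∧ π m ≠ n ∧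
      (π m = m → IsBlk d Y p C' R' ∧ m ∈ C' ∧ p j₀ m ∈ R') := by
  classical
  have hsw : ∀ i x, gr (sw p j₀ π) j₀ i x ↔ p j₀ (π i) = x := by
    intro i x
    simp [gr, sw]
  have hag : ∀ j, j ≠ j₀ → gr p j = gr (sw p j₀ π) j := by
    intro j hj
    funext i x
    simp only [gr, sw, update_of_ne hj]
  have hst := st hd hJ (pi_gr hp) (pi_gr (sw_inj hp j₀ π)) hag hB.blk hB'.blk
    (card_union_k hk _ _) (card_union_Y hk hY hB.sub hB'.sub)
  have hin : ∀ i ∈ cl p j₀ C R, (i, p j₀ i) ∈ nu (gr p j₀) C R := fun i hi =>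
    mem_nu.2 ⟨(mem_cl.1 hi).1, (mem_cl.1 hi).2, rfl⟩
  have hnin : ∀ i, π i ≠ i → (i, p j₀ i) ∉ nu (gr (sw p j₀ π) j₀) C' R' := by
    intro i hi h
    have := (mem_nu.1 h).2.2
    rw [hsw] at this
    exact hi (hp j₀ this)
  refine ⟨fun i hi hπ i' hi' hπ' => ?_, fun n hn hπ => ?_⟩
  · exact congrArg Prod.fst (hst.le _ (hin i hi) (hnin i hπ) _ (hin i' hi') (hnin i' hπ'))
  · have hcard : (nu (gr p j₀) C R).card = (nu (gr (sw p j₀ π) j₀) C' R').card := by
      rw [hB.blk.card_nu hJ (pi_gr hp), hB'.blk.card_nu hJ (pi_gr (sw_inj hp j₀ π))]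
    have hle' := le_symm hcard hst.le
    -- a cell of the new map which is not a cell of the old one
    obtain ⟨⟨m, x⟩, hm, hmn⟩ : ∃ c ∈ nu (gr (sw p j₀ π) j₀) C' R', c ∉ nu (gr p j₀) C R := by
      by_contra hcon
      push Not at hcon
      have := eq_of_subset_of_card_le (fun c hc => hcon c hc) hcard.le
      exact hnin n hπ (this ▸ hin n hn)
    have hm' := mem_nu.1 hm
    rw [hsw] at hm'
    obtain ⟨hmC, hmR, hmx⟩ := hm'
    simp only at hmC hmR hmx
    have h1 := hst.iff _ (hin n hn) _ hm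
    simp only at h1
    refine ⟨m, fun hmcl => ?_, fun h => ?_, fun hfix => ?_⟩
    · have h2 := (hst.iff _ (hin m hmcl) _ hm).1 rfl
      simp only at h2
      exact hmn (h2 ▸ hin m hmcl)
    · have h3 : p j₀ n = x := by rw [← h, hmx]
      exact hmn (h1.2 h3 ▸ h3 ▸ hin n hn)
    · rw [hfix] at hmx
      refine ⟨⟨hB'.sub, ?_, hB'.blk.card⟩, hmC, hmx ▸ hmR⟩
      intro i hi y hy
      obtain ⟨j, hj⟩ := hB'.blk.full i hi y hy
      by_cases hj0 : j = j₀
      · subst hj0
        refine ⟨j, ?_⟩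
        by_cases hc : (i, y) ∈ nu (gr p j) C R
        · exact (mem_nu.1 hc).2.2
        · have := hle' _ hm hmn (i, y) (mem_nu.2 ⟨hi, hy, hj⟩) hc
          simp only [Prod.mk.injEq] at this
          obtain ⟨rfl, rfl⟩ := this
          exact hmx
      · rw [← hag j hj0] at hj
        exact ⟨j, hj⟩

/-- Three columns of `Nc` cannot be permuted. -/
theorem no_swap (hd : 3 ≤ d) (hk : k = 2 * d) (hJ : Fintype.card J = d + 1) {Y : Finset ℕ}
    (hY : Y.card = k) {p : J → Fin k → ℕ} (hp : ∀ j, Injective (p j)) {j₀ : J}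
    {i₁ i₂ i₃ : Fin k} (h1 : i₁ ∈ Nc d Y p j₀) (h2 : i₂ ∈ Nc d Y p j₀) (h3 : i₃ ∈ Nc d Y p j₀)
    {π : Equiv.Perm (Fin k)} (hπ : π ≠ 1) (hsupp : ∀ i, i ≠ i₁ → i ≠ i₂ → i ≠ i₃ → π i = i)
    {C' : Finset (Fin k)} {R' : Finset ℕ} (hB' : IsBlk d Y (sw p j₀ π) C' R') : False := by
  classical
  have hmv : ∀ i, π i ≠ i → i ∈ Nc d Y p j₀ := by
    intro i hi
    by_cases e1 : i = i₁
    · exact e1 ▸ h1
    by_cases e2 : i = i₂
    · exact e2 ▸ h2
    by_cases e3 : i = i₃
    · exact e3 ▸ h3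
    exact absurd (hsupp i e1 e2 e3) hi
  obtain ⟨n, hn⟩ : ∃ n, π n ≠ n := by
    by_contra hcon
    push Not at hcon
    exact hπ (Equiv.ext hcon)
  obtain ⟨C, R, hB, hnC, hnR⟩ := mem_Nc.1 (hmv n hn)
  have hncl : n ∈ cl p j₀ C R := mem_cl.2 ⟨hnC, hnR⟩
  obtain ⟨ha, hb⟩ := swap_core hd hk hJ hY hp hB hB'
  obtain ⟨m, hm, hmn, hfix⟩ := hb n hncl hn
  have key : ∀ a b, a ∈ Nc d Y p j₀ → b ∈ Nc d Y p j₀ → a ∉ cl p j₀ C R → b ∉ cl p j₀ C R →
      a ≠ b → False := by
    intro a b ha hb hac hbc hab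
    have hsub : insert a (insert b (cl p j₀ C R)) ⊆ Nc d Y p j₀ := by
      intro i hi
      rcases mem_insert.1 hi with rfl | hi
      · exact ha
      rcases mem_insert.1 hi with rfl | hi
      · exact hb
      exact cl_subset hB hi
    have := card_le_card hsub
    rw [card_insert_of_notMem (by simp [hab, hac]), card_insert_of_notMem hbc,
      card_cl hJ hp hB.blk] at this
    have := card_Nc_le hd hk hJ hY hp j₀
    omega
  by_cases hmm : π m = m
  · obtain ⟨hBB, hmC, hmR⟩ := hfix hmm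
    have hπn : π (π n) ≠ π n := fun h => hn (π.injective h)
    refine key (π n) m (hmv _ hπn) (mem_Nc.2 ⟨C', R', hBB, hmC, hmR⟩) (fun h => ?_) hm ?_
    · exact hn (ha _ hncl hn _ h hπn).symm
    · intro h
      rw [h] at hπn
      exact hπn hmm
  · have hπm : π (π m) ≠ π m := fun h => hmm (π.injective h)
    refine key m (π m) (hmv _ hmm) (hmv _ hπm) hm (fun h => ?_) (fun h => hmm h.symm)
    exact hmn (ha _ h hπm _ hncl hn)

/-- If there is only one full rectangle, then three columns of which two are columns of cells of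
`p j₀` in this rectangle cannot be permuted. -/
theorem no_swap' (hd : 3 ≤ d) (hk : k = 2 * d) (hJ : Fintype.card J = d + 1) {Y : Finset ℕ}
    (hY : Y.card = k) {p : J → Fin k → ℕ} (hp : ∀ j, Injective (p j)) {j₀ : J}
    {C : Finset (Fin k)} {R : Finset ℕ} (hB : IsBlk d Y p C R)
    (huniq : ∀ C' R', IsBlk d Y p C' R' → C' = C ∧ R' = R) {i₁ i₂ i₃ : Fin k}
    (h1 : i₁ ∈ cl p j₀ C R) (h2 : i₂ ∈ cl p j₀ C R)
    {π : Equiv.Perm (Fin k)} (hπ : π ≠ 1) (hsupp : ∀ i, i ≠ i₁ → i ≠ i₂ → i ≠ i₃ → π i = i)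
    {C' : Finset (Fin k)} {R' : Finset ℕ} (hB' : IsBlk d Y (sw p j₀ π) C' R') : False := by
  classical
  have hmv : ∀ i, π i ≠ i → i ∉ cl p j₀ C R → i = i₃ := by
    intro i hi hc
    by_contra e3
    exact hi (hsupp i (fun h => hc (h ▸ h1)) (fun h => hc (h ▸ h2)) e3)
  obtain ⟨ha, hb⟩ := swap_core hd hk hJ hY hp hB hB'
  obtain ⟨n, hn, hncl⟩ : ∃ n, π n ≠ n ∧ n ∈ cl p j₀ C R := by
    obtain ⟨n, hn⟩ : ∃ n, π n ≠ n := by
      by_contra hcon
      push Not at hcon
      exact hπ (Equiv.ext hcon)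
    by_cases hc : n ∈ cl p j₀ C R
    · exact ⟨n, hn, hc⟩
    · refine ⟨π n, fun h => hn (π.injective h), ?_⟩
      by_contra hc'
      have e1 := hmv n hn hc
      have e2 := hmv (π n) (fun h => hn (π.injective h)) hc'
      exact hn (e2.trans e1.symm)
  obtain ⟨m, hm, hmn, hfix⟩ := hb n hncl hn
  by_cases hmm : π m = m
  · obtain ⟨hBB, hmC, hmR⟩ := hfix hmm
    obtain ⟨rfl, rfl⟩ := huniq _ _ hBB
    exact hm (mem_cl.2 ⟨hmC, hmR⟩)
  · have hπm : π (π m) ≠ π m := fun h => hmm (π.injective h)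
    have e1 := hmv m hmm hm
    by_cases hc : π m ∈ cl p j₀ C R
    · exact hmn (ha _ hc hπm _ hncl hn)
    · have e2 := hmv _ hπm hc
      exact hmm (e2.trans e1.symm)

end Pool.Agent.MP_c07eba.KL
end

section
/-!
# The columns of the full rectangle of a star are determined by the arms, even case
-/
namespace Pool.Agent.MP_c07eba.KL

open Finset Function

variable {k d : ℕ} {J : Type*} [Fintype J] [DecidableEq J]

/-- The columns in which `s` and `s'` differ. -/
def df (s s' : Fin k → ℕ) : Finset (Fin k) := univ.filter fun i => s i ≠ s' i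

theorem mem_df {s s' : Fin k → ℕ} {i : Fin k} : i ∈ df s s' ↔ s i ≠ s' i := by simp [df]

theorem df_subset (c : ℕ → Fin k → ℕ) (l : ℕ) :
    df (c l) (c 0) ⊆ (range l).biUnion fun m => df (c m) (c (m + 1)) := by
  induction l with
  | zero => intro i hi; exact absurd rfl (mem_df.1 hi)
  | succ l ih =>
    intro i hi
    rw [mem_biUnion]
    by_cases h : c l i = c (l + 1) i
    · have : i ∈ df (c l) (c 0) := mem_df.2 (by rw [h]; exact mem_df.1 hi)
      obtain ⟨m, hm, hi'⟩ := mem_biUnion.1 (ih this)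
      exact ⟨m, mem_range.2 ((mem_range.1 hm).trans (Nat.lt_succ_self l)), hi'⟩
    · exact ⟨l, mem_range.2 (Nat.lt_succ_self l), mem_df.2 h⟩

theorem card_inter_df_le (c : ℕ → Fin k → ℕ) (l : ℕ) (N : Finset (Fin k)) :
    (N ∩ df (c l) (c 0)).card ≤ ∑ m ∈ range l, (N ∩ df (c m) (c (m + 1))).card := by
  calc (N ∩ df (c l) (c 0)).card
      ≤ ((range l).biUnion fun m => N ∩ df (c m) (c (m + 1))).card := by
        refine card_le_card fun i hi => ?_
        rw [mem_inter] at hi
        obtain ⟨m, hm, h⟩ := mem_biUnion.1 (df_subset c l hi.2)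
        exact mem_biUnion.2 ⟨m, hm, mem_inter.2 ⟨hi.1, h⟩⟩
    _ ≤ _ := card_biUnion_le

omit [DecidableEq J] in
/-- In a full rectangle, three maps have together at least `2 d` cells which are not on `t`. -/
theorem two_d_le (hJ : Fintype.card J = d + 1) {Y : Finset ℕ}
    {p : J → Fin k → ℕ} (hp : ∀ j, Injective (p j)) {C : Finset (Fin k)} {R : Finset ℕ}
    (hB : IsBlk d Y p C R) {arm : Fin 3 → J} (harm : Injective arm) {t : Fin k → ℕ}
    (ht : Injective t) : 2 * d ≤ ∑ a, (cl p (arm a) C R ∩ df (p (arm a)) t).card := by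
  classical
  have h1 : ∀ a, (cl p (arm a) C R ∩ df (p (arm a)) t).card +
      ((cl p (arm a) C R).filter fun i => p (arm a) i = t i).card = d := by
    intro a
    rw [← card_cl hJ hp hB.blk (arm a), ← card_filter_add_card_filter_not
      (s := cl p (arm a) C R) (fun i => p (arm a) i = t i), add_comm]
    congr 2
    ext i
    simp [mem_df, mem_filter]
  have h2 : ∑ a, ((cl p (arm a) C R).filter fun i => p (arm a) i = t i).card ≤ d := by
    rw [← card_biUnion]
    · have hs : (univ.biUnion fun a => (cl p (arm a) C R).filter fun i => p (arm a) i = t i) ⊆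
          C.filter fun i => t i ∈ R := by
        intro i hi
        obtain ⟨a, _, ha⟩ := mem_biUnion.1 hi
        obtain ⟨h3, h4⟩ := mem_filter.1 ha
        exact mem_filter.2 ⟨(mem_cl.1 h3).1, h4 ▸ (mem_cl.1 h3).2⟩
      refine (card_le_card hs).trans ?_
      rcases hB.blk.card with ⟨hC, _⟩ | ⟨_, hR⟩
      · exact (card_le_card (filter_subset _ _)).trans hC.le
      · rw [← hR]
        exact card_le_card_of_injOn t (fun i hi => (mem_filter.1 hi).2) ht.injOn
    · intro a _ b _ hab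
      rw [Function.onFun, Finset.disjoint_left]
      intro i hi hi'
      obtain ⟨h3, h4⟩ := mem_filter.1 hi
      obtain ⟨_, h4'⟩ := mem_filter.1 hi'
      exact hab (harm (hB.blk.uniq hJ (pi_gr hp) (mem_cl.1 h3).1 (h4 ▸ (mem_cl.1 h3).2)
        h4 h4'))
  simp only [Fin.sum_univ_three] at h2 ⊢
  have := h1 0
  have := h1 1
  have := h1 2
  omega

/-- **Main counting lemma, even case.** -/
theorem even_core (hd : 3 ≤ d) (hk : k = 2 * d) (hJ : Fintype.card J = d + 1) {Y : Finset ℕ}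
    (hY : Y.card = k) {p : J → Fin k → ℕ} (hp : ∀ j, Injective (p j)) {arm : Fin 3 → J}
    (harm : Injective arm) {t : Fin k → ℕ} (ht : Injective t) {la : Fin 3 → ℕ}
    (hla : ∑ a, la a ≤ d) {c : Fin 3 → ℕ → Fin k → ℕ} (hc0 : ∀ a, c a 0 = t)
    (hcl : ∀ a, c a (la a) = p (arm a)) (hblk : ∃ C R, IsBlk d Y p C R)
    (hswap : ∀ a, ∀ m < la a, ∀ i₁ i₂ i₃ : Fin k, i₁ ≠ i₂ → i₁ ≠ i₃ → i₂ ≠ i₃ →
      i₁ ∈ df (c a m) (c a (m + 1)) → i₂ ∈ df (c a m) (c a (m + 1)) →
      i₃ ∈ df (c a m) (c a (m + 1)) → ∃ π : Equiv.Perm (Fin k), π ≠ 1 ∧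
        (∀ i, i ≠ i₁ → i ≠ i₂ → i ≠ i₃ → π i = i) ∧
        ∃ C' R', IsBlk d Y (sw p (arm a) π) C' R') :
    ∃ C R, IsBlk d Y p C R ∧ C.card = d ∧ C = univ.filter fun i => ∃ a, p (arm a) i ≠ t i := by
  classical
  have hch : ∀ a, df (p (arm a)) t = df (c a (la a)) (c a 0) := fun a => by rw [hcl, hc0]
  -- every diamond changes at most two columns of `Nc`
  have hA : ∀ a, ∀ m < la a, (Nc d Y p (arm a) ∩ df (c a m) (c a (m + 1))).card ≤ 2 := by
    intro a m hm
    by_contra hlt
    obtain ⟨i₁, h1, i₂, h2, i₃, h3, h12, h13, h23⟩ := two_lt_card.1 (not_le.1 hlt)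
    rw [mem_inter] at h1 h2 h3
    obtain ⟨π, hπ, hsupp, C', R', hB'⟩ := hswap a m hm i₁ i₂ i₃ h12 h13 h23 h1.2 h2.2 h3.2
    exact no_swap hd hk hJ hY hp h1.1 h2.1 h3.1 hπ hsupp hB'
  have hB : ∑ a, (Nc d Y p (arm a) ∩ df (p (arm a)) t).card ≤ 2 * d := by
    calc ∑ a, (Nc d Y p (arm a) ∩ df (p (arm a)) t).card
        ≤ ∑ a, ∑ m ∈ range (la a), (Nc d Y p (arm a) ∩ df (c a m) (c a (m + 1))).card := by
          refine sum_le_sum fun a _ => ?_
          rw [hch]
          exact card_inter_df_le _ _ _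
      _ ≤ ∑ a, ∑ m ∈ range (la a), 2 :=
          sum_le_sum fun a _ => sum_le_sum fun m hm => hA a m (mem_range.1 hm)
      _ = 2 * ∑ a, la a := by simp [mul_sum, mul_comm]
      _ ≤ 2 * d := by omega
  -- so all changed cells are cells of every full rectangle
  have hD : ∀ C R, IsBlk d Y p C R → ∀ a,
      cl p (arm a) C R ∩ df (p (arm a)) t = Nc d Y p (arm a) ∩ df (p (arm a)) t := by
    intro C R hCR a
    have h1 := two_d_le hJ hp hCR harm ht
    have hs : ∀ a, cl p (arm a) C R ∩ df (p (arm a)) t ⊆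
        Nc d Y p (arm a) ∩ df (p (arm a)) t := fun a =>
      inter_subset_inter (cl_subset hCR) Subset.rfl
    refine eq_of_subset_of_card_le (hs a) ?_
    have hle : ∀ a ∈ (univ : Finset (Fin 3)), (cl p (arm a) C R ∩ df (p (arm a)) t).card ≤
        (Nc d Y p (arm a) ∩ df (p (arm a)) t).card := fun a _ => card_le_card (hs a)
    exact (((sum_eq_sum_iff_of_le hle).1
      (le_antisymm (sum_le_sum hle) (hB.trans h1))) a (mem_univ _)).ge
  have hT : ∀ (i : Fin k) (x x' : ℕ), t i = x → t i = x' → x = x' := fun _ _ _ h h' =>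
    h.symm.trans h'
  have hT' : ∀ (x : ℕ) (i i' : Fin k), t i = x → t i' = x → i = i' := fun _ _ _ h h' =>
    ht (h.trans h'.symm)
  -- so there is only one full rectangle
  have hsub : ∀ C R C' R', IsBlk d Y p C R → IsBlk d Y p C' R' → C' ⊆ C ∧ R' ⊆ R := by
    intro C R C' R' h h'
    constructor
    · intro i hi
      obtain ⟨a, x, hx, hax, hat⟩ := h'.blk.changed hJ (pi_gr hp) harm
        (T := fun i x => t i = x) hT hi
      have hax' : p (arm a) i = x := hax
      have h1 : i ∈ cl p (arm a) C' R' ∩ df (p (arm a)) t :=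
        mem_inter.2 ⟨mem_cl.2 ⟨hi, hax' ▸ hx⟩, mem_df.2 fun h => hat (by rw [← h, hax'])⟩
      rw [hD _ _ h', ← hD _ _ h] at h1
      exact (mem_cl.1 (mem_inter.1 h1).1).1
    · intro x hx
      obtain ⟨a, i, hi, hax, hat⟩ := h'.blk.tr.changed hJ (fun j => (pi_gr hp j).tr) harm
        (T := fun x i => t i = x) hT' hx
      have hax' : p (arm a) i = x := hax
      have h1 : i ∈ cl p (arm a) C' R' ∩ df (p (arm a)) t :=
        mem_inter.2 ⟨mem_cl.2 ⟨hi, hax' ▸ hx⟩, mem_df.2 fun h => hat (by rw [← h, hax'])⟩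
      rw [hD _ _ h', ← hD _ _ h] at h1
      exact hax' ▸ (mem_cl.1 (mem_inter.1 h1).1).2
  obtain ⟨C, R, hCR⟩ := hblk
  have huniq : ∀ C' R', IsBlk d Y p C' R' → C' = C ∧ R' = R := fun C' R' h =>
    ⟨(hsub _ _ _ _ hCR h).1.antisymm (hsub _ _ _ _ h hCR).1,
      (hsub _ _ _ _ hCR h).2.antisymm (hsub _ _ _ _ h hCR).2⟩
  have hNc : ∀ j, Nc d Y p j = cl p j C R := by
    intro j
    refine (cl_subset hCR).antisymm' fun i hi => ?_
    obtain ⟨C', R', h', hiC, hiR⟩ := mem_Nc.1 hi
    obtain ⟨rfl, rfl⟩ := huniq _ _ h'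
    exact mem_cl.2 ⟨hiC, hiR⟩
  -- a diamond with three changes changes at most one column of the rectangle
  have hG : ∀ a, ∀ m < la a, 3 ≤ (df (c a m) (c a (m + 1))).card →
      (Nc d Y p (arm a) ∩ df (c a m) (c a (m + 1))).card ≤ 1 := by
    intro a m hm h3
    by_contra hlt
    obtain ⟨i₁, h1, i₂, h2, h12⟩ := one_lt_card.1 (not_le.1 hlt)
    obtain ⟨i₃, h3, h3'⟩ : ∃ i₃ ∈ df (c a m) (c a (m + 1)), i₃ ∉ ({i₁, i₂} : Finset (Fin k)) := by
      by_contra hcon
      push Not at hcon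
      have := card_le_card (fun i hi => hcon i hi)
      have h4 : ({i₁, i₂} : Finset (Fin k)).card ≤ 2 := card_le_two
      omega
    rw [mem_inter] at h1 h2
    simp only [mem_insert, mem_singleton, not_or] at h3'
    obtain ⟨π, hπ, hsupp, C', R', hB'⟩ := hswap a m hm i₁ i₂ i₃ h12 (fun h => h3'.1 h.symm)
      (fun h => h3'.2 h.symm) h1.2 h2.2 h3
    exact no_swap' hd hk hJ hY hp hCR huniq (hNc (arm a) ▸ h1.1) (hNc (arm a) ▸ h2.1) hπ hsupp hB'
  -- so no diamond has three changes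
  have hH : ∀ a, ∀ m < la a, (df (c a m) (c a (m + 1))).card ≤ 2 := by
    intro a₀ m₀ hm₀
    by_contra hlt
    have h1 := two_d_le hJ hp hCR harm ht
    have h2 : ∑ a, (cl p (arm a) C R ∩ df (p (arm a)) t).card < 2 * d := by
      calc ∑ a, (cl p (arm a) C R ∩ df (p (arm a)) t).card
          ≤ ∑ a, ∑ m ∈ range (la a), (Nc d Y p (arm a) ∩ df (c a m) (c a (m + 1))).card := by
            refine sum_le_sum fun a _ => ?_
            rw [hch, ← hNc]
            exact card_inter_df_le _ _ _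
        _ < ∑ a, ∑ m ∈ range (la a), 2 := by
            refine sum_lt_sum (fun a _ => sum_le_sum fun m hm => hA a m (mem_range.1 hm))
              ⟨a₀, mem_univ _, ?_⟩
            refine sum_lt_sum (fun m hm => hA a₀ m (mem_range.1 hm))
              ⟨m₀, mem_range.2 hm₀, ?_⟩
            have := hG a₀ m₀ hm₀ (by omega)
            omega
        _ = 2 * ∑ a, la a := by simp [mul_sum, mul_comm]
        _ ≤ 2 * d := by omega
    omega
  -- count all changes
  have hI : ∑ a, (df (p (arm a)) t).card ≤ 2 * d := by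
    calc ∑ a, (df (p (arm a)) t).card
        ≤ ∑ a, ∑ m ∈ range (la a), (df (c a m) (c a (m + 1))).card := by
          refine sum_le_sum fun a _ => ?_
          have := card_inter_df_le (c a) (la a) univ
          simp only [univ_inter] at this
          rw [hch]
          exact this
      _ ≤ ∑ a, ∑ m ∈ range (la a), 2 :=
          sum_le_sum fun a _ => sum_le_sum fun m hm => hH a m (mem_range.1 hm)
      _ = 2 * ∑ a, la a := by simp [mul_sum, mul_comm]
      _ ≤ 2 * d := by omega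
  have hK : ∑ a, (df (p (arm a)) t).card =
      ∑ i : Fin k, (univ.filter fun a : Fin 3 => p (arm a) i ≠ t i).card := by
    simp only [df, card_filter]
    exact sum_comm
  have hne : ∀ i ∈ C, ∀ a b, a ≠ b → p (arm a) i ≠ p (arm b) i := fun i hi a b hab h =>
    hCR.blk.ne hJ (pi_gr hp) hi (fun h => hab (harm h)) (x := p (arm a) i) rfl h.symm
  have hL : ∀ i ∈ C, 2 ≤ (univ.filter fun a : Fin 3 => p (arm a) i ≠ t i).card := by
    intro i hi
    have h1 : (univ.filter fun a : Fin 3 => p (arm a) i = t i).card ≤ 1 := by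
      rw [card_le_one]
      intro a ha b hb
      by_contra hab
      exact hne i hi a b hab ((mem_filter.1 ha).2.trans (mem_filter.1 hb).2.symm)
    have h2 := card_filter_add_card_filter_not (s := (univ : Finset (Fin 3)))
      (fun a => p (arm a) i = t i)
    rw [card_univ, Fintype.card_fin] at h2
    have h3 : (univ.filter fun a : Fin 3 => ¬ p (arm a) i = t i) =
      univ.filter fun a : Fin 3 => p (arm a) i ≠ t i := rfl
    rw [h3] at h2
    omega
  have hM : 2 * C.card + ((univ \ C).filter fun i => ∃ a, p (arm a) i ≠ t i).card ≤ 2 * d := by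
    rw [hK] at hI
    refine le_trans ?_ hI
    rw [← sum_sdiff (subset_univ C), add_comm (2 * C.card)]
    refine add_le_add ?_ ?_
    · rw [card_filter]
      refine sum_le_sum fun i _ => ?_
      split_ifs with h
      · obtain ⟨a, ha⟩ := h
        exact card_pos.2 ⟨a, mem_filter.2 ⟨mem_univ _, ha⟩⟩
      · exact Nat.zero_le _
    · rw [mul_comm, ← smul_eq_mul, ← sum_const]
      exact sum_le_sum hL
  have hCd : C.card = d := by
    rcases hCR.blk.card with h | h <;> omega
  refine ⟨C, R, hCR, hCd, ?_⟩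
  ext i
  simp only [mem_filter, mem_univ, true_and]
  constructor
  · intro hi
    obtain ⟨a, ha⟩ := card_pos.1 (lt_of_lt_of_le Nat.zero_lt_two (hL i hi))
    exact ⟨a, (mem_filter.1 ha).2⟩
  · intro hi
    by_contra hiC
    have : 0 < ((univ \ C).filter fun i => ∃ a, p (arm a) i ≠ t i).card :=
      card_pos.2 ⟨i, mem_filter.2 ⟨mem_sdiff.2 ⟨mem_univ _, hiC⟩, hi⟩⟩
    omega

end Pool.Agent.MP_c07eba.KL
end

section
/-!
# The number of killed states, for a star of chains

`k = 2 d` (three short arms) and `k = 2 d - 1`.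
-/
namespace Pool.Agent.MP_c07eba.KL

open Finset Function

variable {k : ℕ}

/-! ### Permutations of the indices -/

theorem ncard_fix (C : Finset (Fin k)) :
    {σ : Equiv.Perm (Fin k) | ∀ i ∈ C, σ i = i}.ncard = (k - C.card).factorial := by
  have h1 : Nat.card {σ : Equiv.Perm (Fin k) // ∀ i, ¬ (i ∉ C) → σ i = i} =
      (k - C.card).factorial := by
    rw [Nat.card_congr (Equiv.Perm.subtypeEquivSubtypePerm fun i : Fin k => i ∉ C).symm,
      Nat.card_eq_fintype_card, Fintype.card_perm]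
    congr 1
    rw [Fintype.card_subtype_compl, Fintype.card_fin, Fintype.card_coe]
  rw [← h1, ← Nat.card_coe_set_eq]
  refine Nat.card_congr (Equiv.subtypeEquivRight fun σ => ?_)
  simp

theorem ncard_agree_le {A : Finset ℕ} (hA : A.card = k) (C : Finset (Fin k))
    {S : Set (Fin k → ℕ)} (hS : ∀ s ∈ S, IsState A s)
    (hag : ∀ s ∈ S, ∀ s' ∈ S, ∀ i ∈ C, s i = s' i) : S.ncard ≤ (k - C.card).factorial := by
  rcases S.eq_empty_or_nonempty with rfl | ⟨s₁, hs₁⟩
  · simp
  · rw [← ncard_fix C]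
    have hsub : S ⊆ (fun σ : Equiv.Perm (Fin k) => s₁ ∘ σ) '' {σ | ∀ i ∈ C, σ i = i} := by
      intro s hs
      obtain ⟨σ, hσ⟩ := (hS s₁ hs₁).exists_perm hA (hS s hs)
      refine ⟨σ, fun i hi => ?_, hσ.symm⟩
      apply (hS s₁ hs₁).inj
      have := hag s hs s₁ hs₁ i hi
      rw [hσ] at this
      exact this
    exact (Set.ncard_le_ncard hsub (Set.toFinite _)).trans (Set.ncard_image_le (Set.toFinite _))

/-! ### The two facts about diamonds -/

/-- Chains of diamonds can be coloured. -/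
def ChnExists (k : ℕ) : Prop :=
  ∀ (l : ℕ) (Q : ℕ → Fin (k - 1) → Finset ℕ) (B : ℕ → Finset ℕ) (A : Finset ℕ)
    (s : Fin k → ℕ), A.card = k → ListsOk k l Q B → IsState A s → ∃ c, IsChn l Q B c ∧ c 0 = s

/-- Three columns of a diamond can be permuted. -/
def DiaThree (k : ℕ) : Prop :=
  ∀ (A B : Finset ℕ) (Q : Fin (k - 1) → Finset ℕ) (s t : Fin k → ℕ), IsState A s → IsState B t →
    Dia Q s t → ∀ i₁ i₂ i₃ : Fin k, i₁ ≠ i₂ → i₁ ≠ i₃ → i₂ ≠ i₃ → s i₁ ≠ t i₁ → s i₂ ≠ t i₂ →
      s i₃ ≠ t i₃ → ∃ π : Equiv.Perm (Fin k), π ≠ 1 ∧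
        (∀ i, i ≠ i₁ → i ≠ i₂ → i ≠ i₃ → π i = i) ∧ Dia Q s (t ∘ π)

theorem IsChn.exists_isState {l : ℕ} {Q : ℕ → Fin (k - 1) → Finset ℕ} {B : ℕ → Finset ℕ}
    {c : ℕ → Fin k → ℕ} (h : IsChn l Q B c) {A : Finset ℕ} (h0 : IsState A (c 0)) {m : ℕ}
    (hm : m ≤ l) : ∃ A', IsState A' (c m) := by
  rcases m with _ | m
  · exact ⟨A, h0⟩
  · exact ⟨B m, h.st m hm⟩

theorem IsChn.swap {l : ℕ} {Q : ℕ → Fin (k - 1) → Finset ℕ} {B : ℕ → Finset ℕ}
    {c : ℕ → Fin k → ℕ} (h : IsChn l Q B c) {m : ℕ} {π : Equiv.Perm (Fin k)}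
    (hd : Dia (Q m) (c m) (c (m + 1) ∘ π)) :
    IsChn l Q B fun n => if n ≤ m then c n else c n ∘ π := by
  constructor
  · intro n hn
    split_ifs
    · exact h.st n hn
    · exact (h.st n hn).comp π
  · intro n hn
    by_cases h1 : n + 1 ≤ m
    · rw [if_pos h1, if_pos (by omega)]
      exact h.dia n hn
    · by_cases h2 : n ≤ m
      · have : n = m := by omega
        subst this
        rw [if_pos h2, if_neg h1]
        exact hd
      · rw [if_neg h1, if_neg h2]
        exact (h.dia n hn).comp π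

/-! ### Stars -/

variable {J M : ℕ}

theorem blocked_of_not_starOk {ar : Fin J → Bool × Fin (M + 1)} {Y : Finset ℕ}
    {Q : Fin J → ℕ → Fin (k - 1) → Finset ℕ} {B : Fin J → ℕ → Finset ℕ} {s t : Fin k → ℕ}
    (h : ¬ StarOk ar Y Q B s t) {c : Fin J → ℕ → Fin k → ℕ}
    (hc : ∀ j, IsChn (ar j).2 (Q j) (B j) (c j))
    (hc0 : ∀ j, c j 0 = if (ar j).1 then t else s) : Blocked Y fun j => c j (ar j).2 := by
  rintro ⟨y, hy, hyp⟩
  exact h ⟨fun j => c j (ar j).2, y, hy, fun j => ⟨⟨c j, hc j, hc0 j, rfl⟩, hyp j⟩⟩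

theorem starRow_even {d : ℕ} (hchn : ChnExists k) (hdia : DiaThree k) (hd : 3 ≤ d)
    (hk : k = 2 * d) (ar : Fin (d + 1) → Bool × Fin (M + 1)) (ju : Fin (d + 1))
    (hju : ∀ j, (ar j).1 = false ↔ j = ju) (arm : Fin 3 → Fin (d + 1)) (harm : Injective arm)
    (hau : ∀ a, arm a ≠ ju) (hla : ∑ a, ((ar (arm a)).2 : ℕ) ≤ d) {A A' Y : Finset ℕ}
    (hA : A.card = k) (hA' : A'.card = k) (hY : Y.card = k)
    {Q : Fin (d + 1) → ℕ → Fin (k - 1) → Finset ℕ} {B : Fin (d + 1) → ℕ → Finset ℕ}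
    (hok : ∀ j, ListsOk k (ar j).2 (Q j) (B j)) {t : Fin k → ℕ} (ht : IsState A' t) :
    {s : Fin k → ℕ | IsState A s ∧ ¬ StarOk ar Y Q B s t}.ncard ≤ (k - d).factorial := by
  classical
  obtain ⟨s₀, hs₀⟩ := exists_isState hA
  have hst : ∀ {s}, IsState A s → ∀ j, ∃ A'', A''.card = k ∧
      IsState A'' (if (ar j).1 then t else s) := by
    intro s hs j
    by_cases hj : (ar j).1
    · exact ⟨A', hA', by simpa [hj] using ht⟩
    · exact ⟨A, hA, by simpa [hj] using hs⟩
  -- one history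
  have hex : ∀ j, ∃ c, IsChn (ar j).2 (Q j) (B j) c ∧ c 0 = if (ar j).1 then t else s₀ := by
    intro j
    obtain ⟨A'', hA'', h⟩ := hst hs₀ j
    exact hchn _ _ _ A'' _ hA'' (hok j) h
  choose c hc hc0 using hex
  -- the history for another state of `u`
  let c' : Equiv.Perm (Fin k) → Fin (d + 1) → ℕ → Fin k → ℕ := fun σ j =>
    if j = ju then fun m => c j m ∘ σ else c j
  have hc' : ∀ σ j, IsChn (ar j).2 (Q j) (B j) (c' σ j) := by
    intro σ j
    simp only [c']
    split_ifs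
    · exact (hc j).comp σ
    · exact hc j
  have hc'0 : ∀ σ j, c' σ j 0 = if (ar j).1 then t else s₀ ∘ σ := by
    intro σ j
    by_cases hj : j = ju
    · have h1 : (ar j).1 = false := (hju j).2 hj
      have h2 := hc0 j
      rw [h1] at h2 ⊢
      simp only [c', if_pos hj, Bool.false_eq_true, if_false] at h2 ⊢
      rw [h2]
    · have h1 : (ar j).1 = true := by
        rw [← Bool.not_eq_false]
        exact fun h => hj ((hju j).1 h)
      have h2 := hc0 j
      rw [h1] at h2 ⊢
      simp only [c', if_neg hj, if_true] at h2 ⊢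
      exact h2
  let p : Equiv.Perm (Fin k) → Fin (d + 1) → Fin k → ℕ := fun σ j => c' σ j (ar j).2
  have hp : ∀ σ j, Injective (p σ j) := by
    intro σ j
    obtain ⟨A'', _, h⟩ := hst (hs₀.comp σ) j
    rw [← hc'0] at h
    obtain ⟨_, h'⟩ := (hc' σ j).exists_isState h le_rfl
    exact h'.inj
  have hpne : ∀ σ j, j ≠ ju → p σ j = c j (ar j).2 := by
    intro σ j hj
    simp only [p, c', if_neg hj]
  have hpju : ∀ σ, p σ ju = c ju (ar ju).2 ∘ σ := by
    intro σ
    simp only [p, c', if_true]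
  have hJ : Fintype.card (Fin (d + 1)) = d + 1 := Fintype.card_fin _
  -- the full rectangle of a killed state
  have key : ∀ σ : Equiv.Perm (Fin k), ¬ StarOk ar Y Q B (s₀ ∘ σ) t →
      ∃ C R, IsBlk d Y (p σ) C R ∧ C.card = d ∧
        C = univ.filter fun i => ∃ a, c (arm a) (ar (arm a)).2 i ≠ t i := by
    intro σ hσ
    have hswap : ∀ a, ∀ m < ((ar (arm a)).2 : ℕ), ∀ i₁ i₂ i₃ : Fin k, i₁ ≠ i₂ → i₁ ≠ i₃ →
        i₂ ≠ i₃ → i₁ ∈ df (c (arm a) m) (c (arm a) (m + 1)) →
        i₂ ∈ df (c (arm a) m) (c (arm a) (m + 1)) → i₃ ∈ df (c (arm a) m) (c (arm a) (m + 1)) →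
        ∃ π : Equiv.Perm (Fin k), π ≠ 1 ∧ (∀ i, i ≠ i₁ → i ≠ i₂ → i ≠ i₃ → π i = i) ∧
        ∃ C' R', IsBlk d Y (sw (p σ) (arm a) π) C' R' := by
      intro a m hm i₁ i₂ i₃ h12 h13 h23 h1 h2 h3
      have hja : arm a ≠ ju := hau a
      have h0 : ∃ A'', IsState A'' (c (arm a) 0) := by
        obtain ⟨A'', _, h⟩ := hst hs₀ (arm a)
        exact ⟨A'', by rw [hc0]; exact h⟩
      obtain ⟨A'', h0⟩ := h0
      obtain ⟨_, hs1⟩ := (hc (arm a)).exists_isState h0 hm.le
      obtain ⟨π, hπ, hsupp, hD⟩ := hdia _ _ _ _ _ hs1 ((hc (arm a)).st m hm)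
        ((hc (arm a)).dia m hm) i₁ i₂ i₃ h12 h13 h23 (mem_df.1 h1) (mem_df.1 h2) (mem_df.1 h3)
      refine ⟨π, hπ, hsupp, exists_isBlk hk hJ hY (sw_inj (hp σ) _ _) ?_⟩
      have hblk := blocked_of_not_starOk hσ
        (c := update (c' σ) (arm a) fun n => if n ≤ m then c (arm a) n else c (arm a) n ∘ π)
        (fun j => ?_) (fun j => ?_)
      · convert hblk using 1
        funext j
        by_cases hj : j = arm a
        · subst hj
          rw [sw, update_self, update_self, if_neg (by omega), hpne σ _ hja]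
        · rw [sw, update_of_ne hj, update_of_ne hj]
      · by_cases hj : j = arm a
        · subst hj
          rw [update_self]
          exact (hc (arm a)).swap hD
        · rw [update_of_ne hj]
          exact hc' σ j
      · by_cases hj : j = arm a
        · subst hj
          rw [update_self]
          simp only [Nat.zero_le, if_true]
          rw [← hc'0 σ (arm a)]
          simp only [c', if_neg hja]
        · rw [update_of_ne hj]
          exact hc'0 σ j
    obtain ⟨C, R, h1, h2, h3⟩ := even_core hd hk hJ hY (hp σ) harm ht.inj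
      (la := fun a => (ar (arm a)).2) hla (c := fun a => c (arm a)) (fun a => by
        rw [hc0]
        have : (ar (arm a)).1 = true := by
          rw [← Bool.not_eq_false]
          exact fun h => hau a ((hju _).1 h)
        rw [this]
        rfl) (fun a => (hpne σ _ (hau a)).symm)
      (exists_isBlk hk hJ hY (hp σ) (blocked_of_not_starOk hσ (hc' σ) (hc'0 σ))) hswap
    refine ⟨C, R, h1, h2, ?_⟩
    rw [h3]
    ext i
    simp only [hpne σ _ (hau _)]
  by_cases hemp : ∃ σ : Equiv.Perm (Fin k), ¬ StarOk ar Y Q B (s₀ ∘ σ) t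
  · obtain ⟨σ₁, hσ₁⟩ := hemp
    obtain ⟨C₁, R₁, _, hC₁, hC₁'⟩ := key σ₁ hσ₁
    have hfin : ∀ {S : Set (Fin k → ℕ)}, S.ncard ≤ (k - C₁.card).factorial →
        S.ncard ≤ (k - d).factorial := by
      intro S h
      rwa [hC₁] at h
    refine hfin (ncard_agree_le hA C₁ (fun s hs => hs.1) fun s hs s' hs' i hi => ?_)
    obtain ⟨σ, rfl⟩ := hs₀.exists_perm hA hs.1
    obtain ⟨σ', rfl⟩ := hs₀.exists_perm hA hs'.1
    obtain ⟨C, R, hB, hC, hCe⟩ := key σ hs.2
    obtain ⟨C', R', hB', hC', hCe'⟩ := key σ' hs'.2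
    obtain rfl : C = C₁ := by rw [hCe, hC₁']
    obtain rfl : C' = C := by rw [hCe, hCe']
    -- the rows
    have hRc : ∀ {R} {σ}, IsBlk d Y (p σ) C' R → R.card = d + 1 := by
      intro R σ hB
      rcases hB.blk.card with h | h <;> omega
    have hRsub : ∀ {R R'} {σ σ'}, IsBlk d Y (p σ) C' R → IsBlk d Y (p σ') C' R' → R ⊆ R' := by
      intro R R' σ σ' hB hB' x hx
      obtain ⟨j, i, hj, hi, hji⟩ : ∃ j i, j ≠ ju ∧ i ∈ C' ∧ p σ j i = x := by
        by_contra hcon
        push Not at hcon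
        have h2 : ∀ i ∈ C', p σ ju i = x := by
          intro i hi
          obtain ⟨j, hj⟩ := hB.blk.full i hi x hx
          by_cases hju : j = ju
          · exact hju ▸ hj
          · exact absurd hj (hcon j i hju hi)
        have h3 : C'.card ≤ 1 := by
          rw [card_le_one]
          intro i hi i' hi'
          exact hp σ ju ((h2 i hi).trans (h2 i' hi').symm)
        omega
      obtain ⟨x', hx', h4⟩ := (hB'.blk.full.col (pi_gr (hp σ')) ((hRc hB').trans hJ.symm) hi).1 j
      have h5 : p σ' j i = x' := h4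
      rw [hpne σ' j hj, ← hpne σ j hj, hji] at h5
      exact h5 ▸ hx'
    obtain rfl : R = R' := (hRsub hB hB').antisymm (hRsub hB' hB)
    obtain ⟨x, hx, h4⟩ := (hB.blk.full.col (pi_gr (hp σ)) ((hRc hB).trans hJ.symm) hi).1 ju
    have h5 : p σ ju i = x := h4
    obtain ⟨j, hj⟩ := hB'.blk.full i hi x hx
    have h6 : p σ' j i = x := hj
    have hjj : j = ju := by
      by_contra hne
      refine hne (hB.blk.uniq hJ (pi_gr (hp σ)) hi hx ?_ h4)
      show p σ j i = x
      rw [hpne σ j hne, ← hpne σ' j hne, h6]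
    subst hjj
    rw [← h5, hpju, hpju] at h6
    have h7 : Injective (c j (ar j).2) := by
      have := hp 1 j
      rw [hpju] at this
      simpa using this
    exact congrArg s₀ (h7 h6).symm
  · have : {s : Fin k → ℕ | IsState A s ∧ ¬ StarOk ar Y Q B s t} = ∅ := by
      rw [Set.eq_empty_iff_forall_notMem]
      rintro s ⟨hs, hs'⟩
      obtain ⟨σ, rfl⟩ := hs₀.exists_perm hA hs
      exact hemp ⟨σ, hs'⟩
    rw [this, Set.ncard_empty]
    exact Nat.zero_le _

/-! ### Odd `k` -/

/-- Two full squares for two families of maps which differ in one map are equal. -/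
theorem odd_uniq {I X J : Type*} [Fintype J] [DecidableEq I] [DecidableEq X] {d : ℕ}
    {P P' : J → I → X → Prop} {C C' : Finset I} {R R' : Finset X} {j₀ : J} (hd : 3 ≤ d)
    (hJ : Fintype.card J = d) (hP : ∀ j, PI (P j)) (hP' : ∀ j, PI (P' j))
    (hag : ∀ j, j ≠ j₀ → P j = P' j) (hf : Full P C R) (hf' : Full P' C' R') (hC : C.card = d)
    (hC' : C'.card = d) (hR : R.card = d) (hR' : R'.card = d) (hCC : (C ∪ C').card < 2 * d)
    (hRR : (R ∪ R').card < 2 * d) : C = C' ∧ R = R' := by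
  have hUC := card_union_add_card_inter C C'
  have hUR := card_union_add_card_inter R R'
  have ha : ∀ x, x ∈ R → x ∈ R' → ∀ i, i ∈ C → i ∉ C' → P j₀ i x := fun x hx hx' i hi hi' =>
    diff_col (P := fun j => tr (P j)) (P' := fun j => tr (P' j)) (fun j => (hP' j).tr)
      (fun j hj => by rw [hag j hj]) hf.tr hf'.tr (hC'.trans hJ.symm) hx hx' hi hi'
  have hb : ∀ i, i ∈ C → i ∈ C' → ∀ x, x ∈ R → x ∉ R' → P j₀ i x := fun i hi hi' x hx hx' =>
    diff_col hP' hag hf hf' (hR'.trans hJ.symm) hi hi' hx hx'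
  obtain ⟨x₁, hx₁⟩ : (R ∩ R').Nonempty := card_pos.1 (by omega)
  obtain ⟨i₁, hi₁⟩ : (C ∩ C').Nonempty := card_pos.1 (by omega)
  rw [mem_inter] at hx₁ hi₁
  have h1 : (C \ C').card ≤ 1 := by
    rw [card_le_one]
    intro i hi i' hi'
    rw [mem_sdiff] at hi hi'
    exact (hP _).inj (ha x₁ hx₁.1 hx₁.2 i hi.1 hi.2) (ha x₁ hx₁.1 hx₁.2 i' hi'.1 hi'.2)
  have h2 : (R \ R').card ≤ 1 := by
    rw [card_le_one]
    intro x hx x' hx'
    rw [mem_sdiff] at hx hx'
    exact (hP _).fn (hb i₁ hi₁.1 hi₁.2 x hx.1 hx.2) (hb i₁ hi₁.1 hi₁.2 x' hx'.1 hx'.2)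
  have h1' := card_sdiff_add_card_inter C C'
  have h2' := card_sdiff_add_card_inter R R'
  constructor
  · refine eq_of_subset_of_card_le (fun i hi => ?_) (by omega)
    by_contra hi'
    obtain ⟨x, hx, x', hx', hne⟩ := one_lt_card.1 (show 1 < (R ∩ R').card by omega)
    rw [mem_inter] at hx hx'
    exact hne ((hP _).fn (ha x hx.1 hx.2 i hi hi') (ha x' hx'.1 hx'.2 i hi hi'))
  · refine eq_of_subset_of_card_le (fun x hx => ?_) (by omega)
    by_contra hx'
    obtain ⟨i, hi, i', hi', hne⟩ := one_lt_card.1 (show 1 < (C ∩ C').card by omega)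
    rw [mem_inter] at hi hi'
    exact hne ((hP _).inj (hb i hi.1 hi.2 x hx hx') (hb i' hi'.1 hi'.2 x hx hx'))

theorem exists_square {J : Type*} [Fintype J] {d : ℕ} (hk : k + 1 = 2 * d)
    (hJ : Fintype.card J = d) {Y : Finset ℕ}
    (hY : Y.card = k) {p : J → Fin k → ℕ} (hp : ∀ j, Injective (p j)) (h : Blocked Y p) :
    ∃ (C : Finset (Fin k)) (R : Finset ℕ), R ⊆ Y ∧ C.card = d ∧ R.card = d ∧
      Full (gr p) C R := by
  obtain ⟨C, R, hRY, hc, hf⟩ := h.exists_full hY
  have h1 : R.card ≤ k := hY ▸ card_le_card hRY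
  have h2 : C.card ≤ k := by simpa using card_le_univ C
  obtain ⟨i, hi⟩ : C.Nonempty := card_pos.1 (by omega)
  obtain ⟨x, hx⟩ : R.Nonempty := card_pos.1 (by omega)
  have h3 := hf.card_le (pi_gr hp) hi
  have h4 := hf.tr.card_le (fun j => (pi_gr hp j).tr) hx
  exact ⟨C, R, hRY, by omega, by omega, hf⟩

theorem starRow_odd {d : ℕ} (hchn : ChnExists k) (hd : 3 ≤ d)
    (hk : k + 1 = 2 * d) (ar : Fin d → Bool × Fin (M + 1)) (ju : Fin d)
    (hju : ∀ j, (ar j).1 = false ↔ j = ju) {A A' Y : Finset ℕ}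
    (hA : A.card = k) (hA' : A'.card = k) (hY : Y.card = k)
    {Q : Fin d → ℕ → Fin (k - 1) → Finset ℕ} {B : Fin d → ℕ → Finset ℕ}
    (hok : ∀ j, ListsOk k (ar j).2 (Q j) (B j)) {t : Fin k → ℕ} (ht : IsState A' t) :
    {s : Fin k → ℕ | IsState A s ∧ ¬ StarOk ar Y Q B s t}.ncard ≤ (k - d).factorial := by
  classical
  obtain ⟨s₀, hs₀⟩ := exists_isState hA
  have hst : ∀ {s}, IsState A s → ∀ j, ∃ A'', A''.card = k ∧
      IsState A'' (if (ar j).1 then t else s) := by
    intro s hs j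
    by_cases hj : (ar j).1
    · exact ⟨A', hA', by simpa [hj] using ht⟩
    · exact ⟨A, hA, by simpa [hj] using hs⟩
  -- one history
  have hex : ∀ j, ∃ c, IsChn (ar j).2 (Q j) (B j) c ∧ c 0 = if (ar j).1 then t else s₀ := by
    intro j
    obtain ⟨A'', hA'', h⟩ := hst hs₀ j
    exact hchn _ _ _ A'' _ hA'' (hok j) h
  choose c hc hc0 using hex
  -- the history for another state of `u`
  let c' : Equiv.Perm (Fin k) → Fin d → ℕ → Fin k → ℕ := fun σ j =>
    if j = ju then fun m => c j m ∘ σ else c j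
  have hc' : ∀ σ j, IsChn (ar j).2 (Q j) (B j) (c' σ j) := by
    intro σ j
    simp only [c']
    split_ifs
    · exact (hc j).comp σ
    · exact hc j
  have hc'0 : ∀ σ j, c' σ j 0 = if (ar j).1 then t else s₀ ∘ σ := by
    intro σ j
    by_cases hj : j = ju
    · have h1 : (ar j).1 = false := (hju j).2 hj
      have h2 := hc0 j
      rw [h1] at h2 ⊢
      simp only [c', if_pos hj, Bool.false_eq_true, if_false] at h2 ⊢
      rw [h2]
    · have h1 : (ar j).1 = true := by
        rw [← Bool.not_eq_false]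
        exact fun h => hj ((hju j).1 h)
      have h2 := hc0 j
      rw [h1] at h2 ⊢
      simp only [c', if_neg hj, if_true] at h2 ⊢
      exact h2
  let p : Equiv.Perm (Fin k) → Fin d → Fin k → ℕ := fun σ j => c' σ j (ar j).2
  have hp : ∀ σ j, Injective (p σ j) := by
    intro σ j
    obtain ⟨A'', _, h⟩ := hst (hs₀.comp σ) j
    rw [← hc'0] at h
    obtain ⟨_, h'⟩ := (hc' σ j).exists_isState h le_rfl
    exact h'.inj
  have hpne : ∀ σ j, j ≠ ju → p σ j = c j (ar j).2 := by
    intro σ j hj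
    simp only [p, c', if_neg hj]
  have hpju : ∀ σ, p σ ju = c ju (ar ju).2 ∘ σ := by
    intro σ
    simp only [p, c', if_true]
  have hJ : Fintype.card (Fin d) = d := Fintype.card_fin _
  have hagr : ∀ σ σ' j, j ≠ ju → gr (p σ) j = gr (p σ') j := by
    intro σ σ' j hj
    funext i x
    simp only [gr, hpne _ j hj]
  -- the full rectangle of a killed state
  have key : ∀ σ : Equiv.Perm (Fin k), ¬ StarOk ar Y Q B (s₀ ∘ σ) t →
      ∃ (C : Finset (Fin k)) (R : Finset ℕ), R ⊆ Y ∧ C.card = d ∧ R.card = d ∧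
        Full (gr (p σ)) C R := fun σ hσ =>
    exists_square hk hJ hY (hp σ) (blocked_of_not_starOk hσ (hc' σ) (hc'0 σ))
  by_cases hemp : ∃ σ : Equiv.Perm (Fin k), ¬ StarOk ar Y Q B (s₀ ∘ σ) t
  · obtain ⟨σ₁, hσ₁⟩ := hemp
    obtain ⟨C₁, R₁, hR₁Y, hC₁, hR₁, hf₁⟩ := key σ₁ hσ₁
    have hfin : ∀ {S : Set (Fin k → ℕ)}, S.ncard ≤ (k - C₁.card).factorial →
        S.ncard ≤ (k - d).factorial := by
      intro S h
      rwa [hC₁] at h
    -- all full squares are equal
    have key' : ∀ σ : Equiv.Perm (Fin k), ¬ StarOk ar Y Q B (s₀ ∘ σ) t →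
        Full (gr (p σ)) C₁ R₁ := by
      intro σ hσ
      obtain ⟨C, R, hRY, hC, hR, hf⟩ := key σ hσ
      have hCC : (C ∪ C₁).card < 2 * d := by
        have := card_le_univ (C ∪ C₁)
        rw [Fintype.card_fin] at this
        omega
      have hRR : (R ∪ R₁).card < 2 * d := by
        have := card_le_card (union_subset hRY hR₁Y)
        omega
      obtain ⟨rfl, rfl⟩ := odd_uniq (j₀ := ju) hd hJ (pi_gr (hp σ)) (pi_gr (hp σ₁))
        (hagr σ σ₁) hf hf₁ hC hC₁ hR hR₁ hCC hRR
      exact hf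
    refine hfin (ncard_agree_le hA C₁ (fun s hs => hs.1) fun s hs s' hs' i hi => ?_)
    obtain ⟨σ, rfl⟩ := hs₀.exists_perm hA hs.1
    obtain ⟨σ', rfl⟩ := hs₀.exists_perm hA hs'.1
    have hB := key' σ hs.2
    have hB' := key' σ' hs'.2
    obtain ⟨x, hx, h4⟩ := (hB.col (pi_gr (hp σ)) (hR₁.trans hJ.symm) hi).1 ju
    have h5 : p σ ju i = x := h4
    obtain ⟨j, hj⟩ := hB' i hi x hx
    have h6 : p σ' j i = x := hj
    have hjj : j = ju := by
      by_contra hne
      refine hne ((hB.col (pi_gr (hp σ)) (hR₁.trans hJ.symm) hi).2 x hx j ju ?_ h4)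
      show p σ j i = x
      rw [hpne σ j hne, ← hpne σ' j hne, h6]
    subst hjj
    rw [← h5, hpju, hpju] at h6
    have h7 : Injective (c j (ar j).2) := by
      have := hp 1 j
      rw [hpju] at this
      simpa using this
    exact congrArg s₀ (h7 h6).symm
  · have : {s : Fin k → ℕ | IsState A s ∧ ¬ StarOk ar Y Q B s t} = ∅ := by
      rw [Set.eq_empty_iff_forall_notMem]
      rintro s ⟨hs, hs'⟩
      obtain ⟨σ, rfl⟩ := hs₀.exists_perm hA hs
      exact hemp ⟨σ, hs'⟩
    rw [this, Set.ncard_empty]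
    exact Nat.zero_le _

end Pool.Agent.MP_c07eba.KL
end
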