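import Pool.Agent.Lib.MP_c07eba_lc.Four

/-!
# Changing three columns of a diamond
-/

namespace Pool.Agent.MP_c07eba.KL

open Finset Function

namespace Three

section core

variable {X Y : Type*} [Fintype X] [DecidableEq X] [Fintype Y] [DecidableEq Y]

/-- the colours available to the rows in `A` -/
def NN (F : Fin 3 → X ≃ Y) (A : Finset X) : Finset Y :=
  A.biUnion fun x => univ.image fun l => F l x

theorem mem_NN (F : Fin 3 → X ≃ Y) {A : Finset X} {x : X} (hx : x ∈ A) (l : Fin 3) :
    F l x ∈ NN F A :=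
  mem_biUnion.2 ⟨x, hx, mem_image.2 ⟨l, mem_univ _, rfl⟩⟩

theorem NN_union (F : Fin 3 → X ≃ Y) (A A' : Finset X) : NN F (A ∪ A') = NN F A ∪ NN F A' := by
  unfold NN
  exact union_biUnion

theorem uncross (F : Fin 3 → X ≃ Y) {A A' : Finset X} {Z Z' : Finset Y} (hA : NN F A ⊆ Z)
    (hA' : NN F A' ⊆ Z') (z : X) (l : Fin 3) (hz : z ∉ A) (h : F l z ∈ Z) (h' : F l z ∈ Z')
    (hc : Z.card ≤ A.card + 1) (hc' : Z'.card ≤ A'.card + 1) :
    (Z ∪ Z').card ≤ (A ∪ A').card + 1 := by
  have h1 : (insert z (A ∩ A')).image (F l) ⊆ Z ∩ Z' := by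
    intro y hy
    obtain ⟨x, hx, rfl⟩ := mem_image.1 hy
    rcases mem_insert.1 hx with rfl | hx
    · exact mem_inter.2 ⟨h, h'⟩
    · rw [mem_inter] at hx
      exact mem_inter.2 ⟨hA (mem_NN F hx.1 l), hA' (mem_NN F hx.2 l)⟩
  have h2 := card_le_card h1
  rw [card_image_of_injective _ (F l).injective, card_insert_of_notMem (by
    intro hh; exact hz (mem_inter.1 hh).1)] at h2
  have h3 := card_union_add_card_inter Z Z'
  have h4 := card_union_add_card_inter A A'
  omega

theorem blocked (F : Fin 3 → X ≃ Y) {a b : X} (hab : a ≠ b)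
    (hno : ∀ c : X → Fin 3, c a ≠ c b → ¬ Injective fun x => F (c x) x) {i j : Fin 3}
    (hij : i ≠ j) : ∃ (A : Finset X) (Z : Finset Y), a ∉ A ∧ b ∉ A ∧ NN F A ⊆ Z ∧ F i a ∈ Z ∧
      F j b ∈ Z ∧ Z.card ≤ A.card + 1 := by
  classical
  by_cases he : F i a = F j b
  · exact ⟨∅, {F i a}, by simp, by simp, by simp [NN], by simp, by simp [he], by simp⟩
  set t : {x : X // x ≠ a ∧ x ≠ b} → Finset Y := fun x =>
    (univ.image fun l => F l x.1) \ {F i a, F j b} with ht
  by_cases hH : ∀ s : Finset {x : X // x ≠ a ∧ x ≠ b}, s.card ≤ (s.biUnion t).card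
  · exfalso
    obtain ⟨g, hg, hgt⟩ := (all_card_le_biUnion_card_iff_exists_injective t).1 hH
    have hl : ∀ x : {x : X // x ≠ a ∧ x ≠ b}, ∃ l, F l x.1 = g x ∧ g x ≠ F i a ∧ g x ≠ F j b := by
      intro x
      have := hgt x
      simp only [ht, mem_sdiff, mem_image, mem_univ, true_and, mem_insert, mem_singleton,
        not_or] at this
      obtain ⟨⟨l, hl⟩, h1, h2⟩ := this
      exact ⟨l, hl, h1, h2⟩
    choose c0 hc0 using hl
    set c : X → Fin 3 := fun x => if h : x ≠ a ∧ x ≠ b then c0 ⟨x, h⟩ else if x = a then i else j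
      with hc
    have ca : c a = i := by simp [hc]
    have cb : c b = j := by simp [hc, hab.symm]
    have cx : ∀ (x : X) (h : x ≠ a ∧ x ≠ b), F (c x) x = g ⟨x, h⟩ := by
      intro x h
      simp only [hc, dif_pos h]
      exact (hc0 ⟨x, h⟩).1
    refine hno c (by rw [ca, cb]; exact hij) ?_
    intro x x' hxx
    simp only at hxx
    by_cases hx : x ≠ a ∧ x ≠ b
    · by_cases hx' : x' ≠ a ∧ x' ≠ b
      · rw [cx x hx, cx x' hx'] at hxx
        exact congrArg Subtype.val (hg hxx)
      · exfalso
        rw [cx x hx] at hxx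
        have h3 := (hc0 ⟨x, hx⟩).2
        by_cases hxa : x' = a
        · subst hxa; rw [ca] at hxx; exact h3.1 hxx
        · have hxb : x' = b := by
            by_contra hh; exact hx' ⟨hxa, hh⟩
          subst hxb; rw [cb] at hxx; exact h3.2 hxx
    · by_cases hx' : x' ≠ a ∧ x' ≠ b
      · exfalso
        rw [cx x' hx'] at hxx
        have h3 := (hc0 ⟨x', hx'⟩).2
        by_cases hxa : x = a
        · subst hxa; rw [ca] at hxx; exact h3.1 hxx.symm
        · have hxb : x = b := by
            by_contra hh; exact hx ⟨hxa, hh⟩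
          subst hxb; rw [cb] at hxx; exact h3.2 hxx.symm
      · by_cases hxa : x = a
        · by_cases hxa' : x' = a
          · rw [hxa, hxa']
          · exfalso
            have hxb : x' = b := by
              by_contra hh; exact hx' ⟨hxa', hh⟩
            subst hxa hxb; rw [ca, cb] at hxx; exact he hxx
        · have hxb : x = b := by
            by_contra hh; exact hx ⟨hxa, hh⟩
          by_cases hxa' : x' = a
          · exfalso
            subst hxa' hxb; rw [ca, cb] at hxx; exact he hxx.symm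
          · have hxb' : x' = b := by
              by_contra hh; exact hx' ⟨hxa', hh⟩
            rw [hxb, hxb']
  · push Not at hH
    obtain ⟨s, hs⟩ := hH
    refine ⟨s.map ⟨Subtype.val, Subtype.val_injective⟩, NN F (s.map ⟨Subtype.val,
      Subtype.val_injective⟩) ∪ {F i a, F j b}, ?_, ?_, subset_union_left, ?_, ?_, ?_⟩
    · simp
    · simp
    · simp
    · simp
    · rw [card_map]
      have h1 : NN F (s.map ⟨Subtype.val, Subtype.val_injective⟩) ∪ {F i a, F j b} ⊆
          s.biUnion t ∪ {F i a, F j b} := by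
        intro y hy
        rw [mem_union] at hy ⊢
        by_cases hy2 : y ∈ ({F i a, F j b} : Finset Y)
        · exact Or.inr hy2
        · left
          rcases hy with hy | hy
          · obtain ⟨x, hx, hyx⟩ := mem_biUnion.1 hy
            obtain ⟨x', hx', rfl⟩ := mem_map.1 hx
            exact mem_biUnion.2 ⟨x', hx', mem_sdiff.2 ⟨hyx, hy2⟩⟩
          · exact absurd hy hy2
      have h2 := card_le_card h1
      have h3 := card_union_le (s.biUnion t) {F i a, F j b}
      have h4 : ({F i a, F j b} : Finset Y).card ≤ 2 := card_le_two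
      omega

/-- the first matching -/
theorem first (F : Fin 3 → X ≃ Y) {a b : X} (hab : a ≠ b) :
    ∃ c : X → Fin 3, c a ≠ c b ∧ Injective fun x => F (c x) x := by
  by_contra hcon
  push Not at hcon
  obtain ⟨A1, Z1, a1, b1, n1, p1, q1, c1⟩ := blocked F hab hcon (show (0 : Fin 3) ≠ 1 by decide)
  obtain ⟨A2, Z2, a2, b2, n2, p2, q2, c2⟩ := blocked F hab hcon (show (0 : Fin 3) ≠ 2 by decide)
  obtain ⟨A3, Z3, a3, b3, n3, p3, q3, c3⟩ := blocked F hab hcon (show (1 : Fin 3) ≠ 0 by decide)
  obtain ⟨A4, Z4, a4, b4, n4, p4, q4, c4⟩ := blocked F hab hcon (show (1 : Fin 3) ≠ 2 by decide)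
  have u1 := uncross F n1 n2 a 0 a1 p1 p2 c1 c2
  have u2 := uncross F n3 n4 a 1 a3 p3 p4 c3 c4
  have m1 : NN F (A1 ∪ A2) ⊆ Z1 ∪ Z2 := by
    rw [NN_union]; exact union_subset_union n1 n2
  have m2 : NN F (A3 ∪ A4) ⊆ Z3 ∪ Z4 := by
    rw [NN_union]; exact union_subset_union n3 n4
  have u3 := uncross F m1 m2 b 2 (by simp [b1, b2]) (mem_union_right _ q2) (mem_union_right _ q4)
    u1 u2
  have m3 : NN F ((A1 ∪ A2) ∪ (A3 ∪ A4)) ⊆ (Z1 ∪ Z2) ∪ (Z3 ∪ Z4) := by
    rw [NN_union]; exact union_subset_union m1 m2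
  set A := (A1 ∪ A2) ∪ (A3 ∪ A4) with hA
  set Z := (Z1 ∪ Z2) ∪ (Z3 ∪ Z4) with hZ
  have haA : a ∉ A := by simp [hA, a1, a2, a3, a4]
  have hbA : b ∉ A := by simp [hA, b1, b2, b3, b4]
  have h1 : (insert a (insert b A)).image (F 0) ⊆ Z := by
    intro y hy
    obtain ⟨x, hx, rfl⟩ := mem_image.1 hy
    rcases mem_insert.1 hx with rfl | hx
    · exact mem_union_left _ (mem_union_left _ p1)
    · rcases mem_insert.1 hx with rfl | hx
      · exact mem_union_right _ (mem_union_left _ q3)
      · exact m3 (mem_NN F hx 0)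
  have h2 := card_le_card h1
  rw [card_image_of_injective _ (F 0).injective, card_insert_of_notMem (by
    simp only [mem_insert, not_or]; exact ⟨hab, haA⟩), card_insert_of_notMem hbA] at h2
  omega

/-- the second matching -/
theorem second (F : Fin 3 → X ≃ Y) (c : X → Fin 3) (hc : Injective fun x => F (c x) x) :
    ∃ c' : X → Fin 3, (∀ x, c' x ≠ c x) ∧ Injective fun x => F (c' x) x := by
  classical
  have hcard : Fintype.card X = Fintype.card Y := Fintype.card_congr (F 0)
  have hbij : Bijective fun x => F (c x) x :=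
    (Fintype.bijective_iff_injective_and_card _).2 ⟨hc, hcard⟩
  set t : X → Finset Y := fun x => (univ.filter (fun l => l ≠ c x)).image fun l => F l x with ht
  have hH : ∀ s : Finset X, s.card ≤ (s.biUnion t).card := by
    intro s
    set P : Finset (Σ _ : X, Fin 3) := s.sigma fun x => univ.erase (c x) with hP
    have h1 : P.card ≤ 2 * (s.biUnion t).card := by
      refine card_le_mul_card_image_of_maps_to (f := fun p : (Σ _ : X, Fin 3) => F p.2 p.1) ?_ 2 ?_
      · rintro ⟨x, l⟩ hp
        obtain ⟨h5, h6⟩ := mem_sigma.1 hp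
        exact mem_biUnion.2 ⟨x, h5, mem_image.2 ⟨l, mem_filter.2 ⟨mem_univ _,
          (mem_erase.1 h6).1⟩, rfl⟩⟩
      · intro y _
        obtain ⟨x0, hx0⟩ := hbij.2 y
        simp only at hx0
        have h2 : ((P.filter fun p => F p.2 p.1 = y).image Sigma.snd) ⊆ univ.erase (c x0) := by
          intro l hl
          obtain ⟨⟨x, l'⟩, hp, rfl⟩ := mem_image.1 hl
          obtain ⟨hp1, hp2⟩ := mem_filter.1 hp
          obtain ⟨h5, h6⟩ := mem_sigma.1 hp1
          refine mem_erase.2 ⟨?_, mem_univ _⟩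
          intro hll
          simp only at hll hp2 h6
          have h3 : F (c x0) x = F (c x0) x0 := by rw [hx0, ← hp2, hll]
          have h4 := (F (c x0)).injective h3
          exact (mem_erase.1 h6).1 (by rw [hll, h4])
        have h3 : Set.InjOn (Sigma.snd : (Σ _ : X, Fin 3) → Fin 3)
            ((P.filter fun p => F p.2 p.1 = y : Finset (Σ _ : X, Fin 3)) :
            Set (Σ _ : X, Fin 3)) := by
          rintro ⟨x, l⟩ hp ⟨x', l'⟩ hp' hll
          have hp1 := (mem_filter.1 (mem_coe.1 hp)).2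
          have hp2 := (mem_filter.1 (mem_coe.1 hp')).2
          simp only at hp1 hp2 hll
          subst hll
          have := (F l).injective (hp1.trans hp2.symm)
          rw [this]
        have h4 := card_le_card h2
        rw [card_image_of_injOn h3, card_erase_of_mem (mem_univ _), card_univ,
          Fintype.card_fin] at h4
        omega
    have h2 : P.card = 2 * s.card := by
      rw [hP, card_sigma]
      simp only [card_erase_of_mem (mem_univ _), card_univ, Fintype.card_fin, sum_const,
        smul_eq_mul]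
      omega
    omega
  obtain ⟨g, hg, hgt⟩ := (all_card_le_biUnion_card_iff_exists_injective t).1 hH
  have hl : ∀ x, ∃ l, l ≠ c x ∧ F l x = g x := by
    intro x
    have := hgt x
    simp only [ht, mem_image, mem_filter, mem_univ, true_and] at this
    exact this
  choose c' hc' using hl
  refine ⟨c', fun x => (hc' x).1, ?_⟩
  intro x x' h
  simp only [(hc' _).2] at h
  exact hg h

/-- the three matchings -/
theorem matchings (F : Fin 3 → X ≃ Y) {a b : X} (hab : a ≠ b) :
    ∃ ρ : X → Equiv.Perm (Fin 3), ρ a = 1 ∧ ρ b ≠ 1 ∧ ∀ l, Injective fun x => F (ρ x l) x := by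
  classical
  obtain ⟨c, hcab, hc⟩ := first F hab
  obtain ⟨c', hcc, hc'⟩ := second F c hc
  have h3 : ∀ x, ∃ l, l ≠ c x ∧ l ≠ c' x := by
    intro x
    have : ∀ p q : Fin 3, ∃ l, l ≠ p ∧ l ≠ q := by decide
    exact this _ _
  choose c'' hc'' using h3
  have hcard : Fintype.card X = Fintype.card Y := Fintype.card_congr (F 0)
  have hbij : Bijective fun x => F (c x) x :=
    (Fintype.bijective_iff_injective_and_card _).2 ⟨hc, hcard⟩
  have hbij' : Bijective fun x => F (c' x) x :=
    (Fintype.bijective_iff_injective_and_card _).2 ⟨hc', hcard⟩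
  have hinj'' : Injective fun x => F (c'' x) x := by
    intro x1 x2 h
    simp only at h
    by_contra hne
    obtain ⟨x0, hx0⟩ := hbij.2 (F (c'' x1) x1)
    obtain ⟨x0', hx0'⟩ := hbij'.2 (F (c'' x1) x1)
    simp only at hx0 hx0'
    have e1 : c x0 ≠ c' x0' := by
      intro he
      have h5 : F (c x0) x0 = F (c x0) x0' := by rw [hx0, he, hx0']
      have h6 := (F (c x0)).injective h5
      rw [← h6] at he
      exact hcc x0 he.symm
    have e2 : c x0 ≠ c'' x1 := by
      intro he
      rw [he] at hx0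
      have h6 := (F (c'' x1)).injective hx0
      rw [h6] at he
      exact (hc'' x1).1 he.symm
    have e3 : c x0 ≠ c'' x2 := by
      intro he
      rw [he, h] at hx0
      have h6 := (F (c'' x2)).injective hx0
      rw [h6] at he
      exact (hc'' x2).1 he.symm
    have e4 : c' x0' ≠ c'' x1 := by
      intro he
      rw [he] at hx0'
      have h6 := (F (c'' x1)).injective hx0'
      rw [h6] at he
      exact (hc'' x1).2 he.symm
    have e5 : c' x0' ≠ c'' x2 := by
      intro he
      rw [he, h] at hx0'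
      have h6 := (F (c'' x2)).injective hx0'
      rw [h6] at he
      exact (hc'' x2).2 he.symm
    have e6 : c'' x1 ≠ c'' x2 := by
      intro he
      rw [he] at h
      exact hne ((F (c'' x2)).injective h)
    omega
  set τ : X → Fin 3 → Fin 3 := fun x => ![c x, c' x, c'' x] with hτ
  have hτi : ∀ x, Injective (τ x) := by
    intro x
    have hdec : ∀ p q r : Fin 3, q ≠ p → r ≠ p → r ≠ q → Injective ![p, q, r] := by decide
    exact hdec _ _ _ (hcc x) (hc'' x).1 (hc'' x).2
  set σ : X → Equiv.Perm (Fin 3) := fun x =>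
    Equiv.ofBijective (τ x) (Finite.injective_iff_bijective.1 (hτi x)) with hσ
  have hσi : ∀ l, Injective fun x => F (σ x l) x := by
    intro l
    have : (fun x => F (σ x l) x) = fun x => F (![c x, c' x, c'' x] l) x := rfl
    rw [this]
    fin_cases l
    · exact hc
    · exact hc'
    · exact hinj''
  refine ⟨fun x => σ x * (σ a)⁻¹, by simp, ?_, ?_⟩
  · intro h
    have h1 : σ b = σ a := by rwa [mul_inv_eq_one] at h
    have h2 : σ b 0 = σ a 0 := by rw [h1]
    exact hcab (show σ a 0 = σ b 0 from h2.symm)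
  · intro l
    exact hσi ((σ a)⁻¹ l)

/-- the version for injections -/
theorem rows {R : Type*} [Fintype R] [DecidableEq R] (f : Fin 3 → R → ℕ)
    (hf : ∀ l, Injective (f l)) {a b : R} (hab : a ≠ b) :
    ∃ ρ : R → Equiv.Perm (Fin 3), ρ a = 1 ∧ ρ b ≠ 1 ∧ ∀ l, Injective fun x => f (ρ x l) x := by
  classical
  set C : Finset ℕ := univ.biUnion fun l => univ.image (f l) with hC
  have hsub : ∀ l, univ.image (f l) ⊆ C := fun l => subset_biUnion_of_mem (fun l => univ.image (f l)) (mem_univ l)
  have hle : Fintype.card R ≤ C.card := by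
    have := card_le_card (hsub 0)
    rwa [card_image_of_injective _ (hf 0), card_univ] at this
  set d := C.card - Fintype.card R with hd
  have hcard : Fintype.card (R ⊕ Fin d) = C.card := by
    rw [Fintype.card_sum, Fintype.card_fin]; omega
  have hex : ∀ l, ∃ g : (R ⊕ Fin d) ≃ C, ∀ r : R, (g (Sum.inl r) : ℕ) = f l r := by
    intro l
    obtain ⟨g, hg⟩ := exists_equiv_extend_of_card_eq (t := C) hcard
      (s := univ.image (Sum.inl : R → R ⊕ Fin d)) (f := Sum.elim (f l) fun _ => 0) (by
        intro y hy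
        obtain ⟨x, hx, rfl⟩ := mem_image.1 hy
        obtain ⟨r, _, rfl⟩ := mem_image.1 hx
        exact hsub l (mem_image.2 ⟨r, mem_univ _, rfl⟩)) (by
        intro x hx x' hx' h
        simp only [coe_image, coe_univ, Set.image_univ, Set.mem_range] at hx hx'
        obtain ⟨r, rfl⟩ := hx
        obtain ⟨r', rfl⟩ := hx'
        simp only [Sum.elim_inl] at h
        rw [hf l h])
    refine ⟨g, fun r => ?_⟩
    exact hg _ (mem_image.2 ⟨r, mem_univ _, rfl⟩)
  choose F hF using hex
  obtain ⟨ρ, h1, h2, h3⟩ := matchings F (a := Sum.inl a) (b := Sum.inl b) (by simpa using hab)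
  refine ⟨fun x => ρ (Sum.inl x), h1, h2, fun l x x' h => ?_⟩
  simp only at h
  have h4 : F (ρ (Sum.inl x) l) (Sum.inl x) = F (ρ (Sum.inl x') l) (Sum.inl x') := by
    apply Subtype.ext
    rw [hF, hF]
    exact h
  exact Sum.inl_injective (h3 l h4)

end core

end Three

/-- If three columns of a diamond are not constant, then the state of the second end can be
changed by a nontrivial permutation of these three columns. -/
theorem Dia.swap3 {k : ℕ} {Q : Fin (k - 1) → Finset ℕ} {s t : Fin k → ℕ} (hs : Injective s)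
    (ht : Injective t) (h : Dia Q s t) {i1 i2 i3 : Fin k} (h12 : i1 ≠ i2) (h13 : i1 ≠ i3)
    (h23 : i2 ≠ i3) (n1 : s i1 ≠ t i1) (n2 : s i2 ≠ t i2) (n3 : s i3 ≠ t i3) :
    ∃ π : Equiv.Perm (Fin k), π ≠ 1 ∧ (∀ i, i ≠ i1 → i ≠ i2 → i ≠ i3 → π i = i) ∧
      Dia Q s (t ∘ π) := by
  classical
  obtain ⟨q, hq1, hq2, hq3⟩ := h
  set e : Fin 3 → Fin k := ![i1, i2, i3] with he
  have hei : Injective e := by
    intro l l' hl
    fin_cases l <;> fin_cases l' <;> simp_all [e]
  have hne : ∀ l, s (e l) ≠ t (e l) := by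
    intro l
    fin_cases l
    · exact n1
    · exact n2
    · exact n3
  -- the rows
  set f : Fin 3 → Option (Option (Fin (k - 1))) → ℕ := fun l r =>
    match r with
    | none => s (e l)
    | some none => t (e l)
    | some (some j) => q j (e l) with hf
  have hfi : ∀ l, Injective (f l) := by
    intro l
    rintro (_ | _ | j) (_ | _ | j') hr
    · rfl
    · exact absurd hr (hne l)
    · exact absurd hr.symm (hq3 j' (e l)).1
    · exact absurd hr.symm (hne l)
    · rfl
    · exact absurd hr.symm (hq3 j' (e l)).2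
    · exact absurd hr (hq3 j (e l)).1
    · exact absurd hr (hq3 j (e l)).2
    · by_contra hjj
      have : j ≠ j' := fun h => hjj (by rw [h])
      exact hq2 j j' this (e l) hr
  obtain ⟨ρ, hρa, hρb, hρ⟩ := Three.rows f hfi (a := none) (b := some none) (by simp)
  set ι : Fin 3 ↪ Fin k := ⟨e, hei⟩ with hι
  have hva : ∀ (σ : Equiv.Perm (Fin 3)) (l : Fin 3), σ.viaEmbedding ι (e l) = e (σ l) :=
    fun σ l => Equiv.Perm.viaEmbedding_apply σ ι l
  have hvn : ∀ (σ : Equiv.Perm (Fin 3)) (i : Fin k), i ∉ Set.range e → σ.viaEmbedding ι i = i :=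
    fun σ i hi => Equiv.Perm.viaEmbedding_apply_of_notMem σ ι i hi
  refine ⟨(ρ (some none)).viaEmbedding ι, ?_, ?_, ?_⟩
  · intro h1
    apply hρb
    ext l
    have h2 := hva (ρ (some none)) l
    rw [h1, Equiv.Perm.one_apply] at h2
    rw [Equiv.Perm.one_apply, ← hei h2]
  · intro i h1 h2 h3
    apply hvn
    rintro ⟨l, rfl⟩
    fin_cases l
    · exact h1 rfl
    · exact h2 rfl
    · exact h3 rfl
  · refine ⟨fun j => q j ∘ (ρ (some (some j))).viaEmbedding ι, ?_, ?_, ?_⟩
    · intro j
      exact ⟨(hq1 j).inj.comp (Equiv.injective _), fun i => (hq1 j).mem _⟩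
    · intro j j' hjj i
      simp only [comp_apply]
      by_cases hi : i ∈ Set.range e
      · obtain ⟨l, rfl⟩ := hi
        rw [hva, hva]
        intro hh
        have := hρ l (a₁ := some (some j)) (a₂ := some (some j')) hh
        simp only [Option.some.injEq] at this
        exact hjj this
      · rw [hvn _ _ hi, hvn _ _ hi]
        exact hq2 j j' hjj i
    · intro j i
      simp only [comp_apply]
      by_cases hi : i ∈ Set.range e
      · obtain ⟨l, rfl⟩ := hi
        rw [hva, hva]
        constructor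
        · intro hh
          have h5 : f (ρ (some (some j)) l) (some (some j)) = f (ρ none l) none := by
            rw [hρa]; exact hh
          have := hρ l (a₁ := some (some j)) (a₂ := none) h5
          simp at this
        · intro hh
          have := hρ l (a₁ := some (some j)) (a₂ := some none) hh
          simp at this
      · rw [hvn _ _ hi, hvn _ _ hi]
        exact hq3 j i

theorem dia_three {k : ℕ} {A B : Finset ℕ} {Q : Fin (k - 1) → Finset ℕ} {s t : Fin k → ℕ}
    (hs : IsState A s) (ht : IsState B t) (h : Dia Q s t) {i1 i2 i3 : Fin k} (h12 : i1 ≠ i2)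
    (h13 : i1 ≠ i3) (h23 : i2 ≠ i3) (n1 : s i1 ≠ t i1) (n2 : s i2 ≠ t i2) (n3 : s i3 ≠ t i3) :
    ∃ π : Equiv.Perm (Fin k), π ≠ 1 ∧ (∀ i, i ≠ i1 → i ≠ i2 → i ≠ i3 → π i = i) ∧
      Dia Q s (t ∘ π) :=
  Dia.swap3 hs.inj ht.inj h h12 h13 h23 n1 n2 n3

end Pool.Agent.MP_c07eba.KL
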