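import Pool.Agent.Lib.MP_c07eba_lc.Four
import Pool.Agent.Lib.MP_c07eba_lc.No
import Pool.Agent.Lib.MP_c07eba_lc.FourRow
import Pool.Agent.Lib.MP_c07eba_lc.Three
import Pool.Agent.Lib.MP_c07eba_lc.StarRow

section
/-!
# A star of chains is a base link: assembly from the statements about chains
-/
namespace Pool.Agent.MP_c07eba.KL

open Finset Function

variable {k J M : ℕ}

theorem finite_states (A : Finset ℕ) : {s : Fin k → ℕ | IsState A s}.Finite :=
  Set.Finite.subset (Set.Finite.pi' fun _ : Fin k => A.finite_toSet) fun _ hr i => hr.mem i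

theorem IsChn.congr {l : ℕ} {Q Q' : ℕ → Fin (k - 1) → Finset ℕ} {B B' : ℕ → Finset ℕ}
    {c : ℕ → Fin k → ℕ} (h : IsChn l Q B c) (hQ : ∀ m < l, Q m = Q' m)
    (hB : ∀ m < l, B m = B' m) : IsChn l Q' B' c :=
  ⟨fun m hm => hB m hm ▸ h.st m hm, fun m hm => hQ m hm ▸ h.dia m hm⟩

theorem StarOk.congr {ar : Fin J → Bool × Fin (M + 1)} {Y : Finset ℕ}
    {Q Q' : Fin J → ℕ → Fin (k - 1) → Finset ℕ} {B B' : Fin J → ℕ → Finset ℕ}
    {s t : Fin k → ℕ} (h : StarOk ar Y Q B s t) (hQ : ∀ j, ∀ m < M, Q j m = Q' j m)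
    (hB : ∀ j, ∀ m < M, B j m = B' j m) : StarOk ar Y Q' B' s t := by
  obtain ⟨p, y, hy, hp⟩ := h
  refine ⟨p, y, hy, fun j => ⟨?_, (hp j).2⟩⟩
  obtain ⟨c, hc, h0, hl⟩ := (hp j).1
  have hlt : ∀ m < ((ar j).2 : ℕ), m < M := fun m hm =>
    lt_of_lt_of_le hm (Nat.lt_succ_iff.1 (ar j).2.2)
  exact ⟨c, hc.congr (fun m hm => hQ j m (hlt m hm)) (fun m hm => hB j m (hlt m hm)), h0, hl⟩

theorem pst_isState (σ : Equiv.Perm (Fin k)) : IsState (range k) (pst σ) :=
  ⟨fun _ _ h => σ.injective (Fin.ext h), fun i => mem_range.2 (σ i).2⟩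

theorem pst_comp (σ π : Equiv.Perm (Fin k)) : pst σ ∘ π = pst (σ * π) := rfl

/-- **Assembly.** -/
theorem isLink_star {ar : Fin J → Bool × Fin (M + 1)} {K : Subgroup (Equiv.Perm (Fin k))}
    {τ : Equiv.Perm (Fin k)} (three : 3 * Nat.card K ≤ Nat.card (Equiv.Perm (Fin k)))
    (norm : ∀ κ, κ ∈ K ↔ τ * κ * τ⁻¹ ∈ K) (not_mem : τ ∉ K)
    (row : ∀ (A A' Y : Finset ℕ) (Q : Fin J → ℕ → Fin (k - 1) → Finset ℕ)
      (B : Fin J → ℕ → Finset ℕ), A.card = k → A'.card = k → Y.card = k →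
      (∀ j, ListsOk k (ar j).2 (Q j) (B j)) → ∀ t : Fin k → ℕ, IsState A' t →
      {s : Fin k → ℕ | IsState A s ∧ ¬ StarOk ar Y Q B s t}.ncard ≤ Nat.card K)
    (kill : ∀ g : Equiv.Perm (Fin k), ∃ (Y : Finset ℕ)
      (Q : Fin J → ℕ → Fin (k - 1) → Finset ℕ) (B : Fin J → ℕ → Finset ℕ), Y.card = k ∧
      (∀ j, ∀ m < M, (∀ a, (Q j m a).card = k) ∧ (B j m).card = k) ∧
      ∀ s : Equiv.Perm (Fin k), g⁻¹ * s ∈ K → ¬ StarOk ar Y Q B (pst s) (pst 1)) :
    IsLink k (star k ar) K τ := by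
  have hrow : ∀ (A A' : Finset ℕ) (L : (star k ar).H → Finset ℕ), A.card = k → A'.card = k →
      (∀ h, (L h).card = k) → ∀ t : Fin k → ℕ, IsState A' t →
      {s : Fin k → ℕ | IsState A s ∧ ¬ (star k ar).Ext L s t}.ncard ≤ Nat.card K := by
    intro A A' L hA hA' hL t ht
    replace hL : ∀ x : StarH k J M, (L x).card = k := hL
    refine le_trans (Set.ncard_le_ncard (fun s hs => ?_)
      ((finite_states A).subset fun s hs => hs.1))
      (row A A' (L (none : StarH k J M)) (qL L) (bL L) hA hA' (hL none) (fun j m hm => ?_) t ht)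
    · exact ⟨hs.1, fun h => hs.2 (ext_of_starOk hL h)⟩
    · have hm' : m < M := lt_of_lt_of_le hm (Nat.lt_succ_iff.1 (ar j).2.2)
      refine ⟨fun a => ?_, ?_⟩
      · simp only [qL, hm', dif_pos]
        exact hL _
      · simp only [bL, hm', dif_pos]
        exact hL _
  refine ⟨three, norm, not_mem, hrow, fun A A' L hA hA' hL s hs => ?_, fun g => ?_⟩
  · exact col_of_row hA' (fun t ht => hrow A A' L hA hA' hL t ht) s hs
  · obtain ⟨Y, Q, B, hY, hQB, hkill⟩ := kill g
    have hcard : ∀ x : StarH k J M, (mkL Y Q B x).card = k := by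
      rintro (_ | ⟨j, m, _ | a⟩)
      · exact hY
      · exact (hQB j m m.2).2
      · exact (hQB j m m.2).1 a
    refine ⟨(mkL Y Q B : StarH k J M → Finset ℕ), hcard, fun s t hst hext => ?_⟩
    have h1 := hext.comp t⁻¹
    rw [pst_comp, pst_comp, mul_inv_cancel] at h1
    refine hkill (s * t⁻¹) hst ((starOk_of_ext h1).congr (fun j m hm => ?_) (fun j m hm => ?_))
    · funext a
      simp only [qL, hm, dif_pos, mkL]
    · simp only [bL, hm, dif_pos, mkL]

end Pool.Agent.MP_c07eba.KL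
end

section
/-!
# The base link for odd `k`: the bound for the number of killed states
-/
namespace Pool.Agent.MP_c07eba.KL

open Finset Function

variable {k : ℕ}

/-! ### Counting permutations with prescribed values -/

theorem ncard_perm_agree (C : Finset (Fin k)) (f : Fin k → Fin k) :
    {π : Equiv.Perm (Fin k) | ∀ i ∈ C, π i = f i}.ncard ≤ (k - C.card).factorial := by
  classical
  by_cases hne : ∃ π₀ : Equiv.Perm (Fin k), ∀ i ∈ C, π₀ i = f i
  · obtain ⟨π₀, hπ₀⟩ := hne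
    have h1 : {σ : Equiv.Perm (Fin k) | ∀ i, ¬ i ∉ C → σ i = i}.ncard =
        (k - C.card).factorial := by
      have e := Equiv.Perm.subtypeEquivSubtypePerm fun i : Fin k => i ∉ C
      rw [← Nat.card_coe_set_eq]
      have h2 : Nat.card {σ : Equiv.Perm (Fin k) | ∀ i, ¬ i ∉ C → σ i = i} =
          Nat.card (Equiv.Perm {i : Fin k // i ∉ C}) := (Nat.card_congr e).symm
      rw [h2, Nat.card_eq_fintype_card, Fintype.card_perm, Fintype.card_subtype_compl,
        Fintype.card_fin, Fintype.card_coe]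
    rw [← h1]
    refine Set.ncard_le_ncard_of_injOn (fun π => π₀⁻¹ * π) (fun π hπ i hi => ?_)
      (fun π _ π' _ h => mul_left_cancel h) (Set.toFinite _)
    have hi' : i ∈ C := by_contra hi
    simp only [Equiv.Perm.coe_mul, comp_apply]
    rw [hπ i hi', ← hπ₀ i hi']
    exact π₀.symm_apply_apply i
  · have : {π : Equiv.Perm (Fin k) | ∀ i ∈ C, π i = f i} = ∅ := by
      rw [Set.eq_empty_iff_forall_notMem]
      exact fun π hπ => hne ⟨π, hπ⟩
    rw [this, Set.ncard_empty]
    exact Nat.zero_le _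

/-- If the images `a₀ ∘ π` of all states `s₀ ∘ π` with the property `P` agree on `C`, then there
are at most `(k - |C|)!` states with the property `P`. -/
theorem ncard_le_of_agree {A : Finset ℕ} (hA : A.card = k) {s₀ a₀ : Fin k → ℕ}
    (hs₀ : IsState A s₀) (ha₀ : Injective a₀) (P : (Fin k → ℕ) → Prop) (C : Finset (Fin k))
    (ν : Fin k → ℕ) (h : ∀ π : Equiv.Perm (Fin k), P (s₀ ∘ π) → ∀ i ∈ C, a₀ (π i) = ν i) :
    {s : Fin k → ℕ | IsState A s ∧ P s}.ncard ≤ (k - C.card).factorial := by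
  classical
  by_cases hne : ∃ π₀ : Equiv.Perm (Fin k), P (s₀ ∘ π₀)
  · obtain ⟨π₀, hπ₀⟩ := hne
    refine le_trans (le_trans (Set.ncard_le_ncard (t := (fun π : Equiv.Perm (Fin k) => s₀ ∘ π) ''
      {π : Equiv.Perm (Fin k) | ∀ i ∈ C, π i = π₀ i}) ?_ (Set.toFinite _))
      (Set.ncard_image_le (Set.toFinite _))) (ncard_perm_agree C π₀)
    rintro s ⟨hs, hP⟩
    obtain ⟨π, rfl⟩ := hs₀.exists_perm hA hs
    refine ⟨π, fun i hi => ha₀ ?_, rfl⟩
    rw [h π hP i hi, h π₀ hπ₀ i hi]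
  · have : {s : Fin k → ℕ | IsState A s ∧ P s} = ∅ := by
      rw [Set.eq_empty_iff_forall_notMem]
      rintro s ⟨hs, hP⟩
      obtain ⟨π, rfl⟩ := hs₀.exists_perm hA hs
      exact hne ⟨π, hP⟩
    rw [this, Set.ncard_empty]
    exact Nat.zero_le _

/-! ### Blocked vertices -/

/-- A vertex with list `Y` whose neighbours have the states `p j` has no state only if some block
is covered. -/
theorem exists_block {ι : Type*} {Y : Finset ℕ} (hY : Y.card = k) (p : ι → Fin k → ℕ)
    (h : ¬ ∃ y, IsState Y y ∧ ∀ j i, y i ≠ p j i) :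
    ∃ (C : Finset (Fin k)) (R : Finset ℕ), R ⊆ Y ∧ R.card + C.card = k + 1 ∧
      ∀ i ∈ C, ∀ r ∈ R, ∃ j, p j i = r := by
  classical
  let t : Fin k → Finset ℕ := fun i => Y.filter fun r => ∀ j, p j i ≠ r
  by_cases hall : ∀ C : Finset (Fin k), C.card ≤ (C.biUnion t).card
  · exfalso
    obtain ⟨y, hy, hyt⟩ := (Finset.all_card_le_biUnion_card_iff_exists_injective t).1 hall
    refine h ⟨y, ⟨hy, fun i => (mem_filter.1 (hyt i)).1⟩, fun j i e => ?_⟩
    exact (mem_filter.1 (hyt i)).2 j e.symm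
  · push Not at hall
    obtain ⟨C, hC⟩ := hall
    have hsub : C.biUnion t ⊆ Y := by
      intro r hr
      obtain ⟨i, -, hi⟩ := mem_biUnion.1 hr
      exact (mem_filter.1 hi).1
    have h1 : (Y \ C.biUnion t).card = k - (C.biUnion t).card := by
      rw [card_sdiff_of_subset hsub, hY]
    have h2 : (C.biUnion t).card ≤ k := (card_le_card hsub).trans hY.le
    have h3 : C.card ≤ k := by
      have := card_le_univ C
      rwa [Fintype.card_fin] at this
    obtain ⟨R, hR, hRc⟩ := exists_subset_card_eq (s := Y \ C.biUnion t) (n := k + 1 - C.card)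
      (by omega)
    refine ⟨C, R, hR.trans sdiff_subset, by omega, fun i hi r hr => ?_⟩
    by_contra hno
    push Not at hno
    obtain ⟨h4, h5⟩ := mem_sdiff.1 (hR hr)
    exact h5 (mem_biUnion.2 ⟨i, hi, mem_filter.2 ⟨h4, hno⟩⟩)

/-- With `d` neighbours and `k = 2 d - 1` the covered block is a Latin square. -/
theorem odd_block {d : ℕ} (hk : k = 2 * d - 1) (hd : 1 ≤ d) {Y : Finset ℕ} (hY : Y.card = k)
    (p : Fin d → Fin k → ℕ) (hp : ∀ j, Injective (p j))
    (h : ¬ ∃ y, IsState Y y ∧ ∀ j i, y i ≠ p j i) :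
    ∃ (C : Finset (Fin k)) (R : Finset ℕ), C.card = d ∧ R.card = d ∧
      (∀ i ∈ C, ∀ j, p j i ∈ R) ∧ (∀ i ∈ C, Injective fun j => p j i) ∧
      ∀ i ∈ C, ∀ r ∈ R, ∃ j, p j i = r := by
  classical
  obtain ⟨C, R, hRY, hRC, hcov⟩ := exists_block hY p h
  have : Nonempty (Fin d) := ⟨⟨0, hd⟩⟩
  have hC0 : C.card ≤ k := by
    have := card_le_univ C
    rwa [Fintype.card_fin] at this
  have hRpos : 0 < R.card := by omega
  have hR0 : R.card ≤ d ∨ C.card = 0 := by
    rcases Nat.eq_zero_or_pos C.card with h0 | hpos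
    · exact Or.inr h0
    · left
      obtain ⟨i, hi⟩ := card_pos.1 hpos
      have : R ⊆ univ.image fun j => p j i := by
        intro r hr
        obtain ⟨j, hj⟩ := hcov i hi r hr
        exact mem_image.2 ⟨j, mem_univ _, hj⟩
      have := (card_le_card this).trans card_image_le
      rwa [card_univ, Fintype.card_fin] at this
  have hC1 : C.card ≤ d := by
    obtain ⟨r, hr⟩ := card_pos.1 hRpos
    choose! g hg using fun i hi => hcov i hi r hr
    have := card_le_card_of_injOn (s := C) (t := (univ : Finset (Fin d))) g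
      (fun i _ => mem_univ _) (fun i hi i' hi' e => by
        apply hp (g i)
        rw [hg i hi, e, hg i' hi'])
    rwa [card_univ, Fintype.card_fin] at this
  have hRk : R.card ≤ k := (card_le_card hRY).trans hY.le
  have hCd : C.card = d := by
    rcases hR0 with h0 | h0 <;> omega
  have hRd : R.card = d := by omega
  have hbij : ∀ i ∈ C, (univ.image fun j => p j i) = R ∧ Injective fun j => p j i := by
    intro i hi
    have h1 : R ⊆ univ.image fun j => p j i := by
      intro r hr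
      obtain ⟨j, hj⟩ := hcov i hi r hr
      exact mem_image.2 ⟨j, mem_univ _, hj⟩
    have h2 : (univ.image fun j => p j i).card ≤ d := by
      have := card_image_le (s := (univ : Finset (Fin d))) (f := fun j => p j i)
      rwa [card_univ, Fintype.card_fin] at this
    have h3 := eq_of_subset_of_card_le h1 (by omega)
    refine ⟨h3.symm, ?_⟩
    have h4 : (univ.image fun j => p j i).card = (univ : Finset (Fin d)).card := by
      rw [← h3, card_univ, Fintype.card_fin, hRd]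
    have := card_image_iff.1 h4
    exact fun x y hxy => this (mem_coe.2 (mem_univ _)) (mem_coe.2 (mem_univ _)) hxy
  refine ⟨C, R, hCd, hRd, fun i hi j => ?_, fun i hi => (hbij i hi).2, hcov⟩
  rw [← (hbij i hi).1]
  exact mem_image.2 ⟨j, mem_univ _, rfl⟩

/-- The covered block is determined by the `d - 1` constant neighbours. -/
theorem odd_unique {d : ℕ} (hk : k = 2 * d - 1) (hd : 3 ≤ d) {p p' : Fin d → Fin k → ℕ}
    (hp : ∀ j, Injective (p j)) {j₀ : Fin d} (hpp : ∀ j, j ≠ j₀ → p' j = p j)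
    {C C' : Finset (Fin k)} {R R' : Finset ℕ} (hC : C.card = d) (hR : R.card = d)
    (hC' : C'.card = d) (hR' : R'.card = d) (h1 : ∀ i ∈ C, ∀ j, p j i ∈ R)
    (h2 : ∀ i ∈ C, Injective fun j => p j i) (h1' : ∀ i ∈ C', ∀ j, p' j i ∈ R') :
    C = C' ∧ R = R' := by
  classical
  have himg : ∀ j, j ≠ j₀ → C.image (p j) = R ∧ C'.image (p j) = R' := by
    intro j hj
    constructor
    · refine eq_of_subset_of_card_le (fun r hr => ?_) ?_
      · obtain ⟨i, hi, rfl⟩ := mem_image.1 hr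
        exact h1 i hi j
      · rw [card_image_of_injective _ (hp j), hR, hC]
    · refine eq_of_subset_of_card_le (fun r hr => ?_) ?_
      · obtain ⟨i, hi, rfl⟩ := mem_image.1 hr
        rw [← hpp j hj]
        exact h1' i hi j
      · rw [card_image_of_injective _ (hp j), hR', hC']
  -- two constant neighbours
  obtain ⟨j₁, j₂, hj1, hj2, hj12⟩ : ∃ j₁ j₂ : Fin d, j₁ ≠ j₀ ∧ j₂ ≠ j₀ ∧ j₁ ≠ j₂ := by
    have h3 : 2 ≤ ((univ : Finset (Fin d)).erase j₀).card := by
      rw [card_erase_of_mem (mem_univ _), card_univ, Fintype.card_fin]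
      omega
    obtain ⟨a, ha, b, hb, hab⟩ := one_lt_card.1 h3
    exact ⟨a, b, (mem_erase.1 ha).1, (mem_erase.1 hb).1, hab⟩
  have hinter : (C ∩ C').Nonempty := by
    rw [← card_pos]
    have h3 := card_union_add_card_inter C C'
    have h4 : (C ∪ C').card ≤ k := by
      have := card_le_univ (C ∪ C')
      rwa [Fintype.card_fin] at this
    omega
  obtain ⟨i, hi⟩ := hinter
  obtain ⟨hiC, hiC'⟩ := mem_inter.1 hi
  have hRR : d - 1 ≤ (R ∩ R').card := by
    have h3 : ((univ : Finset (Fin d)).erase j₀).card ≤ (R ∩ R').card := by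
      refine card_le_card_of_injOn (fun j => p j i) (fun j hj => ?_)
        (fun j _ j' _ h => h2 i hiC h)
      have hj' : j ≠ j₀ := (mem_erase.1 hj).1
      refine mem_inter.2 ⟨h1 i hiC j, ?_⟩
      have := h1' i hiC' j
      rwa [hpp j hj'] at this
    rwa [card_erase_of_mem (mem_univ _), card_univ, Fintype.card_fin] at h3
  have hdiff : ∀ j, j ≠ j₀ → (C \ C').image (p j) = R \ R' := by
    intro j hj
    obtain ⟨e1, e2⟩ := himg j hj
    rw [image_sdiff _ _ (hp j), e1, e2]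
  have hRd : (R \ R').card ≤ 1 := by
    have := card_sdiff_add_card_inter R R'
    omega
  have hsub : C ⊆ C' := by
    intro a ha
    by_contra ha'
    have ha'' : a ∈ C \ C' := mem_sdiff.2 ⟨ha, ha'⟩
    have e1 : p j₁ a ∈ R \ R' := hdiff j₁ hj1 ▸ mem_image_of_mem _ ha''
    have e2 : p j₂ a ∈ R \ R' := hdiff j₂ hj2 ▸ mem_image_of_mem _ ha''
    exact hj12 (h2 a ha (card_le_one.1 hRd _ e1 _ e2))
  have hCC : C = C' := eq_of_subset_of_card_le hsub (by omega)
  refine ⟨hCC, ?_⟩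
  rw [← (himg j₁ hj1).1, ← (himg j₁ hj1).2, hCC]

theorem IsChn.inj {l : ℕ} {Q : ℕ → Fin (k - 1) → Finset ℕ} {B : ℕ → Finset ℕ}
    {c : ℕ → Fin k → ℕ} (h : IsChn l Q B c) (h0 : Injective (c 0)) : ∀ m ≤ l, Injective (c m)
  | 0, _ => h0
  | m + 1, hm => (h.st m hm).inj

/-- The row bound for odd `k`. -/
theorem odd_row {d M : ℕ} (hk : k = 2 * d - 1) (hd : 3 ≤ d) {ar : Fin d → Bool × Fin (M + 1)}
    {j₀ : Fin d} (h0 : (ar j₀).1 = false) (hv : ∀ j, j ≠ j₀ → (ar j).1 = true)
    (A A' Y : Finset ℕ) (Q : Fin d → ℕ → Fin (k - 1) → Finset ℕ) (B : Fin d → ℕ → Finset ℕ)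
    (hA : A.card = k) (hA' : A'.card = k) (hY : Y.card = k)
    (hQ : ∀ j, ListsOk k (ar j).2 (Q j) (B j)) (t : Fin k → ℕ) (ht : IsState A' t) :
    {s : Fin k → ℕ | IsState A s ∧ ¬ StarOk ar Y Q B s t}.ncard ≤ (d - 1).factorial := by
  classical
  have hk1 : 1 ≤ k := by omega
  obtain ⟨s₀, hs₀⟩ := exists_isState hA
  have hch : ∀ j, ∃ c, IsChn (ar j).2 (Q j) (B j) c ∧ c 0 = if (ar j).1 then t else s₀ := by
    intro j
    by_cases hj : (ar j).1 = true
    · rw [if_pos hj]
      exact chn_exists hk1 hA' (hQ j) ht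
    · rw [if_neg hj]
      exact chn_exists hk1 hA (hQ j) hs₀
  choose c hc hc0 using hch
  have hinj : ∀ j, Injective (c j (ar j).2) := by
    intro j
    refine (hc j).inj ?_ _ le_rfl
    rw [hc0]
    by_cases hj : (ar j).1 = true
    · rw [if_pos hj]; exact ht.inj
    · rw [if_neg hj]; exact hs₀.inj
  -- the states of the neighbours
  let p : Equiv.Perm (Fin k) → Fin d → Fin k → ℕ := fun π j =>
    if j = j₀ then c j (ar j).2 ∘ π else c j (ar j).2
  have hpinj : ∀ π j, Injective (p π j) := by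
    intro π j
    simp only [p]
    split_ifs
    · exact (hinj j).comp π.injective
    · exact hinj j
  have hblk : ∀ π : Equiv.Perm (Fin k), ¬ StarOk ar Y Q B (s₀ ∘ π) t →
      ¬ ∃ y, IsState Y y ∧ ∀ j i, y i ≠ p π j i := by
    rintro π hno ⟨y, hy, hyp⟩
    refine hno ⟨p π, y, hy, fun j => ⟨?_, hyp j⟩⟩
    by_cases hj : j = j₀
    · subst hj
      simp only [p, if_true, h0]
      have : Chn (ar j).2 (Q j) (B j) s₀ (c j (ar j).2) :=
        ⟨c j, hc j, by rw [hc0, h0]; rfl, rfl⟩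
      exact this.comp π
    · simp only [p, if_neg hj, hv j hj, if_true]
      exact ⟨c j, hc j, by rw [hc0, hv j hj]; rfl, rfl⟩
  by_cases hne : ∃ π₀ : Equiv.Perm (Fin k), ¬ StarOk ar Y Q B (s₀ ∘ π₀) t
  · obtain ⟨π₀, hπ₀⟩ := hne
    obtain ⟨C, R, hC, hR, e1, e2, e3⟩ := odd_block hk (by omega) hY (p π₀) (hpinj π₀)
      (hblk π₀ hπ₀)
    have hmain := ncard_le_of_agree hA hs₀ (hinj j₀) (fun s => ¬ StarOk ar Y Q B s t) C
      (fun i => c j₀ (ar j₀).2 (π₀ i)) (fun π hπ i hi => ?_)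
    · have : k - C.card = d - 1 := by omega
      rwa [this] at hmain
    · obtain ⟨C', R', hC', hR', e1', e2', e3'⟩ := odd_block hk (by omega) hY (p π) (hpinj π)
        (hblk π hπ)
      obtain ⟨rfl, rfl⟩ := odd_unique hk hd (hpinj π₀) (j₀ := j₀) (p' := p π)
        (fun j hj => by simp only [p, if_neg hj]) hC hR hC' hR' e1 e2 e1'
      obtain ⟨j, hj⟩ := e3 i hi _ (e1' i hi j₀)
      by_cases hjj : j = j₀
      · subst hjj
        simpa [p] using hj.symm
      · exfalso
        have h3 : p π j i = p π j₀ i := by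
          rw [← hj]
          simp only [p, if_neg hjj]
        exact hjj (e2' i hi h3)
  · have : {s : Fin k → ℕ | IsState A s ∧ ¬ StarOk ar Y Q B s t} = ∅ := by
      rw [Set.eq_empty_iff_forall_notMem]
      rintro s ⟨hs, hno⟩
      obtain ⟨π, rfl⟩ := hs₀.exists_perm hA hs
      exact hne ⟨π, hno⟩
    rw [this, Set.ncard_empty]
    exact Nat.zero_le _

end Pool.Agent.MP_c07eba.KL
end

section
/-!
# Base links for all `k ≥ 4`
-/
namespace Pool.Agent.MP_c07eba.KL

open Finset Function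

variable {k J M : ℕ}

/-- Assembly of a base link from its properties in terms of chains. -/
theorem isLink_star' {d : ℕ} (hd : 2 ≤ d) (hdk : d ≤ k) (hk : 3 ≤ k)
    {ar : Fin J → Bool × Fin (M + 1)}
    (row : ∀ (A A' Y : Finset ℕ) (Q : Fin J → ℕ → Fin (k - 1) → Finset ℕ)
      (B : Fin J → ℕ → Finset ℕ), A.card = k → A'.card = k → Y.card = k →
      (∀ j, ListsOk k (ar j).2 (Q j) (B j)) → ∀ t : Fin k → ℕ, IsState A' t →
      {s : Fin k → ℕ | IsState A s ∧ ¬ StarOk ar Y Q B s t}.ncard ≤ (k - d).factorial)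
    (kill : ∀ g : Equiv.Perm (Fin k), ∃ (Y : Finset ℕ)
      (Q : Fin J → ℕ → Fin (k - 1) → Finset ℕ) (B : Fin J → ℕ → Finset ℕ), Y.card = k ∧
      (∀ j m q, (Q j m q).card = k) ∧ (∀ j m, (B j m).card = k) ∧
      ∀ s t : Equiv.Perm (Fin k), g⁻¹ * (s * t⁻¹) ∈ KS k d →
        ¬ StarOk ar Y Q B (pst s) (pst t)) :
    IsLink k (star k ar) (KS k d) (tau (k := k) (by omega)) := by
  refine isLink_star (three_KS hd hdk hk) (norm_KS _ hd) (tau_notMem _ (by omega)) ?_ ?_
  · rw [card_KS hdk]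
    exact row
  · intro g
    obtain ⟨Y, Q, B, hY, hQ, hB, h⟩ := kill g
    refine ⟨Y, Q, B, hY, fun j m _ => ⟨hQ j m, hB j m⟩, fun s hs => h s 1 ?_⟩
    simpa using hs

/-- The base link for `k = 4`. -/
theorem link_four : ∃ (B : Gadget) (K : Subgroup (Equiv.Perm (Fin 4)))
    (τ : Equiv.Perm (Fin 4)), IsLink 4 B K τ := by
  refine ⟨_, _, _, isLink_star' (d := 2) (ar := ar4) le_rfl (by norm_num) (by norm_num) ?_ ?_⟩
  · intro A A' Y Q B hA hA' hY hQ t ht
    refine four_row ?_ ?_ hA hA' hY hQ ht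
    · intro l Q B A s hQB hA hs
      exact chn_exists (by norm_num) hA hQB hs
    · intro A B Q s t hs ht h i₁ i₂ i₃ h12 h13 h23 n1 n2 n3
      exact dia_three hs ht h h12 h13 h23 n1 n2 n3
  · exact four_kill' (by decide) rfl rfl rfl

/-- The chains of the base link for odd `k`. -/
def arOdd (k d : ℕ) : Fin d → Bool × Fin (k + 1) :=
  fun j => (decide (j.val ≠ 0), ⟨k, Nat.lt_succ_self k⟩)

/-- The base link for odd `k ≥ 5`. -/
theorem link_odd {d : ℕ} (hd : 3 ≤ d) (hk : k = 2 * d - 1) :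
    ∃ (B : Gadget) (K : Subgroup (Equiv.Perm (Fin k))) (τ : Equiv.Perm (Fin k)),
      IsLink k B K τ := by
  refine ⟨_, _, _, isLink_star' (d := d) (ar := arOdd k d) (by omega) (by omega) (by omega)
    ?_ ?_⟩
  · have h : k - d = d - 1 := by omega
    rw [h]
    exact odd_row hk hd (j₀ := ⟨0, by omega⟩) (by simp [arOdd]) (fun j hj => by
      have : j.val ≠ 0 := fun h => hj (Fin.ext h)
      simp [arOdd, this])
  · exact odd_kill' (by omega) hk (fun j => rfl) (fun j => rfl)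

/-- The chains of the base link for even `k`. -/
def arEven (d : ℕ) : Fin (d + 1) → Bool × Fin (2 * d + 1) :=
  fun j => (decide (j.val ≠ 0), ⟨if j.val = 1 then d % 2 else if j.val = 2 ∨ j.val = 3 then
    d / 2 else 2 * d, by split_ifs <;> omega⟩)

/-- The base link for even `k ≥ 6`, from the bound for the number of killed states. -/
theorem link_even' {d : ℕ} (hd : 3 ≤ d)
    (row : ∀ (A A' Y : Finset ℕ) (Q : Fin (d + 1) → ℕ → Fin (2 * d - 1) → Finset ℕ)
      (B : Fin (d + 1) → ℕ → Finset ℕ), A.card = 2 * d → A'.card = 2 * d → Y.card = 2 * d →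
      (∀ j, ListsOk (2 * d) (arEven d j).2 (Q j) (B j)) → ∀ t : Fin (2 * d) → ℕ, IsState A' t →
      {s : Fin (2 * d) → ℕ | IsState A s ∧ ¬ StarOk (arEven d) Y Q B s t}.ncard ≤ d.factorial) :
    ∃ (B : Gadget) (K : Subgroup (Equiv.Perm (Fin (2 * d)))) (τ : Equiv.Perm (Fin (2 * d))),
      IsLink (2 * d) B K τ := by
  refine ⟨_, _, _, isLink_star' (d := d) (ar := arEven d) (by omega) (by omega) (by omega)
    ?_ ?_⟩
  · have h : 2 * d - d = d := by omega
    rw [h]
    exact row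
  · refine even_kill' hd rfl (fun j => rfl) (fun j hj => ?_) (fun j hj => ?_) (fun j hj => ?_)
    · simp only [arEven]
      rw [if_neg (by omega), if_neg (by omega)]
    · simp only [arEven]
      rw [if_pos hj]
    · simp only [arEven]
      rw [if_neg (by omega), if_pos hj]

/-- The base link for even `k ≥ 6`. -/
theorem link_even {d : ℕ} (hd : 3 ≤ d) : ∃ (B : Gadget) (K : Subgroup (Equiv.Perm (Fin (2 * d))))
    (τ : Equiv.Perm (Fin (2 * d))), IsLink (2 * d) B K τ := by
  refine link_even' hd fun A A' Y Q B hA hA' hY hQ t ht => ?_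
  have h := starRow_even (k := 2 * d) (fun l Q B A s hA hQB hs => chn_exists (by omega) hA hQB hs)
    (fun A B Q s t hs ht h i₁ i₂ i₃ h12 h13 h23 n1 n2 n3 =>
      dia_three hs ht h h12 h13 h23 n1 n2 n3) hd rfl (arEven d) 0 (fun j => ?_)
    (fun a => ⟨a.val + 1, by omega⟩) (fun a b hab => ?_) (fun a ha => ?_) ?_ hA hA' hY hQ ht
  · have h2 : 2 * d - d = d := by omega
    rwa [h2] at h
  · simp only [arEven, decide_eq_false_iff_not, not_not]
    exact ⟨fun h => Fin.ext h, fun h => congrArg Fin.val h⟩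
  · simp only [Fin.mk.injEq, add_left_inj] at hab
    exact Fin.ext hab
  · exact absurd (congrArg Fin.val ha) (by simp)
  · rw [Fin.sum_univ_three]
    simp only [arEven, Fin.val_zero, Fin.val_one, Fin.val_two]
    norm_num
    omega

/-- **Base links exist for all `k ≥ 4`.** -/
theorem exists_link {k : ℕ} (hk : 4 ≤ k) : ∃ (B : Gadget) (K : Subgroup (Equiv.Perm (Fin k)))
    (τ : Equiv.Perm (Fin k)), IsLink k B K τ := by
  rcases Nat.even_or_odd' k with ⟨d, rfl | rfl⟩
  · rcases (show d = 2 ∨ 3 ≤ d by omega) with rfl | hd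
    · exact link_four
    · exact link_even hd
  · exact link_odd (d := d + 1) (by omega) (by omega)

end Pool.Agent.MP_c07eba.KL
end

section
/-!
# Base links for all `k ≥ 4`: see `KL.exists_link` in `Links.lean`
-/
namespace Pool.Agent.MP_c07eba.KL

open Finset Function

variable {k : ℕ}

theorem chnExists (hk : 1 ≤ k) : ChnExists k := fun _ _ _ _ _ hA hok hs =>
  chn_exists hk hA hok hs

theorem diaThree (k : ℕ) : DiaThree k := fun _ _ _ _ _ hs ht h _ _ _ h12 h13 h23 n1 n2 n3 =>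
  dia_three hs ht h h12 h13 h23 n1 n2 n3

end Pool.Agent.MP_c07eba.KL
end
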