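import Pool.Agent.Lib.MP_c07eba_lc.K3Red
import Pool.Agent.Lib.CookLevin.TableauPT

/-!
# The graph for three colours is computable in polynomial time
-/

namespace Pool.Agent.MP_c07eba.K3

open Pool.Agent.PolyTime Pool.Agent.CookLevin Finset Function

/-- The graph for three colours. -/
def toGraph3 (H : Hyp) : GraphInput := netGraph (toNet H)

section
universe u
variable {α : Type u} [Rep α]

theorem PT_vb {w : α → ℕ} (hw : PT w) (k : ℕ) : PT (fun a => vb (w a) k) :=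
  (PT.add (PT.mul (PT.const 9) hw) (PT.const k)).succ

theorem PT_vb' {w k : α → ℕ} (hw : PT w) (hk : PT k) : PT (fun a => vb (w a) (k a)) :=
  (PT.add (PT.mul (PT.const 9) hw) hk).succ

theorem PT_forcE {w : α → ℕ} (hw : PT w) : PT (fun a => forcE (w a)) := by
  have h0 := PT_vb hw 0
  have h1 := PT_vb hw 1
  have h2 := PT_vb hw 2
  have h3 := PT_vb hw 3
  have z : PT (fun _ : α => (0 : ℕ)) := PT.const 0
  exact PT.cons (PT.pair h0 h3) (PT.cons (PT.pair h1 h3) (PT.cons (PT.pair z h1)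
    (PT.cons (PT.pair z h2) (PT.single (PT.pair h1 h2)))))

theorem PT_anchE {w : α → ℕ} (hw : PT w) : PT (fun a => anchE (w a)) := by
  have h0 := PT_vb hw 0
  have h4 := PT_vb hw 4
  have h5 := PT_vb hw 5
  have h6 := PT_vb hw 6
  have h7 := PT_vb hw 7
  have h8 := PT_vb hw 8
  have z : PT (fun _ : α => (0 : ℕ)) := PT.const 0
  exact PT.cons (PT.pair h0 h8) (PT.cons (PT.pair h4 h8) (PT.cons (PT.pair z h4)
    (PT.cons (PT.pair z h5) (PT.cons (PT.pair z h6) (PT.cons (PT.pair z h7)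
    (PT.cons (PT.pair h5 h4) (PT.cons (PT.pair h5 h6) (PT.single (PT.pair h4 h7)))))))))

theorem PT_linkE {n : α → ℕ} {p : α → (ℕ × ℕ) × ℕ} (hn : PT n) (hp : PT p) :
    PT (fun a => linkE (n a) (p a)) := by
  have h0 := PT_vb hp.fst.fst 0
  have h1 := PT_vb hp.fst.snd 0
  have h2 := PT_vb' hn hp.snd
  exact PT.cons (PT.pair h0 h2) (PT.single (PT.pair h1 h2))

theorem PT_netGraph {M : α → Net} (hM : PT M) : PT (fun a => netGraph (M a)) := by
  have hn : PT (fun a => vb (M a).1 (M a).2.2.length) := PT_vb' hM.fst (PT.length hM.snd.snd)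
  refine PT.pair (f := fun a => vb (M a).1 (M a).2.2.length) hn ?_
  refine PT.append (PT.flatMap (PT.range hM.fst) (PT_forcE PT.id.snd))
    (PT.append (PT.flatMap hM.snd.fst (PT_anchE PT.id.snd))
    (PT.flatMap (PT.zipIdx hM.snd.snd) (PT_linkE (PT.comp (f := Prod.fst) hM.fst PT.id.fst)
      PT.id.snd)))

theorem PT_ih {e r : α → ℕ} (he : PT e) (hr : PT r) (j : ℕ) : PT (fun a => ih (e a) (r a) j) :=
  (PT.add (PT.add (PT.mul (PT.const 16) he) (PT.mul (PT.const 5) hr)) (PT.const j)).succ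

theorem PT_qh {e : α → ℕ} (he : PT e) : PT (fun a => qh (e a)) := PT.mul (PT.const 16) he

theorem PT_nh {B x : α → ℕ} (hB : PT B) (hx : PT x) : PT (fun a => nh (B a) (x a)) :=
  PT.add (PT.mul (PT.const 16) hB) hx

theorem PT_nodeAt {l : α → List ℕ} {r : α → ℕ} (hl : PT l) (hr : PT r) :
    PT (fun a => nodeAt (l a) (r a)) :=
  PT.listGetD hl hr (PT.listGetD hl (PT.const 1) (PT.const 0))

theorem PT_incL {B e r x : α → ℕ} (hB : PT B) (he : PT e) (hr : PT r) (hx : PT x) :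
    PT (fun a => incL (B a) (e a) (r a) (x a)) := by
  have hn := PT_nh hB hx
  have hq := PT_qh he
  have h0 := PT_ih he hr 0
  have h1 := PT_ih he hr 1
  have h2 := PT_ih he hr 2
  have h3 := PT_ih he hr 3
  have h4 := PT_ih he hr 4
  exact PT.cons (PT.pair hn h0) (PT.cons (PT.pair h0 h1) (PT.cons (PT.pair h1 h2)
    (PT.cons (PT.pair h2 h3) (PT.cons (PT.pair h2 h4) (PT.cons (PT.pair h3 h4)
    (PT.single (PT.pair h4 hq)))))))

theorem PT_hypL {B : α → ℕ} {d : α → ℕ × List ℕ} (hB : PT B) (hd : PT d) :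
    PT (fun a => hypL (B a) (d a)) :=
  PT.append (PT_incL hB hd.fst (PT.const 0) (PT_nodeAt hd.snd (PT.const 0)))
    (PT.append (PT_incL hB hd.fst (PT.const 1) (PT_nodeAt hd.snd (PT.const 1)))
    (PT_incL hB hd.fst (PT.const 2) (PT_nodeAt hd.snd (PT.const 2))))

theorem PT_incJ {e r : α → ℕ} (he : PT e) (hr : PT r) : PT (fun a => incJ (e a) (r a)) :=
  PT.cons (PT_ih he hr 0) (PT.cons (PT_ih he hr 1) (PT.single (PT_ih he hr 3)))

theorem PT_hypJ {d : α → ℕ × List ℕ} (hd : PT d) : PT (fun a => hypJ (d a)) :=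
  PT.append (PT_incJ hd.fst (PT.const 0))
    (PT.append (PT_incJ hd.fst (PT.const 1)) (PT_incJ hd.fst (PT.const 2)))

theorem PT_toNet {H : α → Hyp} (hH : PT H) : PT (fun a => toNet (H a)) := by
  refine PT.pair (PT_nh hH.snd.fst hH.fst) (PT.pair ?_ ?_)
  · exact PT.append (PT.map (PT.range hH.fst)
      (PT_nh (PT.comp (f := Prod.fst) hH.snd.fst PT.id.fst) PT.id.snd))
      (PT.flatMap hH.snd.snd (PT_hypJ PT.id.snd))
  · exact PT.flatMap hH.snd.snd
      (PT_hypL (PT.comp (f := Prod.fst) hH.snd.fst PT.id.fst) PT.id.snd)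

end

theorem PT_toGraph3 : PT toGraph3 := PT_netGraph (PT_toNet PT.id)

/-! ### Correctness -/

theorem packable_toGraph3 {H : Hyp} (hH : HypOk H) (hS : SignSat H) :
    Packable (toGraph3 H).graph 3 :=
  packable_net (toNet_ok hH) (netYes_toNet hH hS)

theorem not_packable_toGraph3 {H : Hyp} (hH : HypOk H) (hS : ¬ SignSat H) :
    ¬ Packable (toGraph3 H).graph 3 := by
  obtain ⟨κ, hκ⟩ := exists_labels hH hS
  exact not_packable_net (toNet_ok hH) (hty H.2.1) (hty_link hH) κ hκ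

/-- A graph with a triangle has no packings of size one or two for all list assignments. -/
theorem two_lt_of_triangle {V : Type*} {G : SimpleGraph V} {a b c : V} (hab : G.Adj a b)
    (hac : G.Adj a c) (hbc : G.Adj b c) {k : ℕ} (hk : 0 < k) (h : Packable G k) : 2 < k := by
  by_contra hk2
  obtain ⟨s, hs1, hs2, hs3⟩ := h (fun _ => Finset.range k) (fun _ => by simp)
  have ha := Finset.mem_range.1 (hs1 ⟨0, hk⟩ a)
  have hb := Finset.mem_range.1 (hs1 ⟨0, hk⟩ b)
  have hc := Finset.mem_range.1 (hs1 ⟨0, hk⟩ c)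
  have h1 := hs2 ⟨0, hk⟩ a b hab
  have h2 := hs2 ⟨0, hk⟩ a c hac
  have h3 := hs2 ⟨0, hk⟩ b c hbc
  omega

theorem hyp_ne {H : Hyp} (hS : ¬ SignSat H) : ∃ d, d ∈ H.2.2 := by
  by_contra hc
  push Not at hc
  exact hS fun s => ⟨fun _ => true, fun e he => absurd he (hc e)⟩

theorem toGraph3_triangle {H : Hyp} (hH : HypOk H) (hS : ¬ SignSat H) {k : ℕ} (hk : 0 < k)
    (h : Packable (toGraph3 H).graph k) : 2 < k := by
  obtain ⟨d, hd⟩ := hyp_ne hS
  have hB := hH.lab_lt d hd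
  have hn : 0 < (toNet H).1 := by
    simp only [toNet]
    unfold nh
    omega
  have hn2 : (toGraph3 H).n = vb (toNet H).1 (toNet H).2.2.length := rfl
  have hlt : ∀ j < 3, vb 0 j < (toGraph3 H).n := by
    intro j hj
    rw [hn2]
    unfold vb
    omega
  have hmem : ∀ e ∈ forcE 0, e ∈ (toGraph3 H).edges := by
    intro e he
    simp only [toGraph3, netGraph, List.mem_append, List.mem_flatMap, List.mem_range]
    exact Or.inl ⟨0, hn, he⟩
  have h0 : 0 < (toGraph3 H).n := by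
    have := hlt 0 (by norm_num)
    omega
  have e1 : ((toGraph3 H).graph).Adj ⟨0, h0⟩ ⟨vb 0 1, hlt 1 (by norm_num)⟩ :=
    ⟨by simp [vb], Or.inl (hmem (0, vb 0 1) (by simp [forcE]))⟩
  have e2 : ((toGraph3 H).graph).Adj ⟨0, h0⟩ ⟨vb 0 2, hlt 2 (by norm_num)⟩ :=
    ⟨by simp [vb], Or.inl (hmem (0, vb 0 2) (by simp [forcE]))⟩
  have e3 : ((toGraph3 H).graph).Adj ⟨vb 0 1, hlt 1 (by norm_num)⟩
      ⟨vb 0 2, hlt 2 (by norm_num)⟩ :=
    ⟨by simp [vb], Or.inl (hmem (vb 0 1, vb 0 2) (by simp [forcE]))⟩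
  exact two_lt_of_triangle e1 e2 e3 hk h

theorem lp_toGraph3 {H : Hyp} (hH : HypOk H) : LP 3 (toGraph3 H) ↔ SignSat H := by
  constructor
  · rintro ⟨k, hk0, hk3, hk⟩
    by_contra hS
    have h2 := toGraph3_triangle hH hS hk0 hk
    obtain rfl : k = 3 := by omega
    exact not_packable_toGraph3 hH hS hk
  · intro hS
    exact ⟨3, by norm_num, le_rfl, packable_toGraph3 hH hS⟩

end Pool.Agent.MP_c07eba.K3
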