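import Pool.Agent.Lib.MP_c07eba_lc.Mem2

/-!
# From signings of hypergraphs to networks
-/

namespace Pool.Agent.MP_c07eba.K3

open Finset Function

/-! ### The incidence gadget -/

/-- Auxiliary check for the chain. -/
def chOk (k1 c1 k2 c2 g : Option (Fin 3)) (vs v z1 z2 : Fin 3) : Bool :=
  k1 != some z1 && c1 != some (z1 - v) && k2 != some z2 && c2 != some (z2 - z1) &&
    (v == vs || g != some z2)

theorem chain_lemma : ∀ k1 c1 k2 c2 g : Option (Fin 3), ∃ vs : Fin 3, ∀ v : Fin 3,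
    ∃ z1 z2 : Fin 3, chOk k1 c1 k2 c2 g vs v z1 z2 = true := by
  decide +kernel

/-- Auxiliary check for the triangle. -/
def triOk (c31 c32 c12 k f2 f3 : Option (Fin 3)) (h1 h2 h3 : Fin 3) : Bool :=
  c31 != some (h1 - h3) && c32 != some (h2 - h3) && c12 != some (h2 - h1) && k != some h1 &&
    f2 != some h2 && f3 != some h3

theorem tri_lemma : ∀ c31 c32 c12 k f2 f3 : Option (Fin 3),
    (f2 != some (k.getD 0 + c12.getD 0) || f3 != some (k.getD 0 - c31.getD 0)) = true →
    ∃ h1 h2 h3 : Fin 3, triOk c31 c32 c12 k f2 f3 h1 h2 h3 = true := by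
  decide +kernel

/-- The labels of the seven links and of the three anchored hubs of an incidence gadget, and its
values: `z 0, …, z 4` are the values of the hubs, `v` and `q` those of the node and of the
hyperedge. -/
structure GadOk (c : Fin 7 → Option (Fin 3)) (k : Fin 3 → Option (Fin 3)) (v q : Fin 3)
    (z : ℕ → Fin 3) : Prop where
  l0 : c 0 ≠ some (z 0 - v)
  l1 : c 1 ≠ some (z 1 - z 0)
  l2 : c 2 ≠ some (z 2 - z 1)
  l3 : c 3 ≠ some (z 3 - z 2)
  l4 : c 4 ≠ some (z 4 - z 2)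
  l5 : c 5 ≠ some (z 4 - z 3)
  l6 : c 6 ≠ some (q - z 4)
  k0 : k 0 ≠ some (z 0)
  k1 : k 1 ≠ some (z 1)
  k3 : k 2 ≠ some (z 3)

theorem map_sub_ne {c : Option (Fin 3)} {a b : Fin 3} (h : c.map (fun x => a - x) ≠ some b) :
    c ≠ some (a - b) := by
  rintro rfl
  apply h
  simp

theorem map_add_ne {c : Option (Fin 3)} {a b : Fin 3} (h : c.map (fun x => a + x) ≠ some b) :
    c ≠ some (b - a) := by
  rintro rfl
  apply h
  simp

/-- The incidence gadget kills at most one pair of values. -/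
theorem gadget_yes (c : Fin 7 → Option (Fin 3)) (k : Fin 3 → Option (Fin 3)) :
    ∃ qs vs : Fin 3, ∀ q v : Fin 3, (q ≠ qs ∨ v ≠ vs) → ∃ z, GadOk c k v q z := by
  obtain ⟨α, hα⟩ : ∃ α, α = (k 2).getD 0 + (c 5).getD 0 := ⟨_, rfl⟩
  obtain ⟨β, hβ⟩ : ∃ β, β = (k 2).getD 0 - (c 3).getD 0 := ⟨_, rfl⟩
  obtain ⟨vs, hvs⟩ := chain_lemma (k 0) (c 0) (k 1) (c 1) ((c 2).map fun x => β - x)
  refine ⟨α + (c 6).getD 0, vs, fun q v hqv => ?_⟩
  obtain ⟨z1, z2, hz⟩ := hvs v
  simp only [chOk, Bool.and_eq_true, bne_iff_ne, Bool.or_eq_true, beq_iff_eq] at hz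
  obtain ⟨⟨⟨⟨a1, a2⟩, a3⟩, a4⟩, a5⟩ := hz
  obtain ⟨h1, h2, h3, ht⟩ := tri_lemma (c 3) (c 4) (c 5) (k 2) ((c 6).map fun x => q - x)
    ((c 2).map fun x => z2 + x) (by
      rw [← hα, ← hβ]
      simp only [Bool.or_eq_true, bne_iff_ne]
      by_contra hc
      push Not at hc
      obtain ⟨e1, e2⟩ := hc
      rcases hqv with h | h
      · apply h
        cases h6 : c 6 with
        | none => simp [h6] at e1
        | some d =>
          rw [h6] at e1
          simp only [Option.map_some, Option.some.injEq] at e1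
          simp only [Option.getD_some]
          rw [← e1]
          abel
      · rcases a5 with a5 | a5
        · exact h a5
        · apply a5
          cases h2 : c 2 with
          | none => simp [h2] at e2
          | some d =>
            rw [h2] at e2
            simp only [Option.map_some, Option.some.injEq] at e2 ⊢
            rw [← e2]
            abel)
  simp only [triOk, Bool.and_eq_true, bne_iff_ne] at ht
  obtain ⟨⟨⟨⟨⟨b1, b2⟩, b3⟩, b4⟩, b5⟩, b6⟩ := ht
  refine ⟨fun j => if j = 0 then z1 else if j = 1 then z2 else if j = 2 then h3 else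
    if j = 3 then h1 else h2, ?_⟩
  constructor <;> simp only [Nat.reduceEqDiff, if_true, if_false, one_ne_zero,
    OfNat.ofNat_ne_zero, OfNat.ofNat_ne_one]
  · exact a2
  · exact a4
  · exact map_add_ne b6
  · exact b1
  · exact b2
  · exact b3
  · exact map_sub_ne b5
  · exact a1
  · exact a3
  · exact b4

/-- Labels for which the incidence gadget kills the pair `(q, v) = (a, b)`. -/
def t1 (a b : Fin 3) : Fin 3 := if a = b then a + 1 else -a - b

/-- Label of the first hub of the gadget. -/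
def k1 (a b : Fin 3) : Fin 3 := -b - t1 a b

/-- Label of the second hub of the gadget. -/
def k2 (a b : Fin 3) : Fin 3 := -a - t1 a b

/-- Auxiliary check. -/
def gadBad (a b z0 z1 z2 z3 z4 : Fin 3) : Bool :=
  b != z0 && z0 != z1 && z1 != z2 && z2 != z3 && z2 != z4 && z3 != z4 && z4 != a &&
    z0 != k1 a b && z1 != k2 a b && z3 != a

theorem gadget_no_aux : ∀ a b z0 z1 z2 z3 z4 : Fin 3, gadBad a b z0 z1 z2 z3 z4 = false := by
  decide +kernel

theorem gadget_no {a b z0 z1 z2 z3 z4 : Fin 3} (h1 : b ≠ z0) (h2 : z0 ≠ z1) (h3 : z1 ≠ z2)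
    (h4 : z2 ≠ z3) (h5 : z2 ≠ z4) (h6 : z3 ≠ z4) (h7 : z4 ≠ a) (h8 : z0 ≠ k1 a b)
    (h9 : z1 ≠ k2 a b) (h10 : z3 ≠ a) : False := by
  have h := gadget_no_aux a b z0 z1 z2 z3 z4
  have h' : gadBad a b z0 z1 z2 z3 z4 = true := by
    simp only [gadBad, Bool.and_eq_true, bne_iff_ne]
    exact ⟨⟨⟨⟨⟨⟨⟨⟨⟨h1, h2⟩, h3⟩, h4⟩, h5⟩, h6⟩, h7⟩, h8⟩, h9⟩, h10⟩
  rw [h] at h'
  exact Bool.false_ne_true h'

/-! ### The network of a hypergraph -/

/-- The hub of a hyperedge. -/
def qh (e : ℕ) : ℕ := 16 * e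

/-- The hubs of an incidence. -/
def ih (e r j : ℕ) : ℕ := 16 * e + 5 * r + j + 1

/-- The hub of a node. -/
def nh (B x : ℕ) : ℕ := 16 * B + x

theorem ih_mod {e r j : ℕ} (hr : r < 3) (hj : j < 5) : ih e r j % 16 = 5 * r + j + 1 := by
  have h : ih e r j = 5 * r + j + 1 + 16 * e := by unfold ih; ring
  rw [h, Nat.add_mul_mod_self_left]
  exact Nat.mod_eq_of_lt (by omega)

theorem ih_div {e r j : ℕ} (hr : r < 3) (hj : j < 5) : ih e r j / 16 = e := by
  have h : ih e r j = 5 * r + j + 1 + 16 * e := by unfold ih; ring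
  rw [h]
  omega

theorem ih_lt {B e r j : ℕ} (he : e < B) (hr : r < 3) (hj : j < 5) : ih e r j < 16 * B := by
  have h : ih e r j = 5 * r + j + 1 + 16 * e := by unfold ih; ring
  rw [h]
  omega

theorem ih_ne {e r j : ℕ} (hr : r < 3) (hj : j < 5) : ¬ ih e r j % 16 = 0 := by
  rw [ih_mod hr hj]
  omega

theorem ih_r {e r j : ℕ} (hr : r < 3) (hj : j < 5) : (ih e r j % 16 - 1) / 5 = r := by
  rw [ih_mod hr hj, show 5 * r + j + 1 - 1 = 5 * r + j by omega]
  omega

theorem ih_j {e r j : ℕ} (hr : r < 3) (hj : j < 5) : (ih e r j % 16 - 1) % 5 = j := by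
  rw [ih_mod hr hj, show 5 * r + j + 1 - 1 = 5 * r + j by omega]
  omega

/-- The node at position `r`; the second node of a hyperedge of size two is repeated. -/
def nodeAt (l : List ℕ) (r : ℕ) : ℕ := l.getD r (l.getD 1 0)

/-- The links of an incidence. -/
def incL (B e r x : ℕ) : List (ℕ × ℕ) :=
  [(nh B x, ih e r 0), (ih e r 0, ih e r 1), (ih e r 1, ih e r 2), (ih e r 2, ih e r 3),
    (ih e r 2, ih e r 4), (ih e r 3, ih e r 4), (ih e r 4, qh e)]

/-- The links of a hyperedge. -/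
def hypL (B : ℕ) (d : ℕ × List ℕ) : List (ℕ × ℕ) :=
  incL B d.1 0 (nodeAt d.2 0) ++ (incL B d.1 1 (nodeAt d.2 1) ++ incL B d.1 2 (nodeAt d.2 2))

/-- The anchored hubs of an incidence. -/
def incJ (e r : ℕ) : List ℕ := [ih e r 0, ih e r 1, ih e r 3]

/-- The anchored hubs of a hyperedge. -/
def hypJ (d : ℕ × List ℕ) : List ℕ := incJ d.1 0 ++ (incJ d.1 1 ++ incJ d.1 2)

/-- The network of a hypergraph. -/
def toNet (H : Hyp) : Net :=
  (nh H.2.1 H.1, ((List.range H.1).map (nh H.2.1) ++ H.2.2.flatMap hypJ,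
    H.2.2.flatMap (hypL H.2.1)))

theorem mem_hypL {B : ℕ} {d : ℕ × List ℕ} {l : ℕ × ℕ} :
    l ∈ hypL B d ↔ ∃ r < 3, l ∈ incL B d.1 r (nodeAt d.2 r) := by
  constructor
  · intro h
    simp only [hypL, List.mem_append] at h
    rcases h with h | h | h
    · exact ⟨0, by norm_num, h⟩
    · exact ⟨1, by norm_num, h⟩
    · exact ⟨2, by norm_num, h⟩
  · rintro ⟨r, hr, h⟩
    simp only [hypL, List.mem_append]
    interval_cases r
    · exact Or.inl h
    · exact Or.inr (Or.inl h)
    · exact Or.inr (Or.inr h)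

theorem mem_hypJ {d : ℕ × List ℕ} {u : ℕ} : u ∈ hypJ d ↔ ∃ r < 3, u ∈ incJ d.1 r := by
  constructor
  · intro h
    simp only [hypJ, List.mem_append] at h
    rcases h with h | h | h
    · exact ⟨0, by norm_num, h⟩
    · exact ⟨1, by norm_num, h⟩
    · exact ⟨2, by norm_num, h⟩
  · rintro ⟨r, hr, h⟩
    simp only [hypJ, List.mem_append]
    interval_cases r
    · exact Or.inl h
    · exact Or.inr (Or.inl h)
    · exact Or.inr (Or.inr h)

theorem nodeAt_mem {H : Hyp} (hH : HypOk H) {d : ℕ × List ℕ} (hd : d ∈ H.2.2) (r : ℕ) :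
    nodeAt d.2 r ∈ d.2 := by
  have hlen := hH.len d hd
  unfold nodeAt
  rcases lt_or_ge r d.2.length with h | h
  · rw [List.getD_eq_getElem _ _ h]
    exact List.getElem_mem h
  · rw [List.getD_eq_default _ _ h]
    have h1 : 1 < d.2.length := by omega
    rw [List.getD_eq_getElem _ _ h1]
    exact List.getElem_mem h1

theorem nodeAt_lt {H : Hyp} (hH : HypOk H) {d : ℕ × List ℕ} (hd : d ∈ H.2.2) (r : ℕ) :
    nodeAt d.2 r < H.1 := hH.node_lt d hd _ (nodeAt_mem hH hd r)

theorem toNet_ok {H : Hyp} (hH : HypOk H) : NetOk (toNet H) := by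
  constructor
  · intro u hu
    simp only [toNet, List.mem_append, List.mem_map, List.mem_range, List.mem_flatMap] at hu ⊢
    rcases hu with ⟨x, hx, rfl⟩ | ⟨d, hd, hu⟩
    · unfold nh; omega
    · obtain ⟨r, hr, hu⟩ := mem_hypJ.1 hu
      have := hH.lab_lt d hd
      simp only [incJ, List.mem_cons, List.not_mem_nil, or_false] at hu
      rcases hu with rfl | rfl | rfl <;> unfold nh ih <;> omega
  · intro l hl
    simp only [toNet, List.mem_flatMap] at hl ⊢
    obtain ⟨d, hd, hl⟩ := hl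
    obtain ⟨r, hr, hl⟩ := mem_hypL.1 hl
    have h1 := hH.lab_lt d hd
    have h2 := nodeAt_lt hH hd r
    simp only [incL, List.mem_cons, List.not_mem_nil, or_false] at hl
    rcases hl with rfl | rfl | rfl | rfl | rfl | rfl | rfl <;> simp only <;> unfold nh ih <;>
      first | omega | (unfold qh; omega)

/-! ### Satisfiable signings give solvable networks -/

theorem two_values : ∀ k : Option (Fin 3), ∃ p : Bool → Fin 3, p true ≠ p false ∧
    k ≠ some (p true) ∧ k ≠ some (p false) := by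
  intro k
  have : ∀ k : Option (Fin 3), ∃ a b : Fin 3, a ≠ b ∧ k ≠ some a ∧ k ≠ some b := by decide
  obtain ⟨a, b, h1, h2, h3⟩ := this k
  exact ⟨fun t => if t then a else b, by simpa using h1, by simpa using h2, by simpa using h3⟩

theorem avoid_two : ∀ a b : Fin 3, ∃ q : Fin 3, q ≠ a ∧ q ≠ b := by decide

theorem netYes_toNet {H : Hyp} (hH : HypOk H) (hS : SignSat H) : NetYes (toNet H) := by
  classical
  intro c κ
  -- values of nodes
  choose val hval1 hval2 hval3 using fun x : ℕ => two_values (κ (nh H.2.1 x))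
  -- gadgets
  let cc : ℕ → ℕ → ℕ → Fin 7 → Option (Fin 3) := fun e r x j =>
    c ((incL H.2.1 e r x).getD j (0, 0)).1 ((incL H.2.1 e r x).getD j (0, 0)).2
  let kk : ℕ → ℕ → Fin 3 → Option (Fin 3) := fun e r j => κ ((incJ e r).getD j 0)
  choose qs vs hgad using fun e r x : ℕ => gadget_yes (cc e r x) (kk e r)
  -- the hyperedge with a given label
  let hyp : ℕ → List ℕ := fun e =>
    if h : ∃ d ∈ H.2.2, d.1 = e then (Classical.choose h).2 else []
  have hhyp : ∀ d ∈ H.2.2, hyp d.1 = d.2 := by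
    intro d hd
    have hex : ∃ d' ∈ H.2.2, d'.1 = d.1 := ⟨d, hd, rfl⟩
    have hs := Classical.choose_spec hex
    have := hH.lab_inj _ hs.1 _ hd hs.2
    simp only [hyp, dif_pos hex, this]
  obtain ⟨v, hv⟩ := hS fun e r =>
    decide (val (nodeAt (hyp e) r) true = vs e r (nodeAt (hyp e) r))
  let yn : ℕ → Fin 3 := fun x => val x (v x)
  -- values of hyperedges
  have hq : ∀ e : ℕ, ∃ (q : Fin 3) (z : ℕ → ℕ → Fin 3), ∀ d ∈ H.2.2, d.1 = e → ∀ r < 3,
      GadOk (cc e r (nodeAt d.2 r)) (kk e r) (yn (nodeAt d.2 r)) q (z r) := by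
    intro e
    by_cases hex : ∃ d ∈ H.2.2, d.1 = e
    · obtain ⟨d, hd, rfl⟩ := hex
      obtain ⟨r0, x0, hr0, hx0⟩ := hv d hd
      rw [hhyp d hd] at hx0
      have hr3 : r0 < 3 := by
        have := (List.getElem?_eq_some_iff.1 hr0).1
        have := hH.len d hd
        omega
      have hnode : nodeAt d.2 r0 = x0 := by
        unfold nodeAt
        rw [List.getD_eq_getElem?_getD, hr0]
        rfl
      -- the incidence `r0` is safe
      have hsafe : yn (nodeAt d.2 r0) ≠ vs d.1 r0 (nodeAt d.2 r0) := by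
        rw [hnode] at hx0 ⊢
        simp only [yn]
        by_cases ht : val x0 true = vs d.1 r0 x0
        · have : v x0 = false := by
            simpa [ht] using hx0
          rw [this, ← ht]
          exact (hval1 x0).symm
        · have : v x0 = true := by
            simpa [ht] using hx0
          rw [this]
          exact ht
      obtain ⟨q, hq⟩ : ∃ q : Fin 3, ∀ r < 3,
          q ≠ qs d.1 r (nodeAt d.2 r) ∨ yn (nodeAt d.2 r) ≠ vs d.1 r (nodeAt d.2 r) := by
        interval_cases r0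
        · obtain ⟨q, h1, h2⟩ := avoid_two (qs d.1 1 (nodeAt d.2 1)) (qs d.1 2 (nodeAt d.2 2))
          refine ⟨q, fun r hr => ?_⟩
          interval_cases r
          · exact Or.inr hsafe
          · exact Or.inl h1
          · exact Or.inl h2
        · obtain ⟨q, h1, h2⟩ := avoid_two (qs d.1 0 (nodeAt d.2 0)) (qs d.1 2 (nodeAt d.2 2))
          refine ⟨q, fun r hr => ?_⟩
          interval_cases r
          · exact Or.inl h1
          · exact Or.inr hsafe
          · exact Or.inl h2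
        · obtain ⟨q, h1, h2⟩ := avoid_two (qs d.1 0 (nodeAt d.2 0)) (qs d.1 1 (nodeAt d.2 1))
          refine ⟨q, fun r hr => ?_⟩
          interval_cases r
          · exact Or.inl h1
          · exact Or.inl h2
          · exact Or.inr hsafe
      have hz : ∀ r : ℕ, ∃ z, r < 3 → GadOk (cc d.1 r (nodeAt d.2 r)) (kk d.1 r)
          (yn (nodeAt d.2 r)) q z := by
        intro r
        by_cases hr : r < 3
        · obtain ⟨z, hz⟩ := hgad d.1 r (nodeAt d.2 r) q (yn (nodeAt d.2 r)) (hq r hr)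
          exact ⟨z, fun _ => hz⟩
        · exact ⟨fun _ => 0, fun h => absurd h hr⟩
      choose z hz using hz
      refine ⟨q, z, fun d' hd' he r hr => ?_⟩
      have := hH.lab_inj _ hd' _ hd he
      subst this
      exact hz r hr
    · exact ⟨0, fun _ _ => 0, fun d hd he => absurd ⟨d, hd, he⟩ hex⟩
  choose Q Z hQZ using hq
  let y : ℕ → Fin 3 := fun u =>
    if u < 16 * H.2.1 then
      if u % 16 = 0 then Q (u / 16) else Z (u / 16) ((u % 16 - 1) / 5) ((u % 16 - 1) % 5)
    else yn (u - 16 * H.2.1)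
  have hyq : ∀ e < H.2.1, y (qh e) = Q e := by
    intro e he
    have h1 : qh e < 16 * H.2.1 := by unfold qh; omega
    have h2 : qh e % 16 = 0 := by unfold qh; omega
    have h3 : qh e / 16 = e := by unfold qh; omega
    simp only [y, if_pos h1, if_pos h2, h3]
  have hyi : ∀ e < H.2.1, ∀ r < 3, ∀ j < 5, y (ih e r j) = Z e r j := by
    intro e he r hr j hj
    simp only [y, if_pos (ih_lt he hr hj), if_neg (ih_ne hr hj), ih_div hr hj, ih_r hr hj,
      ih_j hr hj]
  have hyn : ∀ x, y (nh H.2.1 x) = yn x := by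
    intro x
    have h1 : ¬ nh H.2.1 x < 16 * H.2.1 := by unfold nh; omega
    have h2 : nh H.2.1 x - 16 * H.2.1 = x := by unfold nh; omega
    simp only [y, if_neg h1, h2]
  refine ⟨y, fun l hl => ?_, fun u hu => ?_⟩
  · simp only [toNet, List.mem_flatMap] at hl
    obtain ⟨d, hd, hl⟩ := hl
    obtain ⟨r, hr, hl⟩ := mem_hypL.1 hl
    have hG := hQZ d.1 d hd rfl r hr
    have he := hH.lab_lt d hd
    have i0 := hyi d.1 he r hr 0 (by norm_num)
    have i1 := hyi d.1 he r hr 1 (by norm_num)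
    have i2 := hyi d.1 he r hr 2 (by norm_num)
    have i3 := hyi d.1 he r hr 3 (by norm_num)
    have i4 := hyi d.1 he r hr 4 (by norm_num)
    simp only [incL, List.mem_cons, List.not_mem_nil, or_false] at hl
    rcases hl with rfl | rfl | rfl | rfl | rfl | rfl | rfl <;>
      simp only [i0, i1, i2, i3, i4, hyn, hyq d.1 he]
    · exact hG.l0
    · exact hG.l1
    · exact hG.l2
    · exact hG.l3
    · exact hG.l4
    · exact hG.l5
    · exact hG.l6
  · simp only [toNet, List.mem_append, List.mem_map, List.mem_range, List.mem_flatMap] at hu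
    rcases hu with ⟨x, -, rfl⟩ | ⟨d, hd, hu⟩
    · rw [hyn]
      simp only [yn]
      cases v x
      · exact hval3 x
      · exact hval2 x
    · obtain ⟨r, hr, hu⟩ := mem_hypJ.1 hu
      have hG := hQZ d.1 d hd rfl r hr
      have he := hH.lab_lt d hd
      simp only [incJ, List.mem_cons, List.not_mem_nil, or_false] at hu
      rcases hu with rfl | rfl | rfl
      · rw [hyi d.1 he r hr 0 (by norm_num)]
        exact hG.k0
      · rw [hyi d.1 he r hr 1 (by norm_num)]
        exact hG.k1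
      · rw [hyi d.1 he r hr 3 (by norm_num)]
        exact hG.k3

/-! ### Unsatisfiable signings -/

/-- The types of the hubs. -/
def hty (B u : ℕ) : Fin 3 :=
  if u < 16 * B then
    if u % 16 = 0 then 0 else
      if (u % 16 - 1) % 5 = 0 then 1 else if (u % 16 - 1) % 5 = 1 then 0 else
        if (u % 16 - 1) % 5 = 2 then 1 else if (u % 16 - 1) % 5 = 3 then 0 else 2
  else 0

theorem hty_q {B e : ℕ} (he : e < B) : hty B (qh e) = 0 := by
  have h1 : qh e < 16 * B := by unfold qh; omega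
  have h2 : qh e % 16 = 0 := by unfold qh; omega
  simp only [hty, if_pos h1, if_pos h2]

theorem hty_i {B e r j : ℕ} (he : e < B) (hr : r < 3) (hj : j < 5) :
    hty B (ih e r j) = if j = 0 then 1 else if j = 1 then 0 else if j = 2 then 1 else
      if j = 3 then 0 else 2 := by
  simp only [hty, if_pos (ih_lt he hr hj), if_neg (ih_ne hr hj), ih_j hr hj]

theorem hty_n (B x : ℕ) : hty B (nh B x) = 0 := by
  have h1 : ¬ nh B x < 16 * B := by unfold nh; omega
  simp only [hty, if_neg h1]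

theorem hty_link {H : Hyp} (hH : HypOk H) : ∀ l ∈ (toNet H).2.2, hty H.2.1 l.1 ≠ hty H.2.1 l.2 := by
  intro l hl
  simp only [toNet, List.mem_flatMap] at hl
  obtain ⟨d, hd, hl⟩ := hl
  obtain ⟨r, hr, hl⟩ := mem_hypL.1 hl
  have he := hH.lab_lt d hd
  simp only [incL, List.mem_cons, List.not_mem_nil, or_false] at hl
  rcases hl with rfl | rfl | rfl | rfl | rfl | rfl | rfl <;>
    simp only [hty_q he, hty_n, hty_i he hr (show 0 < 5 by norm_num),
      hty_i he hr (show 1 < 5 by norm_num), hty_i he hr (show 2 < 5 by norm_num),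
      hty_i he hr (show 3 < 5 by norm_num), hty_i he hr (show 4 < 5 by norm_num)] <;>
    decide

/-- The value of a sign. -/
def bit (b : Bool) : Fin 3 := if b then 1 else 0

theorem exists_labels {H : Hyp} (hH : HypOk H) (hS : ¬ SignSat H) :
    ∃ κ : ℕ → Fin 3, ∀ y : ℕ → Fin 3,
      ¬ ((∀ l ∈ (toNet H).2.2, y l.1 ≠ y l.2) ∧ ∀ u ∈ (toNet H).2.1, y u ≠ κ u) := by
  classical
  unfold SignSat at hS
  push Not at hS
  obtain ⟨s, hs⟩ := hS
  let hyp : ℕ → List ℕ := fun e =>
    if h : ∃ d ∈ H.2.2, d.1 = e then (Classical.choose h).2 else []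
  have hhyp : ∀ d ∈ H.2.2, hyp d.1 = d.2 := by
    intro d hd
    have hex : ∃ d' ∈ H.2.2, d'.1 = d.1 := ⟨d, hd, rfl⟩
    have hs := Classical.choose_spec hex
    have := hH.lab_inj _ hs.1 _ hd hs.2
    simp only [hyp, dif_pos hex, this]
  let s' : ℕ → ℕ → Bool := fun e r => s e (if r < (hyp e).length then r else 1)
  let κ : ℕ → Fin 3 := fun u =>
    if u < 16 * H.2.1 then
      if (u % 16 - 1) % 5 = 0 then
        k1 (Fin.ofNat 3 ((u % 16 - 1) / 5)) (bit (s' (u / 16) ((u % 16 - 1) / 5)))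
      else if (u % 16 - 1) % 5 = 1 then
        k2 (Fin.ofNat 3 ((u % 16 - 1) / 5)) (bit (s' (u / 16) ((u % 16 - 1) / 5)))
      else Fin.ofNat 3 ((u % 16 - 1) / 5)
    else 2
  have hκ : ∀ e < H.2.1, ∀ r < 3, κ (ih e r 0) = k1 (Fin.ofNat 3 r) (bit (s' e r)) ∧
      κ (ih e r 1) = k2 (Fin.ofNat 3 r) (bit (s' e r)) ∧ κ (ih e r 3) = Fin.ofNat 3 r := by
    intro e he r hr
    have h1 : ∀ j < 5, ih e r j < 16 * H.2.1 := fun j hj => ih_lt he hr hj
    have h3 : ∀ j < 5, ih e r j / 16 = e := fun j hj => ih_div hr hj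
    have h4 : ∀ j < 5, (ih e r j % 16 - 1) / 5 = r := fun j hj => ih_r hr hj
    have h5 : ∀ j < 5, (ih e r j % 16 - 1) % 5 = j := fun j hj => ih_j hr hj
    refine ⟨?_, ?_, ?_⟩
    · simp only [κ, if_pos (h1 0 (by norm_num)), h3 0 (by norm_num), h4 0 (by norm_num),
        h5 0 (by norm_num), if_true]
    · simp only [κ, if_pos (h1 1 (by norm_num)), h3 1 (by norm_num), h4 1 (by norm_num),
        h5 1 (by norm_num), one_ne_zero, if_false, if_true]
    · simp only [κ, if_pos (h1 3 (by norm_num)), h4 3 (by norm_num),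
        h5 3 (by norm_num)]
      norm_num
  have hκn : ∀ x, κ (nh H.2.1 x) = 2 := by
    intro x
    have h1 : ¬ nh H.2.1 x < 16 * H.2.1 := by unfold nh; omega
    simp only [κ, if_neg h1]
  refine ⟨κ, fun y ⟨hy1, hy2⟩ => ?_⟩
  obtain ⟨d, hd, hall⟩ := hs fun x => decide (y (nh H.2.1 x) = 1)
  have he := hH.lab_lt d hd
  -- the node values
  have hnode : ∀ r < 3, y (nh H.2.1 (nodeAt d.2 r)) = bit (s' d.1 r) := by
    intro r hr
    have hx := nodeAt_lt hH hd r
    have h2 : y (nh H.2.1 (nodeAt d.2 r)) ≠ 2 := by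
      have := hy2 (nh H.2.1 (nodeAt d.2 r)) (by
        simp only [toNet, List.mem_append, List.mem_map, List.mem_range]
        exact Or.inl ⟨_, hx, rfl⟩)
      rwa [hκn] at this
    have h3 : decide (y (nh H.2.1 (nodeAt d.2 r)) = 1) = s' d.1 r := by
      simp only [s']
      rw [hhyp d hd]
      apply hall
      have hlen := hH.len d hd
      split_ifs with h
      · unfold nodeAt
        rw [List.getD_eq_getElem _ _ h, List.getElem?_eq_getElem h]
      · unfold nodeAt
        have h1 : 1 < d.2.length := by omega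
        rw [List.getD_eq_default _ _ (by omega), List.getD_eq_getElem _ _ h1,
          List.getElem?_eq_getElem h1]
    rw [← h3]
    generalize y (nh H.2.1 (nodeAt d.2 r)) = w at h2 ⊢
    revert h2
    revert w
    decide
  -- the value of the hyperedge
  obtain ⟨r, hr, hrq⟩ : ∃ r : ℕ, r < 3 ∧ Fin.ofNat 3 r = y (qh d.1) :=
    ⟨(y (qh d.1)).val, (y (qh d.1)).isLt, by simp⟩
  obtain ⟨e1, e2, e3⟩ := hκ d.1 he r hr
  have hmemJ : ∀ u ∈ incJ d.1 r, y u ≠ κ u := by
    intro u hu
    apply hy2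
    simp only [toNet, List.mem_append, List.mem_flatMap]
    exact Or.inr ⟨d, hd, mem_hypJ.2 ⟨r, hr, hu⟩⟩
  have hmemL : ∀ l ∈ incL H.2.1 d.1 r (nodeAt d.2 r), y l.1 ≠ y l.2 := by
    intro l hl
    apply hy1
    simp only [toNet, List.mem_flatMap]
    exact ⟨d, hd, mem_hypL.2 ⟨r, hr, hl⟩⟩
  have j0 := hmemJ (ih d.1 r 0) (by simp [incJ])
  have j1 := hmemJ (ih d.1 r 1) (by simp [incJ])
  have j3 := hmemJ (ih d.1 r 3) (by simp [incJ])
  rw [e1, hrq] at j0
  rw [e2, hrq] at j1
  rw [e3, hrq] at j3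
  have l0 := hmemL (nh H.2.1 (nodeAt d.2 r), ih d.1 r 0) (by simp [incL])
  have l1 := hmemL (ih d.1 r 0, ih d.1 r 1) (by simp [incL])
  have l2 := hmemL (ih d.1 r 1, ih d.1 r 2) (by simp [incL])
  have l3 := hmemL (ih d.1 r 2, ih d.1 r 3) (by simp [incL])
  have l4 := hmemL (ih d.1 r 2, ih d.1 r 4) (by simp [incL])
  have l5 := hmemL (ih d.1 r 3, ih d.1 r 4) (by simp [incL])
  have l6 := hmemL (ih d.1 r 4, qh d.1) (by simp [incL])
  simp only at l0 l1 l2 l3 l4 l5 l6
  rw [hnode r hr] at l0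
  exact gadget_no l0 l1 l2 l3 l4 l5 l6 j0 j1 j3

end Pool.Agent.MP_c07eba.K3
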