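import Mathlib
import Pool.Agent.Lib.MP_c07eba_lc.Defs
import Pool.Agent.Lib.CookLevin.Hard

section
/-!
# Packings of size 3: states, and vertices of degree two

A state of a vertex with list `L` is an injective map from the three columns to `L`.
-/
namespace Pool.Agent.MP_c07eba.K3

open Finset Function

/-- Two states are swapped if they interchange two colours on two columns. -/
def Swapped (s t : Fin 3 → ℕ) : Prop := ∃ i j, i ≠ j ∧ s i = t j ∧ s j = t i

/-- Auxiliary check for `core_path`: an injective partial map (3 = undefined). -/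
def okc (a b c : Fin 4) : Bool := (a != b || a == 3) && (a != c || a == 3) && (b != c || b == 3)

/-- Auxiliary check for `core_path`: no swap. -/
def nsw (a b c d : Fin 4) : Bool := !(a == d && b == c && a != 3 && b != 3)

/-- Auxiliary check for `core_path`: distinct values which avoid the given ones. -/
def good (p q r : Fin 3) (a b c d e f : Fin 4) : Bool :=
  p != q && p != r && q != r && p.castSucc != a && q.castSucc != b && r.castSucc != c &&
    p.castSucc != d && q.castSucc != e && r.castSucc != f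

/-- The combinatorial core of `exists_path`. -/
theorem core_path : ∀ a b c d e f : Fin 4,
    (okc a b c && okc d e f && nsw a b d e && nsw a c d f && nsw b c e f) = true →
    ∃ p q r : Fin 3, good p q r a b c d e f = true := by
  decide +kernel

/-- The index of a colour in an enumerated list (3 if it is not in the list). -/
noncomputable def idx {P : Finset ℕ} (e : Fin 3 ≃ P) (x : ℕ) : Fin 4 :=
  open Classical in if h : x ∈ P then (e.symm ⟨x, h⟩).castSucc else 3

theorem idx_inj {P : Finset ℕ} (e : Fin 3 ≃ P) {x y : ℕ} (h : idx e x = idx e y)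
    (h3 : idx e x ≠ 3) : x = y := by
  unfold idx at h h3
  split_ifs at h h3 with h1 h2 h2
  · have := e.symm.injective (Fin.castSucc_injective _ h)
    exact congrArg Subtype.val this
  · exact absurd h (by
      intro h'
      have := congrArg Fin.val h'
      simp only [Fin.val_castSucc] at this
      have h4 := (e.symm ⟨x, h1⟩).isLt
      have h5 : ((3 : Fin 4) : ℕ) = 3 := rfl
      omega)
  · exact absurd rfl h3
  · exact absurd rfl h3

theorem ne_of_idx {P : Finset ℕ} (e : Fin 3 ≃ P) {x : ℕ} {k : Fin 3}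
    (h : k.castSucc ≠ idx e x) : (e k : ℕ) ≠ x := by
  rintro rfl
  apply h
  unfold idx
  rw [dif_pos (e k).2]
  simp

theorem okc_idx {P : Finset ℕ} (e : Fin 3 ≃ P) {s : Fin 3 → ℕ} (hs : Injective s) :
    okc (idx e (s 0)) (idx e (s 1)) (idx e (s 2)) = true := by
  have key : ∀ i j : Fin 3, i ≠ j → (idx e (s i) != idx e (s j) || idx e (s i) == 3) = true := by
    intro i j hij
    simp only [Bool.or_eq_true, bne_iff_ne, ne_eq, beq_iff_eq]
    by_contra hc
    push Not at hc
    exact hij (hs (idx_inj e hc.1 hc.2))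
  simp only [okc, Bool.and_eq_true]
  exact ⟨⟨key 0 1 (by decide), key 0 2 (by decide)⟩, key 1 2 (by decide)⟩

theorem nsw_idx {P : Finset ℕ} (e : Fin 3 ≃ P) {s t : Fin 3 → ℕ} (h : ¬ Swapped s t)
    (i j : Fin 3) (hij : i ≠ j) :
    nsw (idx e (s i)) (idx e (s j)) (idx e (t i)) (idx e (t j)) = true := by
  simp only [nsw, Bool.not_eq_true', Bool.and_eq_false_iff, beq_eq_false_iff_ne, bne_eq_false_iff_eq,
    ne_eq]
  by_contra hc
  push Not at hc
  exact h ⟨i, j, hij, idx_inj e hc.1.1.1 hc.1.2, idx_inj e hc.1.1.2 hc.2⟩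

/-- A vertex of degree two can be coloured unless the states of its neighbours are swapped. -/
theorem exists_path {s t : Fin 3 → ℕ} (hs : Injective s) (ht : Injective t)
    (h : ¬ Swapped s t) {P : Finset ℕ} (hP : P.card = 3) :
    ∃ p : Fin 3 → ℕ, Injective p ∧ (∀ i, p i ∈ P) ∧ ∀ i, p i ≠ s i ∧ p i ≠ t i := by
  obtain ⟨e⟩ : Nonempty (Fin 3 ≃ P) := ⟨(Finset.equivFinOfCardEq hP).symm⟩
  obtain ⟨p, q, r, hg⟩ := core_path (idx e (s 0)) (idx e (s 1)) (idx e (s 2)) (idx e (t 0))
    (idx e (t 1)) (idx e (t 2)) (by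
      rw [okc_idx e hs, okc_idx e ht, nsw_idx e h 0 1 (by decide), nsw_idx e h 0 2 (by decide),
        nsw_idx e h 1 2 (by decide)]
      rfl)
  simp only [good, Bool.and_eq_true, bne_iff_ne] at hg
  obtain ⟨⟨⟨⟨⟨⟨⟨⟨hpq, hpr⟩, hqr⟩, h0⟩, h1⟩, h2⟩, h3⟩, h4⟩, h5⟩ := hg
  have inj : ∀ {a b : Fin 3}, a ≠ b → (e a : ℕ) ≠ e b := fun hab h' =>
    hab (e.injective (Subtype.ext h'))
  refine ⟨![(e p : ℕ), e q, e r], ?_, ?_, ?_⟩
  · intro i j hij
    fin_cases i <;> fin_cases j <;> simp at hij ⊢
    · exact absurd hij hpq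
    · exact absurd hij hpr
    · exact absurd hij.symm hpq
    · exact absurd hij hqr
    · exact absurd hij.symm hpr
    · exact absurd hij.symm hqr
  · intro i
    fin_cases i
    · exact (e p).2
    · exact (e q).2
    · exact (e r).2
  · intro i
    fin_cases i
    · exact ⟨ne_of_idx e h0, ne_of_idx e h3⟩
    · exact ⟨ne_of_idx e h1, ne_of_idx e h4⟩
    · exact ⟨ne_of_idx e h2, ne_of_idx e h5⟩

/-! ### Base states -/

theorem no_swap_aux : ∀ i j x : Fin 3, i ≠ j → i = j + x → j = i + x → False := by decide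

theorem exists_base (ρ : Fin 3 → ℕ) (hρ : Injective ρ) (L : Finset ℕ) (hL : L.card = 3) :
    ∃ β : Fin 3 → ℕ, Injective β ∧ (∀ i, β i ∈ L) ∧ ∀ i, ρ i ∈ L → β i = ρ i := by
  classical
  obtain ⟨g, hg⟩ := Finset.exists_equiv_extend_of_card_eq (α := Fin 3) (t := L)
    (by simp [hL]) (s := univ.filter fun i => ρ i ∈ L) (f := ρ)
    (by intro x hx
        obtain ⟨i, hi, rfl⟩ := Finset.mem_image.1 hx
        exact (Finset.mem_filter.1 hi).2)
    (hρ.injOn)
  refine ⟨fun i => g i, fun i j hij => g.injective (Subtype.ext hij), fun i => (g i).2,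
    fun i hi => hg i (by simp [hi])⟩

/-- The base state of a list, which agrees with `ρ` on the common colours. -/
noncomputable def base (ρ : Fin 3 → ℕ) (L : Finset ℕ) : Fin 3 → ℕ :=
  open Classical in if h : Injective ρ ∧ L.card = 3 then
    Classical.choose (exists_base ρ h.1 L h.2) else fun i => i

/-- The states of a list which are used: the cyclic shifts of the base state. -/
noncomputable def st (ρ : Fin 3 → ℕ) (L : Finset ℕ) (x : Fin 3) : Fin 3 → ℕ :=
  fun i => base ρ L (i + x)

section
variable {ρ : Fin 3 → ℕ} (hρ : Injective ρ) {L L' : Finset ℕ} (hL : L.card = 3)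
  (hL' : L'.card = 3)
include hρ hL

theorem base_inj : Injective (base ρ L) := by
  unfold base
  rw [dif_pos ⟨hρ, hL⟩]
  exact (Classical.choose_spec (exists_base ρ hρ L hL)).1

theorem base_mem (i : Fin 3) : base ρ L i ∈ L := by
  unfold base
  rw [dif_pos ⟨hρ, hL⟩]
  exact (Classical.choose_spec (exists_base ρ hρ L hL)).2.1 i

theorem base_agree (i : Fin 3) (hi : ρ i ∈ L) : base ρ L i = ρ i := by
  unfold base
  rw [dif_pos ⟨hρ, hL⟩]
  exact (Classical.choose_spec (exists_base ρ hρ L hL)).2.2 i hi

theorem st_inj (x : Fin 3) : Injective (st ρ L x) := fun _ _ h =>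
  add_right_cancel (base_inj hρ hL h)

theorem st_mem (x i : Fin 3) : st ρ L x i ∈ L := base_mem hρ hL _

/-- A neighbour of the root may use every nontrivial shift. -/
theorem st_ne_root {x : Fin 3} (hx : x ≠ 0) (i : Fin 3) : ρ i ≠ st ρ L x i := by
  intro h
  have hm : ρ i ∈ L := by rw [h]; exact st_mem hρ hL x i
  have h1 := base_agree hρ hL i hm
  have h2 : base ρ L i = base ρ L (i + x) := h1.trans h
  have := base_inj hρ hL h2
  exact hx (by simpa using this.symm)

/-- The root is never swapped with a shift. -/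
theorem not_swapped_root (x : Fin 3) : ¬ Swapped ρ (st ρ L x) := by
  rintro ⟨i, j, hij, h1, h2⟩
  have m1 : ρ i ∈ L := by rw [h1]; exact st_mem hρ hL x j
  have m2 : ρ j ∈ L := by rw [h2]; exact st_mem hρ hL x i
  have e1 : i = j + x := base_inj hρ hL ((base_agree hρ hL i m1).trans h1)
  have e2 : j = i + x := base_inj hρ hL ((base_agree hρ hL j m2).trans h2)
  exact no_swap_aux i j x hij e1 e2

end

theorem swapped_shift {ρ : Fin 3 → ℕ} {L L' : Finset ℕ} {x x' : Fin 3}
    (h : Swapped (st ρ L x) (st ρ L' x')) : Swapped (base ρ L) (st ρ L' (x' - x)) := by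
  obtain ⟨i, j, hij, h1, h2⟩ := h
  refine ⟨i + x, j + x, fun h => hij (add_right_cancel h), ?_, ?_⟩
  · simp only [st] at h1 ⊢
    rw [h1]
    congr 1
    abel
  · simp only [st] at h2 ⊢
    rw [h2]
    congr 1
    abel

/-- At most one difference is swapped. -/
theorem swapped_unique {ρ : Fin 3 → ℕ} (hρ : Injective ρ) {L L' : Finset ℕ} (hL : L.card = 3)
    (hL' : L'.card = 3) {d d' : Fin 3} (h : Swapped (base ρ L) (st ρ L' d))
    (h' : Swapped (base ρ L) (st ρ L' d')) : d = d' := by
  obtain ⟨i, j, hij, h1, h2⟩ := h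
  obtain ⟨i', j', hij', h1', h2'⟩ := h'
  have inj := base_inj hρ hL
  have inj' := base_inj hρ hL'
  by_cases hLL : L = L'
  · subst hLL
    simp only [st] at h1 h2
    have e1 := inj h1
    have e2 := inj h2
    exact (no_swap_aux i j d hij e1 e2).elim
  · -- the colours at `i, j` are the only common colours
    have hcard : (L ∩ L').card ≤ 2 := by
      by_contra hc
      push Not at hc
      have h3 : L ∩ L' = L := Finset.eq_of_subset_of_card_le Finset.inter_subset_left (by omega)
      have h4 : L ∩ L' = L' := Finset.eq_of_subset_of_card_le Finset.inter_subset_right (by omega)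
      exact hLL (h3.symm.trans h4)
    have mem : ∀ {a b : Fin 3} {e : Fin 3}, base ρ L a = st ρ L' e b → base ρ L a ∈ L ∩ L' :=
      fun {a b e} hab => Finset.mem_inter.2 ⟨base_mem hρ hL a, by rw [hab]; exact st_mem hρ hL' e b⟩
    have hne : base ρ L i ≠ base ρ L j := fun h => hij (inj h)
    have key : ∀ {a : Fin 3}, base ρ L a ∈ L ∩ L' → a = i ∨ a = j := by
      intro a ha
      by_contra hc
      push Not at hc
      have hsub : ({base ρ L a, base ρ L i, base ρ L j} : Finset ℕ) ⊆ L ∩ L' := by
        intro y hy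
        simp only [Finset.mem_insert, Finset.mem_singleton] at hy
        rcases hy with rfl | rfl | rfl
        · exact ha
        · exact mem h1
        · exact mem h2
      have := Finset.card_le_card hsub
      rw [Finset.card_insert_of_notMem, Finset.card_pair hne] at this
      · omega
      · simp only [Finset.mem_insert, Finset.mem_singleton, not_or]
        exact ⟨fun h => hc.1 (inj h), fun h => hc.2 (inj h)⟩
    have k1 := key (mem h1')
    have k2 := key (mem h2')
    simp only [st] at h1 h2 h1' h2'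
    rcases k1 with rfl | rfl <;> rcases k2 with rfl | rfl
    · exact absurd rfl hij'
    · have := inj' (h1.symm.trans h1')
      exact add_left_cancel this
    · have := inj' (h1.symm.trans h2')
      exact add_left_cancel this
    · exact absurd rfl hij'

/-- The difference which is forbidden by a vertex of degree two. -/
noncomputable def bad (ρ : Fin 3 → ℕ) (L L' : Finset ℕ) : Option (Fin 3) :=
  open Classical in
  if h : ∃ d, Swapped (base ρ L) (st ρ L' d) then some (Classical.choose h) else none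

theorem bad_of_swapped {ρ : Fin 3 → ℕ} (hρ : Injective ρ) {L L' : Finset ℕ} (hL : L.card = 3)
    (hL' : L'.card = 3) {x x' : Fin 3} (h : Swapped (st ρ L x) (st ρ L' x')) :
    bad ρ L L' = some (x' - x) := by
  have h1 := swapped_shift h
  have hex : ∃ d, Swapped (base ρ L) (st ρ L' d) := ⟨_, h1⟩
  unfold bad
  rw [dif_pos hex]
  exact congrArg some (swapped_unique hρ hL hL' (Classical.choose_spec hex) h1)

/-- Two adjacent neighbours of the root. -/
theorem exists_fan {ρ : Fin 3 → ℕ} (hρ : Injective ρ) {L L' : Finset ℕ} (hL : L.card = 3)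
    (hL' : L'.card = 3) :
    ∃ x x' : Fin 3, x ≠ 0 ∧ x' ≠ 0 ∧ ∀ i, st ρ L x i ≠ st ρ L' x' i := by
  have inj := base_inj hρ hL
  have inj' := base_inj hρ hL'
  -- some difference has no conflict
  obtain ⟨d, hd⟩ : ∃ d : Fin 3, ∀ i, base ρ L i ≠ st ρ L' d i := by
    by_contra hc
    push Not at hc
    choose f hf using hc
    have hfi : Injective f := by
      intro a b hab
      have h1 := hf a
      have h2 := hf b
      rw [hab] at h1
      simp only [st] at h1 h2
      have := inj' (h1.symm.trans h2)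
      exact add_left_cancel this
    have hfs : Surjective f := Finite.surjective_of_injective hfi
    by_cases hLL : L = L'
    · subst hLL
      have h1 := hf 1
      simp only [st] at h1
      have := inj h1
      simp at this
    · apply hLL
      apply Finset.eq_of_subset_of_card_le _ (by omega)
      intro y hy
      have : y ∈ Finset.univ.image (base ρ L) := by
        have hsub : Finset.univ.image (base ρ L) ⊆ L := by
          intro z hz
          obtain ⟨i, -, rfl⟩ := Finset.mem_image.1 hz
          exact base_mem hρ hL i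
        have := Finset.eq_of_subset_of_card_le hsub (by
          rw [Finset.card_image_of_injective _ inj]; simp [hL])
        rw [this]; exact hy
      obtain ⟨i, -, rfl⟩ := Finset.mem_image.1 this
      obtain ⟨a, rfl⟩ := hfs i
      rw [hf a]
      exact st_mem hρ hL' _ _
  have hx : ∃ x x' : Fin 3, x ≠ 0 ∧ x' ≠ 0 ∧ x' = x + d := by
    clear hd
    revert d
    decide
  obtain ⟨x, x', h1, h2, rfl⟩ := hx
  refine ⟨x, x + d, h1, h2, fun i hi => hd (i + x) ?_⟩
  simp only [st] at hi ⊢
  rw [hi, add_assoc]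

/-- A forcer can always be coloured. -/
theorem exists_forcer {ρ : Fin 3 → ℕ} (hρ : Injective ρ) {L L' : Finset ℕ} (hL : L.card = 3)
    (hL' : L'.card = 3) (x : Fin 3) :
    ∃ x' : Fin 3, x' ≠ 0 ∧ ¬ Swapped (st ρ L x) (st ρ L' x') := by
  by_contra hc
  push Not at hc
  have h1 := bad_of_swapped hρ hL hL' (hc 1 (by decide))
  have h2 := bad_of_swapped hρ hL hL' (hc 2 (by decide))
  rw [h1] at h2
  have h3 := Option.some.inj h2
  have := sub_left_injective h3
  exact absurd this (by decide)

end Pool.Agent.MP_c07eba.K3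
end

section
/-!
# The graph of a network, and its packings for all list assignments
-/
namespace Pool.Agent.MP_c07eba.K3

open Finset Function

/-- A network `(n, (J, E))`: hubs `< n`, the list `J` of anchored hubs and the list `E` of links. -/
abbrev Net : Type := ℕ × (List ℕ × List (ℕ × ℕ))

/-- Vertex `k` of the block of the hub `u`. -/
def vb (u k : ℕ) : ℕ := 9 * u + k + 1

/-- The edges of the forcer of a hub. -/
def forcE (u : ℕ) : List (ℕ × ℕ) :=
  [(vb u 0, vb u 3), (vb u 1, vb u 3), (0, vb u 1), (0, vb u 2), (vb u 1, vb u 2)]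

/-- The edges of the anchor of a hub. -/
def anchE (u : ℕ) : List (ℕ × ℕ) :=
  [(vb u 0, vb u 8), (vb u 4, vb u 8), (0, vb u 4), (0, vb u 5), (0, vb u 6), (0, vb u 7),
    (vb u 5, vb u 4), (vb u 5, vb u 6), (vb u 4, vb u 7)]

/-- The edges of a link. -/
def linkE (n : ℕ) (p : (ℕ × ℕ) × ℕ) : List (ℕ × ℕ) :=
  [(vb p.1.1 0, vb n p.2), (vb p.1.2 0, vb n p.2)]

/-- The graph of a network. -/
def netGraph (M : Net) : GraphInput :=
  ⟨vb M.1 M.2.2.length,
    (List.range M.1).flatMap forcE ++ (M.2.1.flatMap anchE ++ M.2.2.zipIdx.flatMap (linkE M.1))⟩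

/-- Well-formed networks. -/
structure NetOk (M : Net) : Prop where
  anch : ∀ u ∈ M.2.1, u < M.1
  link : ∀ l ∈ M.2.2, l.1 < M.1 ∧ l.2 < M.1

/-- The network has a solution for all labels of the links and of the anchored hubs. -/
def NetYes (M : Net) : Prop :=
  ∀ (c : ℕ → ℕ → Option (Fin 3)) (κ : ℕ → Option (Fin 3)), ∃ y : ℕ → Fin 3,
    (∀ l ∈ M.2.2, c l.1 l.2 ≠ some (y l.2 - y l.1)) ∧ ∀ u ∈ M.2.1, κ u ≠ some (y u)

theorem packable_of_states (X : GraphInput)
    (h : ∀ L : ℕ → Finset ℕ, (∀ v, (L v).card = 3) → ∃ s : ℕ → Fin 3 → ℕ,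
      (∀ v, Injective (s v)) ∧ (∀ v i, s v i ∈ L v) ∧ ∀ e ∈ X.edges, ∀ i, s e.1 i ≠ s e.2 i) :
    Packable X.graph 3 := by
  intro L hL
  obtain ⟨s, h1, h2, h3⟩ := h (fun v => if hv : v < X.n then L ⟨v, hv⟩ else {0, 1, 2}) (by
    intro v
    split_ifs with hv
    · exact hL _
    · rfl)
  refine ⟨fun i v => s v i, fun i v => ?_, fun i u v huv => ?_, fun i j hij v hv => ?_⟩
  · have := h2 v i
    simpa [v.2] using this
  · rcases huv.2 with h | h
    · exact h3 _ h i
    · exact (h3 _ h i).symm
  · exact hij (h1 _ hv)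

/-- The state of a vertex of degree two. -/
noncomputable def pth (P : Finset ℕ) (s t : Fin 3 → ℕ) : Fin 3 → ℕ :=
  open Classical in
  if h : Injective s ∧ Injective t ∧ ¬ Swapped s t ∧ P.card = 3 then
    Classical.choose (exists_path h.1 h.2.1 h.2.2.1 h.2.2.2) else base (fun i => i) P

theorem pth_inj {P : Finset ℕ} (hP : P.card = 3) (s t : Fin 3 → ℕ) : Injective (pth P s t) := by
  unfold pth
  split_ifs with h
  · exact (Classical.choose_spec (exists_path h.1 h.2.1 h.2.2.1 h.2.2.2)).1
  · exact base_inj (fun i j hij => Fin.ext hij) hP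

theorem pth_mem {P : Finset ℕ} (hP : P.card = 3) (s t : Fin 3 → ℕ) (i : Fin 3) :
    pth P s t i ∈ P := by
  unfold pth
  split_ifs with h
  · exact (Classical.choose_spec (exists_path h.1 h.2.1 h.2.2.1 h.2.2.2)).2.1 i
  · exact base_mem (fun i j hij => Fin.ext hij) hP i

theorem pth_ne {P : Finset ℕ} (hP : P.card = 3) {s t : Fin 3 → ℕ} (hs : Injective s)
    (ht : Injective t) (hst : ¬ Swapped s t) (i : Fin 3) :
    s i ≠ pth P s t i ∧ t i ≠ pth P s t i := by
  have h : Injective s ∧ Injective t ∧ ¬ Swapped s t ∧ P.card = 3 := ⟨hs, ht, hst, hP⟩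
  unfold pth
  rw [dif_pos h]
  have := (Classical.choose_spec (exists_path h.1 h.2.1 h.2.2.1 h.2.2.2)).2.2 i
  exact ⟨this.1.symm, this.2.symm⟩

section
variable (ρ : Fin 3 → ℕ) (L : ℕ → Finset ℕ) (y xw xb x2 : ℕ → Fin 3)

/-- The state of the hub `u`. -/
noncomputable def hubS (u : ℕ) : Fin 3 → ℕ := st ρ (L (vb u 0)) (y u)

/-- The states in the block of a hub. -/
noncomputable def blkS (u : ℕ) : ℕ → Fin 3 → ℕ
  | 0 => hubS ρ L y u
  | 1 => st ρ (L (vb u 1)) (xw u)
  | 2 => pth (L (vb u 2)) ρ (st ρ (L (vb u 1)) (xw u))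
  | 3 => pth (L (vb u 3)) (hubS ρ L y u) (st ρ (L (vb u 1)) (xw u))
  | 4 => st ρ (L (vb u 4)) (xb u)
  | 5 => st ρ (L (vb u 5)) (x2 u)
  | 6 => pth (L (vb u 6)) ρ (st ρ (L (vb u 5)) (x2 u))
  | 7 => pth (L (vb u 7)) ρ (st ρ (L (vb u 4)) (xb u))
  | 8 => pth (L (vb u 8)) (hubS ρ L y u) (st ρ (L (vb u 4)) (xb u))
  | k + 9 => base (fun i => i) (L (vb u (k + 9)))

/-- The states of all vertices. -/
noncomputable def allS (M : Net) (v : ℕ) : Fin 3 → ℕ :=
  if v = 0 then ρ else
    if v ≤ 9 * M.1 then blkS ρ L y xw xb x2 ((v - 1) / 9) ((v - 1) % 9) else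
      pth (L v) (hubS ρ L y (M.2.2.getD (v - 1 - 9 * M.1) (0, 0)).1)
        (hubS ρ L y (M.2.2.getD (v - 1 - 9 * M.1) (0, 0)).2)

variable {ρ L}

theorem blkS_inj (hρ : Injective ρ) (hL : ∀ v, (L v).card = 3) (u k : ℕ) :
    Injective (blkS ρ L y xw xb x2 u k) := by
  rcases k with _ | _ | _ | _ | _ | _ | _ | _ | _ | k <;> simp only [blkS, hubS] <;>
    first
    | exact st_inj hρ (hL _) _
    | exact pth_inj (hL _) _ _
    | exact base_inj (fun i j hij => Fin.ext hij) (hL _)

theorem blkS_mem (hρ : Injective ρ) (hL : ∀ v, (L v).card = 3) (u k : ℕ) (i : Fin 3) :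
    blkS ρ L y xw xb x2 u k i ∈ L (vb u k) := by
  rcases k with _ | _ | _ | _ | _ | _ | _ | _ | _ | k <;> simp only [blkS, hubS] <;>
    first
    | exact st_mem hρ (hL _) _ _
    | exact pth_mem (hL _) _ _ _
    | exact base_mem (fun i j hij => Fin.ext hij) (hL _) _

theorem allS_inj (hρ : Injective ρ) (hL : ∀ v, (L v).card = 3) (M : Net) (v : ℕ) :
    Injective (allS ρ L y xw xb x2 M v) := by
  unfold allS
  split_ifs
  · exact hρ
  · exact blkS_inj _ _ _ _ hρ hL _ _
  · exact pth_inj (hL _) _ _

theorem allS_mem (hρ : Injective ρ) (hL : ∀ v, (L v).card = 3) (h0 : ∀ i, ρ i ∈ L 0) (M : Net)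
    (v : ℕ) (i : Fin 3) : allS ρ L y xw xb x2 M v i ∈ L v := by
  unfold allS
  split_ifs with h1 h2
  · subst h1; exact h0 i
  · have := blkS_mem y xw xb x2 hρ hL ((v - 1) / 9) ((v - 1) % 9) i
    have hv : vb ((v - 1) / 9) ((v - 1) % 9) = v := by
      have := Nat.div_add_mod (v - 1) 9
      unfold vb
      omega
    rwa [hv] at this
  · exact pth_mem (hL _) _ _ _

theorem allS_zero (M : Net) : allS ρ L y xw xb x2 M 0 = ρ := by simp [allS]

theorem allS_vb (M : Net) {u k : ℕ} (hu : u < M.1) (hk : k < 9) :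
    allS ρ L y xw xb x2 M (vb u k) = blkS ρ L y xw xb x2 u k := by
  have h1 : vb u k ≠ 0 := by unfold vb; omega
  have h2 : vb u k ≤ 9 * M.1 := by unfold vb; omega
  have h3 : (vb u k - 1) / 9 = u := by unfold vb; omega
  have h4 : (vb u k - 1) % 9 = k := by unfold vb; omega
  unfold allS
  rw [if_neg h1, if_pos h2, h3, h4]

theorem allS_link (M : Net) {p : (ℕ × ℕ) × ℕ} (hp : p ∈ M.2.2.zipIdx) :
    allS ρ L y xw xb x2 M (vb M.1 p.2) =
      pth (L (vb M.1 p.2)) (hubS ρ L y p.1.1) (hubS ρ L y p.1.2) := by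
  have h1 : vb M.1 p.2 ≠ 0 := by unfold vb; omega
  have h2 : ¬ vb M.1 p.2 ≤ 9 * M.1 := by unfold vb; omega
  have h3 : vb M.1 p.2 - 1 - 9 * M.1 = p.2 := by unfold vb; omega
  have h4 : M.2.2.getD p.2 (0, 0) = p.1 := by
    obtain ⟨a, i⟩ := p
    rw [List.mem_zipIdx_iff_getElem?] at hp
    simp only [List.getD_eq_getElem?_getD] 
    simp only at hp
    rw [hp]
    rfl
  unfold allS
  rw [if_neg h1, if_neg h2, h3, h4]

end

/-- The graph of a network which always has a solution is packable. -/
theorem packable_net {M : Net} (hM : NetOk M) (hY : NetYes M) :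
    Packable (netGraph M).graph 3 := by
  apply packable_of_states
  intro L hL
  obtain ⟨ρ, hρ, hρ0⟩ : ∃ ρ : Fin 3 → ℕ, Injective ρ ∧ ∀ i, ρ i ∈ L 0 := by
    obtain ⟨β, h1, h2, -⟩ := exists_base (fun i => i) (fun i j hij => Fin.ext hij) (L 0) (hL 0)
    exact ⟨β, h1, h2⟩
  have hfan := fun u => exists_fan hρ (hL (vb u 5)) (hL (vb u 4))
  choose x2 xb hx2 hxb hx using hfan
  obtain ⟨y, hy1, hy2⟩ := hY (fun u v => bad ρ (L (vb u 0)) (L (vb v 0)))
    (fun u => (bad ρ (L (vb u 0)) (L (vb u 4))).map fun d => xb u - d)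
  have hforc := fun u => exists_forcer hρ (hL (vb u 0)) (hL (vb u 1)) (y u)
  choose xw hxw0 hxw using hforc
  refine ⟨allS ρ L y xw xb x2 M, allS_inj _ _ _ _ hρ hL M, allS_mem _ _ _ _ hρ hL hρ0 M, ?_⟩
  intro e he i
  have hI := fun u x => st_inj hρ (hL u) x
  simp only [netGraph, List.mem_append, List.mem_flatMap, List.mem_range] at he
  rcases he with ⟨u, hu, he⟩ | ⟨u, hu, he⟩ | ⟨p, hp, he⟩
  · -- forcers
    simp only [forcE, List.mem_cons, List.not_mem_nil, or_false] at he
    rcases he with rfl | rfl | rfl | rfl | rfl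
    · rw [allS_vb _ _ _ _ M hu (by norm_num), allS_vb _ _ _ _ M hu (by norm_num)]
      exact (pth_ne (hL _) (hI _ _) (hI _ _) (hxw u) i).1
    · rw [allS_vb _ _ _ _ M hu (by norm_num), allS_vb _ _ _ _ M hu (by norm_num)]
      exact (pth_ne (hL _) (hI _ _) (hI _ _) (hxw u) i).2
    · rw [allS_vb _ _ _ _ M hu (by norm_num), allS_zero]
      exact st_ne_root hρ (hL _) (hxw0 u) i
    · rw [allS_vb _ _ _ _ M hu (by norm_num), allS_zero]
      exact (pth_ne (hL _) hρ (hI _ _) (not_swapped_root hρ (hL _) _) i).1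
    · rw [allS_vb _ _ _ _ M hu (by norm_num), allS_vb _ _ _ _ M hu (by norm_num)]
      exact (pth_ne (hL _) hρ (hI _ _) (not_swapped_root hρ (hL _) _) i).2
  · -- anchors
    have hu' := hM.anch u hu
    have hsw : ¬ Swapped (hubS ρ L y u) (st ρ (L (vb u 4)) (xb u)) := by
      intro hs
      have h1 := bad_of_swapped hρ (hL (vb u 0)) (hL (vb u 4)) hs
      have h2 := hy2 u hu
      rw [h1] at h2
      simp at h2
    simp only [anchE, List.mem_cons, List.not_mem_nil, or_false] at he
    rcases he with rfl | rfl | rfl | rfl | rfl | rfl | rfl | rfl | rfl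
    · rw [allS_vb _ _ _ _ M hu' (by norm_num), allS_vb _ _ _ _ M hu' (by norm_num)]
      exact (pth_ne (hL _) (hI _ _) (hI _ _) hsw i).1
    · rw [allS_vb _ _ _ _ M hu' (by norm_num), allS_vb _ _ _ _ M hu' (by norm_num)]
      exact (pth_ne (hL _) (hI _ _) (hI _ _) hsw i).2
    · rw [allS_vb _ _ _ _ M hu' (by norm_num), allS_zero]
      exact st_ne_root hρ (hL _) (hxb u) i
    · rw [allS_vb _ _ _ _ M hu' (by norm_num), allS_zero]
      exact st_ne_root hρ (hL _) (hx2 u) i
    · rw [allS_vb _ _ _ _ M hu' (by norm_num), allS_zero]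
      exact (pth_ne (hL _) hρ (hI _ _) (not_swapped_root hρ (hL _) _) i).1
    · rw [allS_vb _ _ _ _ M hu' (by norm_num), allS_zero]
      exact (pth_ne (hL _) hρ (hI _ _) (not_swapped_root hρ (hL _) _) i).1
    · rw [allS_vb _ _ _ _ M hu' (by norm_num), allS_vb _ _ _ _ M hu' (by norm_num)]
      exact hx u i
    · rw [allS_vb _ _ _ _ M hu' (by norm_num), allS_vb _ _ _ _ M hu' (by norm_num)]
      exact (pth_ne (hL _) hρ (hI _ _) (not_swapped_root hρ (hL _) _) i).2
    · rw [allS_vb _ _ _ _ M hu' (by norm_num), allS_vb _ _ _ _ M hu' (by norm_num)]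
      exact (pth_ne (hL _) hρ (hI _ _) (not_swapped_root hρ (hL _) _) i).2
  · -- links
    have hl : p.1 ∈ M.2.2 := by
      obtain ⟨a, j⟩ := p
      rw [List.mem_zipIdx_iff_getElem?] at hp
      exact List.mem_of_getElem? hp
    obtain ⟨hl1, hl2⟩ := hM.link _ hl
    have hsw : ¬ Swapped (hubS ρ L y p.1.1) (hubS ρ L y p.1.2) := by
      intro hs
      exact hy1 _ hl (bad_of_swapped hρ (hL _) (hL _) hs)
    simp only [linkE, List.mem_cons, List.not_mem_nil, or_false] at he
    rcases he with rfl | rfl
    · rw [allS_vb _ _ _ _ M hl1 (by norm_num), allS_link _ _ _ _ M hp]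
      exact (pth_ne (hL _) (hI _ _) (hI _ _) hsw i).1
    · rw [allS_vb _ _ _ _ M hl2 (by norm_num), allS_link _ _ _ _ M hp]
      exact (pth_ne (hL _) (hI _ _) (hI _ _) hsw i).2

end Pool.Agent.MP_c07eba.K3
end

section
/-!
# Networks without a solution give graphs which are not packable (four colours suffice)
-/
namespace Pool.Agent.MP_c07eba.K3

open Finset Function

/-- The colours without one. -/
def typ (m : Fin 4) : Finset ℕ := ({0, 1, 2, 3} : Finset ℕ).erase m.val

theorem typ_card (m : Fin 4) : (typ m).card = 3 := by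
  revert m
  decide

theorem mem_typ {m : Fin 4} {x : ℕ} (h : x ∈ typ m) : x < 4 ∧ x ≠ m.val := by
  simp only [typ, Finset.mem_erase, Finset.mem_insert, Finset.mem_singleton] at h
  omega

/-- The states of a packing, with the columns ordered by the colours of the root. -/
theorem states_of_packable {X : GraphInput} (hX : 0 < X.n) (h : Packable X.graph 3)
    (τ : ℕ → Fin 4) (hτ : τ 0 = 3) :
    ∃ S : ℕ → Fin 3 → Fin 4, (∀ v < X.n, Injective (S v) ∧ ∀ i, S v i ≠ τ v) ∧
      (∀ i : Fin 3, S 0 i = i.castSucc) ∧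
      ∀ e ∈ X.edges, e.1 < X.n → e.2 < X.n → e.1 ≠ e.2 → ∀ i, S e.1 i ≠ S e.2 i := by
  obtain ⟨c, h1, h2, h3⟩ := h (fun v => typ (τ v)) (fun v => typ_card _)
  have hc4 : ∀ i v, c i v < 4 ∧ c i v ≠ (τ v).val := fun i v => mem_typ (h1 i v)
  have hc3 : ∀ i, c i ⟨0, hX⟩ < 3 := by
    intro i
    have := hc4 i ⟨0, hX⟩
    simp only [hτ] at this
    have h3' : ((3 : Fin 4) : ℕ) = 3 := rfl
    omega
  let f : Fin 3 → Fin 3 := fun i => ⟨c i ⟨0, hX⟩, hc3 i⟩
  have hf : Injective f := by
    intro i j hij
    by_contra hne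
    exact h3 i j hne ⟨0, hX⟩ (congrArg Fin.val hij)
  have hfb : Bijective f := Finite.injective_iff_bijective.1 hf
  let σ := (Equiv.ofBijective f hfb).symm
  have hσ : ∀ i, f (σ i) = i := fun i => (Equiv.ofBijective f hfb).apply_symm_apply i
  refine ⟨fun v i => if hv : v < X.n then ⟨c (σ i) ⟨v, hv⟩, (hc4 _ _).1⟩ else 0, ?_, ?_, ?_⟩
  · intro v hv
    refine ⟨fun i j hij => ?_, fun i hi => ?_⟩
    · simp only [dif_pos hv, Fin.mk.injEq] at hij
      by_contra hne
      exact h3 (σ i) (σ j) (fun h => hne (σ.injective h)) ⟨v, hv⟩ hij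
    · simp only [dif_pos hv] at hi
      exact (hc4 (σ i) ⟨v, hv⟩).2 (congrArg Fin.val hi)
  · intro i
    simp only [dif_pos hX]
    apply Fin.ext
    have := congrArg Fin.val (hσ i)
    simpa [f] using this
  · intro e he he1 he2 hne i
    simp only [dif_pos he1, dif_pos he2, ne_eq, Fin.mk.injEq]
    exact h2 (σ i) ⟨e.1, he1⟩ ⟨e.2, he2⟩ ⟨fun h => hne (congrArg Fin.val h), Or.inl he⟩

/-! ### Finite checks on four colours -/

/-- The natural state of type `m` shifted by `x`. -/
def nst (m x i : Fin 3) : Fin 4 := if i + x = m then 3 else (i + x).castSucc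

/-- Distinct colours different from `m`. -/
def ok3 (a b c m : Fin 4) : Bool := a != b && a != c && b != c && a != m && b != m && c != m

/-- Compatible states. -/
def ne3 (a b c d e f : Fin 4) : Bool := a != d && b != e && c != f

/-- The state is a shift of the natural one. -/
def eqn (a b c : Fin 4) (m x : Fin 3) : Bool := a == nst m x 0 && b == nst m x 1 && c == nst m x 2

theorem fin_tri : ∀ (m : Fin 3) (a b c d e f : Fin 4),
    (ok3 a b c m.castSucc && ok3 d e f 3 && ne3 a b c 0 1 2 && ne3 d e f 0 1 2 &&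
      ne3 a b c d e f) = true → (eqn a b c m 1 || eqn a b c m 2) = true := by
  decide +kernel

theorem fin_same : ∀ (m x : Fin 3) (a b c : Fin 4),
    (ok3 a b c m.castSucc && ne3 a b c (nst m x 0) (nst m x 1) (nst m x 2)) = true →
    (eqn a b c m 0 || eqn a b c m 1 || eqn a b c m 2) = true := by
  decide +kernel

theorem fin_link : ∀ (m m' x x' : Fin 3) (a b c : Fin 4),
    (m != m' && ok3 a b c m.castSucc && ne3 a b c (nst m x 0) (nst m x 1) (nst m x 2) &&
      ne3 a b c (nst m' x' 0) (nst m' x' 1) (nst m' x' 2)) = true →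
    x + m ≠ x' + m' := by
  decide +kernel

theorem fin_fan_aux : ∀ m m' x x' : Fin 3, (m != m' && x != 0 && x' != 0 &&
    ne3 (nst m x 0) (nst m x 1) (nst m x 2) (nst m' x' 0) (nst m' x' 1) (nst m' x' 2)) = true →
    x' + m' = -m' - m := by
  decide +kernel

theorem fin_fan (m m' x x' : Fin 3) (h : m ≠ m') (hx : x ≠ 0) (hx' : x' ≠ 0)
    (h0 : nst m x 0 ≠ nst m' x' 0) (h1 : nst m x 1 ≠ nst m' x' 1)
    (h2 : nst m x 2 ≠ nst m' x' 2) : x' + m' = -m' - m := by
  apply fin_fan_aux
  simp only [ne3, Bool.and_eq_true, bne_iff_ne]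
  exact ⟨⟨⟨h, hx⟩, hx'⟩, ⟨h0, h1⟩, h2⟩

/-- The type of the anchor. -/
def am (m κ : Fin 3) : Fin 3 := if κ ≠ m then -m - κ else m + 1

/-- The type of the vertex next to the anchor. -/
def am2 (m κ : Fin 3) : Fin 3 := -am m κ - κ

theorem am_spec : ∀ m κ : Fin 3, am m κ ≠ m ∧ am2 m κ ≠ am m κ ∧ -am m κ - am2 m κ = κ := by
  decide

/-! ### From functions to components -/

/-- Admissible state of type `m`. -/
def Adm (m : Fin 4) (s : Fin 3 → Fin 4) : Prop := Injective s ∧ ∀ i, s i ≠ m

theorem adm_ok3 {m : Fin 4} {s : Fin 3 → Fin 4} (h : Adm m s) :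
    ok3 (s 0) (s 1) (s 2) m = true := by
  obtain ⟨h1, h2⟩ := h
  simp only [ok3, Bool.and_eq_true, bne_iff_ne]
  exact ⟨⟨⟨⟨⟨h1.ne (by decide), h1.ne (by decide)⟩, h1.ne (by decide)⟩, h2 0⟩, h2 1⟩, h2 2⟩

theorem ne3_of {s t : Fin 3 → Fin 4} (h : ∀ i, s i ≠ t i) :
    ne3 (s 0) (s 1) (s 2) (t 0) (t 1) (t 2) = true := by
  simp only [ne3, Bool.and_eq_true, bne_iff_ne]
  exact ⟨⟨h 0, h 1⟩, h 2⟩

theorem eq_of_eqn {m x : Fin 3} {s : Fin 3 → Fin 4} (h : eqn (s 0) (s 1) (s 2) m x = true) :
    s = nst m x := by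
  simp only [eqn, Bool.and_eq_true, beq_iff_eq] at h
  obtain ⟨⟨h0, h1⟩, h2⟩ := h
  funext i
  fin_cases i
  · exact h0
  · exact h1
  · exact h2

theorem tri_nst {m : Fin 3} {w t r : Fin 3 → Fin 4} (hr : ∀ i : Fin 3, r i = i.castSucc)
    (hw : Adm m.castSucc w) (ht : Adm 3 t) (h1 : ∀ i, r i ≠ w i) (h2 : ∀ i, r i ≠ t i)
    (h3 : ∀ i, w i ≠ t i) : ∃ x, x ≠ 0 ∧ w = nst m x := by
  have e1 : ne3 (w 0) (w 1) (w 2) 0 1 2 = true := ne3_of (t := fun i => i.castSucc)
    fun i => by rw [← hr i]; exact (h1 i).symm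
  have e2 : ne3 (t 0) (t 1) (t 2) 0 1 2 = true := ne3_of (t := fun i => i.castSucc)
    fun i => by rw [← hr i]; exact (h2 i).symm
  have := fin_tri m (w 0) (w 1) (w 2) (t 0) (t 1) (t 2) (by
    rw [adm_ok3 hw, adm_ok3 ht, e1, e2, ne3_of h3]
    rfl)
  rw [Bool.or_eq_true] at this
  rcases this with h | h
  · exact ⟨1, by decide, eq_of_eqn h⟩
  · exact ⟨2, by decide, eq_of_eqn h⟩

theorem same_nst {m x : Fin 3} {s w : Fin 3 → Fin 4} (hw : w = nst m x)
    (hs : Adm m.castSucc s) (h : ∀ i, s i ≠ w i) : ∃ x', s = nst m x' := by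
  subst hw
  have := fin_same m x (s 0) (s 1) (s 2) (by
    rw [adm_ok3 hs, ne3_of h]
    rfl)
  simp only [Bool.or_eq_true] at this
  rcases this with (h | h) | h
  · exact ⟨0, eq_of_eqn h⟩
  · exact ⟨1, eq_of_eqn h⟩
  · exact ⟨2, eq_of_eqn h⟩

theorem link_ne {m m' x x' : Fin 3} {s t p : Fin 3 → Fin 4} (hs : s = nst m x)
    (ht : t = nst m' x') (hm : m ≠ m') (hp : Adm m.castSucc p) (h1 : ∀ i, s i ≠ p i)
    (h2 : ∀ i, t i ≠ p i) : x + m ≠ x' + m' := by
  subst hs ht
  have h1' := ne3_of fun i => (h1 i).symm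
  have h2' := ne3_of fun i => (h2 i).symm
  refine fin_link m m' x x' (p 0) (p 1) (p 2) ?_
  rw [adm_ok3 hp, h1', h2']
  simp [hm]

/-! ### The theorem -/

/-- The missing colours in the block of a hub. -/
def blkT (m : ℕ → Fin 3) (κ : ℕ → Fin 3) (u : ℕ) : ℕ → Fin 4
  | 0 => (m u).castSucc
  | 1 => (m u).castSucc
  | 2 => 3
  | 3 => (m u).castSucc
  | 4 => (am (m u) (κ u)).castSucc
  | 5 => (am2 (m u) (κ u)).castSucc
  | 6 => 3
  | 7 => 3
  | _ => (m u).castSucc

/-- The missing colours. -/
def allT (M : Net) (m : ℕ → Fin 3) (κ : ℕ → Fin 3) (v : ℕ) : Fin 4 :=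
  if v = 0 then 3 else
    if v ≤ 9 * M.1 then blkT m κ ((v - 1) / 9) ((v - 1) % 9) else
      (m (M.2.2.getD (v - 1 - 9 * M.1) (0, 0)).1).castSucc

theorem allT_vb (M : Net) (m κ : ℕ → Fin 3) {u k : ℕ} (hu : u < M.1) (hk : k < 9) :
    allT M m κ (vb u k) = blkT m κ u k := by
  have h1 : vb u k ≠ 0 := by unfold vb; omega
  have h2 : vb u k ≤ 9 * M.1 := by unfold vb; omega
  have h3 : (vb u k - 1) / 9 = u := by unfold vb; omega
  have h4 : (vb u k - 1) % 9 = k := by unfold vb; omega
  unfold allT
  rw [if_neg h1, if_pos h2, h3, h4]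

theorem allT_link (M : Net) (m κ : ℕ → Fin 3) {p : (ℕ × ℕ) × ℕ} (hp : p ∈ M.2.2.zipIdx) :
    allT M m κ (vb M.1 p.2) = (m p.1.1).castSucc := by
  have h1 : vb M.1 p.2 ≠ 0 := by unfold vb; omega
  have h2 : ¬ vb M.1 p.2 ≤ 9 * M.1 := by unfold vb; omega
  have h3 : vb M.1 p.2 - 1 - 9 * M.1 = p.2 := by unfold vb; omega
  have h4 : M.2.2.getD p.2 (0, 0) = p.1 := by
    obtain ⟨a, i⟩ := p
    rw [List.mem_zipIdx_iff_getElem?] at hp
    simp only [List.getD_eq_getElem?_getD]
    simp only at hp
    rw [hp]
    rfl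
  unfold allT
  rw [if_neg h1, if_neg h2, h3, h4]

theorem not_packable_net {M : Net} (hM : NetOk M) (m : ℕ → Fin 3)
    (hm : ∀ l ∈ M.2.2, m l.1 ≠ m l.2) (κ : ℕ → Fin 3)
    (hno : ∀ y : ℕ → Fin 3, ¬ ((∀ l ∈ M.2.2, y l.1 ≠ y l.2) ∧ ∀ u ∈ M.2.1, y u ≠ κ u)) :
    ¬ Packable (netGraph M).graph 3 := by
  intro hP
  have hN : (netGraph M).n = vb M.1 M.2.2.length := rfl
  obtain ⟨S, hS, hS0, hE⟩ := states_of_packable (X := netGraph M) (by rw [hN]; unfold vb; omega)
    hP (allT M m κ) (by simp [allT])
  have hlt : ∀ {u k : ℕ}, u < M.1 → k < 9 → vb u k < (netGraph M).n := by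
    intro u k hu hk
    rw [hN]
    unfold vb
    omega
  have hA : ∀ {u k : ℕ}, u < M.1 → k < 9 → Adm (blkT m κ u k) (S (vb u k)) := by
    intro u k hu hk
    have := hS _ (hlt hu hk)
    rw [allT_vb M m κ hu hk] at this
    exact this
  -- edges
  have hF : ∀ u < M.1, ∀ e ∈ forcE u, ∀ i, S e.1 i ≠ S e.2 i := by
    intro u hu e he
    have hmem : e ∈ (netGraph M).edges := by
      simp only [netGraph, List.mem_append, List.mem_flatMap, List.mem_range]
      exact Or.inl ⟨u, hu, he⟩
    simp only [forcE, List.mem_cons, List.not_mem_nil, or_false] at he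
    refine hE e hmem ?_ ?_ ?_ <;>
      rcases he with rfl | rfl | rfl | rfl | rfl <;> simp only [hN] <;> unfold vb <;> omega
  have hG : ∀ u ∈ M.2.1, ∀ e ∈ anchE u, ∀ i, S e.1 i ≠ S e.2 i := by
    intro u hu e he
    have hu' := hM.anch u hu
    have hmem : e ∈ (netGraph M).edges := by
      simp only [netGraph, List.mem_append, List.mem_flatMap, List.mem_range]
      exact Or.inr (Or.inl ⟨u, hu, he⟩)
    simp only [anchE, List.mem_cons, List.not_mem_nil, or_false] at he
    refine hE e hmem ?_ ?_ ?_ <;>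
      rcases he with rfl | rfl | rfl | rfl | rfl | rfl | rfl | rfl | rfl <;>
        simp only [hN] <;> unfold vb <;> omega
  have hH : ∀ p ∈ M.2.2.zipIdx, (∀ i, S (vb p.1.1 0) i ≠ S (vb M.1 p.2) i) ∧
      (∀ i, S (vb p.1.2 0) i ≠ S (vb M.1 p.2) i) ∧ Adm (m p.1.1).castSucc (S (vb M.1 p.2)) ∧
      p.1 ∈ M.2.2 := by
    intro p hp
    have hget : M.2.2[p.2]? = some p.1 := List.mem_zipIdx_iff_getElem?.1 hp
    have hl : p.1 ∈ M.2.2 := List.mem_of_getElem? hget
    obtain ⟨hi, -⟩ := List.getElem?_eq_some_iff.1 hget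
    obtain ⟨hl1, hl2⟩ := hM.link _ hl
    have hmem : ∀ e ∈ linkE M.1 p, e ∈ (netGraph M).edges := by
      intro e he
      simp only [netGraph, List.mem_append, List.mem_flatMap, List.mem_range]
      exact Or.inr (Or.inr ⟨p, hp, he⟩)
    have hpn : vb M.1 p.2 < (netGraph M).n := by rw [hN]; unfold vb; omega
    refine ⟨?_, ?_, ?_, hl⟩
    · exact hE (vb p.1.1 0, vb M.1 p.2) (hmem _ (by simp [linkE]))
        (hlt (k := 0) hl1 (by norm_num)) hpn
        (by simp only; unfold vb; omega)
    · exact hE (vb p.1.2 0, vb M.1 p.2) (hmem _ (by simp [linkE]))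
        (hlt (k := 0) hl2 (by norm_num)) hpn
        (by simp only; unfold vb; omega)
    · have := hS _ hpn
      rw [allT_link M m κ hp] at this
      exact this
  -- hubs
  have hhub : ∀ u < M.1, ∃ x, S (vb u 0) = nst (m u) x := by
    intro u hu
    have hf := hF u hu
    obtain ⟨xw, -, hw⟩ := tri_nst (m := m u) hS0 (hA hu (k := 1) (by norm_num))
      (hA hu (k := 2) (by norm_num)) (hf (0, vb u 1) (by simp [forcE]))
      (hf (0, vb u 2) (by simp [forcE])) (hf (vb u 1, vb u 2) (by simp [forcE]))
    obtain ⟨xp, hp⟩ := same_nst hw (hA hu (k := 3) (by norm_num))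
      (fun i => (hf (vb u 1, vb u 3) (by simp [forcE]) i).symm)
    exact same_nst hp (hA hu (k := 0) (by norm_num)) (hf (vb u 0, vb u 3) (by simp [forcE]))
  choose! x hx using hhub
  refine hno (fun u => x u + m u) ⟨fun l hl => ?_, fun u hu => ?_⟩
  · obtain ⟨i, hi, hil⟩ := List.getElem_of_mem hl
    have hp : (l, i) ∈ M.2.2.zipIdx := by
      rw [List.mem_zipIdx_iff_getElem?]
      simp only
      rw [List.getElem?_eq_getElem hi, hil]
    obtain ⟨h1, h2, h3, -⟩ := hH _ hp
    obtain ⟨hl1, hl2⟩ := hM.link _ hl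
    exact link_ne (hx _ hl1) (hx _ hl2) (hm _ hl) h3 h1 h2
  · have hu' := hM.anch u hu
    have hg := hG u hu
    obtain ⟨s1, s2, s3⟩ := am_spec (m u) (κ u)
    obtain ⟨x2, hx2, h2⟩ := tri_nst (m := am2 (m u) (κ u)) hS0 (hA hu' (k := 5) (by norm_num))
      (hA hu' (k := 6) (by norm_num)) (hg (0, vb u 5) (by simp [anchE]))
      (hg (0, vb u 6) (by simp [anchE])) (hg (vb u 5, vb u 6) (by simp [anchE]))
    obtain ⟨xb, hxb, hb⟩ := tri_nst (m := am (m u) (κ u)) hS0 (hA hu' (k := 4) (by norm_num))
      (hA hu' (k := 7) (by norm_num)) (hg (0, vb u 4) (by simp [anchE]))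
      (hg (0, vb u 7) (by simp [anchE])) (hg (vb u 4, vb u 7) (by simp [anchE]))
    have hfan : xb + am (m u) (κ u) = κ u := by
      have h54 := hg (vb u 5, vb u 4) (by simp [anchE])
      simp only [h2, hb] at h54
      exact (fin_fan _ _ _ _ s2 hx2 hxb (h54 0) (h54 1) (h54 2)).trans s3
    rw [← hfan]
    exact link_ne (hx _ hu') hb s1.symm (hA hu' (k := 8) (by norm_num))
      (hg (vb u 0, vb u 8) (by simp [anchE])) (hg (vb u 4, vb u 8) (by simp [anchE]))

end Pool.Agent.MP_c07eba.K3
end

section
/-!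
# Polynomial-time computable functions with the standard encodings

`PT.isPolyTime`: a function `f : α → β` in `PT` is computable in polynomial time for the encodings
`bitEncode`, if inputs can be parsed and outputs can be written by functions in `PT`.
-/
namespace Pool.Agent.MP_c07eba.Mem

open Pool.Agent.PolyTime Pool.Agent.CookLevin Turing Function Polynomial

universe u
variable {α : Type u} {β : Type*}

/-! ### General formats -/

/-- An input format can be read if it can be parsed. -/
theorem inFmt_of_parse {α : Type} [Rep α] {ea : α → List Bool} {g : List Bool → α} (hg : PT g)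
    (h : ∀ a, g (ea a) = a) : InFmt ea := by
  obtain ⟨p0, b0, h0⟩ := inFmt_raw
  obtain ⟨p1, b1, h1⟩ := hg
  refine ⟨.seq p0 p1, b0 + b1.comp (4 * X + 1), fun a => ?_⟩
  have r1 := h0 (ea a)
  have r2 := h1 (ea a) [] [] [] [] [] []
  rw [List.append_nil, List.append_nil] at r2
  dsimp only at r2
  rw [h a] at r2
  refine (Run.seq r1 r2).mono ?_
  have h2 : (toT (ea a)).size ≤ 4 * (ea a).length + 1 := by
    have := sz_le_of_forall (ea a) 3 (fun b _ => sz_bool b)
    have e : sz (ea a) = (toT (ea a)).size := rfl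
    omega
  have h3 := poly_mono b1 h2
  simp only [eval_add, eval_comp, eval_mul, eval_X, eval_ofNat, eval_one]
  exact Nat.add_le_add_left h3 _

/-- An output format can be written if it is computed by a function in `PT`. -/
theorem outFmt_of_write {β : Type} [Rep β] {eb : β → List Bool} (hg : PT eb) : OutFmt eb := by
  obtain ⟨p0, b0, h0⟩ := outFmt_raw
  obtain ⟨q, hq⟩ := hg.size_le
  obtain ⟨p1, b1, h1⟩ := hg
  refine ⟨.seq p1 p0, b1 + b0.comp q, fun c => ?_⟩
  have r1 := h1 c [] [] [] [] [] []
  rw [List.append_nil, List.append_nil] at r1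
  have r2 := h0 (eb c)
  refine (Run.seq r1 r2).mono ?_
  have h3 := poly_mono b0 (hq c)
  simp only [eval_add, eval_comp]
  exact Nat.add_le_add_left h3 _

/-! ### Parsing delimited words -/

section PT
variable [Rep α]

theorem PT_bits3 {f : α → List Bool} (hf : PT f) : PT (fun a => bits3 (f a)) :=
  PT.flatMap hf (PT.cons (PT.const true) (PT.cons PT.id.snd (PT.cons (PT.const false)
    (PT.const []))))

/-- The inverse of `bits3`. -/
def unbits3 (l : List Bool) : List Bool :=
  (List.range (l.length / 3)).map fun i => l.getD (3 * i + 1) false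

theorem PT_unbits3 {f : α → List Bool} (hf : PT f) : PT (fun a => unbits3 (f a)) := by
  refine PT.map (g := fun a i => (f a).getD (3 * i + 1) false)
    (PT.range (PT.div (PT.length hf) (PT.const 3))) ?_
  exact PT.listGetD (PT.comp (f := Prod.fst) hf PT.id.fst)
    (PT.succ (PT.mul (PT.const 3) PT.id.snd)) (PT.const false)

theorem bits3_cons (b : Bool) (l : List Bool) : bits3 (b :: l) = true :: b :: false :: bits3 l :=
  rfl

theorem unbits3_bits3 (l : List Bool) : unbits3 (bits3 l) = l := by
  have key : ∀ (l : List Bool) (i : ℕ), (bits3 l).getD (3 * i + 1) false = l.getD i false := by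
    intro l
    induction l with
    | nil => intro i; simp [bits3]
    | cons b l ih =>
      intro i
      rw [bits3_cons]
      cases i with
      | zero => rfl
      | succ i =>
        rw [show 3 * (i + 1) + 1 = (3 * i + 1) + 1 + 1 + 1 by ring, List.getD_cons_succ,
          List.getD_cons_succ, List.getD_cons_succ, List.getD_cons_succ, ih]
  apply List.ext_getElem
  · simp [unbits3, length_bits3]
  · intro i h1 h2
    simp only [unbits3, List.getElem_map, List.getElem_range, key]
    rw [List.getD_eq_getElem?_getD, List.getElem?_eq_getElem h2]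
    rfl

/-- One step of the parser of delimited words. -/
def dstep (s : ℕ × (List Bool × List Bool)) (b : Bool) : ℕ × (List Bool × List Bool) :=
  if s.1 = 0 then (if b then (1, s.2) else (2, s.2))
  else if s.1 = 1 then (0, (b :: s.2.1, s.2.2)) else (s.1, (s.2.1, b :: s.2.2))

/-- The parser: the delimited word and the rest. -/
def undel (l : List Bool) : List Bool × List Bool :=
  let s := l.foldl dstep (0, ([], []))
  (s.2.1.reverse, s.2.2.reverse)

theorem dstep_two (l : List Bool) : ∀ B R : List Bool,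
    l.foldl dstep (2, (B, R)) = (2, (B, l.reverse ++ R)) := by
  induction l with
  | nil => intro B R; rfl
  | cons b l ih =>
    intro B R
    rw [List.foldl_cons]
    show l.foldl dstep (2, (B, b :: R)) = _
    rw [ih]
    simp

theorem dstep_delimit (l r : List Bool) : ∀ B : List Bool,
    (N487b59b3.delimit l ++ r).foldl dstep (0, (B, [])) = (2, (l.reverse ++ B, r.reverse)) := by
  induction l with
  | nil =>
    intro B
    show r.foldl dstep (2, (B, [])) = _
    rw [dstep_two]
    simp
  | cons b l ih =>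
    intro B
    show (N487b59b3.delimit l ++ r).foldl dstep (0, (b :: B, [])) = _
    rw [ih]
    simp

theorem undel_delimit (l r : List Bool) : undel (N487b59b3.delimit l ++ r) = (l, r) := by
  unfold undel
  rw [dstep_delimit]
  simp

theorem dstep_bound (l : List Bool) : ∀ s : ℕ × (List Bool × List Bool), s.1 ≤ 2 →
    (l.foldl dstep s).1 ≤ 2 ∧ (l.foldl dstep s).2.1.length + (l.foldl dstep s).2.2.length ≤
      s.2.1.length + s.2.2.length + l.length := by
  induction l with
  | nil => intro s hs; exact ⟨hs, by simp⟩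
  | cons b l ih =>
    intro s hs
    rw [List.foldl_cons]
    have h1 : (dstep s b).1 ≤ 2 ∧ (dstep s b).2.1.length + (dstep s b).2.2.length ≤
        s.2.1.length + s.2.2.length + 1 := by
      unfold dstep
      split_ifs <;> simp <;> omega
    have h2 := ih _ h1.1
    simp only [List.length_cons]
    omega

theorem sz_bits_le (l : List Bool) : sz l ≤ 4 * l.length + 1 := by
  have := sz_le_of_forall l 3 (fun b _ => sz_bool b)
  omega

theorem PT_undel {f : α → List Bool} (hf : PT f) : PT (fun a => undel (f a)) := by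
  have h1 : PT (fun a => (f a).foldl dstep (0, ([], []))) := by
    refine PT.foldl (g := fun _ s b => dstep s b) (f := fun _ => (0, ([], []))) hf
      (PT.const _) ?_ (B := fun a => 4 * sz (f a) + 20)
      (((Bdd.const 4).mul hf.bdd).add (Bdd.const 20)) ?_
    · refine PT.iteProp (c := fun p : α × ((ℕ × (List Bool × List Bool)) × Bool) =>
        p.2.1.1 = 0) (PT.isZero PT.id.snd.fst.fst) (PT.ite PT.id.snd.snd
          (PT.pair (PT.const 1) PT.id.snd.fst.snd) (PT.pair (PT.const 2) PT.id.snd.fst.snd)) ?_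
      exact PT.iteProp (c := fun p : α × ((ℕ × (List Bool × List Bool)) × Bool) =>
        p.2.1.1 = 1) (PT.natEq PT.id.snd.fst.fst (PT.const 1))
        (PT.pair (PT.const 0) (PT.pair (PT.cons PT.id.snd.snd PT.id.snd.fst.snd.fst)
          PT.id.snd.fst.snd.snd))
        (PT.pair PT.id.snd.fst.fst (PT.pair PT.id.snd.fst.snd.fst
          (PT.cons PT.id.snd.snd PT.id.snd.fst.snd.snd)))
    · intro a l' hl'
      obtain ⟨h2, h3⟩ := dstep_bound l' (0, ([], [])) (by simp)
      have h4 := hl'.length_le
      have h5 := length_le_sz (f a)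
      have e : l'.foldl ((fun _ s b => dstep s b) a) ((fun _ => (0, ([], []))) a) =
        l'.foldl dstep (0, ([], [])) := rfl
      rw [e, sz_prod, sz_prod, sz_nat]
      have h6 := sz_bits_le (l'.foldl dstep (0, ([], []))).2.1
      have h7 := sz_bits_le (l'.foldl dstep (0, ([], []))).2.2
      simp only [List.length_nil] at h3
      omega
  exact PT.pair (PT.reverse h1.snd.fst) (PT.reverse h1.snd.snd)

/-! ### Formats for triples and words -/

/-- The parser of triples of words. -/
def un3 (l : List Bool) : List Bool × (List Bool × List Bool) :=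
  (unbits3 (undel l).1, (unbits3 (undel (undel l).2).1, unbits3 (undel (undel l).2).2))

theorem PT_un3 : PT un3 :=
  PT.pair (PT_unbits3 (PT_undel PT.id).fst) (PT.pair
    (PT_unbits3 (PT_undel (PT_undel PT.id).snd).fst)
    (PT_unbits3 (PT_undel (PT_undel PT.id).snd).snd))

theorem un3_encode (a : List Bool × (List Bool × List Bool)) :
    un3 (N487b59b3.bitEncode a) = a := by
  obtain ⟨x, y, z⟩ := a
  have h : N487b59b3.bitEncode (x, (y, z)) =
      N487b59b3.delimit (bits3 x) ++ (N487b59b3.delimit (bits3 y) ++ bits3 z) := by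
    show N487b59b3.delimit (N487b59b3.bitEncode x) ++ N487b59b3.bitEncode (y, z) = _
    rw [bitEncode_list, bitEncode_pair]
    rfl
  unfold un3
  rw [h, undel_delimit, undel_delimit, unbits3_bits3, unbits3_bits3, unbits3_bits3]

end PT

/-- Verifiers in `PT` are computable in polynomial time. -/
theorem isPolyTime_of_PT {R : List Bool × (List Bool × List Bool) → Bool} (h : PT R) :
    N68a2faeb.IsPolyTime R :=
  PT.tm2Fmt (inFmt_of_parse PT_un3 un3_encode) outFmt_bool h

/-- Functions between words in `PT` are computable in polynomial time. -/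
theorem isPolyTime_words {f : List Bool → List Bool} (h : PT f) : N68a2faeb.IsPolyTime f := by
  refine PT.tm2Fmt (ea := N487b59b3.bitEncode) (eb := N487b59b3.bitEncode) inFmt_bitEncode ?_ h
  have e : (N487b59b3.bitEncode : List Bool → List Bool) = bits3 := funext bitEncode_list
  rw [e]
  exact outFmt_of_write (PT_bits3 PT.id)

end Pool.Agent.MP_c07eba.Mem
end

section
/-!
# Reading and writing encoded graphs in polynomial time
-/
namespace Pool.Agent.MP_c07eba.Mem

open Pool.Agent.PolyTime Pool.Agent.CookLevin Turing Function Polynomial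

universe u
variable {α : Type u} [Rep α]

/-! ### Parsing trees -/

/-- One step of the parser of trees, from the right. -/
def pstep (b : Bool) (s : Bool × List T) : Bool × List T :=
  if b then
    List.casesOn (motive := fun _ => Bool × List T) s.2 (false, []) fun a r =>
      List.casesOn (motive := fun _ => Bool × List T) r (false, []) fun c r' =>
        (s.1, .cons a c :: r')
  else (s.1, .nil :: s.2)

/-- The parser of trees. -/
def parse (l : List Bool) : Bool × List T := l.foldr pstep (true, [])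

theorem parse_enc (t : T) : ∀ (l : List Bool) (f : Bool) (s : List T), parse l = (f, s) →
    parse (t.enc ++ l) = (f, t :: s) := by
  induction t with
  | nil =>
    intro l f s h
    show pstep false (parse l) = _
    rw [h]
    rfl
  | cons a b iha ihb =>
    intro l f s h
    show pstep true (parse ((a.enc ++ b.enc) ++ l)) = _
    rw [List.append_assoc, iha _ f (b :: s) (ihb l f s h)]
    rfl

theorem parse_true (l : List Bool) : ∀ s : List T, parse l = (true, s) →
    l = s.flatMap T.enc := by
  induction l with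
  | nil =>
    intro s h
    have : s = [] := by
      have h' : ((true, []) : Bool × List T) = (true, s) := h
      exact (Prod.mk.inj h').2.symm
    rw [this]
    rfl
  | cons b l ih =>
    intro s h
    have h' : pstep b (parse l) = (true, s) := h
    cases hb : b
    · rw [hb] at h'
      have h1 : ((parse l).1, T.nil :: (parse l).2) = (true, s) := h'
      obtain ⟨h2, h3⟩ := Prod.mk.inj h1
      have h4 := ih (parse l).2 (Prod.ext h2 rfl)
      rw [← h3, List.flatMap_cons, ← h4]
      rfl
    · rw [hb] at h'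
      rcases hs : parse l with ⟨f, s'⟩
      rw [hs] at h'
      rcases s' with _ | ⟨a, _ | ⟨c, r⟩⟩
      · exact absurd (Prod.mk.inj h').1 (by simp)
      · exact absurd (Prod.mk.inj h').1 (by simp)
      · have h1 : (f, T.cons a c :: r) = (true, s) := h'
        obtain ⟨h2, h3⟩ := Prod.mk.inj h1
        have h4 := ih (a :: c :: r) (by rw [hs, h2])
        rw [← h3, List.flatMap_cons, h4]
        simp [T.enc]

theorem parse_enc_one (t : T) : parse t.enc = (true, [t]) := by
  have := parse_enc t [] true [] rfl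
  rwa [List.append_nil] at this

/-- The total size of the trees on a stack is bounded. -/
theorem parse_bound (l : List Bool) : ((parse l).2.map T.size).sum ≤ l.length := by
  induction l with
  | nil => exact le_rfl
  | cons b l ih =>
    show ((pstep b (parse l)).2.map T.size).sum ≤ l.length + 1
    rcases hs : parse l with ⟨f, s⟩
    rw [hs] at ih
    cases b
    · show ((T.nil :: s).map T.size).sum ≤ _
      rw [List.map_cons, List.sum_cons]
      have : T.nil.size = 1 := rfl
      have ih' : (s.map T.size).sum ≤ l.length := ih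
      omega
    · rcases s with _ | ⟨a, _ | ⟨c, r⟩⟩
      · exact Nat.zero_le _
      · exact Nat.zero_le _
      · show ((T.cons a c :: r).map T.size).sum ≤ _
        have ih' : ((a :: c :: r).map T.size).sum ≤ l.length := ih
        rw [List.map_cons, List.sum_cons] at ih' ⊢
        rw [List.map_cons, List.sum_cons] at ih'
        have : (T.cons a c).size = a.size + c.size + 1 := rfl
        omega

theorem sz_trees (s : List T) : sz s ≤ 2 * (s.map T.size).sum + 1 := by
  induction s with
  | nil => exact le_rfl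
  | cons t s ih =>
    rw [sz_cons, List.map_cons, List.sum_cons]
    have h1 : sz t = t.size := rfl
    have h2 := t.size_pos
    omega

theorem PT_parse {f : α → List Bool} (hf : PT f) : PT (fun a => parse (f a)) := by
  refine PT.foldr (g := fun _ b s => pstep b s) (f := fun _ => ((true, []) : Bool × List T)) hf
    (PT.const _) ?_ (B := fun a => 2 * sz (f a) + 5)
    (((Bdd.const 2).mul hf.bdd).add (Bdd.const 5)) ?_
  · refine PT.ite (c := fun p : α × (Bool × (Bool × List T)) => p.2.1) PT.id.snd.fst ?_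
      (PT.pair PT.id.snd.snd.fst (PT.cons (PT.const T.nil) PT.id.snd.snd.snd))
    refine PT.listCases (l := fun p : α × (Bool × (Bool × List T)) => p.2.2.2)
      (f := fun _ => ((false, []) : Bool × List T))
      (g := fun p a r => List.casesOn (motive := fun _ => Bool × List T) r (false, []) fun c r' =>
        (p.2.2.1, .cons a c :: r')) PT.id.snd.snd.snd (PT.const _) ?_
    refine PT.listCases
      (l := fun q : (α × (Bool × (Bool × List T))) × (T × List T) => q.2.2)
      (f := fun _ => ((false, []) : Bool × List T))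
      (g := fun q c r' => (q.1.2.2.1, T.cons q.2.1 c :: r')) PT.id.snd.snd (PT.const _) ?_
    refine PT.pair PT.id.fst.fst.snd.snd.fst (PT.cons ?_ PT.id.snd.snd)
    exact Comp.pair (PT.id (α := ((α × (Bool × (Bool × List T))) × (T × List T)) ×
      (T × List T))).fst.snd.fst PT.id.snd.fst
  · intro a l' hl'
    have h1 := parse_bound l'
    have h2 := hl'.length_le
    have h3 := length_le_sz (f a)
    have h4 := sz_trees (parse l').2
    have e : l'.foldr ((fun _ b s => pstep b s) a) ((fun _ => (true, [])) a) = parse l' := rfl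
    rw [e, sz_prod]
    have h5 := sz_bool (parse l').1
    omega

/-! ### Decoding graphs -/

/-- A tree as a list of trees. -/
def asList : T → List T
  | .nil => []
  | .cons a b => a :: asList b

theorem toT_asList : ∀ t : T, toT (asList t) = t
  | .nil => rfl
  | .cons a b => by rw [asList, toT_cons, toT_asList b]; rfl

theorem PT_asList {f : α → T} (hf : PT f) : PT (fun a => asList (f a)) :=
  Comp.congr hf (fun _ => rfl) fun a => (toT_asList (f a)).symm

theorem asList_toT {β : Type*} [Rep β] (l : List β) : asList (toT l) = l.map toT := by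
  induction l with
  | nil => rfl
  | cons b l ih => rw [toT_cons, asList, ih]; rfl

/-- The length of a tree as a list. -/
def asNat (t : T) : ℕ := (asList t).length

theorem asNat_toT (n : ℕ) : asNat (toT n) = n := by
  induction n with
  | zero => rfl
  | succ n ih =>
    unfold asNat at ih ⊢
    rw [toT_succ, asList, List.length_cons, ih]

theorem PT_asNat {f : α → T} (hf : PT f) : PT (fun a => asNat (f a)) :=
  PT.length (PT_asList hf)

/-- A tree as a pair of trees. -/
def asPair (t : T) : T × T :=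
  T.casesOn (motive := fun _ => T × T) t (.nil, .nil) fun a b => (a, b)

theorem PT_asPair {f : α → T} (hf : PT f) : PT (fun a => asPair (f a)) :=
  PT.treeCases (g := fun _ a b => (a, b)) hf (PT.const _) PT.id.snd

theorem asPair_toT {β γ : Type*} [Rep β] [Rep γ] (p : β × γ) :
    asPair (toT p) = (toT p.1, toT p.2) := rfl

/-- The graph given by a tree. -/
def decG (t : T) : GraphInput :=
  ⟨asNat (asPair t).1, (asList (asPair t).2).map fun e => (asNat (asPair e).1, asNat (asPair e).2)⟩

theorem decG_toT (X : GraphInput) : decG (toT X) = X := by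
  obtain ⟨n, E⟩ := X
  have h : toT (⟨n, E⟩ : GraphInput) = .cons (toT n) (toT E) := rfl
  rw [h]
  unfold decG
  have h1 : asPair (.cons (toT n) (toT E)) = (toT n, toT E) := rfl
  rw [h1]
  congr 1
  · exact asNat_toT n
  · rw [asList_toT, List.map_map]
    conv_rhs => rw [← List.map_id E]
    apply List.map_congr_left
    intro e _
    simp only [comp_apply, asPair_toT, asNat_toT, id_eq]

theorem PT_decG {f : α → T} (hf : PT f) : PT (fun a => decG (f a)) := by
  have h1 : PT (fun a => (asNat (asPair (f a)).1, (asList (asPair (f a)).2).map fun e =>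
      (asNat (asPair e).1, asNat (asPair e).2))) :=
    PT.pair (PT_asNat (PT_asPair hf).fst) (PT.map (PT_asList (PT_asPair hf).snd)
      (PT.pair (PT_asNat (PT_asPair PT.id.snd).fst) (PT_asNat (PT_asPair PT.id.snd).snd)))
  exact h1

/-- The graph given by a word. -/
def decX (x : List Bool) : GraphInput := decG ((parse x).2.headD .nil)

/-- The word is the encoding of a graph. -/
def valid (x : List Bool) : Bool := decide (parse x = (true, [toT (decX x)]))

theorem valid_encode (X : GraphInput) : valid (encode X) = true ∧ decX (encode X) = X := by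
  have h : parse (encode X) = (true, [toT X]) := parse_enc_one _
  have h2 : decX (encode X) = X := by
    unfold decX
    rw [h]
    exact decG_toT X
  refine ⟨?_, h2⟩
  unfold valid
  rw [h, h2]
  exact decide_eq_true rfl

theorem encode_of_valid {x : List Bool} (h : valid x = true) : encode (decX x) = x := by
  have h1 := parse_true x _ (of_decide_eq_true h)
  conv_rhs => rw [h1]
  simp [encode]

theorem PT_headD {β : Type*} [Rep β] {l : α → List β} {d : β} (hl : PT l) :
    PT (fun a => (l a).headD d) :=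
  (PT.getD (PT.head? hl) (PT.const d)).congr fun a => by cases l a <;> rfl

theorem PT_decX {f : α → List Bool} (hf : PT f) : PT (fun a => decX (f a)) :=
  PT_decG (PT_headD (PT_parse hf).snd)

theorem PT_valid {f : α → List Bool} (hf : PT f) : PT (fun a => valid (f a)) := by
  refine PT.eq (f := fun a => parse (f a)) (g := fun a => (true, [toT (decX (f a))]))
    (PT_parse hf) (PT.pair (PT.const true) (PT.cons ?_ (PT.const [])))
  exact PT_decX hf

/-! ### Writing graphs -/

/-- One step of the output of a tree. -/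
def wstep (s : List Bool × List T) : List Bool × List T :=
  List.casesOn (motive := fun _ => List Bool × List T) s.2 s fun t r =>
    T.casesOn (motive := fun _ => List Bool × List T) t (false :: s.1, r) fun a b =>
      (true :: s.1, a :: b :: r)

theorem wstep_iter (t : T) : ∀ (o : List Bool) (r : List T),
    wstep^[t.size] (o, t :: r) = (t.enc.reverse ++ o, r) := by
  induction t with
  | nil => intro o r; rfl
  | cons a b iha ihb =>
    intro o r
    have e : (T.cons a b).size = b.size + (a.size + 1) := by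
      show a.size + b.size + 1 = _
      ring
    rw [e, Function.iterate_add_apply, Function.iterate_succ_apply]
    show wstep^[b.size] (wstep^[a.size] (true :: o, a :: b :: r)) = _
    rw [iha, ihb]
    simp [T.enc]

theorem sz_wstep (s : List Bool × List T) : sz (wstep s) ≤ sz s + 4 := by
  obtain ⟨o, r⟩ := s
  rcases r with _ | ⟨t, r⟩
  · show sz (o, ([] : List T)) ≤ _
    omega
  · cases t with
    | nil =>
      show sz (false :: o, r) ≤ _
      simp only [sz_pair, sz_cons, sz_false]
      omega
    | cons a b =>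
      show sz (true :: o, a :: b :: r) ≤ _
      simp only [sz_pair, sz_cons, sz_true]
      have : sz (T.cons a b) = sz a + sz b + 1 := rfl
      omega

theorem PT_enc {f : α → T} (hf : PT f) : PT (fun a => (f a).enc) := by
  have hle : ∀ (m : ℕ) (s : List Bool × List T), sz (wstep^[m] s) ≤ sz s + 4 * m := by
    intro m
    induction m with
    | zero => intro s; exact le_rfl
    | succ m ih =>
      intro s
      rw [iterate_succ_apply]
      have h1 := ih (wstep s)
      have h2 := sz_wstep s
      omega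
  have h1 : PT (fun a => wstep^[sz (f a)] (([] : List Bool), [f a])) := by
    refine PT.iterSize (g := fun _ s => wstep s)
      (f := fun a => (([] : List Bool), [f a])) hf
      (PT.pair (PT.const []) (PT.cons hf (PT.const []))) ?_
      (B := fun a => 5 * sz (f a) + 4)
      (((Bdd.const 5).mul hf.bdd).add (Bdd.const 4)) ?_
    · refine PT.listCases (l := fun p : α × (List Bool × List T) => p.2.2)
        (f := fun p => p.2)
        (g := fun p t r => T.casesOn (motive := fun _ => List Bool × List T) t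
          (false :: p.2.1, r) fun a b => (true :: p.2.1, a :: b :: r)) PT.id.snd.snd
        PT.id.snd ?_
      refine PT.treeCases (t := fun q : (α × (List Bool × List T)) × (T × List T) => q.2.1)
        (f := fun q => (false :: q.1.2.1, q.2.2))
        (g := fun q a b => (true :: q.1.2.1, a :: b :: q.2.2)) PT.id.snd.fst
        (PT.pair (PT.cons (PT.const false) PT.id.fst.snd.fst) PT.id.snd.snd)
        (PT.pair (PT.cons (PT.const true) PT.id.fst.fst.snd.fst)
          (PT.cons PT.id.snd.fst (PT.cons PT.id.snd.snd PT.id.fst.snd.snd)))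
    · intro a m hm
      refine (hle m _).trans ?_
      simp only [sz_pair, sz_cons, sz_nil]
      omega
  refine (PT.reverse h1.fst).congr fun a => ?_
  have h2 := wstep_iter (f a) [] []
  have h3 : sz (f a) = (f a).size := rfl
  rw [h3, h2]
  simp

/-- The encoding of graphs as words, as a function in `PT`. -/
theorem PT_encodeG {f : α → GraphInput} (hf : PT f) : PT (fun a => encode (f a)) := by
  have h : PT (fun a => toT (f a)) := hf
  exact PT_enc h

end Pool.Agent.MP_c07eba.Mem
end
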