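import Pool.Agent.Lib.MP_c07eba_lc.Mem2
import Pool.Agent.Lib.MP_c07eba_lc.Four

/-!
# `LP_k` belongs to `Π₂ᵖ`

List-assignments and packings are given by tables of bits.
-/

namespace Pool.Agent.MP_c07eba.Mem

open Pool.Agent.PolyTime Pool.Agent.CookLevin Turing Function Polynomial

/-- Inputs of the verifier: a graph and two words. -/
abbrev Inp : Type := GraphInput × (List Bool × List Bool)

/-- The number of colours. -/
def nc (k : ℕ) (a : Inp) : ℕ := k * a.1.n

/-- The colour `c` is in the list of `v`. -/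
def yb (k : ℕ) (a : Inp) (v c : ℕ) : Bool := a.2.1.getD (v * nc k a + c) false

/-- The vertex `v` has the colour `c` in the colouring `i`. -/
def zb (k : ℕ) (a : Inp) (i v c : ℕ) : Bool :=
  a.2.2.getD ((i * a.1.n + v) * nc k a + c) false

/-- The first word gives a `k`-list-assignment. -/
def goodY (k : ℕ) (a : Inp) : Bool :=
  (List.range a.1.n).all fun v =>
    decide (((List.range (nc k a)).filter fun c => yb k a v c).length = k)

/-- Every vertex has a colour from its list in every colouring. -/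
def chk1 (k : ℕ) (a : Inp) : Bool :=
  (List.range k).all fun i => (List.range a.1.n).all fun v =>
    ((List.range (nc k a)).any fun c => zb k a i v c) &&
      (List.range (nc k a)).all fun c => !zb k a i v c || yb k a v c

/-- The colourings are proper. -/
def chk2 (k : ℕ) (a : Inp) : Bool :=
  a.1.edges.all fun e =>
    (decide (e.1 = e.2) || (decide (a.1.n ≤ e.1) || decide (a.1.n ≤ e.2))) ||
      (List.range k).all fun i => (List.range (nc k a)).all fun c =>
        !(zb k a i e.1 c && zb k a i e.2 c)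

/-- The colourings are disjoint. -/
def chk3 (k : ℕ) (a : Inp) : Bool :=
  (List.range k).all fun i => (List.range k).all fun j =>
    decide (i = j) || (List.range a.1.n).all fun v => (List.range (nc k a)).all fun c =>
      !(zb k a i v c && zb k a j v c)

/-- The verifier for graphs. -/
def ver (k : ℕ) (a : Inp) : Bool := !goodY k a || (chk1 k a && (chk2 k a && chk3 k a))

/-! ### The verifier is computable in polynomial time -/

section PT
universe u
variable {α : Type u} [Rep α] (k : ℕ)

theorem PT_n {f : α → GraphInput} (hf : PT f) : PT (fun a => (f a).n) := by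
  have h : PT (fun a => ((f a).n, (f a).edges)) := hf
  exact h.fst

theorem PT_edges {f : α → GraphInput} (hf : PT f) : PT (fun a => (f a).edges) := by
  have h : PT (fun a => ((f a).n, (f a).edges)) := hf
  exact h.snd

theorem PT_nc {f : α → Inp} (hf : PT f) : PT (fun a => nc k (f a)) :=
  PT.mul (PT.const k) (PT_n hf.fst)

theorem PT_yb {f : α → Inp} {v c : α → ℕ} (hf : PT f) (hv : PT v) (hc : PT c) :
    PT (fun a => yb k (f a) (v a) (c a)) :=
  PT.listGetD hf.snd.fst (PT.add (PT.mul hv (PT_nc k hf)) hc) (PT.const false)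

theorem PT_zb {f : α → Inp} {i v c : α → ℕ} (hf : PT f) (hi : PT i) (hv : PT v) (hc : PT c) :
    PT (fun a => zb k (f a) (i a) (v a) (c a)) :=
  PT.listGetD hf.snd.snd (PT.add (PT.mul (PT.add (PT.mul hi (PT_n hf.fst)) hv) (PT_nc k hf)) hc)
    (PT.const false)

theorem PT_goodY : PT (goodY k) := by
  refine PT.all (l := fun a : Inp => List.range a.1.n)
    (g := fun a v => decide (((List.range (nc k a)).filter fun c => yb k a v c).length = k))
    (PT.range (PT_n PT.id.fst)) ?_
  refine PT.natEq (PT.length ?_) (PT.const k)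
  refine PT.filter (l := fun p : Inp × ℕ => List.range (nc k p.1))
    (g := fun p c => yb k p.1 p.2 c) (PT.range (PT_nc k PT.id.fst)) ?_
  exact PT_yb k PT.id.fst.fst PT.id.fst.snd PT.id.snd

theorem PT_chk1 : PT (chk1 k) := by
  refine PT.all (l := fun _ : Inp => List.range k)
    (g := fun a i => (List.range a.1.n).all fun v =>
      ((List.range (nc k a)).any fun c => zb k a i v c) &&
        (List.range (nc k a)).all fun c => !zb k a i v c || yb k a v c) (PT.const _) ?_
  refine PT.all (l := fun p : Inp × ℕ => List.range p.1.1.n)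
    (g := fun p v => ((List.range (nc k p.1)).any fun c => zb k p.1 p.2 v c) &&
        (List.range (nc k p.1)).all fun c => !zb k p.1 p.2 v c || yb k p.1 v c)
    (PT.range (PT_n PT.id.fst.fst)) ?_
  refine PT.and ?_ ?_
  · refine PT.any (l := fun q : (Inp × ℕ) × ℕ => List.range (nc k q.1.1))
      (g := fun q c => zb k q.1.1 q.1.2 q.2 c) (PT.range (PT_nc k PT.id.fst.fst)) ?_
    exact PT_zb k PT.id.fst.fst.fst PT.id.fst.fst.snd PT.id.fst.snd PT.id.snd
  · refine PT.all (l := fun q : (Inp × ℕ) × ℕ => List.range (nc k q.1.1))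
      (g := fun q c => !zb k q.1.1 q.1.2 q.2 c || yb k q.1.1 q.2 c)
      (PT.range (PT_nc k PT.id.fst.fst)) ?_
    exact PT.or (PT.not (PT_zb k PT.id.fst.fst.fst PT.id.fst.fst.snd PT.id.fst.snd PT.id.snd))
      (PT_yb k PT.id.fst.fst.fst PT.id.fst.snd PT.id.snd)

theorem PT_chk2 : PT (chk2 k) := by
  refine PT.all (l := fun a : Inp => a.1.edges)
    (g := fun a e => (decide (e.1 = e.2) || (decide (a.1.n ≤ e.1) || decide (a.1.n ≤ e.2))) ||
      (List.range k).all fun i => (List.range (nc k a)).all fun c =>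
        !(zb k a i e.1 c && zb k a i e.2 c)) (PT_edges PT.id.fst) ?_
  refine PT.or (PT.or (PT.natEq PT.id.snd.fst PT.id.snd.snd) (PT.or
    (PT.le (PT_n PT.id.fst.fst) PT.id.snd.fst) (PT.le (PT_n PT.id.fst.fst) PT.id.snd.snd))) ?_
  refine PT.all (l := fun _ : Inp × (ℕ × ℕ) => List.range k)
    (g := fun p i => (List.range (nc k p.1)).all fun c =>
        !(zb k p.1 i p.2.1 c && zb k p.1 i p.2.2 c)) (PT.const _) ?_
  refine PT.all (l := fun q : (Inp × (ℕ × ℕ)) × ℕ => List.range (nc k q.1.1))
    (g := fun q c => !(zb k q.1.1 q.2 q.1.2.1 c && zb k q.1.1 q.2 q.1.2.2 c))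
    (PT.range (PT_nc k PT.id.fst.fst)) ?_
  exact PT.not (PT.and (PT_zb k PT.id.fst.fst.fst PT.id.fst.snd PT.id.fst.fst.snd.fst PT.id.snd)
    (PT_zb k PT.id.fst.fst.fst PT.id.fst.snd PT.id.fst.fst.snd.snd PT.id.snd))

theorem PT_chk3 : PT (chk3 k) := by
  refine PT.all (l := fun _ : Inp => List.range k)
    (g := fun a i => (List.range k).all fun j =>
      decide (i = j) || (List.range a.1.n).all fun v => (List.range (nc k a)).all fun c =>
        !(zb k a i v c && zb k a j v c)) (PT.const _) ?_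
  refine PT.all (l := fun _ : Inp × ℕ => List.range k)
    (g := fun p j =>
      decide (p.2 = j) || (List.range p.1.1.n).all fun v => (List.range (nc k p.1)).all fun c =>
        !(zb k p.1 p.2 v c && zb k p.1 j v c)) (PT.const _) ?_
  refine PT.or (PT.natEq PT.id.fst.snd PT.id.snd) ?_
  refine PT.all (l := fun q : (Inp × ℕ) × ℕ => List.range q.1.1.1.n)
    (g := fun q v => (List.range (nc k q.1.1)).all fun c =>
        !(zb k q.1.1 q.1.2 v c && zb k q.1.1 q.2 v c)) (PT.range (PT_n PT.id.fst.fst.fst)) ?_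
  refine PT.all (l := fun r : ((Inp × ℕ) × ℕ) × ℕ => List.range (nc k r.1.1.1))
    (g := fun r c => !(zb k r.1.1.1 r.1.1.2 r.2 c && zb k r.1.1.1 r.1.2 r.2 c))
    (PT.range (PT_nc k PT.id.fst.fst.fst)) ?_
  exact PT.not (PT.and
    (PT_zb k PT.id.fst.fst.fst.fst PT.id.fst.fst.fst.snd PT.id.fst.snd PT.id.snd)
    (PT_zb k PT.id.fst.fst.fst.fst PT.id.fst.fst.snd PT.id.fst.snd PT.id.snd))

theorem PT_ver : PT (ver k) :=
  PT.or (PT.not (PT_goodY k)) (PT.and (PT_chk1 k) (PT.and (PT_chk2 k) (PT_chk3 k)))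

end PT

/-! ### Correctness of the verifier -/

section correct
variable {k : ℕ}

theorem chk1_iff {a : Inp} : chk1 k a = true ↔ ∀ i < k, ∀ v < a.1.n,
    (∃ c < nc k a, zb k a i v c = true) ∧ ∀ c < nc k a, zb k a i v c = true → yb k a v c = true := by
  simp only [chk1, List.all_eq_true, List.mem_range, Bool.and_eq_true, List.any_eq_true,
    Bool.or_eq_true, Bool.not_eq_true']
  refine forall_congr' fun i => forall_congr' fun _ => forall_congr' fun v =>
    forall_congr' fun _ => and_congr_right fun _ => forall_congr' fun c =>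
    forall_congr' fun _ => ?_
  cases zb k a i v c <;> simp

theorem chk2_iff {a : Inp} : chk2 k a = true ↔ ∀ e ∈ a.1.edges, e.1 ≠ e.2 → e.1 < a.1.n →
    e.2 < a.1.n → ∀ i < k, ∀ c < nc k a, ¬ (zb k a i e.1 c = true ∧ zb k a i e.2 c = true) := by
  simp only [chk2, List.all_eq_true, List.mem_range, Bool.or_eq_true, decide_eq_true_eq,
    Bool.not_eq_true', Bool.and_eq_false_iff]
  refine forall_congr' fun e => forall_congr' fun _ => ?_
  constructor
  · rintro ((h | h | h) | h) h1 h2 h3
    · exact absurd h h1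
    · omega
    · omega
    · intro i hi c hc hz
      rcases h i hi c hc with h' | h'
      · rw [hz.1] at h'
        exact absurd h' (by simp)
      · rw [hz.2] at h'
        exact absurd h' (by simp)
  · intro h
    by_cases h1 : e.1 = e.2
    · exact Or.inl (Or.inl h1)
    by_cases h2 : a.1.n ≤ e.1
    · exact Or.inl (Or.inr (Or.inl h2))
    by_cases h3 : a.1.n ≤ e.2
    · exact Or.inl (Or.inr (Or.inr h3))
    right
    intro i hi c hc
    have h4 := h h1 (not_le.1 h2) (not_le.1 h3) i hi c hc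
    cases h5 : zb k a i e.1 c
    · exact Or.inl rfl
    · right
      cases h6 : zb k a i e.2 c
      · rfl
      · exact absurd ⟨h5, h6⟩ h4

theorem chk3_iff {a : Inp} : chk3 k a = true ↔ ∀ i < k, ∀ j < k, i ≠ j → ∀ v < a.1.n,
    ∀ c < nc k a, ¬ (zb k a i v c = true ∧ zb k a j v c = true) := by
  simp only [chk3, List.all_eq_true, List.mem_range, Bool.or_eq_true, decide_eq_true_eq,
    Bool.not_eq_true', Bool.and_eq_false_iff]
  refine forall_congr' fun i => forall_congr' fun _ => forall_congr' fun j =>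
    forall_congr' fun _ => ?_
  constructor
  · rintro (h | h) h1 v hv c hc hz
    · exact absurd h h1
    · rcases h v hv c hc with h' | h'
      · rw [hz.1] at h'
        exact absurd h' (by simp)
      · rw [hz.2] at h'
        exact absurd h' (by simp)
  · intro h
    by_cases h1 : i = j
    · exact Or.inl h1
    right
    intro v hv c hc
    have h4 := h h1 v hv c hc
    cases h5 : zb k a i v c
    · exact Or.inl rfl
    · right
      cases h6 : zb k a j v c
      · rfl
      · exact absurd ⟨h5, h6⟩ h4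

/-- The lists given by a table. -/
def lst (k : ℕ) (a : Inp) (v : ℕ) : Finset ℕ :=
  (Finset.range (nc k a)).filter fun c => yb k a v c = true

theorem card_lst (a : Inp) (v : ℕ) :
    (lst k a v).card = ((List.range (nc k a)).filter fun c => yb k a v c).length := by
  have h : lst k a v = ((List.range (nc k a)).filter fun c => yb k a v c).toFinset := by
    ext c
    simp [lst]
  rw [h, List.toFinset_card_of_nodup (List.nodup_range.filter _)]

theorem goodY_iff {a : Inp} : goodY k a = true ↔ ∀ v < a.1.n, (lst k a v).card = k := by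
  simp only [goodY, List.all_eq_true, List.mem_range, decide_eq_true_eq, card_lst]

/-- If there are packings, then every table of lists has a table of a packing. -/
theorem exists_z {X : GraphInput} (h : Packable X.graph k) (y : List Bool) {q : ℕ}
    (hq : k * X.n * (k * X.n) ≤ q) : ∃ z : List Bool, z.length = q ∧ ver k (X, (y, z)) = true := by
  by_cases hg : goodY k (X, (y, [])) = true
  swap
  · refine ⟨List.replicate q false, List.length_replicate, ?_⟩
    have : goodY k (X, (y, List.replicate q false)) = goodY k (X, (y, [])) := rfl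
    unfold ver
    rw [this]
    simp [hg]
  have hL : ∀ v : Fin X.n, (lst k (X, (y, [])) v).card = k := fun v =>
    goodY_iff.1 hg v v.isLt
  obtain ⟨c, hc1, hc2, hc3⟩ := h (fun v => lst k (X, (y, [])) v) hL
  -- the table
  let K := k * X.n
  let z : List Bool := (List.range q).map fun m => decide (∃ i : Fin k, ∃ v : Fin X.n,
    m = ((i : ℕ) * X.n + v) * K + c i v)
  have hcK : ∀ i v, c i v < K := fun i v =>
    Finset.mem_range.1 (Finset.mem_filter.1 (hc1 i v)).1
  have hz : ∀ (i : Fin k) (v : Fin X.n) (d : ℕ), d < K →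
      (zb k (X, (y, z)) i v d = true ↔ c i v = d) := by
    intro i v d hd
    have hlt : ((i : ℕ) * X.n + v) * K + d < q := by
      have h1 : (i : ℕ) * X.n + v < k * X.n := by
        have h2 : ((i : ℕ) + 1) * X.n ≤ k * X.n := Nat.mul_le_mul_right _ i.isLt
        have h3 := v.isLt
        rw [Nat.add_mul] at h2
        omega
      have h2 : ((i : ℕ) * X.n + v + 1) * K ≤ k * X.n * K := Nat.mul_le_mul_right _ h1
      rw [Nat.add_mul] at h2
      have h3 : k * X.n * K ≤ q := hq
      omega
    show z.getD (((i : ℕ) * X.n + v) * K + d) false = true ↔ _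
    rw [List.getD_eq_getElem?_getD, List.getElem?_eq_getElem (by simpa [z] using hlt)]
    simp only [z, List.getElem_map, List.getElem_range, Option.getD_some, decide_eq_true_eq]
    constructor
    · rintro ⟨i', v', h'⟩
      have hK : 0 < K := by omega
      have e1 : (i : ℕ) * X.n + v = i' * X.n + v' := by
        have h1 : (((i : ℕ) * X.n + v) * K + d) / K = (i : ℕ) * X.n + v := by
          rw [mul_comm, Nat.mul_add_div hK, Nat.div_eq_of_lt hd, add_zero]
        have h2 : (((i' : ℕ) * X.n + v') * K + c i' v') / K = (i' : ℕ) * X.n + v' := by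
          rw [mul_comm, Nat.mul_add_div hK, Nat.div_eq_of_lt (hcK _ _), add_zero]
        rw [← h1, h', h2]
      have hn : 0 < X.n := lt_of_le_of_lt (Nat.zero_le _) v.isLt
      have e2 : (i : ℕ) = i' := by
        have h1 : ((i : ℕ) * X.n + v) / X.n = i := by
          rw [mul_comm, Nat.mul_add_div hn, Nat.div_eq_of_lt v.isLt, add_zero]
        have h2 : ((i' : ℕ) * X.n + v') / X.n = i' := by
          rw [mul_comm, Nat.mul_add_div hn, Nat.div_eq_of_lt v'.isLt, add_zero]
        rw [← h1, e1, h2]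
      have e3 : (v : ℕ) = v' := by
        rw [e2] at e1
        omega
      obtain rfl : i = i' := Fin.ext e2
      obtain rfl : v = v' := Fin.ext e3
      omega
    · rintro rfl
      exact ⟨i, v, rfl⟩
  refine ⟨z, by simp [z], ?_⟩
  unfold ver
  rw [Bool.or_eq_true]
  right
  rw [Bool.and_eq_true, Bool.and_eq_true]
  refine ⟨chk1_iff.2 fun i hi v hv => ⟨?_, ?_⟩, chk2_iff.2 fun e he h1 h2 h3 i hi d hd => ?_,
    chk3_iff.2 fun i hi j hj hij v hv d hd => ?_⟩
  · exact ⟨c ⟨i, hi⟩ ⟨v, hv⟩, hcK _ _, (hz ⟨i, hi⟩ ⟨v, hv⟩ _ (hcK _ _)).2 rfl⟩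
  · intro d hd hzd
    have h1 := (hz ⟨i, hi⟩ ⟨v, hv⟩ d hd).1 hzd
    have h2 := hc1 ⟨i, hi⟩ ⟨v, hv⟩
    rw [h1] at h2
    exact (Finset.mem_filter.1 h2).2
  · rintro ⟨z1, z2⟩
    have h4 := (hz ⟨i, hi⟩ ⟨e.1, h2⟩ d hd).1 z1
    have h5 := (hz ⟨i, hi⟩ ⟨e.2, h3⟩ d hd).1 z2
    refine hc2 ⟨i, hi⟩ ⟨e.1, h2⟩ ⟨e.2, h3⟩ ⟨fun h => h1 (congrArg Fin.val h), Or.inl he⟩ ?_
    rw [h4, h5]
  · rintro ⟨z1, z2⟩
    have h4 := (hz ⟨i, hi⟩ ⟨v, hv⟩ d hd).1 z1
    have h5 := (hz ⟨j, hj⟩ ⟨v, hv⟩ d hd).1 z2
    exact hc3 ⟨i, hi⟩ ⟨j, hj⟩ (fun h => hij (congrArg Fin.val h)) ⟨v, hv⟩ (h4.trans h5.symm)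

/-- If every table of lists has a table of a packing, then there are packings. -/
theorem packable_of_ver {X : GraphInput} {p : ℕ} (hp : X.n * (k * X.n) ≤ p)
    (h : ∀ y : List Bool, y.length = p → ∃ z : List Bool, ver k (X, (y, z)) = true) :
    Packable X.graph k := by
  classical
  intro L hL
  -- rename the colours
  let U : Finset ℕ := Finset.univ.biUnion L
  have hU : U.card ≤ k * X.n := by
    refine (Finset.card_biUnion_le).trans ?_
    simp [hL, mul_comm]
  let φ : ℕ → ℕ := fun c => if h : c ∈ U then (U.equivFin ⟨c, h⟩ : ℕ) else 0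
  have hφ : ∀ c ∈ U, φ c < k * X.n := by
    intro c hc
    show (if h : c ∈ U then (U.equivFin ⟨c, h⟩ : ℕ) else 0) < _
    rw [dif_pos hc]
    exact lt_of_lt_of_le (U.equivFin ⟨c, hc⟩).isLt hU
  have hφi : ∀ c ∈ U, ∀ d ∈ U, φ c = φ d → c = d := by
    intro c hc d hd hcd
    have hcd' : (if h : c ∈ U then (U.equivFin ⟨c, h⟩ : ℕ) else 0) =
      (if h : d ∈ U then (U.equivFin ⟨d, h⟩ : ℕ) else 0) := hcd
    rw [dif_pos hc, dif_pos hd] at hcd'
    exact congrArg Subtype.val (U.equivFin.injective (Fin.ext hcd'))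
  have hLU : ∀ v, ∀ c ∈ L v, c ∈ U := fun v c hc =>
    Finset.mem_biUnion.2 ⟨v, Finset.mem_univ _, hc⟩
  let K := k * X.n
  let y : List Bool := (List.range p).map fun m => decide (∃ v : Fin X.n, ∃ c ∈ L v,
    m = (v : ℕ) * K + φ c)
  have hy : ∀ (z : List Bool) (v : Fin X.n) (d : ℕ), d < K →
      (yb k (X, (y, z)) v d = true ↔ ∃ c ∈ L v, φ c = d) := by
    intro z v d hd
    have hlt : (v : ℕ) * K + d < p := by
      have h2 : ((v : ℕ) + 1) * K ≤ X.n * K := Nat.mul_le_mul_right _ v.isLt
      rw [Nat.add_mul] at h2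
      have h3 : X.n * K ≤ p := hp
      omega
    show y.getD ((v : ℕ) * K + d) false = true ↔ _
    rw [List.getD_eq_getElem?_getD, List.getElem?_eq_getElem (by simpa [y] using hlt)]
    simp only [y, List.getElem_map, List.getElem_range, Option.getD_some, decide_eq_true_eq]
    constructor
    · rintro ⟨v', c, hc, h'⟩
      have hK : 0 < K := by omega
      have e1 : (v : ℕ) = v' := by
        have h1 : ((v : ℕ) * K + d) / K = v := by
          rw [mul_comm, Nat.mul_add_div hK, Nat.div_eq_of_lt hd, add_zero]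
        have h2 : ((v' : ℕ) * K + φ c) / K = v' := by
          rw [mul_comm, Nat.mul_add_div hK, Nat.div_eq_of_lt (hφ c (hLU _ c hc)), add_zero]
        rw [← h1, h', h2]
      obtain rfl : v = v' := Fin.ext e1
      exact ⟨c, hc, by omega⟩
    · rintro ⟨c, hc, rfl⟩
      exact ⟨v, c, hc, rfl⟩
  obtain ⟨z, hz⟩ := h y (by simp [y])
  have hg : goodY k (X, (y, z)) = true := by
    rw [goodY_iff]
    intro v hv
    have e : lst k (X, (y, z)) v = (L ⟨v, hv⟩).image φ := by
      ext d
      simp only [lst, Finset.mem_filter, Finset.mem_range, Finset.mem_image]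
      constructor
      · rintro ⟨h1, h2⟩
        exact (hy z ⟨v, hv⟩ d h1).1 h2
      · rintro ⟨c, hc, rfl⟩
        have h1 : φ c < K := hφ c (hLU _ c hc)
        exact ⟨h1, (hy z ⟨v, hv⟩ _ h1).2 ⟨c, hc, rfl⟩⟩
    rw [e, Finset.card_image_of_injOn, hL]
    intro c hc d hd hcd
    exact hφi c (hLU _ c hc) d (hLU _ d hd) hcd
  unfold ver at hz
  rw [hg, Bool.not_true, Bool.false_or, Bool.and_eq_true, Bool.and_eq_true] at hz
  obtain ⟨z1, z2, z3⟩ := hz
  have z1' := chk1_iff.1 z1
  have z2' := chk2_iff.1 z2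
  have z3' := chk3_iff.1 z3
  have hex : ∀ (i : Fin k) (v : Fin X.n), ∃ c ∈ L v, zb k (X, (y, z)) i v (φ c) = true := by
    intro i v
    obtain ⟨⟨d, hd, h1⟩, h2⟩ := z1' i i.isLt v v.isLt
    obtain ⟨c, hc, rfl⟩ := (hy z v d hd).1 (h2 d hd h1)
    exact ⟨c, hc, h1⟩
  choose c hc1 hc2 using hex
  have hcK : ∀ i v, φ (c i v) < K := fun i v => hφ _ (hLU _ _ (hc1 i v))
  refine ⟨c, hc1, fun i u v huv he => ?_, fun i j hij v he => ?_⟩
  · have hu := hc2 i u
    have hv := hc2 i v
    have hne : (u : ℕ) ≠ v := fun h => huv.1 (Fin.ext h)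
    rw [← he] at hv
    rcases huv.2 with h1 | h1
    · exact z2' _ h1 hne u.isLt v.isLt i i.isLt _ (hcK i u) ⟨hu, hv⟩
    · exact z2' _ h1 hne.symm v.isLt u.isLt i i.isLt _ (hcK i u) ⟨hv, hu⟩
  · have hi := hc2 i v
    have hj := hc2 j v
    rw [← he] at hj
    exact z3' i i.isLt j j.isLt (fun h => hij (Fin.ext h)) v v.isLt _ (hcK i v) ⟨hi, hj⟩

end correct

/-! ### Membership -/

open Classical in
/-- The problem `LP_k` as a language: the encodings of the graphs with list packing number at
most `k`. -/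
noncomputable def lpLang (k : ℕ) (x : List Bool) : Bool :=
  decide (∃ X : GraphInput, encode X = x ∧ LP k X)

theorem lpLang_iff {k : ℕ} {x : List Bool} :
    lpLang k x = true ↔ ∃ X : GraphInput, encode X = x ∧ LP k X := by
  simp [lpLang]

theorem lpLang_encode {k : ℕ} (X : GraphInput) : lpLang k (encode X) = true ↔ LP k X := by
  rw [lpLang_iff]
  constructor
  · rintro ⟨Y, hY, h⟩
    rwa [← encode_injective hY]
  · exact fun h => ⟨X, rfl, h⟩

/-- The verifier. -/
def rver (k : ℕ) (a : List Bool × (List Bool × List Bool)) : Bool :=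
  valid a.1 && ver k (decX a.1, a.2)

theorem PT_rver (k : ℕ) : PT (rver k) :=
  PT.and (PT_valid PT.id.fst) (PT.comp (g := ver k) (PT_ver k) (PT.pair (PT_decX PT.id.fst)
    PT.id.snd))

theorem n_le_length (X : GraphInput) : X.n ≤ (encode X).length := by
  rw [length_encode]
  have h : sz X = sz X.n + sz X.edges + 1 := rfl
  rw [h, sz_nat]
  omega

section
variable {k : ℕ} (hk : 0 < k) (x : List Bool)
include hk

theorem lpLang_of {p q : ℕ} (hp : p = k * (x.length * x.length))
    (h : ∀ y : List Bool, y.length = p → ∃ z : List Bool, z.length ≤ q ∧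
      rver k (x, (y, z)) = true) : lpLang k x = true := by
  have hv : valid x = true := by
    obtain ⟨z, -, hz⟩ := h (List.replicate p false) List.length_replicate
    exact (Bool.and_eq_true _ _ ▸ hz : _ ∧ _).1
  have e := encode_of_valid hv
  rw [← e, lpLang_encode, AR.lp_iff hk]
  have hn : (decX x).n ≤ x.length := by
    conv_rhs => rw [← e]
    exact n_le_length _
  refine packable_of_ver (p := p) ?_ fun y hy => ?_
  · rw [hp]
    calc (decX x).n * (k * (decX x).n) = k * ((decX x).n * (decX x).n) := by ring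
      _ ≤ _ := Nat.mul_le_mul_left _ (Nat.mul_le_mul hn hn)
  · obtain ⟨z, -, hz⟩ := h y hy
    exact ⟨z, (Bool.and_eq_true _ _ ▸ hz : _ ∧ _).2⟩

theorem of_lpLang (hx : lpLang k x = true) {q : ℕ} (hq : q = k * x.length * (k * x.length))
    (y : List Bool) : ∃ z : List Bool, z.length = q ∧ rver k (x, (y, z)) = true := by
  obtain ⟨X, rfl, hX⟩ := lpLang_iff.1 hx
  rw [AR.lp_iff hk] at hX
  obtain ⟨hv, hd⟩ := valid_encode X
  have hn := n_le_length X
  have h1 : k * X.n ≤ k * (encode X).length := Nat.mul_le_mul_left _ hn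
  obtain ⟨z, hz1, hz2⟩ := exists_z hX y (q := q) (by
    rw [hq]
    exact Nat.mul_le_mul h1 h1)
  refine ⟨z, hz1, ?_⟩
  show (valid (encode X) && ver k (decX (encode X), (y, z))) = true
  rw [hv, hd, hz2]
  rfl

end

/-- `LP_k` is in `Π₂ᵖ`. -/
theorem lpLang_mem {k : ℕ} (hk : 0 < k) : lpLang k ∈ Pi2P := by
  refine ⟨C k * (X * X), C k * X * (C k * X), rver k, isPolyTime_of_PT (PT_rver k), fun x => ?_⟩
  constructor
  · intro hx y _
    exact of_lpLang hk x hx (by simp) y
  · intro h
    refine lpLang_of hk x (p := (C k * (X * X) : Polynomial ℕ).eval x.length)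
      (q := (C k * X * (C k * X) : Polynomial ℕ).eval x.length) (by simp) fun y hy => ?_
    obtain ⟨z, h1, h2⟩ := h y hy
    exact ⟨z, h1.le, h2⟩

/-- `LP_k` is in `Π₂ᵖ`, in the form with words of bounded lengths. -/
theorem lpLang_mem_le {k : ℕ} (hk : 0 < k) : lpLang k ∈ Pi2Ple := by
  refine ⟨C k * (X * X), C k * X * (C k * X), rver k, isPolyTime_of_PT (PT_rver k), fun x => ?_⟩
  constructor
  · intro hx y _
    obtain ⟨z, h1, h2⟩ := of_lpLang hk x hx
      (q := (C k * X * (C k * X) : Polynomial ℕ).eval x.length) (by simp) y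
    exact ⟨z, h1.le, h2⟩
  · intro h
    refine lpLang_of hk x (p := (C k * (X * X) : Polynomial ℕ).eval x.length)
      (q := (C k * X * (C k * X) : Polynomial ℕ).eval x.length) (by simp) fun y hy => ?_
    exact h y hy.le

end Pool.Agent.MP_c07eba.Mem
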